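import Pool.Agent.X55.Fam.Trans

set_option autoImplicit false

/-! # The two sieve theorems for a family of size `T`, in terms of its level -/

namespace Pool.Agent.X55.Fam

open Finset Filter Polynomial
open Pool.Agent.H373R2.T7

lemma Equi.mono {X X' : ℕ} {Ω : Finset ℕ} {v : ℕ → ℕ} {A : ℝ} (h : Equi X Ω v A) (hX : X' ≤ X) (h0 : 1 ≤ X')
    (hA : 0 ≤ A) : Equi X' Ω v A := by
  intro d hd hdX r
  refine (h d hd (hdX.trans hX) r).trans ?_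
  have h1 : (1 : ℝ) ≤ X' := by exact_mod_cast h0
  have h2 : (X' : ℝ) ≤ X := by exact_mod_cast hX
  gcongr

lemma floor_big (δ₀ : ℝ) (hδ₀ : 0 < δ₀) (m : ℕ) : ∃ T₀ : ℕ, ∀ T : ℕ, T₀ ≤ T →
    m ≤ ⌊(T : ℝ) ^ δ₀⌋₊ ∧ (T : ℝ) ^ (δ₀ / 2) ≤ ⌊(T : ℝ) ^ δ₀⌋₊ ∧ 3 ≤ T := by
  obtain ⟨T1, hT1⟩ := floor_ge (4 * δ₀) (by linarith)
  obtain ⟨T2, hT2⟩ := eventually_atTop.mp ((tendsto_rpow_atTop hδ₀).eventually_ge_atTop (m : ℝ))
  refine ⟨max (max T1 3) ⌈T2⌉₊, fun T hT => ?_⟩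
  have h1 := hT1 T (((le_max_left _ _).trans (le_max_left _ _)).trans hT)
  have e1 : (4 * δ₀ / 8 : ℝ) = δ₀ / 2 := by ring
  have e2 : (4 * δ₀ / 4 : ℝ) = δ₀ := by ring
  rw [e1, e2] at h1
  refine ⟨Nat.le_floor (hT2 T ((Nat.le_ceil _).trans (by exact_mod_cast (le_max_right _ _).trans hT))), h1,
    ((le_max_right _ _).trans (le_max_left _ _)).trans hT⟩

open Classical in
/-- the family of the integers in `(M, M + H]` with the property `R` -/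
def EqR (X M H : ℕ) (R : ℕ → Prop) (N : ℝ) : Prop := Equi X ((Ioc M (M + H)).filter R) id N

lemma EqR.mono {X X' M H : ℕ} {R : ℕ → Prop} {N : ℝ} (h : EqR X M H R N) (hX : X' ≤ X) (h0 : 1 ≤ X')
    (hA : 0 ≤ N) : EqR X' M H R N := Equi.mono h hX h0 hA

lemma EqR.congr {X M H : ℕ} {R R' : ℕ → Prop} {N : ℝ} (h : EqR X M H R N) (hR : ∀ n, R n ↔ R' n) :
    EqR X M H R' N := by
  have : R = R' := funext fun n => propext (hR n)
  rwa [← this]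

section Poly

variable {k : ℕ} {f : Fin k → ℤ[X]}

/-- bounds for systems of polynomials -/
theorem both_of (h : Sys k f) (F : Fin k → ℕ → ℕ)
    (hF : ∀ (i : Fin k) (n : ℕ), ((f i).eval (n : ℤ)).natAbs = F i n) (δ₀ : ℝ) (hδ₀ : 0 < δ₀) (B : ℕ) :
    ∃ (r : ℕ) (δ c C : ℝ) (T₀ : ℕ), 0 < δ ∧ 0 < c ∧ 0 < C ∧ ∀ T : ℕ, T₀ ≤ T → ∀ (M H : ℕ) (R : ℕ → Prop) (N : ℝ),
    0 ≤ N → EqR ⌊(T : ℝ) ^ δ₀⌋₊ M H R N → Both F T r δ c C B M H R N := by
  classical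
  set B' : ℕ := ⌈2 * B / δ₀⌉₊ with hB'
  obtain ⟨r, K, X₀, c, C, hK, hc, hC, hb⟩ := fam_bounds h B'
  obtain ⟨T₁, hT₁⟩ := floor_big δ₀ hδ₀ (max X₀ 3)
  have hKr : (1 : ℝ) ≤ K := by exact_mod_cast hK
  refine ⟨r, δ₀ / 2 / K, c / max 1 (δ₀ ^ k), C / (δ₀ / 2) ^ k, T₁, by positivity, by positivity, by positivity, ?_⟩
  intro T hT M H R N hN0 hE
  obtain ⟨g1, g2, g3⟩ := hT₁ T hT
  set X := ⌊(T : ℝ) ^ δ₀⌋₊ with hXd
  have hX0 : X₀ ≤ X := (le_max_left _ _).trans g1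
  have hX3' : 3 ≤ X := (le_max_right _ _).trans g1
  have hTR : (3 : ℝ) ≤ T := by exact_mod_cast g3
  have hXr : (3 : ℝ) ≤ X := by exact_mod_cast hX3'
  have hXle : (X : ℝ) ≤ (T : ℝ) ^ δ₀ := Nat.floor_le (by positivity)
  have hlp : 0 < Real.log T := Real.log_pos (by linarith)
  have hlX : 0 < Real.log X := Real.log_pos (by linarith)
  have hl1 : Real.log X ≤ δ₀ * Real.log T := by
    have := Real.log_le_log (by linarith) hXle
    rwa [Real.log_rpow (by linarith)] at this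
  have hl2 : δ₀ / 2 * Real.log T ≤ Real.log X := by
    have := Real.log_le_log (by positivity) g2
    rwa [Real.log_rpow (by linarith)] at this
  obtain ⟨hlow, hup⟩ := hb X hX0 _ id N hN0 hE
  constructor
  · intro hMH
    have h1 := hlow (by
      intro j hj
      rw [mem_filter, mem_Ioc] at hj
      have h2 : ((j : ℕ) : ℝ) ≤ (X : ℝ) ^ B' := by
        calc ((j : ℕ) : ℝ) ≤ (T : ℝ) ^ B := by
              have : j ≤ T ^ B := by omega
              exact_mod_cast this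
          _ = (T : ℝ) ^ (B : ℝ) := (Real.rpow_natCast _ _).symm
          _ ≤ (T : ℝ) ^ (δ₀ / 2 * B') := by
              apply Real.rpow_le_rpow_of_exponent_le (by linarith)
              have h3 : 2 * B / δ₀ ≤ (B' : ℝ) := Nat.le_ceil _
              rw [div_le_iff₀ hδ₀] at h3
              linarith
          _ = ((T : ℝ) ^ (δ₀ / 2)) ^ B' := by
              rw [Real.rpow_mul (by linarith), Real.rpow_natCast]
          _ ≤ (X : ℝ) ^ B' := by gcongr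
      exact_mod_cast h2)
    have h2 : c / max 1 (δ₀ ^ k) * N / Real.log T ^ k ≤ c * N / Real.log X ^ k := by
      have h3 : Real.log X ^ k ≤ δ₀ ^ k * Real.log T ^ k := by
        rw [← mul_pow]
        exact pow_le_pow_left₀ hlX.le hl1 k
      have h4 : δ₀ ^ k ≤ max 1 (δ₀ ^ k) := le_max_right _ _
      have h5 : 0 < max 1 (δ₀ ^ k) := lt_of_lt_of_le one_pos (le_max_left _ _)
      rw [div_mul_eq_mul_div, div_div]
      apply div_le_div_of_nonneg_left (by positivity) (by positivity)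
      calc Real.log X ^ k ≤ δ₀ ^ k * Real.log T ^ k := h3
        _ ≤ max 1 (δ₀ ^ k) * Real.log T ^ k := by gcongr
    refine h2.trans (h1.trans ?_)
    rw [ncard_Ioc M H (fun n => R n ∧ ∀ i, Good r ((T : ℝ) ^ (δ₀ / 2 / K)) (F i n))]
    have h3 : ((Ioc M (M + H)).filter R).filter (fun n => ∀ i, ((f i).eval ((id n : ℕ) : ℤ)).natAbs ≠ 0 ∧
        ((f i).eval ((id n : ℕ) : ℤ)).natAbs.primeFactorsList.length ≤ r ∧
        ∀ p : ℕ, p.Prime → p ∣ ((f i).eval ((id n : ℕ) : ℤ)).natAbs → X < p ^ K) ⊆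
        (Ioc M (M + H)).filter (fun n => R n ∧ ∀ i, Good r ((T : ℝ) ^ (δ₀ / 2 / K)) (F i n)) := by
      intro j hj
      rw [mem_filter, mem_filter] at hj
      rw [mem_filter]
      refine ⟨hj.1.1, hj.1.2, fun i => ?_⟩
      obtain ⟨f1, f2, f3⟩ := hj.2 i
      rw [id, hF] at f1 f2 f3
      refine ⟨f1, f2, fun q hq hd => ?_⟩
      have g4 : (X : ℝ) < (q : ℝ) ^ K := by exact_mod_cast f3 q hq hd
      have g5 : ((T : ℝ) ^ (δ₀ / 2 / K)) ^ K < (q : ℝ) ^ K := by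
        refine lt_of_le_of_lt ?_ g4
        calc ((T : ℝ) ^ (δ₀ / 2 / K)) ^ K = (T : ℝ) ^ (δ₀ / 2) := by
              rw [← Real.rpow_natCast, ← Real.rpow_mul (by linarith)]
              congr 1
              field_simp
          _ ≤ X := g2
      exact lt_of_pow_lt_pow_left₀ K (Nat.cast_nonneg _) g5
    exact_mod_cast card_le_card h3
  · rw [ncard_Ioc M H (fun n => R n ∧ ∀ i, (F i n).Prime)]
    have e1 : (Ioc M (M + H)).filter (fun n => R n ∧ ∀ i, (F i n).Prime) =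
        ((Ioc M (M + H)).filter R).filter (fun n => ∀ i, ((f i).eval ((id n : ℕ) : ℤ)).natAbs.Prime) := by
      rw [filter_filter]
      apply filter_congr
      intro n _
      refine and_congr_right fun _ => forall_congr' fun i => ?_
      rw [id, hF]
    rw [e1]
    have hup' : ((((Ioc M (M + H)).filter R).filter (fun n => ∀ i, ((f i).eval ((id n : ℕ) : ℤ)).natAbs.Prime)).card : ℝ) ≤
        C * N / Real.log X ^ k := by convert hup
    refine hup'.trans ?_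
    have h3 : (δ₀ / 2) ^ k * Real.log T ^ k ≤ Real.log X ^ k := by
      rw [← mul_pow]
      exact pow_le_pow_left₀ (by positivity) hl2 k
    rw [div_mul_eq_mul_div, div_div]
    exact div_le_div_of_nonneg_left (by positivity) (by positivity) h3

/-- the asymptotic formula for systems of polynomials -/
theorem asym_of (h : Sys k f) (F : Fin k → ℕ → ℕ)
    (hF : ∀ (i : Fin k) (n : ℕ), ((f i).eval (n : ℤ)).natAbs = F i n) (δ₀ η : ℝ) (hδ₀ : 0 < δ₀) (hη : 0 < η) :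
    ∃ (δ : ℝ) (T₀ : ℕ), 0 < δ ∧ ∀ T : ℕ, T₀ ≤ T → ∀ (M H : ℕ) (R : ℕ → Prop) (N : ℝ),
    0 ≤ N → EqR ⌊(T : ℝ) ^ δ₀⌋₊ M H R N → ∀ y : ℕ, 3 ≤ y → (y : ℝ) ≤ (T : ℝ) ^ δ → Asym F η M H y R N := by
  classical
  obtain ⟨K, X₀, hK, hasy⟩ := fam_asym h η hη
  obtain ⟨T₁, hT₁⟩ := floor_big δ₀ hδ₀ (max X₀ 3)
  have hKr : (1 : ℝ) ≤ K := by exact_mod_cast hK
  refine ⟨δ₀ / 2 / K, T₁, by positivity, ?_⟩
  intro T hT M H R N hN0 hE y hy hyT
  obtain ⟨g1, g2, g3⟩ := hT₁ T hT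
  set X := ⌊(T : ℝ) ^ δ₀⌋₊ with hXd
  have hX0 : X₀ ≤ X := (le_max_left _ _).trans g1
  have hTR : (3 : ℝ) ≤ T := by exact_mod_cast g3
  have hyK : y ^ K ≤ X := by
    have h1 : (y : ℝ) ^ K ≤ X := by
      calc (y : ℝ) ^ K ≤ ((T : ℝ) ^ (δ₀ / 2 / K)) ^ K := by gcongr
        _ = (T : ℝ) ^ (δ₀ / 2) := by
            rw [← Real.rpow_natCast, ← Real.rpow_mul (by linarith)]
            congr 1
            field_simp
        _ ≤ X := g2
    exact_mod_cast h1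
  have key := hasy X hX0 _ id N hN0 hE y hy hyK
  unfold Asym
  rw [← VV_eq F hF, ncard_Ioc M H (fun n => R n ∧ ∀ q : ℕ, q.Prime → q ≤ y → ∀ i, ¬ q ∣ F i n)]
  have e1 : (Ioc M (M + H)).filter (fun n => R n ∧ ∀ q : ℕ, q.Prime → q ≤ y → ∀ i, ¬ q ∣ F i n) =
      ((Ioc M (M + H)).filter R).filter (fun n => ∀ p ∈ pz y, ¬ QQ f p (id n)) := by
    rw [filter_filter]
    apply filter_congr
    intro n _
    refine and_congr_right fun _ => forall_congr' fun q => ?_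
    rw [mem_pz]
    constructor
    · rintro h2 ⟨h3, h4⟩ ⟨i, hi⟩
      exact h2 h4 h3 i (by rw [← hF, ← Int.natCast_dvd]; exact hi)
    · intro h2 h3 h4 i hi
      exact h2 ⟨h4, h3⟩ ⟨i, by rw [Int.natCast_dvd]; rw [id, hF]; exact hi⟩
  rw [e1]
  convert key

end Poly

section LinearForms

/-- the lower bound for the almost primes -/
def LoT {k : ℕ} (a b : Fin k → ℤ) (T r : ℕ) (δ c : ℝ) (B M H : ℕ) (R : ℕ → Prop) (N : ℝ) : Prop :=
  M + H ≤ T ^ B → (∀ i, (a i).natAbs ≤ T ^ B) → (∀ i, (b i).natAbs ≤ T ^ B) → c * (N * VL a b T) ≤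
    (Set.ncard {n : ℕ | M < n ∧ n ≤ M + H ∧ R n ∧ ∀ i, Good r ((T : ℝ) ^ δ) (a i * n + b i).natAbs} : ℝ)

/-- linear forms -/
theorem lin_of (k : ℕ) (hk : 1 ≤ k) (δ₀ : ℝ) (hδ₀ : 0 < δ₀) (hδ₁ : δ₀ ≤ 1) (B : ℕ) : ∃ (r : ℕ) (δ c C : ℝ) (T₀ : ℕ),
    0 < δ ∧ 0 < c ∧ 0 < C ∧ ∀ T : ℕ, T₀ ≤ T → ∀ (a b : Fin k → ℤ), (∀ i, a i ≠ 0) →
    (∀ q : ℕ, q.Prime → ∃ n : ℕ, ∀ i, ¬ (q : ℤ) ∣ a i * n + b i) →
    ∀ (M H : ℕ) (R : ℕ → Prop) (N : ℝ), 0 ≤ N → EqR ⌊(T : ℝ) ^ δ₀⌋₊ M H R N →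
    LoT a b T r δ c B M H R N ∧ UpL a b T C M H R N := by
  classical
  set B' : ℕ := ⌈2 * B / δ₀⌉₊ with hB'
  obtain ⟨r, K, X₀, c, C, hK, hc, hC, hb⟩ := lin_bounds k hk B'
  obtain ⟨T₁, hT₁⟩ := floor_big δ₀ hδ₀ (max X₀ 3)
  have hKr : (1 : ℝ) ≤ K := by exact_mod_cast hK
  set K' : ℕ := max 1 ⌈2 / δ₀⌉₊ with hK'
  obtain ⟨C2, hC2, hrat⟩ := VQ_ratio k K' hk (le_max_left _ _)
  refine ⟨r, δ₀ / 2 / K, c, C * C2, T₁, by positivity, hc, by positivity, ?_⟩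
  intro T hT a b ha0 hadm M H R N hN0 hE
  obtain ⟨g1, g2, g3⟩ := hT₁ T hT
  set X := ⌊(T : ℝ) ^ δ₀⌋₊ with hXd
  have hX0 : X₀ ≤ X := (le_max_left _ _).trans g1
  have hX3' : 3 ≤ X := (le_max_right _ _).trans g1
  have hTR : (3 : ℝ) ≤ T := by exact_mod_cast g3
  have hXr : (3 : ℝ) ≤ X := by exact_mod_cast hX3'
  have hXT : X ≤ T := by
    have h1 : (X : ℝ) ≤ T := by
      calc (X : ℝ) ≤ (T : ℝ) ^ δ₀ := Nat.floor_le (by positivity)
        _ ≤ (T : ℝ) ^ (1 : ℝ) := Real.rpow_le_rpow_of_exponent_le (by linarith) hδ₁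
        _ = T := Real.rpow_one _
    exact_mod_cast h1
  have hpow : ∀ m : ℕ, m ≤ T ^ B → m ≤ X ^ B' := by
    intro m hm
    have h2 : (m : ℝ) ≤ (X : ℝ) ^ B' := by
      calc (m : ℝ) ≤ (T : ℝ) ^ B := by exact_mod_cast hm
        _ = (T : ℝ) ^ (B : ℝ) := (Real.rpow_natCast _ _).symm
        _ ≤ (T : ℝ) ^ (δ₀ / 2 * B') := by
            apply Real.rpow_le_rpow_of_exponent_le (by linarith)
            have h3 : 2 * B / δ₀ ≤ (B' : ℝ) := Nat.le_ceil _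
            rw [div_le_iff₀ hδ₀] at h3
            linarith
        _ = ((T : ℝ) ^ (δ₀ / 2)) ^ B' := by
            rw [Real.rpow_mul (by linarith), Real.rpow_natCast]
        _ ≤ (X : ℝ) ^ B' := by gcongr
    exact_mod_cast h2
  have hpK' : T ≤ X ^ K' := by
    have h2 : (T : ℝ) ≤ (X : ℝ) ^ K' := by
      calc (T : ℝ) = (T : ℝ) ^ (1 : ℝ) := (Real.rpow_one _).symm
        _ ≤ (T : ℝ) ^ (δ₀ / 2 * K') := by
            apply Real.rpow_le_rpow_of_exponent_le (by linarith)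
            have h3 : 2 / δ₀ ≤ (K' : ℝ) := (Nat.le_ceil _).trans (by exact_mod_cast le_max_right _ _)
            rw [div_le_iff₀ hδ₀] at h3
            linarith
        _ = ((T : ℝ) ^ (δ₀ / 2)) ^ K' := by
            rw [Real.rpow_mul (by linarith), Real.rpow_natCast]
        _ ≤ (X : ℝ) ^ K' := by gcongr
    exact_mod_cast h2
  obtain ⟨hlow, hup⟩ := hb X hX0 _ id N hN0 hE a b ha0 hadm
  have hQ := adm_lin a b hadm
  unfold LoT UpL
  rw [VL_eq]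
  constructor
  · intro hMH haB hbB
    have h1 := hlow (by
      intro j hj
      rw [mem_filter, mem_Ioc] at hj
      exact hpow _ (by
        show j ≤ T ^ B
        omega)) (fun i => hpow _ (haB i)) (fun i => hpow _ (hbB i))
    have hcmp : VQ (QL a b) T ≤ VQ (QL a b) X := VQ_anti hXT
    have h2 : c * (N * VQ (QL a b) T) ≤ c * (N * VQ (QL a b) X) := by gcongr
    refine h2.trans (h1.trans ?_)
    rw [ncard_Ioc M H (fun n => R n ∧ ∀ i, Good r ((T : ℝ) ^ (δ₀ / 2 / K)) (a i * (n : ℤ) + b i).natAbs)]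
    have h3 : ((Ioc M (M + H)).filter R).filter (fun n => ∀ i, (a i * ((id n : ℕ) : ℤ) + b i).natAbs ≠ 0 ∧
        (a i * ((id n : ℕ) : ℤ) + b i).natAbs.primeFactorsList.length ≤ r ∧
        ∀ p : ℕ, p.Prime → p ∣ (a i * ((id n : ℕ) : ℤ) + b i).natAbs → X < p ^ K) ⊆
        (Ioc M (M + H)).filter (fun n => R n ∧ ∀ i, Good r ((T : ℝ) ^ (δ₀ / 2 / K)) (a i * (n : ℤ) + b i).natAbs) := by
      intro j hj
      rw [mem_filter, mem_filter] at hj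
      rw [mem_filter]
      refine ⟨hj.1.1, hj.1.2, fun i => ?_⟩
      obtain ⟨f1, f2, f3⟩ := hj.2 i
      rw [id] at f1 f2 f3
      refine ⟨f1, f2, fun q hq hd => ?_⟩
      have g4 : (X : ℝ) < (q : ℝ) ^ K := by exact_mod_cast f3 q hq hd
      have g5 : ((T : ℝ) ^ (δ₀ / 2 / K)) ^ K < (q : ℝ) ^ K := by
        refine lt_of_le_of_lt ?_ g4
        calc ((T : ℝ) ^ (δ₀ / 2 / K)) ^ K = (T : ℝ) ^ (δ₀ / 2) := by
              rw [← Real.rpow_natCast, ← Real.rpow_mul (by linarith)]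
              congr 1
              field_simp
          _ ≤ X := g2
      exact lt_of_pow_lt_pow_left₀ K (Nat.cast_nonneg _) g5
    exact_mod_cast card_le_card h3
  · rw [ncard_Ioc M H (fun n => R n ∧ ∀ i, (a i * (n : ℤ) + b i).natAbs.Prime)]
    have e1 : (Ioc M (M + H)).filter (fun n : ℕ => R n ∧ ∀ i, (a i * (n : ℤ) + b i).natAbs.Prime) =
        ((Ioc M (M + H)).filter R).filter (fun n => ∀ i, (a i * ((id n : ℕ) : ℤ) + b i).natAbs.Prime) := by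
      rw [filter_filter]
      rfl
    rw [e1]
    have hup' : ((((Ioc M (M + H)).filter R).filter (fun n => ∀ i, (a i * ((id n : ℕ) : ℤ) + b i).natAbs.Prime)).card : ℝ) ≤
        C * (N * VQ (QL a b) X) := by convert hup
    refine hup'.trans ?_
    have h2 : VQ (QL a b) X ≤ C2 * VQ (QL a b) T := hrat (QL a b) hQ X T hX3' hXT hpK'
    calc C * (N * VQ (QL a b) X) ≤ C * (N * (C2 * VQ (QL a b) T)) := by gcongr
      _ = C * C2 * (N * VQ (QL a b) T) := by ring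

/-- the asymptotic formula for linear forms -/
def AsL {k : ℕ} (a b : Fin k → ℤ) (η : ℝ) (M H y : ℕ) (R : ℕ → Prop) (N : ℝ) : Prop :=
  |(Set.ncard {n : ℕ | M < n ∧ n ≤ M + H ∧ R n ∧ ∀ q : ℕ, q.Prime → q ≤ y → ∀ i, ¬ (q : ℤ) ∣ a i * n + b i} : ℝ) -
    N * VL a b y| ≤ η * (N * VL a b y)

theorem linA_of (k : ℕ) (hk : 1 ≤ k) (δ₀ η : ℝ) (hδ₀ : 0 < δ₀) (hη : 0 < η) : ∃ (δ : ℝ) (T₀ : ℕ),
    0 < δ ∧ ∀ T : ℕ, T₀ ≤ T → ∀ (a b : Fin k → ℤ),
    (∀ q : ℕ, q.Prime → ∃ n : ℕ, ∀ i, ¬ (q : ℤ) ∣ a i * n + b i) →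
    ∀ (M H : ℕ) (R : ℕ → Prop) (N : ℝ), 0 ≤ N → EqR ⌊(T : ℝ) ^ δ₀⌋₊ M H R N →
    ∀ y : ℕ, 3 ≤ y → (y : ℝ) ≤ (T : ℝ) ^ δ → AsL a b η M H y R N := by
  classical
  obtain ⟨K, X₀, hK, hasy⟩ := uni_asym k hk η hη
  obtain ⟨T₁, hT₁⟩ := floor_big δ₀ hδ₀ (max X₀ 3)
  have hKr : (1 : ℝ) ≤ K := by exact_mod_cast hK
  refine ⟨δ₀ / 2 / K, T₁, by positivity, ?_⟩
  intro T hT a b hadm M H R N hN0 hE y hy hyT
  obtain ⟨g1, g2, g3⟩ := hT₁ T hT
  set X := ⌊(T : ℝ) ^ δ₀⌋₊ with hXd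
  have hX0 : X₀ ≤ X := (le_max_left _ _).trans g1
  have hTR : (3 : ℝ) ≤ T := by exact_mod_cast g3
  have hyK : y ^ K ≤ X := by
    have h1 : (y : ℝ) ^ K ≤ X := by
      calc (y : ℝ) ^ K ≤ ((T : ℝ) ^ (δ₀ / 2 / K)) ^ K := by gcongr
        _ = (T : ℝ) ^ (δ₀ / 2) := by
            rw [← Real.rpow_natCast, ← Real.rpow_mul (by linarith)]
            congr 1
            field_simp
        _ ≤ X := g2
    exact_mod_cast h1
  have key := hasy X hX0 _ id N hN0 hE y hy hyK (QL a b) (adm_lin a b hadm)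
  unfold AsL
  rw [VL_eq, ncard_Ioc M H (fun n => R n ∧ ∀ q : ℕ, q.Prime → q ≤ y → ∀ i, ¬ (q : ℤ) ∣ a i * (n : ℤ) + b i)]
  have e1 : (Ioc M (M + H)).filter (fun n : ℕ => R n ∧ ∀ q : ℕ, q.Prime → q ≤ y → ∀ i, ¬ (q : ℤ) ∣ a i * (n : ℤ) + b i) =
      ((Ioc M (M + H)).filter R).filter (fun n => ∀ p ∈ pz y, ¬ QL a b p (id n)) := by
    rw [filter_filter]
    apply filter_congr
    intro n _
    refine and_congr_right fun _ => forall_congr' fun q => ?_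
    rw [mem_pz]
    constructor
    · rintro h2 ⟨h3, h4⟩ ⟨i, hi⟩
      exact h2 h4 h3 i hi
    · intro h2 h3 h4 i hi
      exact h2 ⟨h4, h3⟩ ⟨i, hi⟩
  rw [e1]
  convert key

end LinearForms

end Pool.Agent.X55.Fam
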