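import Pool.Agent.TH915.PW.DigitsMain
import Pool.Agent.X55.Fam.Abs

set_option autoImplicit false

/-! # Family: digital functions, in arbitrary short intervals -/

namespace Pool.Agent.X55.Fam.S

open Finset Filter
open Pool.Agent.H469R2.NK (e norm_e e_add)
open Pool.Agent.TH915.PW (Fd filter_bound uniform_rho S_split sum_blocks class_le)

variable {G : Type} [AddCommGroup G] [Fintype G]

lemma geoR (q h : ℕ) (h1 : 1 ≤ h) (hq : h < q) (N : ℕ) : ‖∑ n ∈ range N, e (n * ((h : ℝ) / q))‖ ≤ q := by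
  have h2 := Pool.Agent.X55.Mod.geo q h h1 hq N
  have h3 : ∑ n ∈ Ioc 0 N, e (n * ((h : ℝ) / q)) = e ((h : ℝ) / q) * ∑ n ∈ range N, e (n * ((h : ℝ) / q)) := by
    rw [mul_sum]
    refine (sum_bij (fun n _ => n + 1) ?_ ?_ ?_ ?_).symm
    · intro n hn
      rw [mem_range] at hn
      rw [mem_Ioc]
      omega
    · intro a _ b _ h
      omega
    · intro m hm
      rw [mem_Ioc] at hm
      exact ⟨m - 1, by rw [mem_range]; omega, by omega⟩
    · intro n _
      rw [← e_add]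
      congr 1
      push_cast
      ring
  have h4 : ‖∑ n ∈ Ioc 0 N, e (n * ((h : ℝ) / q))‖ = ‖∑ n ∈ range N, e (n * ((h : ℝ) / q))‖ := by
    rw [h3, norm_mul, norm_e, one_mul]
  rw [← h4]
  exact h2

/-- one block -/
lemma block (b : ℕ) (hb : 2 ≤ b) (S : ℕ → G) [DecidableEq G]
    (hS : ∀ n d, d < b → S (b * n + d) = S n + S d) (ρ : ℝ) (hρ1 : 1 ≤ ρ)
    (hρ : ∀ χ : AddChar G ℂ, χ ≠ 0 → ∀ x : ℝ,
      Fd b (fun n => χ (S n)) x * Fd b (fun n => χ (S n)) (b * x) ≤ ρ) (L : ℕ) (g : G) (q : ℕ) (hq : 1 ≤ q) (r : ℕ) (c : ℕ) :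
    |((((range ((b ^ 2) ^ L)).filter (fun n => S n = g)).filter (fun n => c + n ≡ r [MOD q])).card : ℝ) -
      ((b : ℝ) ^ 2) ^ L / Fintype.card G / q| ≤ 2 * ρ ^ L + q := by
  have hG : (0 : ℝ) < Fintype.card G := by exact_mod_cast Fintype.card_pos
  have hG1 : (1 : ℝ) ≤ Fintype.card G := by exact_mod_cast Fintype.card_pos
  have hqr : (1 : ℝ) ≤ q := by exact_mod_cast hq
  set s := (range ((b ^ 2) ^ L)).filter (fun n => S n = g) with hs
  set R : ℝ := ρ ^ L with hR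
  have hR0 : 0 ≤ R := by rw [hR]; positivity
  have hfb := filter_bound b hb S hS ρ hρ1 hρ L g
  have hcl := class_le s (fun n => ((c + n : ℕ) : ℤ)) q hq (R + q) (by positivity) (by
    intro h h1 hhq
    have e1 : ∑ j ∈ s, e ((h : ℝ) / q * (((c + j : ℕ) : ℤ) : ℝ)) =
        e ((h : ℝ) / q * c) * ∑ j ∈ s, e ((h : ℝ) / q * j) := by
      rw [mul_sum]
      refine sum_congr rfl fun j _ => ?_
      rw [← e_add]
      congr 1
      push_cast
      ring
    rw [e1, norm_mul, norm_e, one_mul]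
    have e2 := hfb ((h : ℝ) / q)
    have e3 := geoR q h h1 hhq ((b ^ 2) ^ L)
    have e4 : ‖(Fintype.card G : ℂ) * ∑ j ∈ s, e ((h : ℝ) / q * j)‖ ≤ Fintype.card G * R + q := by
      have := norm_add_le ((Fintype.card G : ℂ) * ∑ j ∈ s, e ((h : ℝ) / q * j) -
        ∑ n ∈ range ((b ^ 2) ^ L), e (n * ((h : ℝ) / q))) (∑ n ∈ range ((b ^ 2) ^ L), e (n * ((h : ℝ) / q)))
      rw [sub_add_cancel] at this
      linarith
    rw [norm_mul, Complex.norm_natCast] at e4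
    have e5 : (Fintype.card G : ℝ) * ‖∑ j ∈ s, e ((h : ℝ) / q * j)‖ ≤ Fintype.card G * (R + q) := by
      refine e4.trans ?_
      have : (q : ℝ) ≤ Fintype.card G * q := by nlinarith
      linarith
    exact le_of_mul_le_mul_left e5 hG) r
  have hfil : s.filter (fun i => (q : ℤ) ∣ ((c + i : ℕ) : ℤ) - (r : ℤ)) = s.filter (fun j => c + j ≡ r [MOD q]) := by
    apply filter_congr
    intro j _
    rw [Nat.ModEq.comm, Nat.modEq_iff_dvd]
  rw [hfil] at hcl
  have hcard : |(s.card : ℝ) - ((b : ℝ) ^ 2) ^ L / Fintype.card G| ≤ R := by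
    have h1 := hfb 0
    simp only [zero_mul, mul_zero, Pool.Agent.H469R2.NK.e_zero, sum_const, nsmul_eq_mul, mul_one,
      card_range] at h1
    have h2 : ((Fintype.card G : ℂ) * (s.card : ℂ) - (((b ^ 2) ^ L : ℕ) : ℂ)) =
        (((Fintype.card G : ℝ) * ((s.card : ℝ) - ((b : ℝ) ^ 2) ^ L / Fintype.card G) : ℝ) : ℂ) := by
      have : (Fintype.card G : ℝ) * ((s.card : ℝ) - ((b : ℝ) ^ 2) ^ L / Fintype.card G) =
          Fintype.card G * s.card - ((b : ℝ) ^ 2) ^ L := by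
        field_simp
      rw [this]
      push_cast
      ring
    rw [h2, Complex.norm_real, Real.norm_eq_abs, abs_mul, abs_of_pos hG] at h1
    exact le_of_mul_le_mul_left h1 hG
  have h1 : |(s.card : ℝ) / q - ((b : ℝ) ^ 2) ^ L / Fintype.card G / q| ≤ R := by
    rw [← sub_div, abs_div, abs_of_pos (by linarith : (0 : ℝ) < q)]
    calc _ ≤ |(s.card : ℝ) - ((b : ℝ) ^ 2) ^ L / Fintype.card G| / 1 := by
          apply div_le_div_of_nonneg_left (abs_nonneg _) (by norm_num) hqr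
      _ ≤ _ := by rw [div_one]; exact hcard
  have h3 := abs_add_le (((s.filter (fun j => c + j ≡ r [MOD q])).card : ℝ) - s.card / q)
      ((s.card : ℝ) / q - ((b : ℝ) ^ 2) ^ L / Fintype.card G / q)
  have h4 : ((s.filter (fun j => c + j ≡ r [MOD q])).card : ℝ) - s.card / q +
      ((s.card : ℝ) / q - ((b : ℝ) ^ 2) ^ L / Fintype.card G / q) =
      ((s.filter (fun j => c + j ≡ r [MOD q])).card : ℝ) - ((b : ℝ) ^ 2) ^ L / Fintype.card G / q := by
    ring
  rw [h4] at h3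
  linarith

/-- blocks and intervals -/
lemma split (B : ℕ) (hB : 0 < B) (P : ℕ → Prop) [DecidablePred P] (M H : ℕ) (A E : ℝ) (hA : 0 ≤ A) (hE : 0 ≤ E)
    (hAB : A ≤ B) (h : ∀ m : ℕ, |((((range B).filter (fun n => P (B * m + n))).card : ℕ) : ℝ) - A| ≤ E) :
    |(((Ioc M (M + H)).filter P).card : ℝ) - H * (A / B)| ≤ 2 * B + (H / B + 1) * E := by
  set f : ℕ → ℕ := fun n => if P n then 1 else 0 with hf
  have hf1 : ∀ n, f n ≤ 1 := by
    intro n
    rw [hf]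
    simp only
    split_ifs <;> omega
  set F : ℕ → ℕ := fun N => ∑ n ∈ range N, f n with hF
  have hBr : (0 : ℝ) < B := by exact_mod_cast hB
  have hcount : ((Ioc M (M + H)).filter P).card + F (M + 1) = F (M + H + 1) := by
    rw [card_filter, hF]
    simp only
    have h1 : Ioc M (M + H) = Ico (M + 1) (M + H + 1) := by
      ext n
      rw [mem_Ioc, mem_Ico]
      omega
    rw [h1, add_comm, sum_range_add_sum_Ico _ (by omega)]
  have hblk : ∀ q, F (B * q) = ∑ m ∈ range q, ((range B).filter (fun n => P (B * m + n))).card := by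
    intro q
    rw [hF]
    simp only
    rw [sum_blocks]
    refine sum_congr rfl fun m _ => ?_
    rw [card_filter]
  have hmono : ∀ a b, a ≤ b → F a ≤ F b := by
    intro a b hab
    exact sum_le_sum_of_subset (range_subset_range.2 hab)
  have hstep : ∀ a t, F (a + t) ≤ F a + t := by
    intro a t
    induction t with
    | zero => simp
    | succ t ih =>
      have : F (a + (t + 1)) = F (a + t) + f (a + t) := sum_range_succ _ _
      have := hf1 (a + t)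
      omega
  set N1 := M + 1 with hN1
  set N2 := M + H + 1 with hN2
  set q1 := N1 / B with hq1
  set q2 := N2 / B with hq2
  have hq12 : q1 ≤ q2 := Nat.div_le_div_right (by omega)
  have d1 := Nat.div_add_mod N1 B
  have d2 := Nat.div_add_mod N2 B
  have m1 := Nat.mod_lt N1 hB
  have m2 := Nat.mod_lt N2 hB
  rw [← hq1] at d1
  rw [← hq2] at d2
  have a1 : F (B * q1) ≤ F N1 ∧ F N1 ≤ F (B * q1) + B := by
    refine ⟨hmono _ _ (by omega), ?_⟩
    have := hstep (B * q1) (N1 % B)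
    rw [d1] at this
    omega
  have a2 : F (B * q2) ≤ F N2 ∧ F N2 ≤ F (B * q2) + B := by
    refine ⟨hmono _ _ (by omega), ?_⟩
    have := hstep (B * q2) (N2 % B)
    rw [d2] at this
    omega
  have hsum : F (B * q1) + ∑ m ∈ Ico q1 q2, ((range B).filter (fun n => P (B * m + n))).card = F (B * q2) := by
    rw [hblk, hblk, sum_range_add_sum_Ico _ hq12]
  have hS : |((∑ m ∈ Ico q1 q2, ((range B).filter (fun n => P (B * m + n))).card : ℕ) : ℝ) - (q2 - q1) * A| ≤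
      (q2 - q1) * E := by
    have h1 : ((q2 : ℝ) - q1) * A = ∑ m ∈ Ico q1 q2, A := by
      rw [sum_const, Nat.card_Ico, nsmul_eq_mul, Nat.cast_sub hq12]
    have h2 : ((q2 : ℝ) - q1) * E = ∑ m ∈ Ico q1 q2, E := by
      rw [sum_const, Nat.card_Ico, nsmul_eq_mul, Nat.cast_sub hq12]
    rw [h1, h2]
    push_cast
    rw [← sum_sub_distrib]
    exact (abs_sum_le_sum_abs _ _).trans (sum_le_sum fun m _ => h m)
  have e1 : (B : ℝ) * q1 + ((N1 % B : ℕ) : ℝ) = N1 := by exact_mod_cast d1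
  have e2 : (B : ℝ) * q2 + ((N2 % B : ℕ) : ℝ) = N2 := by exact_mod_cast d2
  have e3 : ((N1 % B : ℕ) : ℝ) ≤ B := by exact_mod_cast m1.le
  have e4 : ((N2 % B : ℕ) : ℝ) ≤ B := by exact_mod_cast m2.le
  have e5 : (0 : ℝ) ≤ ((N1 % B : ℕ) : ℝ) := Nat.cast_nonneg _
  have e6 : (0 : ℝ) ≤ ((N2 % B : ℕ) : ℝ) := Nat.cast_nonneg _
  have e7 : (N2 : ℝ) - N1 = H := by
    rw [hN1, hN2]
    push_cast
    ring
  have k1 : (q2 : ℝ) - q1 ≤ H / B + 1 := by
    rw [div_add_one hBr.ne', le_div_iff₀ hBr]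
    nlinarith
  have k2 : |((q2 : ℝ) - q1) * A - H * (A / B)| ≤ B := by
    have h1 : ((q2 : ℝ) - q1) * A - H * (A / B) = (((N1 % B : ℕ) : ℝ) - ((N2 % B : ℕ) : ℝ)) * (A / B) := by
      field_simp
      have : (H : ℝ) = B * q2 + ((N2 % B : ℕ) : ℝ) - (B * q1 + ((N1 % B : ℕ) : ℝ)) := by linarith
      rw [this]
      ring
    rw [h1, abs_mul, abs_of_nonneg (by positivity : 0 ≤ A / B)]
    have h2 : A / B ≤ 1 := by rw [div_le_one hBr]; exact hAB
    have h3 : |((N1 % B : ℕ) : ℝ) - ((N2 % B : ℕ) : ℝ)| ≤ B := by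
      rw [abs_le]
      constructor <;> linarith
    calc _ ≤ (B : ℝ) * 1 := by gcongr
      _ = B := mul_one _
  have c1 : (((Ioc M (M + H)).filter P).card : ℝ) + F N1 = F N2 := by exact_mod_cast hcount
  have c2 : (F (B * q1) : ℝ) ≤ F N1 ∧ (F N1 : ℝ) ≤ F (B * q1) + B := by exact_mod_cast a1
  have c3 : (F (B * q2) : ℝ) ≤ F N2 ∧ (F N2 : ℝ) ≤ F (B * q2) + B := by exact_mod_cast a2
  have c4 : (F (B * q1) : ℝ) + ((∑ m ∈ Ico q1 q2, ((range B).filter (fun n => P (B * m + n))).card : ℕ) : ℝ) =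
      F (B * q2) := by exact_mod_cast hsum
  have k3 : ((q2 : ℝ) - q1) * E ≤ (H / B + 1) * E := by gcongr
  rw [abs_le] at hS k2 ⊢
  constructor <;> linarith [hS.1, hS.2, k2.1, k2.2, c2.1, c2.2, c3.1, c3.2]

set_option maxHeartbeats 4000000 in
open Classical in
/-- **the family of the integers with a given value of a digital function** -/
theorem dig_fam (b : ℕ) (hb : 2 ≤ b) (S : ℕ → G)
    (hS : ∀ n d, d < b → S (b * n + d) = S n + S d)
    (hN : ∀ χ : AddChar G ℂ, χ ≠ 0 → ¬ (χ (S 1) ^ (b - 1) = 1 ∧ ∀ d < b, χ (S d) = χ (S 1) ^ d)) :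
    ∃ δ₀ : ℝ, 0 < δ₀ ∧ δ₀ ≤ 1 ∧ ∃ H₀ : ℕ, ∀ H : ℕ, H₀ ≤ H → ∀ (M : ℕ) (g : G),
      EqR ⌊(H : ℝ) ^ δ₀⌋₊ M H (fun n => S n = g) (H / Fintype.card G) := by
  have hS0 : S 0 = 0 := by
    have := hS 0 0 (by omega)
    simpa using this
  have hbR : (2 : ℝ) ≤ b := by exact_mod_cast hb
  obtain ⟨ρ, hρ1, hρ2, hρ⟩ := uniform_rho b hb S hS0 hN
  set b2 : ℝ := (b : ℝ) ^ 2 with hb2
  have hb24 : (4 : ℝ) ≤ b2 := by rw [hb2]; nlinarith
  have hlb : 0 < Real.log b2 := Real.log_pos (by linarith)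
  set lam : ℝ := Real.log ρ / Real.log b2 with hlam
  have hlam0 : 0 ≤ lam := div_nonneg (Real.log_nonneg hρ1) hlb.le
  have hlam1 : lam < 1 := by
    rw [hlam, div_lt_one hlb]
    exact Real.log_lt_log (by linarith) hρ2
  have hρlam : b2 ^ lam = ρ := by
    rw [Real.rpow_def_of_pos (by linarith), hlam, mul_div_cancel₀ _ hlb.ne',
      Real.exp_log (by linarith)]
  set c : ℝ := (Fintype.card G : ℝ) with hc
  have hc1 : 1 ≤ c := by
    rw [hc]
    exact_mod_cast Fintype.card_pos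
  set δ : ℝ := (1 - lam) / 16 with hδ
  have hδ0 : 0 < δ := by rw [hδ]; linarith
  have hδ1 : δ ≤ 1 / 16 := by rw [hδ]; linarith
  obtain ⟨H1, hH1⟩ := eventually_atTop.mp ((Pool.Agent.W147.PS.ev_pow (1 / 2) (1 - 2 * δ) (6 * c) (by linarith)).and
    ((Pool.Agent.W147.PS.ev_pow (1 - 8 * δ) (1 - 2 * δ) (12 * c * b2) (by linarith)).and
    ((Pool.Agent.W147.PS.ev_pow (1 / 2 + δ) (1 - 2 * δ) (12 * c * b2) (by linarith)).and (eventually_ge_atTop (1 : ℝ)))))
  refine ⟨δ, hδ0, by linarith, ⌈H1⌉₊, ?_⟩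
  intro H hH M g d hd hdX r
  obtain ⟨c1, c2, c3, c4⟩ := hH1 H ((Nat.le_ceil _).trans (by exact_mod_cast hH))
  have hHr : (0 : ℝ) < H := by linarith
  have hMe : (1 : ℝ) ≤ (H : ℝ) ^ (1 / 2 : ℝ) := Real.one_le_rpow c4 (by norm_num)
  obtain ⟨L, hL1, hL2⟩ := exists_nat_pow_near hMe (show (1 : ℝ) < b2 by linarith)
  set B : ℕ := (b ^ 2) ^ L with hB
  have hBR : (B : ℝ) = b2 ^ L := by rw [hB, hb2]; push_cast; ring
  rw [← hBR] at hL1
  have hL2' : (H : ℝ) ^ (1 / 2 : ℝ) < B * b2 := by rw [hBR, ← pow_succ]; exact hL2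
  have hB0 : 0 < B := by rw [hB]; positivity
  have hB0' : (0 : ℝ) < B := by exact_mod_cast hB0
  set R : ℝ := ρ ^ L with hR
  have hR0 : 0 ≤ R := by rw [hR]; positivity
  have hRB : R = (B : ℝ) ^ lam := by
    rw [hR, hBR, ← hρlam, ← Real.rpow_natCast, ← Real.rpow_natCast, ← Real.rpow_mul (by linarith),
      ← Real.rpow_mul (by linarith), mul_comm]
  set X := ⌊(H : ℝ) ^ δ⌋₊ with hX
  have hXle : (X : ℝ) ≤ (H : ℝ) ^ δ := Nat.floor_le (by positivity)
  have hX1 : 1 ≤ X := Nat.le_floor (by exact_mod_cast Real.one_le_rpow c4 hδ0.le)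
  have hX1' : (1 : ℝ) ≤ X := by exact_mod_cast hX1
  have hdr : (1 : ℝ) ≤ d := by exact_mod_cast hd
  have hdy : (d : ℝ) ≤ (H : ℝ) ^ δ := (by exact_mod_cast hdX : (d : ℝ) ≤ X).trans hXle
  have key := split B hB0 (fun n => S n = g ∧ n ≡ r [MOD d]) M H (b2 ^ L / c / d) (2 * R + d) (by positivity)
    (by positivity) (by
      rw [← hBR]
      rw [div_div]
      apply div_le_self hB0'.le
      nlinarith) (by
      intro m
      have h1 := block b hb S hS ρ hρ1 hρ L (g - S m) d hd r (B * m)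
      rw [← hR, ← hb2, ← hc] at h1
      refine le_trans (le_of_eq ?_) h1
      congr 3
      rw [filter_filter]
      congr 1
      apply filter_congr
      intro n hn
      rw [mem_range] at hn
      have h2 : S (B * m + n) = S m + S n := by
        have := S_split b hb S hS (2 * L) m n (by rw [pow_mul]; exact hn)
        rwa [pow_mul, ← hB] at this
      rw [h2, eq_sub_iff_add_eq'])
  have e1 : H * (b2 ^ L / c / d / B) = H / c / d := by
    rw [← hBR]
    field_simp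
  have e2 : (((Ioc M (M + H)).filter (fun n => S n = g)).filter (fun n => id n ≡ r [MOD d])).card =
      ((Ioc M (M + H)).filter (fun n => S n = g ∧ n ≡ r [MOD d])).card := by
    rw [filter_filter]
    rfl
  rw [e1] at key
  rw [e2]
  refine key.trans ?_
  -- the final comparison
  have hHB : (1 : ℝ) ≤ H / B := by
    rw [le_div_iff₀ hB0', one_mul]
    refine hL1.trans ?_
    calc (H : ℝ) ^ (1 / 2 : ℝ) ≤ (H : ℝ) ^ (1 : ℝ) := Real.rpow_le_rpow_of_exponent_le c4 (by norm_num)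
      _ = H := Real.rpow_one _
  have hinv : (H : ℝ) / B ≤ b2 * (H : ℝ) ^ (1 / 2 : ℝ) := by
    rw [div_le_iff₀ hB0']
    have h1 : (H : ℝ) ^ (1 / 2 : ℝ) * (H : ℝ) ^ (1 / 2 : ℝ) = H := by
      rw [← Real.rpow_add hHr]
      norm_num
    calc (H : ℝ) = (H : ℝ) ^ (1 / 2 : ℝ) * (H : ℝ) ^ (1 / 2 : ℝ) := h1.symm
      _ ≤ (B * b2) * (H : ℝ) ^ (1 / 2 : ℝ) := by gcongr
      _ = _ := by ring
  have hR1 : R * (H : ℝ) / B ≤ b2 * (H : ℝ) ^ (1 - 8 * δ) := by
    rw [div_le_iff₀ hB0']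
    have h2 : (H : ℝ) ^ ((1 - lam) / 2) ≤ (B : ℝ) ^ (1 - lam) * b2 := by
      have e3 : (H : ℝ) ^ ((1 - lam) / 2) = ((H : ℝ) ^ (1 / 2 : ℝ)) ^ (1 - lam) := by
        rw [← Real.rpow_mul hHr.le]
        congr 1
        ring
      rw [e3]
      calc ((H : ℝ) ^ (1 / 2 : ℝ)) ^ (1 - lam) ≤ (B * b2) ^ (1 - lam) :=
            Real.rpow_le_rpow (by positivity) hL2'.le (by linarith)
        _ = (B : ℝ) ^ (1 - lam) * b2 ^ (1 - lam) := Real.mul_rpow hB0'.le (by linarith)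
        _ ≤ (B : ℝ) ^ (1 - lam) * b2 := by
            apply mul_le_mul_of_nonneg_left _ (by positivity)
            calc b2 ^ (1 - lam) ≤ b2 ^ (1 : ℝ) :=
                  Real.rpow_le_rpow_of_exponent_le (by linarith) (by linarith)
              _ = b2 := Real.rpow_one _
    have h3 : (H : ℝ) = (H : ℝ) ^ (1 - 8 * δ) * (H : ℝ) ^ ((1 - lam) / 2) := by
      rw [← Real.rpow_add hHr]
      have : 1 - 8 * δ + (1 - lam) / 2 = 1 := by rw [hδ]; ring
      rw [this, Real.rpow_one]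
    have h4 : R * (B : ℝ) ^ (1 - lam) = B := by
      rw [hRB, ← Real.rpow_add hB0', show lam + (1 - lam) = 1 by ring, Real.rpow_one]
    calc R * (H : ℝ) = R * ((H : ℝ) ^ (1 - 8 * δ) * (H : ℝ) ^ ((1 - lam) / 2)) := by rw [← h3]
      _ ≤ R * ((H : ℝ) ^ (1 - 8 * δ) * ((B : ℝ) ^ (1 - lam) * b2)) := by gcongr
      _ = b2 * (H : ℝ) ^ (1 - 8 * δ) * (R * (B : ℝ) ^ (1 - lam)) := by ring
      _ = _ := by rw [h4]
  have hd1 : (d : ℝ) * (H / B) ≤ b2 * (H : ℝ) ^ (1 / 2 + δ) := by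
    calc (d : ℝ) * (H / B) ≤ (H : ℝ) ^ δ * (b2 * (H : ℝ) ^ (1 / 2 : ℝ)) := by gcongr
      _ = b2 * (H : ℝ) ^ (1 / 2 + δ) := by
          rw [Real.rpow_add hHr]
          ring
  have hmain : 2 * (B : ℝ) + (H / B + 1) * (2 * R + d) ≤
      2 * (H : ℝ) ^ (1 / 2 : ℝ) + 4 * (b2 * (H : ℝ) ^ (1 - 8 * δ)) + 2 * (b2 * (H : ℝ) ^ (1 / 2 + δ)) := by
    have h1 : (H / B + 1) * (2 * R + d) ≤ (2 * (H / B)) * (2 * R + d) := by
      gcongr
      linarith
    have h2 : (2 * (H / B)) * (2 * R + d) = 4 * (R * (H : ℝ) / B) + 2 * ((d : ℝ) * (H / B)) := by ring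
    linarith
  refine hmain.trans ?_
  have hden : (H : ℝ) ^ (1 - 2 * δ) / c ≤ H / c / (X : ℝ) ^ 2 := by
    rw [div_div, mul_comm c, ← div_div]
    apply div_le_div_of_nonneg_right _ (by linarith)
    rw [le_div_iff₀ (by positivity)]
    calc (H : ℝ) ^ (1 - 2 * δ) * (X : ℝ) ^ 2 ≤ (H : ℝ) ^ (1 - 2 * δ) * ((H : ℝ) ^ δ) ^ 2 := by gcongr
      _ = (H : ℝ) := by
          rw [← Real.rpow_natCast, ← Real.rpow_mul hHr.le, ← Real.rpow_add hHr]
          have : 1 - 2 * δ + δ * ((2 : ℕ) : ℝ) = 1 := by push_cast; ring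
          rw [this, Real.rpow_one]
  refine le_trans ?_ hden
  rw [le_div_iff₀ (by linarith)]
  nlinarith [c1, c2, c3]

end Pool.Agent.X55.Fam.S
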