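import Pool.Agent.X55.Fam.DCor
import Pool.Agent.X55.Fam.SFam

set_option autoImplicit false

/-! # Linear forms, uniformly in the coefficients, for the three families -/

namespace Pool.Agent.X55.Fam

open Finset Filter
open Pool.Agent.H373R2.T7

/-- both bounds for linear forms -/
def BothL {k : ℕ} (a b : Fin k → ℤ) (T r : ℕ) (δ c C : ℝ) (B M H : ℕ) (R : ℕ → Prop) (N : ℝ) : Prop :=
  LoT a b T r δ c B M H R N ∧ UpL a b T C M H R N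

lemma VL_nonneg {k : ℕ} (a b : Fin k → ℤ) (y : ℕ) : 0 ≤ VL a b y := by
  rw [VL_eq]
  exact VQ_nonneg _ _

lemma BothL.scale {k : ℕ} {a b : Fin k → ℤ} {T r : ℕ} {δ c C : ℝ} {B M H : ℕ} {R : ℕ → Prop} {N N₀ : ℝ}
    (h : BothL a b T r δ c C B M H R N) (hc : 0 < c) (hC : 0 < C) (h0 : 0 ≤ N₀) (h1 : (1 - 1 / 2) * N₀ ≤ N)
    (h2 : N ≤ (1 + 1 / 2) * N₀) : BothL a b T r δ (c / 2) (2 * C) B M H R N₀ := by
  have hV := VL_nonneg a b T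
  refine ⟨fun hMH ha hb => le_trans ?_ (h.1 hMH ha hb), le_trans h.2 ?_⟩
  · have h3 : N₀ * VL a b T ≤ 2 * (N * VL a b T) := by nlinarith
    nlinarith
  · have h3 : N * VL a b T ≤ 2 * (N₀ * VL a b T) := by nlinarith
    calc C * (N * VL a b T) ≤ C * (2 * (N₀ * VL a b T)) := by gcongr
      _ = _ := by ring

lemma AsL.scale {k : ℕ} {a b : Fin k → ℤ} {M H y : ℕ} {R : ℕ → Prop} {N N₀ η η' : ℝ}
    (h : AsL a b η' M H y R N) (hη' : 0 < η') (hη1 : η' ≤ 1) (hη : 3 * η' ≤ η) (h0 : 0 ≤ N₀)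
    (h1 : (1 - η') * N₀ ≤ N) (h2 : N ≤ (1 + η') * N₀) : AsL a b η M H y R N₀ := by
  unfold AsL at h ⊢
  have hV0 := VL_nonneg a b y
  set V := VL a b y with hV
  set S : ℝ := (Set.ncard {n : ℕ | M < n ∧ n ≤ M + H ∧ R n ∧ ∀ q : ℕ, q.Prime → q ≤ y → ∀ i, ¬ (q : ℤ) ∣ a i * n + b i} : ℝ) with hS
  have hNV : 0 ≤ N₀ * V := by positivity
  have e1 : N * V ≤ (1 + η') * (N₀ * V) := by
    calc N * V ≤ ((1 + η') * N₀) * V := by gcongr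
      _ = _ := by ring
  have e2 : (1 - η') * (N₀ * V) ≤ N * V := by
    calc (1 - η') * (N₀ * V) = ((1 - η') * N₀) * V := by ring
      _ ≤ _ := by gcongr
  rw [abs_le] at h ⊢
  have e3 : η' * (N * V) ≤ 2 * η' * (N₀ * V) := by
    have h4 : N * V ≤ 2 * (N₀ * V) := by
      have : (1 + η') * (N₀ * V) ≤ 2 * (N₀ * V) := by gcongr; linarith
      linarith
    calc η' * (N * V) ≤ η' * (2 * (N₀ * V)) := by gcongr
      _ = _ := by ring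
  have e4 : 3 * η' * (N₀ * V) ≤ η * (N₀ * V) := by gcongr
  constructor <;> nlinarith [h.1, h.2]

/-- residues modulo primes -/
theorem res_lin (k : ℕ) (hk : 1 ≤ k) (ε : ℝ) (hε : 0 < ε) (B : ℕ) : ∃ (r : ℕ) (δ c C : ℝ) (P₀ : ℕ),
    0 < δ ∧ 0 < c ∧ 0 < C ∧
    ∀ P : ℕ, P₀ ≤ P → ∀ [Fact P.Prime] (a b : Fin k → ℤ), (∀ i, a i ≠ 0) →
    (∀ q : ℕ, q.Prime → ∃ n : ℕ, ∀ i, ¬ (q : ℤ) ∣ a i * n + b i) →
    (∀ (A : Finset (ZMod P)) (Γ : ℝ), 1 ≤ Γ →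
      (∀ a : ZMod P, a ≠ 0 → ‖∑ x ∈ A, (ZMod.stdAddChar (a * x) : ℂ)‖ ≤ Γ) →
      ∀ M H : ℕ, H ≤ P → Γ * (P : ℝ) ^ (1 + ε) ≤ A.card * H →
      BothL a b P r δ c C B M H (fun n => (n : ZMod P) ∈ A) (A.card * H / P)) ∧
    (∀ (G : Subgroup (ZMod P)ˣ) (c₀ : (ZMod P)ˣ) (M H : ℕ), H ≤ P →
      (P : ℝ) ^ (3 / 2 + ε) ≤ (Nat.card G : ℝ) * H →
      BothL a b P r δ c C B M H (fun n => ∃ g ∈ G, (n : ZMod P) = (c₀ : ZMod P) * (g : ZMod P))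
        (Nat.card G * H / P)) ∧
    (∀ M H : ℕ, H ≤ P → (P : ℝ) ^ (1 / 2 + ε) ≤ H →
      BothL a b P r δ c C B M H (fun n => orderOf (n : ZMod P) = P - 1) ((P - 1).totient * H / P)) ∧
    (∀ c₀ : ZMod P, c₀ ≠ 0 → ∀ M H L K : ℕ, H ≤ P → K ≤ P → (P : ℝ) ^ (3 / 2 + ε) ≤ (H : ℝ) * K →
      BothL a b P r δ c C B M H (fun n => ∃ m : ℕ, L < m ∧ m ≤ L + K ∧ (n : ZMod P) * (m : ZMod P) = c₀)
        (K * H / P)) := by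
  obtain ⟨r, δ, c, C, P₀, hδ, hc, hC, h⟩ := reslin k hk (ε / 2) (by linarith) B
  obtain ⟨P1, hP1⟩ := transfer ε hε
  refine ⟨r, δ, c / 2, 2 * C, max P₀ P1, hδ, by positivity, by positivity, ?_⟩
  intro P hP _ a b ha hadm
  have hV := VL_nonneg a b P
  have hP0 : P₀ ≤ P := (le_max_left _ _).trans hP
  obtain ⟨h1, h2, h3, h4⟩ := hP1 P ((le_max_right _ _).trans hP) (fun M H R N => LoT a b P r δ c B M H R N)
    (fun M H R N => UpL a b P C M H R N)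
    (fun M H R N N' hN h0 hNN hMH haB hbB => le_trans (by gcongr) (hN hMH haB hbB))
    (fun M H R N N' hN hNN => le_trans hN (by gcongr))
    (fun A Γ hΓ hA M H hH hAH => h P hP0 a b ha hadm A Γ hΓ hA M H hH hAH)
  have hs : ∀ (M H : ℕ) (R : ℕ → Prop) (N : ℝ), 0 ≤ N → LoT a b P r δ c B M H R (N / 2) →
      UpL a b P C M H R N → BothL a b P r δ (c / 2) (2 * C) B M H R N := by
    intro M H R N hN hL hU
    refine ⟨fun hMH haB hbB => le_trans (le_of_eq (by ring)) (hL hMH haB hbB), le_trans hU ?_⟩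
    have : 0 ≤ C * (N * VL a b P) := by positivity
    linarith
  have hw : ∀ (M H : ℕ) (R : ℕ → Prop) (N : ℝ), 0 ≤ N → LoT a b P r δ c B M H R N →
      LoT a b P r δ c B M H R (N / 2) := by
    intro M H R N hN hL hMH haB hbB
    refine le_trans ?_ (hL hMH haB hbB)
    have : 0 ≤ N * VL a b P := by positivity
    have e : N / 2 * VL a b P = (N * VL a b P) / 2 := by ring
    rw [e]
    gcongr
    linarith
  refine ⟨fun A Γ hΓ hA M H hH hAH => ?_, fun G c₀ M H hH hG => ?_, fun M H hH hPH => ?_,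
    fun c₀ hc₀ M H L K hH hK hHK => ?_⟩
  · obtain ⟨g1, g2⟩ := h1 A Γ hΓ hA M H hH hAH
    exact hs _ _ _ _ (by positivity) (hw _ _ _ _ (by positivity) g1) g2
  · obtain ⟨g1, g2⟩ := h2 G c₀ M H hH hG
    exact hs _ _ _ _ (by positivity) (hw _ _ _ _ (by positivity) g1) g2
  · obtain ⟨g1, g2⟩ := h3 M H hH hPH
    exact hs _ _ _ _ (by positivity) (hw _ _ _ _ (by positivity) g1) g2
  · obtain ⟨g1, g2⟩ := h4 c₀ hc₀ M H L K hH hK hHK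
    exact hs _ _ _ _ (by positivity) g1 g2

theorem res_linA (k : ℕ) (hk : 1 ≤ k) (ε η : ℝ) (hε : 0 < ε) (hη : 0 < η) : ∃ (δ : ℝ) (P₀ : ℕ), 0 < δ ∧
    ∀ P : ℕ, P₀ ≤ P → ∀ [Fact P.Prime] (a b : Fin k → ℤ),
    (∀ q : ℕ, q.Prime → ∃ n : ℕ, ∀ i, ¬ (q : ℤ) ∣ a i * n + b i) →
    ∀ (A : Finset (ZMod P)) (Γ : ℝ), 1 ≤ Γ →
    (∀ a : ZMod P, a ≠ 0 → ‖∑ x ∈ A, (ZMod.stdAddChar (a * x) : ℂ)‖ ≤ Γ) →
    ∀ M H : ℕ, H ≤ P → Γ * (P : ℝ) ^ (1 + ε) ≤ A.card * H → ∀ y : ℕ, 3 ≤ y → (y : ℝ) ≤ (P : ℝ) ^ δ →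
    AsL a b η M H y (fun n => (n : ZMod P) ∈ A) (A.card * H / P) := by
  obtain ⟨δ, T₀, hδ, hb⟩ := linA_of k hk (ε / 4) η (by linarith) hη
  obtain ⟨P1, hP1⟩ := res_equi ε hε
  refine ⟨δ, max P1 T₀, hδ, ?_⟩
  intro P hP _ a b hadm A Γ hΓ hA M H hH hAH y hy hyP
  exact hb P ((le_max_right _ _).trans hP) a b hadm M H _ _ (by positivity)
    (D.eqR_om P A _ M H _ (hP1 P ((le_max_left _ _).trans hP) A Γ hΓ hA M H hH hAH)) y hy hyP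

/-- discrete logarithms -/
theorem dlog_lin (k : ℕ) (hk : 1 ≤ k) (ε : ℝ) (hε : 0 < ε) (B : ℕ) : ∃ (r : ℕ) (δ c C : ℝ) (P₀ : ℕ),
    0 < δ ∧ 0 < c ∧ 0 < C ∧
    ∀ P : ℕ, P₀ ≤ P → ∀ [Fact P.Prime] (a b : Fin k → ℤ), (∀ i, a i ≠ 0) →
    (∀ q : ℕ, q.Prime → ∃ n : ℕ, ∀ i, ¬ (q : ℤ) ∣ a i * n + b i) → ∀ g : ZMod P, orderOf g = P - 1 →
    (∀ M H L K : ℕ, H ≤ P - 1 → K ≤ P → (P : ℝ) ^ (3 / 2 + ε) ≤ (H : ℝ) * K →
      BothL a b P r δ c C B M H (fun n => ∃ m : ℕ, L < m ∧ m ≤ L + K ∧ g ^ n = m) (K * H / P)) ∧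
    (∀ (S : Subgroup (ZMod P)ˣ) (b₀ : (ZMod P)ˣ) (s : ZMod P), s ≠ 0 → ∀ M H : ℕ, H ≤ P - 1 →
      (P : ℝ) ^ (3 / 2 + ε) ≤ (Nat.card S : ℝ) * H →
      BothL a b P r δ c C B M H (fun n => ∃ u ∈ S, g ^ n + s = (b₀ : ZMod P) * (u : ZMod P)) (Nat.card S * H / P)) ∧
    (∀ s : ZMod P, s ≠ 0 → ∀ M H : ℕ, H ≤ P - 1 → (P : ℝ) ^ (1 / 2 + ε) ≤ H →
      BothL a b P r δ c C B M H (fun n => orderOf (g ^ n + s) = P - 1) ((P - 1).totient * H / P)) := by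
  set δ₀ : ℝ := min (ε / 32) 1 with hδ₀
  have h01 : 0 < δ₀ := by rw [hδ₀]; positivity
  have h02 : δ₀ ≤ 1 := min_le_right _ _
  have h03 : δ₀ ≤ ε / 32 := min_le_left _ _
  obtain ⟨P1, hP1⟩ := D.dlog_fam ε (1 / 2) hε (by norm_num)
  obtain ⟨r, δ, c, C, T₀, hδ, hc, hC, hb⟩ := lin_of k hk δ₀ h01 h02 B
  refine ⟨r, δ, c / 2, 2 * C, max (max P1 T₀) 1, hδ, by positivity, by positivity, ?_⟩
  intro P hP _ a b ha hadm g hg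
  have h1 : P1 ≤ P := ((le_max_left _ _).trans (le_max_left _ _)).trans hP
  have h2 : T₀ ≤ P := ((le_max_right _ _).trans (le_max_left _ _)).trans hP
  have h3 : 1 ≤ P := (le_max_right _ _).trans hP
  have h3r : (1 : ℝ) ≤ P := by exact_mod_cast h3
  have hfl : ⌊(P : ℝ) ^ δ₀⌋₊ ≤ ⌊(P : ℝ) ^ (ε / 32)⌋₊ :=
    Nat.floor_le_floor (Real.rpow_le_rpow_of_exponent_le h3r h03)
  have hf1 : 1 ≤ ⌊(P : ℝ) ^ δ₀⌋₊ := by
    rw [Nat.one_le_floor_iff]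
    exact Real.one_le_rpow h3r h01.le
  obtain ⟨f1, f2, f3⟩ := hP1 P h1 g hg
  refine ⟨?_, ?_, ?_⟩
  · intro M H L K hH hK hHK
    obtain ⟨N, hN1, hN2, hN3⟩ := f1 M H L K hH hK hHK
    have h0 : (0 : ℝ) ≤ K * H / P := by positivity
    exact BothL.scale (hb P h2 a b ha hadm M H _ N (by linarith) (hN3.mono hfl hf1 (by linarith))) hc hC h0 hN1 hN2
  · intro S b₀ s hs M H hH hSH
    obtain ⟨N, hN1, hN2, hN3⟩ := f2 S b₀ s hs M H hH hSH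
    have h0 : (0 : ℝ) ≤ Nat.card S * H / P := by positivity
    exact BothL.scale (hb P h2 a b ha hadm M H _ N (by linarith) (hN3.mono hfl hf1 (by linarith))) hc hC h0 hN1 hN2
  · intro s hs M H hH hPH
    obtain ⟨N, hN1, hN2, hN3⟩ := f3 s hs M H hH hPH
    have h0 : (0 : ℝ) ≤ (P - 1).totient * H / P := by positivity
    exact BothL.scale (hb P h2 a b ha hadm M H _ N (by linarith) (hN3.mono hfl hf1 (by linarith))) hc hC h0 hN1 hN2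

theorem dlog_linA (k : ℕ) (hk : 1 ≤ k) (ε η : ℝ) (hε : 0 < ε) (hη : 0 < η) : ∃ (δ : ℝ) (P₀ : ℕ), 0 < δ ∧
    ∀ P : ℕ, P₀ ≤ P → ∀ [Fact P.Prime] (a b : Fin k → ℤ),
    (∀ q : ℕ, q.Prime → ∃ n : ℕ, ∀ i, ¬ (q : ℤ) ∣ a i * n + b i) → ∀ g : ZMod P, orderOf g = P - 1 →
    ∀ y : ℕ, 3 ≤ y → (y : ℝ) ≤ (P : ℝ) ^ δ →
    (∀ M H L K : ℕ, H ≤ P - 1 → K ≤ P → (P : ℝ) ^ (3 / 2 + ε) ≤ (H : ℝ) * K →
      AsL a b η M H y (fun n => ∃ m : ℕ, L < m ∧ m ≤ L + K ∧ g ^ n = m) (K * H / P)) ∧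
    (∀ (S : Subgroup (ZMod P)ˣ) (b₀ : (ZMod P)ˣ) (s : ZMod P), s ≠ 0 → ∀ M H : ℕ, H ≤ P - 1 →
      (P : ℝ) ^ (3 / 2 + ε) ≤ (Nat.card S : ℝ) * H →
      AsL a b η M H y (fun n => ∃ u ∈ S, g ^ n + s = (b₀ : ZMod P) * (u : ZMod P)) (Nat.card S * H / P)) ∧
    (∀ s : ZMod P, s ≠ 0 → ∀ M H : ℕ, H ≤ P - 1 → (P : ℝ) ^ (1 / 2 + ε) ≤ H →
      AsL a b η M H y (fun n => orderOf (g ^ n + s) = P - 1) ((P - 1).totient * H / P)) := by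
  set η' : ℝ := min 1 (η / 3) with hη'
  have g1 : 0 < η' := by rw [hη']; positivity
  have g2 : η' ≤ 1 := min_le_left _ _
  have g3 : 3 * η' ≤ η := by
    have : η' ≤ η / 3 := min_le_right _ _
    linarith
  obtain ⟨P1, hP1⟩ := D.dlog_fam ε η' hε g1
  obtain ⟨δ, T₀, hδ, hb⟩ := linA_of k hk (ε / 32) η' (by linarith) g1
  refine ⟨δ, max (max P1 T₀) 1, hδ, ?_⟩
  intro P hP _ a b hadm g hg y hy hyP
  have h1 : P1 ≤ P := ((le_max_left _ _).trans (le_max_left _ _)).trans hP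
  have h2 : T₀ ≤ P := ((le_max_right _ _).trans (le_max_left _ _)).trans hP
  obtain ⟨f1, f2, f3⟩ := hP1 P h1 g hg
  refine ⟨?_, ?_, ?_⟩
  · intro M H L K hH hK hHK
    obtain ⟨N, hN1, hN2, hN3⟩ := f1 M H L K hH hK hHK
    have h0 : (0 : ℝ) ≤ K * H / P := by positivity
    have hN0 : 0 ≤ N := le_trans (mul_nonneg (by linarith) h0) hN1
    exact (hb P h2 a b hadm M H _ N hN0 hN3 y hy hyP).scale g1 g2 g3 h0 hN1 hN2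
  · intro S b₀ s hs M H hH hSH
    obtain ⟨N, hN1, hN2, hN3⟩ := f2 S b₀ s hs M H hH hSH
    have h0 : (0 : ℝ) ≤ Nat.card S * H / P := by positivity
    have hN0 : 0 ≤ N := le_trans (mul_nonneg (by linarith) h0) hN1
    exact (hb P h2 a b hadm M H _ N hN0 hN3 y hy hyP).scale g1 g2 g3 h0 hN1 hN2
  · intro s hs M H hH hPH
    obtain ⟨N, hN1, hN2, hN3⟩ := f3 s hs M H hH hPH
    have h0 : (0 : ℝ) ≤ (P - 1).totient * H / P := by positivity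
    have hN0 : 0 ≤ N := le_trans (mul_nonneg (by linarith) h0) hN1
    exact (hb P h2 a b hadm M H _ N hN0 hN3 y hy hyP).scale g1 g2 g3 h0 hN1 hN2

section Digits

variable {G : Type} [AddCommGroup G] [Fintype G]

/-- digital functions -/
theorem dig_lin (b : ℕ) (hb : 2 ≤ b) (S : ℕ → G)
    (hS : ∀ n d, d < b → S (b * n + d) = S n + S d)
    (hN : ∀ χ : AddChar G ℂ, χ ≠ 0 → ¬ (χ (S 1) ^ (b - 1) = 1 ∧ ∀ d < b, χ (S d) = χ (S 1) ^ d))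
    (k : ℕ) (hk : 1 ≤ k) (B : ℕ) : ∃ (r : ℕ) (δ c C : ℝ) (H₀ : ℕ), 0 < δ ∧ 0 < c ∧ 0 < C ∧
    ∀ H : ℕ, H₀ ≤ H → ∀ (α β : Fin k → ℤ), (∀ i, α i ≠ 0) →
    (∀ q : ℕ, q.Prime → ∃ n : ℕ, ∀ i, ¬ (q : ℤ) ∣ α i * n + β i) → ∀ (M : ℕ) (g : G),
    BothL α β H r δ c C B M H (fun n => S n = g) (H / Fintype.card G) := by
  classical
  obtain ⟨δ₀, h1, h2, H0, h3⟩ := Pool.Agent.X55.Fam.S.dig_fam b hb S hS hN
  obtain ⟨r, δ, c, C, T₀, hδ, hc, hC, hbb⟩ := lin_of k hk δ₀ h1 h2 B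
  refine ⟨r, δ, c, C, max H0 T₀, hδ, hc, hC, ?_⟩
  intro H hH α β hα hadm M g
  exact hbb H ((le_max_right _ _).trans hH) α β hα hadm M H _ _ (by positivity)
    (h3 H ((le_max_left _ _).trans hH) M g)

theorem dig_linA (b : ℕ) (hb : 2 ≤ b) (S : ℕ → G)
    (hS : ∀ n d, d < b → S (b * n + d) = S n + S d)
    (hN : ∀ χ : AddChar G ℂ, χ ≠ 0 → ¬ (χ (S 1) ^ (b - 1) = 1 ∧ ∀ d < b, χ (S d) = χ (S 1) ^ d))
    (k : ℕ) (hk : 1 ≤ k) (η : ℝ) (hη : 0 < η) : ∃ (δ : ℝ) (H₀ : ℕ), 0 < δ ∧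
    ∀ H : ℕ, H₀ ≤ H → ∀ (α β : Fin k → ℤ),
    (∀ q : ℕ, q.Prime → ∃ n : ℕ, ∀ i, ¬ (q : ℤ) ∣ α i * n + β i) → ∀ (M : ℕ) (g : G) (y : ℕ), 3 ≤ y →
    (y : ℝ) ≤ (H : ℝ) ^ δ → AsL α β η M H y (fun n => S n = g) (H / Fintype.card G) := by
  classical
  obtain ⟨δ₀, h1, h2, H0, h3⟩ := Pool.Agent.X55.Fam.S.dig_fam b hb S hS hN
  obtain ⟨δ, T₀, hδ, hbb⟩ := linA_of k hk δ₀ η h1 hη
  refine ⟨δ, max H0 T₀, hδ, ?_⟩
  intro H hH α β hadm M g y hy hyH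
  exact hbb H ((le_max_right _ _).trans hH) α β hadm M H _ _ (by positivity)
    (h3 H ((le_max_left _ _).trans hH) M g) y hy hyH

open Polynomial in
theorem dig_cor (b : ℕ) (hb : 2 ≤ b) (S : ℕ → G)
    (hS : ∀ n d, d < b → S (b * n + d) = S n + S d)
    (hN : ∀ χ : AddChar G ℂ, χ ≠ 0 → ¬ (χ (S 1) ^ (b - 1) = 1 ∧ ∀ d < b, χ (S d) = χ (S 1) ^ d))
    {k : ℕ} {f : Fin k → ℤ[X]} (h : Sys k f) (F : Fin k → ℕ → ℕ)
    (hF : ∀ (i : Fin k) (n : ℕ), ((f i).eval (n : ℤ)).natAbs = F i n) (B : ℕ) :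
    ∃ (r : ℕ) (δ c C : ℝ) (H₀ : ℕ), 0 < δ ∧ 0 < c ∧ 0 < C ∧
    ∀ H : ℕ, H₀ ≤ H → ∀ (M : ℕ) (g : G), Both F H r δ c C B M H (fun n => S n = g) (H / Fintype.card G) := by
  classical
  obtain ⟨δ₀, h1, h2, H0, h3⟩ := Pool.Agent.X55.Fam.S.dig_fam b hb S hS hN
  obtain ⟨r, δ, c, C, T₀, hδ, hc, hC, hbb⟩ := both_of h F hF δ₀ h1 B
  refine ⟨r, δ, c, C, max H0 T₀, hδ, hc, hC, ?_⟩
  intro H hH M g
  exact hbb H ((le_max_right _ _).trans hH) M H _ _ (by positivity) (h3 H ((le_max_left _ _).trans hH) M g)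

open Polynomial in
theorem dig_corA (b : ℕ) (hb : 2 ≤ b) (S : ℕ → G)
    (hS : ∀ n d, d < b → S (b * n + d) = S n + S d)
    (hN : ∀ χ : AddChar G ℂ, χ ≠ 0 → ¬ (χ (S 1) ^ (b - 1) = 1 ∧ ∀ d < b, χ (S d) = χ (S 1) ^ d))
    {k : ℕ} {f : Fin k → ℤ[X]} (h : Sys k f) (F : Fin k → ℕ → ℕ)
    (hF : ∀ (i : Fin k) (n : ℕ), ((f i).eval (n : ℤ)).natAbs = F i n) (η : ℝ) (hη : 0 < η) :
    ∃ (δ : ℝ) (H₀ : ℕ), 0 < δ ∧ ∀ H : ℕ, H₀ ≤ H → ∀ (M : ℕ) (g : G) (y : ℕ), 3 ≤ y → (y : ℝ) ≤ (H : ℝ) ^ δ →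
    Asym F η M H y (fun n => S n = g) (H / Fintype.card G) := by
  classical
  obtain ⟨δ₀, h1, h2, H0, h3⟩ := Pool.Agent.X55.Fam.S.dig_fam b hb S hS hN
  obtain ⟨δ, T₀, hδ, hbb⟩ := asym_of h F hF δ₀ η h1 hη
  refine ⟨δ, max H0 T₀, hδ, ?_⟩
  intro H hH M g y hy hyH
  exact hbb H ((le_max_right _ _).trans hH) M H _ _ (by positivity) (h3 H ((le_max_left _ _).trans hH) M g) y hy hyH

end Digits

end Pool.Agent.X55.Fam
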