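import Pool.Agent.X55.Fam.Main

set_option autoImplicit false

/-! # The sieve for a well distributed family, uniformly in the removed residue classes -/

namespace Pool.Agent.X55.Fam

open Finset Filter Pool.Agent.H373R2.T7 Polynomial
open Pool.Agent.H474R2.PG

/-- Mertens' theorem -/
lemma mert1 : ∃ C : ℝ, 0 ≤ C ∧ ∀ y : ℕ, 3 ≤ y → |∑ p ∈ pz y, (1 : ℝ) / p - Real.log (Real.log y)| ≤ C := by
  obtain ⟨C, hC, h⟩ := Pool.Agent.H474R2.GE.mertens_rho X irreducible_X (by rw [natDegree_X]; exact one_pos)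
  refine ⟨C, hC, fun y hy => ?_⟩
  have h1 := h y (by exact_mod_cast hy)
  unfold Sg at h1
  rw [Pool.Agent.X55.Pal.PR_eq] at h1
  have h2 : ∑ p ∈ pz y, (rho (X : ℤ[X]) p : ℝ) / p = ∑ p ∈ pz y, (1 : ℝ) / p := by
    refine sum_congr rfl fun p hp => ?_
    rw [mem_pz] at hp
    have h3 : rho (X : ℤ[X]) p = 1 := by
      unfold rho
      rw [card_eq_one]
      refine ⟨0, ?_⟩
      ext a
      rw [mem_filter, mem_range, mem_singleton, eval_X]
      constructor
      · rintro ⟨h4, h5⟩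
        have h6 : p ∣ a := by exact_mod_cast h5
        exact Nat.eq_zero_of_dvd_of_lt h6 h4
      · rintro rfl
        exact ⟨hp.2.pos, by simp⟩
    rw [h3, Nat.cast_one]
  rwa [h2] at h1

/-- the product of the local factors -/
noncomputable def VQ (Q : ℕ → ℕ → Prop) (y : ℕ) : ℝ := ∏ p ∈ pz y, (1 - (nuB Q p : ℝ) / p)

/-- the maximal local densities -/
def numax (c p : ℕ) : ℕ := if p ≤ 2 * c then p - 1 else c

lemma numax_bounds (c : ℕ) (hc : 1 ≤ c) : ∃ c1 C1 : ℝ, 0 < c1 ∧ 0 < C1 ∧ ∀ y : ℕ, 3 ≤ y →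
    c1 / Real.log y ^ c ≤ ∏ p ∈ pz y, (1 - (numax c p : ℝ) / p) ∧
    ∏ p ∈ pz y, (1 - (numax c p : ℝ) / p) ≤ C1 / Real.log y ^ c := by
  obtain ⟨C, hC, hM⟩ := mert1
  refine prod_bounds (numax c) (2 * c) c (by omega) ?_ ?_ (c * C + (2 * c + 1) * (3 * c)) ?_
  · intro p _
    unfold numax
    split_ifs <;> omega
  · intro p hp
    have := hp.two_le
    unfold numax
    split_ifs <;> omega
  · intro y hy
    have h1 : ∑ p ∈ pz y, (numax c p : ℝ) / p - c * Real.log (Real.log y) =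
        c * (∑ p ∈ pz y, (1 : ℝ) / p - Real.log (Real.log y)) + ∑ p ∈ pz y, ((numax c p : ℝ) - c) / p := by
      rw [mul_sub, mul_sum]
      have : ∑ p ∈ pz y, (numax c p : ℝ) / p = ∑ p ∈ pz y, (c : ℝ) * (1 / p) + ∑ p ∈ pz y, ((numax c p : ℝ) - c) / p := by
        rw [← sum_add_distrib]
        refine sum_congr rfl fun p _ => ?_
        ring
      rw [this]
      ring
    rw [h1]
    refine (abs_add_le _ _).trans (add_le_add ?_ ?_)
    · rw [abs_mul, Nat.abs_cast]
      exact mul_le_mul_of_nonneg_left (hM y hy) (Nat.cast_nonneg _)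
    · refine (abs_sum_le_sum_abs _ _).trans ?_
      calc ∑ p ∈ pz y, |((numax c p : ℝ) - c) / p| ≤ ∑ p ∈ pz y, if p ≤ 2 * c then (3 * c : ℝ) else 0 := by
            refine sum_le_sum fun p hp => ?_
            rw [mem_pz] at hp
            have hp1 : (1 : ℝ) ≤ p := by exact_mod_cast hp.2.one_le
            split_ifs with h2
            · rw [abs_div, abs_of_pos (by linarith : (0 : ℝ) < p), div_le_iff₀ (by linarith)]
              have h3 : (numax c p : ℝ) ≤ 2 * c := by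
                have : numax c p ≤ 2 * c := by unfold numax; split_ifs; omega
                exact_mod_cast this
              have h4 : (0 : ℝ) ≤ numax c p := Nat.cast_nonneg _
              have h5 : (0 : ℝ) ≤ c := Nat.cast_nonneg _
              have h6 : |(numax c p : ℝ) - c| ≤ 3 * c := by rw [abs_le]; constructor <;> linarith
              nlinarith
            · have : numax c p = c := by unfold numax; rw [if_neg h2]
              rw [this, sub_self, zero_div, abs_zero]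
        _ = ((pz y).filter (fun p => p ≤ 2 * c)).card * (3 * c : ℝ) := by rw [← sum_filter, sum_const, nsmul_eq_mul]
        _ ≤ (2 * c + 1) * (3 * c) := by
            apply mul_le_mul_of_nonneg_right _ (by positivity)
            have h3 : ((pz y).filter (fun p => p ≤ 2 * c)).card ≤ (range (2 * c + 1)).card := by
              apply card_le_card
              intro p hp
              rw [mem_filter] at hp
              rw [mem_range]
              omega
            rw [card_range] at h3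
            exact_mod_cast h3

/-- admissible removed classes: at most `c` for each prime and never all of them -/
structure Adm (Q : ℕ → ℕ → Prop) (c : ℕ) : Prop where
  per : PerB Q c
  lt : ∀ p : ℕ, p.Prime → nuB Q p < p

variable {Q : ℕ → ℕ → Prop} {c : ℕ}

lemma Adm.le_numax (h : Adm Q c) (p : ℕ) (hp : p.Prime) : nuB Q p ≤ numax c p := by
  have h1 := h.lt p hp
  have h2 := h.per.few p hp
  unfold numax
  split_ifs <;> omega

lemma Adm.fac_le (h : Adm Q c) (p : ℕ) (hp : p.Prime) : 1 - (numax c p : ℝ) / p ≤ 1 - (nuB Q p : ℝ) / p := by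
  have hp0 : (0 : ℝ) < p := by exact_mod_cast hp.pos
  have h1 : (nuB Q p : ℝ) ≤ numax c p := by exact_mod_cast h.le_numax p hp
  have h2 : (nuB Q p : ℝ) / p ≤ numax c p / p := by gcongr
  linarith

lemma numax_fac (c p : ℕ) (hp : p.Prime) (hc : 1 ≤ c) : 0 < 1 - (numax c p : ℝ) / p := by
  have hp0 : (0 : ℝ) < p := by exact_mod_cast hp.pos
  have h1 : numax c p < p := by
    have := hp.two_le
    unfold numax
    split_ifs <;> omega
  have h2 : (numax c p : ℝ) / p < 1 := by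
    rw [div_lt_one hp0]
    exact_mod_cast h1
  linarith

lemma fac_le_one (Q : ℕ → ℕ → Prop) (p : ℕ) : 1 - (nuB Q p : ℝ) / p ≤ 1 := by
  have : 0 ≤ (nuB Q p : ℝ) / p := by positivity
  linarith

lemma VQ_low (c : ℕ) (hc : 1 ≤ c) : ∃ c1 : ℝ, 0 < c1 ∧ ∀ Q : ℕ → ℕ → Prop, Adm Q c → ∀ y : ℕ, 3 ≤ y →
    c1 / Real.log y ^ c ≤ VQ Q y := by
  obtain ⟨c1, C1, hc1, _, h⟩ := numax_bounds c hc
  refine ⟨c1, hc1, fun Q hQ y hy => (h y hy).1.trans ?_⟩
  exact prod_le_prod (fun p hp => (numax_fac c p (mem_pz.1 hp).2 hc).le) fun p hp => hQ.fac_le p (mem_pz.1 hp).2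

lemma VQ_nonneg (Q : ℕ → ℕ → Prop) (y : ℕ) : 0 ≤ VQ Q y := by
  apply prod_nonneg
  intro p hp
  have hp0 : (0 : ℝ) < p := by exact_mod_cast (mem_pz.1 hp).2.pos
  have h1 : (nuB Q p : ℝ) / p ≤ 1 := by rw [div_le_one hp0]; exact_mod_cast nuB_le Q p
  linarith

lemma pz_split {y Z : ℕ} (h : y ≤ Z) : pz Z = pz y ∪ (pz Z).filter (fun p => y < p) := by
  ext p
  rw [mem_union, mem_filter, mem_pz, mem_pz]
  constructor
  · rintro ⟨h1, h2⟩
    rcases Nat.lt_or_ge y p with h3 | h3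
    · exact Or.inr ⟨⟨h1, h2⟩, h3⟩
    · exact Or.inl ⟨h3, h2⟩
  · rintro (⟨h1, h2⟩ | ⟨⟨h1, h2⟩, h3⟩)
    · exact ⟨h1.trans h, h2⟩
    · exact ⟨h1, h2⟩

lemma pz_disj {y Z : ℕ} : Disjoint (pz y) ((pz Z).filter (fun p => y < p)) := by
  rw [disjoint_left]
  intro p hp hp'
  rw [mem_pz] at hp
  rw [mem_filter] at hp'
  omega

lemma VQ_anti {y Z : ℕ} (h : y ≤ Z) : VQ Q Z ≤ VQ Q y := by
  unfold VQ
  rw [pz_split h, prod_union pz_disj]
  apply mul_le_of_le_one_right (VQ_nonneg Q y)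
  apply prod_le_one
  · intro p hp
    rw [mem_filter, mem_pz] at hp
    have hp0 : (0 : ℝ) < p := by exact_mod_cast hp.1.2.pos
    have h1 : (nuB Q p : ℝ) / p ≤ 1 := by rw [div_le_one hp0]; exact_mod_cast nuB_le Q p
    linarith
  · intro p _
    exact fac_le_one Q p

/-- the product does not change much between `y` and `y ^ K` -/
lemma VQ_ratio (c K : ℕ) (hc : 1 ≤ c) (hK : 1 ≤ K) : ∃ C2 : ℝ, 0 < C2 ∧ ∀ Q : ℕ → ℕ → Prop, Adm Q c → ∀ y Z : ℕ, 3 ≤ y →
    y ≤ Z → Z ≤ y ^ K → VQ Q y ≤ C2 * VQ Q Z := by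
  obtain ⟨c1, C1, hc1, hC1, h⟩ := numax_bounds c hc
  refine ⟨C1 * (K : ℝ) ^ c / c1, by positivity, fun Q hQ y Z hy hyZ hZK => ?_⟩
  have hlogy : 0 < Real.log y := Real.log_pos (by exact_mod_cast (by omega : 1 < y))
  have hlogZ : 0 < Real.log Z := Real.log_pos (by exact_mod_cast (by omega : 1 < Z))
  have hZ0 : (0 : ℝ) < Z := by exact_mod_cast (by omega : 0 < Z)
  have hlZ : Real.log Z ≤ K * Real.log y := by
    have h1 : Real.log Z ≤ Real.log ((y : ℝ) ^ K) := Real.log_le_log hZ0 (by exact_mod_cast hZK)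
    rwa [Real.log_pow] at h1
  set R : ℝ := ∏ p ∈ (pz Z).filter (fun p => y < p), (1 - (nuB Q p : ℝ) / p) with hR
  set R' : ℝ := ∏ p ∈ (pz Z).filter (fun p => y < p), (1 - (numax c p : ℝ) / p) with hR'
  have hRR : R' ≤ R := prod_le_prod
    (fun p hp => (numax_fac c p (mem_pz.1 (mem_filter.1 hp).1).2 hc).le)
    fun p hp => hQ.fac_le p (mem_pz.1 (mem_filter.1 hp).1).2
  have h1 : VQ Q Z = VQ Q y * R := by
    unfold VQ
    rw [pz_split hyZ, prod_union pz_disj]
  have h2 : ∏ p ∈ pz Z, (1 - (numax c p : ℝ) / p) = (∏ p ∈ pz y, (1 - (numax c p : ℝ) / p)) * R' := by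
    rw [pz_split hyZ, prod_union pz_disj]
  have hR'0 : 0 < R' := prod_pos fun p hp => numax_fac c p (mem_pz.1 (mem_filter.1 hp).1).2 hc
  have h3 : c1 / (C1 * (K : ℝ) ^ c) ≤ R' := by
    have h4 := (h Z (hy.trans hyZ)).1
    have h5 := (h y hy).2
    rw [h2] at h4
    have h6 : c1 / Real.log Z ^ c ≤ C1 / Real.log y ^ c * R' := h4.trans (mul_le_mul_of_nonneg_right h5 hR'0.le)
    have h7 : c1 / (K * Real.log y) ^ c ≤ c1 / Real.log Z ^ c := by gcongr
    have h8 := h7.trans h6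
    rw [mul_pow] at h8
    have hKc : (0 : ℝ) < (K : ℝ) ^ c := by positivity
    have hly : 0 < Real.log y ^ c := by positivity
    rw [div_mul_eq_mul_div, div_le_div_iff₀ (by positivity) hly] at h8
    rw [div_le_iff₀ (by positivity)]
    have h9 : c1 * Real.log y ^ c ≤ (R' * (C1 * (K : ℝ) ^ c)) * Real.log y ^ c := by
      calc c1 * Real.log y ^ c ≤ C1 * R' * ((K : ℝ) ^ c * Real.log y ^ c) := h8
        _ = _ := by ring
    exact le_of_mul_le_mul_right h9 hly
  rw [h1]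
  have hVy := VQ_nonneg Q y
  have h4 : 1 ≤ C1 * (K : ℝ) ^ c / c1 * R := by
    have h5 : c1 / (C1 * (K : ℝ) ^ c) ≤ R := h3.trans hRR
    have h6 : C1 * (K : ℝ) ^ c / c1 * (c1 / (C1 * (K : ℝ) ^ c)) = 1 := by field_simp
    calc (1 : ℝ) = C1 * (K : ℝ) ^ c / c1 * (c1 / (C1 * (K : ℝ) ^ c)) := h6.symm
      _ ≤ _ := by gcongr
  calc VQ Q y = VQ Q y * 1 := (mul_one _).symm
    _ ≤ VQ Q y * (C1 * (K : ℝ) ^ c / c1 * R) := mul_le_mul_of_nonneg_left h4 hVy
    _ = _ := by ring

open Classical in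
/-- the asymptotic formula, uniformly in `Q` -/
theorem uni_asym (c : ℕ) (hc : 1 ≤ c) (ε : ℝ) (hε : 0 < ε) : ∃ K X₀ : ℕ, 1 ≤ K ∧ ∀ X : ℕ, X₀ ≤ X →
    ∀ (Ω : Finset ℕ) (v : ℕ → ℕ) (A : ℝ), 0 ≤ A → Equi X Ω v A → ∀ y : ℕ, 3 ≤ y → y ^ K ≤ X →
    ∀ Q : ℕ → ℕ → Prop, Adm Q c →
    |((Ω.filter (fun n => ∀ p ∈ pz y, ¬ Q p (v n))).card : ℝ) - A * VQ Q y| ≤ ε * (A * VQ Q y) := by
  obtain ⟨K1, K0, hK1, hK0, hgen⟩ := gen c hc (ε / 2) (by positivity)
  obtain ⟨c1, hc1, hV⟩ := VQ_low c hc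
  set K := 2 * K1 * (c + 3) with hK
  have hKpos : 1 ≤ K := by rw [hK]; nlinarith
  have hev : ∀ᶠ X : ℝ in atTop, 4 / (ε * c1) * Real.log X ^ c ≤ X := by
    have h1 := (Real.isLittleO_pow_log_id_atTop (n := c)).def (show (0 : ℝ) < (ε * c1) / 4 by positivity)
    filter_upwards [h1, eventually_ge_atTop (1 : ℝ)] with X hX hX1
    rw [Real.norm_eq_abs, abs_of_nonneg (pow_nonneg (Real.log_nonneg hX1) _), id, Real.norm_eq_abs,
      abs_of_nonneg (by linarith)] at hX
    rw [div_mul_eq_mul_div, div_le_iff₀ (by positivity)]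
    linarith
  obtain ⟨X1, hX1⟩ := eventually_atTop.mp hev
  refine ⟨K, max (max (K0 ^ (2 * (c + 3))) 2) ⌈X1⌉₊, hKpos, fun X hX Ω v A hA hE y hy hyK Q hQ => ?_⟩
  have hX0 : K0 ^ (2 * (c + 3)) ≤ X := ((le_max_left _ _).trans (le_max_left _ _)).trans hX
  have hX2 : 2 ≤ X := ((le_max_right _ _).trans (le_max_left _ _)).trans hX
  have hX3 : X1 ≤ (X : ℝ) := (Nat.le_ceil _).trans (by exact_mod_cast (le_max_right _ _).trans hX)
  have hXr : (2 : ℝ) ≤ X := by exact_mod_cast hX2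
  set D := K0 * y ^ K1 with hD
  have hD1 : 1 ≤ D := Nat.mul_pos hK0 (pow_pos (by omega) _)
  have hDX : D ^ (c + 3) ≤ X := by
    have h1 : (D ^ (c + 3)) ^ 2 ≤ X ^ 2 := by
      calc (D ^ (c + 3)) ^ 2 = K0 ^ (2 * (c + 3)) * y ^ K := by
            rw [hD, hK, ← pow_mul, mul_pow, ← pow_mul]
            ring
        _ ≤ X * X := Nat.mul_le_mul hX0 hyK
        _ = X ^ 2 := by ring
    exact (Nat.pow_le_pow_iff_left (by norm_num)).1 h1
  have hDX' : D ≤ X := (Nat.le_self_pow (by omega) D).trans hDX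
  have key := hgen 1 y (by omega) Ω v A (fun _ => A / (X : ℝ) ^ 2) hA (fun _ => by positivity)
    (fun d hd _ hd2 r => hE d hd (hd2.trans hDX') r) Q hQ.per
  have hf1 : (pz y).filter (fun p => ¬ p ∣ 1) = pz y := by
    apply filter_true_of_mem
    intro p hp h1
    exact (mem_pz.1 hp).2.one_lt.ne' (Nat.dvd_one.1 h1)
  have hf2 : Ω.filter (fun n => ∀ p ∈ pz y, ¬ p ∣ 1 → ¬ Q p (v n)) =
      Ω.filter (fun n => ∀ p ∈ pz y, ¬ Q p (v n)) := by
    apply filter_congr
    intro n _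
    refine forall_congr' fun p => forall_congr' fun hp => ?_
    have : ¬ p ∣ 1 := fun h1 => (mem_pz.1 hp).2.one_lt.ne' (Nat.dvd_one.1 h1)
    simp only [this, not_false_eq_true, true_imp_iff]
  rw [hf1, hf2] at key
  have hVd : ∏ p ∈ pz y, (1 - (nuB Q p : ℝ) / p) = VQ Q y := rfl
  rw [hVd] at key
  have hlogy : 0 < Real.log y := Real.log_pos (by exact_mod_cast (by omega : 1 < y))
  have hV1 := hV Q hQ y hy
  have hVpos : 0 < VQ Q y := lt_of_lt_of_le (by positivity) hV1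
  have hyX : y ≤ X := (Nat.le_self_pow (by omega) y).trans hyK
  have herr : ((JJ y : ℝ) + 2) * (K0 * ∑ d ∈ (Icc 1 D).filter (fun d => d.Coprime 1),
      (c : ℝ) ^ d.primeFactors.card * (A / (X : ℝ) ^ 2)) ≤ ε / 2 * (A * VQ Q y) := by
    have e1 : ∑ d ∈ (Icc 1 D).filter (fun d => d.Coprime 1), (c : ℝ) ^ d.primeFactors.card * (A / (X : ℝ) ^ 2) ≤
        (D : ℝ) ^ (c + 1) * (A / (X : ℝ) ^ 2) := by
      rw [← sum_mul]
      apply mul_le_mul_of_nonneg_right _ (by positivity)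
      calc ∑ d ∈ (Icc 1 D).filter (fun d => d.Coprime 1), (c : ℝ) ^ d.primeFactors.card ≤
          ∑ d ∈ Icc 1 D, (D : ℝ) ^ c := by
            refine (sum_le_sum_of_subset_of_nonneg (filter_subset _ _) fun _ _ _ => by positivity).trans ?_
            refine sum_le_sum fun d hd => ?_
            rw [mem_Icc] at hd
            refine (pow_card_le c d (by omega)).trans ?_
            gcongr
            exact hd.2
        _ = (D : ℝ) ^ (c + 1) := by
            rw [sum_const, Nat.card_Icc, Nat.add_sub_cancel, nsmul_eq_mul, pow_succ]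
            ring
    have e2 : (JJ y : ℝ) + 2 ≤ 2 * D := by
      have h1 := Pool.Agent.X55.Pal.JJ_le_self y
      have h2 : Nat.log 2 y + 2 ≤ y := by
        have h4 : 2 ^ Nat.log 2 y ≤ y := Nat.pow_log_le_self 2 (by omega)
        by_contra hcon
        push Not at hcon
        have h5 : y - 1 ≤ Nat.log 2 y := by omega
        have h6 : 2 ^ (y - 1) ≤ y := (Nat.pow_le_pow_right (by norm_num) h5).trans h4
        have h7 : ∀ m : ℕ, 2 ≤ m → m + 1 < 2 ^ m := by
          intro m hm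
          induction m, hm using Nat.le_induction with
          | base => norm_num
          | succ m _ ih => rw [pow_succ]; omega
        have h8 := h7 (y - 1) (by omega)
        omega
      have h3 : y ≤ D := by
        calc y ≤ y ^ K1 := Nat.le_self_pow (by omega) y
          _ ≤ D := Nat.le_mul_of_pos_left _ hK0
      have h4 : JJ y + 2 ≤ 2 * D := by omega
      exact_mod_cast h4
    have e3 : (K0 : ℝ) ≤ D := by
      have : K0 ≤ D := Nat.le_mul_of_pos_right _ (pow_pos (by omega) _)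
      exact_mod_cast this
    have hD0 : (0 : ℝ) ≤ D := Nat.cast_nonneg _
    have e4 : ((JJ y : ℝ) + 2) * (K0 * ∑ d ∈ (Icc 1 D).filter (fun d => d.Coprime 1),
        (c : ℝ) ^ d.primeFactors.card * (A / (X : ℝ) ^ 2)) ≤ 2 * D * (D * ((D : ℝ) ^ (c + 1) * (A / (X : ℝ) ^ 2))) := by
      apply mul_le_mul e2 _ _ (by positivity)
      · apply mul_le_mul e3 e1 _ hD0
        apply sum_nonneg
        intro d _
        positivity
      · apply mul_nonneg (Nat.cast_nonneg _)
        apply sum_nonneg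
        intro d _
        positivity
    refine e4.trans ?_
    have e5 : (D : ℝ) ^ (c + 3) ≤ X := by exact_mod_cast hDX
    have e6 : 2 * D * (D * ((D : ℝ) ^ (c + 1) * (A / (X : ℝ) ^ 2))) ≤ A * (2 / X) := by
      calc 2 * D * (D * ((D : ℝ) ^ (c + 1) * (A / (X : ℝ) ^ 2))) = (D : ℝ) ^ (c + 3) * (2 * A / (X : ℝ) ^ 2) := by
            rw [show c + 3 = (c + 1) + 1 + 1 by ring, pow_succ, pow_succ]
            ring
        _ ≤ X * (2 * A / (X : ℝ) ^ 2) := by gcongr
        _ = A * (2 / X) := by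
            field_simp
    refine e6.trans ?_
    have hXl := hX1 X hX3
    have hlX : Real.log y ≤ Real.log X := Real.log_le_log (by positivity) (by exact_mod_cast hyX)
    have hlX0 : 0 < Real.log X := lt_of_lt_of_le hlogy hlX
    have e7 : 2 / (X : ℝ) ≤ ε / 2 * VQ Q y := by
      calc 2 / (X : ℝ) ≤ 2 / (4 / (ε * c1) * Real.log X ^ c) := by
            apply div_le_div_of_nonneg_left (by norm_num) (by positivity) hXl
        _ = ε / 2 * (c1 / Real.log X ^ c) := by
            field_simp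
            ring
        _ ≤ ε / 2 * (c1 / Real.log y ^ c) := by gcongr
        _ ≤ _ := by gcongr
    calc A * (2 / X) ≤ A * (ε / 2 * VQ Q y) := mul_le_mul_of_nonneg_left e7 hA
      _ = _ := by ring
  have key' : |((Ω.filter (fun n => ∀ p ∈ pz y, ¬ Q p (v n))).card : ℝ) - A * VQ Q y| ≤
      ε / 2 * (A * VQ Q y) + ((JJ y : ℝ) + 2) * (K0 * ∑ d ∈ (Icc 1 D).filter (fun d => d.Coprime 1),
        (c : ℝ) ^ d.primeFactors.card * (A / (X : ℝ) ^ 2)) := by
    convert key
  linarith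

end Pool.Agent.X55.Fam
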