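import Pool.Agent.X55.Fam.Poly
import Pool.Agent.X55.Pal.Pal4

set_option autoImplicit false

/-! # The sieve for the values of systems of polynomials at a well distributed family of integers -/

namespace Pool.Agent.X55.Fam

open Finset Filter Pool.Agent.H373R2.T7 Polynomial

variable {k : ℕ} {f : Fin k → ℤ[X]}

/-- The family `v n`, `n ∈ Ω`, is well distributed in the residue classes of the moduli up to `X`, with `A` elements
approximately. -/
def Equi (X : ℕ) (Ω : Finset ℕ) (v : ℕ → ℕ) (A : ℝ) : Prop :=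
  ∀ d : ℕ, 1 ≤ d → d ≤ X → ∀ r : ℕ, |((Ω.filter (fun n => v n ≡ r [MOD d])).card : ℝ) - A / d| ≤ A / (X : ℝ) ^ 2

lemma pow_card_le (c d : ℕ) (hd : d ≠ 0) : (c : ℝ) ^ d.primeFactors.card ≤ (d : ℝ) ^ c := by
  have h1 : c ^ d.primeFactors.card ≤ d ^ c := by
    calc c ^ d.primeFactors.card ≤ (2 ^ c) ^ d.primeFactors.card := Nat.pow_le_pow_left Nat.lt_two_pow_self.le _
      _ = (2 ^ d.primeFactors.card) ^ c := by rw [← pow_mul, ← pow_mul, mul_comm]
      _ ≤ d ^ c := by
          apply Nat.pow_le_pow_left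
          refine (Pool.Agent.X55.Pal.two_pow_le_card_divisors hd).trans ?_
          exact Nat.card_divisors_le_self d
  exact_mod_cast h1

open Classical in
/-- the asymptotic formula -/
theorem fam_asym (h : Sys k f) (ε : ℝ) (hε : 0 < ε) : ∃ K X₀ : ℕ, 1 ≤ K ∧ ∀ X : ℕ, X₀ ≤ X →
    ∀ (Ω : Finset ℕ) (v : ℕ → ℕ) (A : ℝ), 0 ≤ A → Equi X Ω v A → ∀ y : ℕ, 3 ≤ y → y ^ K ≤ X →
    |((Ω.filter (fun n => ∀ p ∈ pz y, ¬ QQ f p (v n))).card : ℝ) - A * VV f y| ≤ ε * (A * VV f y) := by
  obtain ⟨K1, K0, hK1, hK0, hgen⟩ := gen (cc f) (by unfold cc; omega) (ε / 2) (by positivity)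
  obtain ⟨c1, C1, hc1, hC1, hV⟩ := VV_bounds h
  set c := cc f with hc
  set K := 2 * K1 * (c + 3) with hK
  have hKpos : 1 ≤ K := by rw [hK]; nlinarith
  have hev : ∀ᶠ X : ℝ in atTop, 4 / (ε * c1) * Real.log X ^ k ≤ X := by
    have h1 := (Real.isLittleO_pow_log_id_atTop (n := k)).def (show (0 : ℝ) < (ε * c1) / 4 by positivity)
    filter_upwards [h1, eventually_ge_atTop (1 : ℝ)] with X hX hX1
    rw [Real.norm_eq_abs, abs_of_nonneg (pow_nonneg (Real.log_nonneg hX1) _), id, Real.norm_eq_abs,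
      abs_of_nonneg (by linarith)] at hX
    rw [div_mul_eq_mul_div, div_le_iff₀ (by positivity)]
    linarith
  obtain ⟨X1, hX1⟩ := eventually_atTop.mp hev
  refine ⟨K, max (max (K0 ^ (2 * (c + 3))) 2) ⌈X1⌉₊, hKpos, fun X hX Ω v A hA hE y hy hyK => ?_⟩
  have hX0 : K0 ^ (2 * (c + 3)) ≤ X := ((le_max_left _ _).trans (le_max_left _ _)).trans hX
  have hX2 : 2 ≤ X := ((le_max_right _ _).trans (le_max_left _ _)).trans hX
  have hX3 : X1 ≤ (X : ℝ) := (Nat.le_ceil _).trans (by exact_mod_cast (le_max_right _ _).trans hX)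
  have hXr : (2 : ℝ) ≤ X := by exact_mod_cast hX2
  set D := K0 * y ^ K1 with hD
  have hD1 : 1 ≤ D := Nat.mul_pos hK0 (pow_pos (by omega) _)
  have hDX : D ^ (c + 3) ≤ X := by
    have h1 : (D ^ (c + 3)) ^ 2 ≤ X ^ 2 := by
      calc (D ^ (c + 3)) ^ 2 = K0 ^ (2 * (c + 3)) * y ^ K := by
            rw [hD, hK, ← pow_mul, mul_pow, ← pow_mul]
            ring
        _ ≤ X * X := Nat.mul_le_mul hX0 hyK
        _ = X ^ 2 := by ring
    exact (Nat.pow_le_pow_iff_left (by norm_num)).1 h1
  have hDX' : D ≤ X := (Nat.le_self_pow (by omega) D).trans hDX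
  have key := hgen 1 y (by omega) Ω v A (fun _ => A / (X : ℝ) ^ 2) hA (fun _ => by positivity)
    (fun d hd _ hd2 r => hE d hd (hd2.trans hDX') r) (QQ f) (perB h)
  have hf1 : (pz y).filter (fun p => ¬ p ∣ 1) = pz y := by
    apply filter_true_of_mem
    intro p hp h1
    exact (mem_pz.1 hp).2.one_lt.ne' (Nat.dvd_one.1 h1)
  have hf2 : Ω.filter (fun n => ∀ p ∈ pz y, ¬ p ∣ 1 → ¬ QQ f p (v n)) =
      Ω.filter (fun n => ∀ p ∈ pz y, ¬ QQ f p (v n)) := by
    apply filter_congr
    intro n _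
    refine forall_congr' fun p => forall_congr' fun hp => ?_
    have : ¬ p ∣ 1 := fun h1 => (mem_pz.1 hp).2.one_lt.ne' (Nat.dvd_one.1 h1)
    simp only [this, not_false_eq_true, true_imp_iff]
  rw [hf1, hf2] at key
  have hVd : ∏ p ∈ pz y, (1 - (nuB (QQ f) p : ℝ) / p) = VV f y := rfl
  rw [hVd] at key
  have hlogy : 0 < Real.log y := Real.log_pos (by exact_mod_cast (by omega : 1 < y))
  have hV1 := (hV y hy).1
  have hVpos : 0 < VV f y := lt_of_lt_of_le (by positivity) hV1
  have hyX : y ≤ X := (Nat.le_self_pow (by omega) y).trans hyK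
  have herr : ((JJ y : ℝ) + 2) * (K0 * ∑ d ∈ (Icc 1 D).filter (fun d => d.Coprime 1),
      (c : ℝ) ^ d.primeFactors.card * (A / (X : ℝ) ^ 2)) ≤ ε / 2 * (A * VV f y) := by
    have e1 : ∑ d ∈ (Icc 1 D).filter (fun d => d.Coprime 1), (c : ℝ) ^ d.primeFactors.card * (A / (X : ℝ) ^ 2) ≤
        (D : ℝ) ^ (c + 1) * (A / (X : ℝ) ^ 2) := by
      rw [← sum_mul]
      apply mul_le_mul_of_nonneg_right _ (by positivity)
      calc ∑ d ∈ (Icc 1 D).filter (fun d => d.Coprime 1), (c : ℝ) ^ d.primeFactors.card ≤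
          ∑ d ∈ Icc 1 D, (D : ℝ) ^ c := by
            refine (sum_le_sum_of_subset_of_nonneg (filter_subset _ _) fun _ _ _ => by positivity).trans ?_
            refine sum_le_sum fun d hd => ?_
            rw [mem_Icc] at hd
            refine (pow_card_le c d (by omega)).trans ?_
            gcongr
            exact hd.2
        _ = (D : ℝ) ^ (c + 1) := by
            rw [sum_const, Nat.card_Icc, Nat.add_sub_cancel, nsmul_eq_mul, pow_succ]
            ring
    have e2 : (JJ y : ℝ) + 2 ≤ 2 * D := by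
      have h1 := Pool.Agent.X55.Pal.JJ_le_self y
      have h2 : Nat.log 2 y + 2 ≤ y := by
        have h3 : Nat.log 2 y < y - 1 ∨ Nat.log 2 y = y - 1 ∨ y - 1 < Nat.log 2 y := lt_trichotomy _ _
        have h4 : 2 ^ Nat.log 2 y ≤ y := Nat.pow_log_le_self 2 (by omega)
        by_contra hcon
        push Not at hcon
        have h5 : y - 1 ≤ Nat.log 2 y := by omega
        have h6 : 2 ^ (y - 1) ≤ y := (Nat.pow_le_pow_right (by norm_num) h5).trans h4
        have h7 : ∀ m : ℕ, 2 ≤ m → m + 1 < 2 ^ m := by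
          intro m hm
          induction m, hm using Nat.le_induction with
          | base => norm_num
          | succ m _ ih => rw [pow_succ]; omega
        have h8 := h7 (y - 1) (by omega)
        omega
      have h3 : y ≤ D := by
        calc y ≤ y ^ K1 := Nat.le_self_pow (by omega) y
          _ ≤ D := Nat.le_mul_of_pos_left _ hK0
      have h4 : JJ y + 2 ≤ 2 * D := by omega
      exact_mod_cast h4
    have e3 : (K0 : ℝ) ≤ D := by
      have : K0 ≤ D := Nat.le_mul_of_pos_right _ (pow_pos (by omega) _)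
      exact_mod_cast this
    have hD0 : (0 : ℝ) ≤ D := Nat.cast_nonneg _
    have e4 : ((JJ y : ℝ) + 2) * (K0 * ∑ d ∈ (Icc 1 D).filter (fun d => d.Coprime 1),
        (c : ℝ) ^ d.primeFactors.card * (A / (X : ℝ) ^ 2)) ≤ 2 * D * (D * ((D : ℝ) ^ (c + 1) * (A / (X : ℝ) ^ 2))) := by
      apply mul_le_mul e2 _ _ (by positivity)
      · apply mul_le_mul e3 e1 _ hD0
        apply sum_nonneg
        intro d _
        positivity
      · apply mul_nonneg (Nat.cast_nonneg _)
        apply sum_nonneg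
        intro d _
        positivity
    refine e4.trans ?_
    have e5 : (D : ℝ) ^ (c + 3) ≤ X := by exact_mod_cast hDX
    have e6 : 2 * D * (D * ((D : ℝ) ^ (c + 1) * (A / (X : ℝ) ^ 2))) ≤ A * (2 / X) := by
      calc 2 * D * (D * ((D : ℝ) ^ (c + 1) * (A / (X : ℝ) ^ 2))) = (D : ℝ) ^ (c + 3) * (2 * A / (X : ℝ) ^ 2) := by
            rw [show c + 3 = (c + 1) + 1 + 1 by ring, pow_succ, pow_succ]
            ring
        _ ≤ X * (2 * A / (X : ℝ) ^ 2) := by gcongr
        _ = A * (2 / X) := by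
            field_simp
    refine e6.trans ?_
    have hXl := hX1 X hX3
    have hlX : Real.log y ≤ Real.log X := Real.log_le_log (by positivity) (by exact_mod_cast hyX)
    have hlX0 : 0 < Real.log X := lt_of_lt_of_le hlogy hlX
    have e7 : 2 / (X : ℝ) ≤ ε / 2 * VV f y := by
      calc 2 / (X : ℝ) ≤ 2 / (4 / (ε * c1) * Real.log X ^ k) := by
            apply div_le_div_of_nonneg_left (by norm_num) (by positivity) hXl
        _ = ε / 2 * (c1 / Real.log X ^ k) := by
            field_simp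
            ring
        _ ≤ ε / 2 * (c1 / Real.log y ^ k) := by gcongr
        _ ≤ _ := by gcongr
    calc A * (2 / X) ≤ A * (ε / 2 * VV f y) := mul_le_mul_of_nonneg_left e7 hA
      _ = _ := by ring
  have key' : |((Ω.filter (fun n => ∀ p ∈ pz y, ¬ QQ f p (v n))).card : ℝ) - A * VV f y| ≤
      ε / 2 * (A * VV f y) + ((JJ y : ℝ) + 2) * (K0 * ∑ d ∈ (Icc 1 D).filter (fun d => d.Coprime 1),
        (c : ℝ) ^ d.primeFactors.card * (A / (X : ℝ) ^ 2)) := by
    convert key
  linarith

/-- the size of the values -/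
lemma size (g : ℤ[X]) : ∃ L D : ℕ, 1 ≤ L ∧ ∀ (m Z : ℕ), 1 ≤ Z → m ≤ Z → (g.eval (m : ℤ)).natAbs ≤ L * Z ^ D := by
  refine ⟨(∑ i ∈ range (g.natDegree + 1), (g.coeff i).natAbs) + 1, g.natDegree, by omega, fun m Z hZ hm => ?_⟩
  rw [eval_eq_sum_range]
  have h1 : (∑ i ∈ range (g.natDegree + 1), g.coeff i * (m : ℤ) ^ i).natAbs ≤
      ∑ i ∈ range (g.natDegree + 1), (g.coeff i).natAbs * m ^ i := by
    refine (Int.natAbs_sum_le _ _).trans (le_of_eq ?_)
    refine sum_congr rfl fun i _ => ?_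
    rw [Int.natAbs_mul, Int.natAbs_pow, Int.natAbs_natCast]
  refine h1.trans ?_
  calc ∑ i ∈ range (g.natDegree + 1), (g.coeff i).natAbs * m ^ i ≤
      ∑ i ∈ range (g.natDegree + 1), (g.coeff i).natAbs * Z ^ g.natDegree := by
        refine sum_le_sum fun i hi => ?_
        rw [mem_range] at hi
        apply Nat.mul_le_mul_left
        calc m ^ i ≤ Z ^ i := Nat.pow_le_pow_left hm i
          _ ≤ Z ^ g.natDegree := Nat.pow_le_pow_right hZ (by omega)
    _ = (∑ i ∈ range (g.natDegree + 1), (g.coeff i).natAbs) * Z ^ g.natDegree := by rw [sum_mul]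
    _ ≤ _ := Nat.mul_le_mul_right _ (by omega)

lemma roots_card (g : ℤ[X]) (hg : 0 < g.natDegree) (S : Finset ℕ) (t : ℤ)
    (hS : ∀ m ∈ S, g.eval (m : ℤ) = t) : S.card ≤ g.natDegree := by
  have h0 : g - C t ≠ 0 := by
    intro h
    have h1 : (g - C t).natDegree = g.natDegree := natDegree_sub_C
    rw [h, natDegree_zero] at h1
    omega
  have h1 : S.card ≤ (g - C t).roots.toFinset.card := by
    apply card_le_card_of_injOn (fun m : ℕ => (m : ℤ))
    · intro m hm
      rw [mem_coe, Multiset.mem_toFinset, mem_roots h0, IsRoot.def, eval_sub, eval_C, hS m hm, sub_self]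
    · intro a _ b _ hab
      have hab' : (a : ℤ) = b := hab
      exact_mod_cast hab'
  refine h1.trans ((Multiset.toFinset_card_le _).trans ((card_roots' _).trans ?_))
  rw [natDegree_sub_C]

open Classical in
/-- lower bound for the almost primes and upper bound for the primes -/
theorem fam_bounds (h : Sys k f) (B : ℕ) : ∃ (r K X₀ : ℕ) (c C : ℝ), 1 ≤ K ∧ 0 < c ∧ 0 < C ∧ ∀ X : ℕ, X₀ ≤ X →
    ∀ (Ω : Finset ℕ) (v : ℕ → ℕ) (A : ℝ), 0 ≤ A → Equi X Ω v A →
    ((∀ n ∈ Ω, v n ≤ X ^ B) → c * A / Real.log X ^ k ≤ ((Ω.filter (fun n => ∀ i,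
      ((f i).eval (v n : ℤ)).natAbs ≠ 0 ∧ ((f i).eval (v n : ℤ)).natAbs.primeFactorsList.length ≤ r ∧
      ∀ p : ℕ, p.Prime → p ∣ ((f i).eval (v n : ℤ)).natAbs → X < p ^ K)).card : ℝ)) ∧
    ((Ω.filter (fun n => ∀ i, ((f i).eval (v n : ℤ)).natAbs.Prime)).card : ℝ) ≤ C * A / Real.log X ^ k := by
  obtain ⟨K1, X1, hK1, hasy⟩ := fam_asym h (1 / 2) (by norm_num)
  obtain ⟨c1, C1, hc1, hC1, hV⟩ := VV_bounds h
  have hsz := fun i => size (f i)
  choose L D hL hLD using hsz
  set K := max K1 2 with hK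
  have hK2 : 2 ≤ K := le_max_right _ _
  have hKK1 : K1 ≤ K := le_max_left _ _
  set DD := ∑ i, D i with hDD
  set LL := ∏ i, L i with hLL
  have hLL1 : ∀ i, L i ≤ LL := fun i => Nat.le_of_dvd (prod_pos fun j _ => hL j) (dvd_prod_of_mem _ (mem_univ i))
  have hDD1 : ∀ i, D i ≤ DD := fun i => single_le_sum (f := fun i => D i) (fun _ _ => Nat.zero_le _) (mem_univ i)
  set ee : ℝ := ∑ i, ((f i).natDegree : ℝ) with hee
  have hee0 : 0 ≤ ee := sum_nonneg fun _ _ => Nat.cast_nonneg _
  have hev : ∀ᶠ X : ℝ in atTop, (6 * ee + 1) * Real.log X ^ k ≤ X ^ (1 / 2 : ℝ) := by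
    have h1 := (isLittleO_log_rpow_atTop (show (0 : ℝ) < 1 / (4 * (k + 1)) by positivity)).def
      (show (0 : ℝ) < 1 by norm_num)
    filter_upwards [h1, eventually_ge_atTop (1 : ℝ),
      (tendsto_rpow_atTop (show (0 : ℝ) < 1 / 4 by norm_num)).eventually_ge_atTop (6 * ee + 1)] with X hX hX1 hX2
    rw [Real.norm_eq_abs, abs_of_nonneg (Real.log_nonneg hX1), Real.norm_eq_abs,
      abs_of_nonneg (Real.rpow_nonneg (by linarith) _), one_mul] at hX
    have h2 : Real.log X ^ k ≤ X ^ (1 / 4 : ℝ) := by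
      calc Real.log X ^ k ≤ (X ^ (1 / (4 * (k + 1)) : ℝ)) ^ k := by
            apply pow_le_pow_left₀ (Real.log_nonneg hX1) hX
        _ = X ^ (1 / (4 * (k + 1)) * k : ℝ) := by
            rw [← Real.rpow_natCast, ← Real.rpow_mul (by linarith)]
        _ ≤ X ^ (1 / 4 : ℝ) := by
            apply Real.rpow_le_rpow_of_exponent_le hX1
            rw [div_mul_eq_mul_div, one_mul, div_le_div_iff₀ (by positivity) (by norm_num)]
            nlinarith
    calc (6 * ee + 1) * Real.log X ^ k ≤ X ^ (1 / 4 : ℝ) * X ^ (1 / 4 : ℝ) :=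
          mul_le_mul hX2 h2 (pow_nonneg (Real.log_nonneg hX1) _) (Real.rpow_nonneg (by linarith) _)
      _ = X ^ (1 / 2 : ℝ) := by
          rw [← Real.rpow_add (by linarith)]
          norm_num
  obtain ⟨X2, hX2⟩ := eventually_atTop.mp hev
  refine ⟨2 * K * (B * DD + 1), K, max (max X1 (max LL (3 ^ K))) ⌈X2⌉₊, c1 / 2 / (1 : ℝ), 2 * (C1 * (2 * K) ^ k) + 1, by omega,
    by positivity, by positivity, ?_⟩
  intro X hX Ω v A hA hE
  have hX1 : X1 ≤ X := ((le_max_left _ _).trans (le_max_left _ _)).trans hX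
  have hXL : LL ≤ X := (((le_max_left _ _).trans (le_max_right _ _)).trans (le_max_left _ _)).trans hX
  have hX3 : 3 ^ K ≤ X := (((le_max_right _ _).trans (le_max_right _ _)).trans (le_max_left _ _)).trans hX
  have hX4 : X2 ≤ (X : ℝ) := (Nat.le_ceil _).trans (by exact_mod_cast (le_max_right _ _).trans hX)
  have h3X : 3 ≤ X := (Nat.le_self_pow (by omega) 3).trans hX3
  have hXr : (3 : ℝ) ≤ X := by exact_mod_cast h3X
  -- the parameter y
  set y := Nat.findGreatest (fun y => y ^ K ≤ X) X with hy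
  have hyK : y ^ K ≤ X := by
    have := Nat.findGreatest_spec (P := fun y => y ^ K ≤ X) (n := X) h3X hX3
    exact this
  have hy3 : 3 ≤ y := Nat.le_findGreatest h3X hX3
  have hyX : y ≤ X := Nat.findGreatest_le X
  have hy1 : X < (y + 1) ^ K := by
    by_contra hcon
    push Not at hcon
    have h1 : y + 1 ≤ X := (Nat.le_self_pow (by omega) _).trans hcon
    have h2 : y + 1 ≤ y := Nat.le_findGreatest h1 hcon
    omega
  have hy2 : X < y ^ (2 * K) := by
    calc X < (y + 1) ^ K := hy1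
      _ ≤ (y ^ 2) ^ K := Nat.pow_le_pow_left (by nlinarith) _
      _ = y ^ (2 * K) := by rw [← pow_mul]
  have hlogy : 0 < Real.log y := Real.log_pos (by exact_mod_cast (by omega : 1 < y))
  have hlyX : Real.log y ≤ Real.log X := Real.log_le_log (by positivity) (by exact_mod_cast hyX)
  have hlX : 0 < Real.log X := lt_of_lt_of_le hlogy hlyX
  have hlXy : Real.log X ≤ 2 * K * Real.log y := by
    have h1 : Real.log X ≤ Real.log ((y : ℝ) ^ (2 * K)) :=
      Real.log_le_log (by linarith) (by exact_mod_cast hy2.le)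
    rw [Real.log_pow] at h1
    push_cast at h1
    exact h1
  have hK1y : y ^ K1 ≤ X := (Nat.pow_le_pow_right (by omega) hKK1).trans hyK
  have key := hasy X hX1 Ω v A hA hE y hy3 hK1y
  obtain ⟨hV1, hV2⟩ := hV y hy3
  rw [abs_le] at key
  have hAV : 0 ≤ A * VV f y := mul_nonneg hA ((by positivity : (0 : ℝ) ≤ c1 / Real.log y ^ k).trans hV1)
  constructor
  · intro hv
    have h1 : c1 / 2 / 1 * A / Real.log X ^ k ≤ ((Ω.filter (fun n => ∀ p ∈ pz y, ¬ QQ f p (v n))).card : ℝ) := by
      have h2 : c1 * A / Real.log X ^ k ≤ A * VV f y := by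
        calc c1 * A / Real.log X ^ k ≤ c1 * A / Real.log y ^ k := by gcongr
          _ = A * (c1 / Real.log y ^ k) := by ring
          _ ≤ _ := mul_le_mul_of_nonneg_left hV1 hA
      have h3 : c1 / 2 / 1 * A / Real.log X ^ k = 1 / 2 * (c1 * A / Real.log X ^ k) := by ring
      rw [h3]
      linarith [key.1]
    refine h1.trans ?_
    have h2 : Ω.filter (fun n => ∀ p ∈ pz y, ¬ QQ f p (v n)) ⊆ Ω.filter (fun n => ∀ i,
        ((f i).eval (v n : ℤ)).natAbs ≠ 0 ∧ ((f i).eval (v n : ℤ)).natAbs.primeFactorsList.length ≤ 2 * K * (B * DD + 1) ∧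
        ∀ p : ℕ, p.Prime → p ∣ ((f i).eval (v n : ℤ)).natAbs → X < p ^ K) := by
      intro n hn
      rw [mem_filter] at hn ⊢
      refine ⟨hn.1, fun i => ?_⟩
      have hnd : ∀ p : ℕ, p.Prime → p ≤ y → ¬ p ∣ ((f i).eval (v n : ℤ)).natAbs := by
        intro p hp hpy hd
        exact hn.2 p (mem_pz.2 ⟨hpy, hp⟩) ⟨i, Int.natCast_dvd.2 hd⟩
      have hne : ((f i).eval (v n : ℤ)).natAbs ≠ 0 := by
        intro h0
        apply hnd 2 Nat.prime_two (by omega)
        rw [h0]
        exact dvd_zero 2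
      refine ⟨hne, ?_, ?_⟩
      · have h3 := Pool.Agent.X55.Pal.few hne hnd
        have h4 : ((f i).eval (v n : ℤ)).natAbs ≤ X ^ (B * DD + 1) := by
          refine (hLD i (v n) (X ^ B) (Nat.one_le_pow _ _ (by omega)) (hv n hn.1)).trans ?_
          calc L i * (X ^ B) ^ D i ≤ X * (X ^ B) ^ DD := by
                apply Nat.mul_le_mul ((hLL1 i).trans hXL)
                exact Nat.pow_le_pow_right (Nat.one_le_pow _ _ (by omega)) (hDD1 i)
            _ = X ^ (B * DD + 1) := by rw [← pow_mul]; ring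
        have h5 : y ^ ((f i).eval (v n : ℤ)).natAbs.primeFactorsList.length ≤ y ^ (2 * K * (B * DD + 1)) := by
          refine h3.trans (h4.trans ?_)
          rw [pow_mul]
          exact Nat.pow_le_pow_left hy2.le _
        exact (Nat.pow_le_pow_iff_right (by omega)).1 h5
      · intro p hp hd
        have h3 : y < p := by
          by_contra hcon
          exact hnd p hp (by omega) hd
        exact lt_of_lt_of_le hy1 (Nat.pow_le_pow_left h3 K)
    exact_mod_cast card_le_card h2
  · -- the upper bound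
    have hsub : Ω.filter (fun n => ∀ i, ((f i).eval (v n : ℤ)).natAbs.Prime) ⊆
        Ω.filter (fun n => ∀ p ∈ pz y, ¬ QQ f p (v n)) ∪
          univ.biUnion (fun i => (Icc (-(y : ℤ)) y).biUnion (fun t =>
            Ω.filter (fun n => (f i).eval (v n : ℤ) = t))) := by
      intro n hn
      rw [mem_filter] at hn
      rw [mem_union]
      by_cases hsm : ∃ i, ((f i).eval (v n : ℤ)).natAbs ≤ y
      · right
        obtain ⟨i, hi⟩ := hsm
        rw [mem_biUnion]
        refine ⟨i, mem_univ _, ?_⟩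
        rw [mem_biUnion]
        refine ⟨(f i).eval (v n : ℤ), ?_, mem_filter.2 ⟨hn.1, rfl⟩⟩
        rw [mem_Icc]
        omega
      · left
        push Not at hsm
        rw [mem_filter]
        refine ⟨hn.1, fun p hp => ?_⟩
        rintro ⟨i, hi⟩
        rw [mem_pz] at hp
        have h1 := (Nat.prime_dvd_prime_iff_eq hp.2 (hn.2 i)).1 (Int.natCast_dvd.1 hi)
        have := hsm i
        omega
    have hcard1 : ∀ (i : Fin k) (t : ℤ), ((Ω.filter (fun n => (f i).eval (v n : ℤ) = t)).card : ℝ) ≤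
        (f i).natDegree * (2 * A / X) := by
      intro i t
      set Sv := (Ω.filter (fun n => (f i).eval (v n : ℤ) = t)).image v with hSv
      have h1 : Sv.card ≤ (f i).natDegree := by
        apply roots_card (f i) (h.deg i) Sv t
        intro m hm
        rw [hSv, mem_image] at hm
        obtain ⟨n, hn, rfl⟩ := hm
        exact (mem_filter.1 hn).2
      have h2 : ((Ω.filter (fun n => (f i).eval (v n : ℤ) = t)).card : ℝ) ≤ ∑ m ∈ Sv, ((Ω.filter (fun n => v n ≡ m [MOD X])).card : ℝ) := by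
        have h3 : (Ω.filter (fun n => (f i).eval (v n : ℤ) = t)).card ≤ ∑ m ∈ Sv, (Ω.filter (fun n => v n ≡ m [MOD X])).card := by
          calc (Ω.filter (fun n => (f i).eval (v n : ℤ) = t)).card ≤ (Sv.biUnion (fun m => Ω.filter (fun n => v n ≡ m [MOD X]))).card := by
                apply card_le_card
                intro n hn
                rw [mem_biUnion]
                refine ⟨v n, mem_image_of_mem v hn, ?_⟩
                rw [mem_filter] at hn ⊢
                exact ⟨hn.1, Nat.ModEq.refl _⟩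
            _ ≤ _ := card_biUnion_le
        exact_mod_cast h3
      have h3 : ∀ m ∈ Sv, ((Ω.filter (fun n => v n ≡ m [MOD X])).card : ℝ) ≤ 2 * A / X := by
        intro m _
        have h4 := (abs_le.1 (hE X (by omega) le_rfl m)).2
        have h5 : A / (X : ℝ) ^ 2 ≤ A / X := by
          apply div_le_div_of_nonneg_left hA (by linarith)
          nlinarith
        have h6 : 2 * A / X = A / X + A / X := by ring
        rw [h6]
        linarith
      refine h2.trans ((sum_le_sum h3).trans ?_)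
      rw [sum_const, nsmul_eq_mul]
      have h4 : (Sv.card : ℝ) ≤ (f i).natDegree := by exact_mod_cast h1
      have h5 : 0 ≤ 2 * A / (X : ℝ) := by positivity
      exact mul_le_mul_of_nonneg_right h4 h5
    have hcard2 : ((univ.biUnion (fun i => (Icc (-(y : ℤ)) y).biUnion (fun t =>
            Ω.filter (fun n => (f i).eval (v n : ℤ) = t)))).card : ℝ) ≤ ee * ((2 * y + 1) * (2 * A / X)) := by
      have h1 : ((univ.biUnion (fun i => (Icc (-(y : ℤ)) y).biUnion (fun t =>
            Ω.filter (fun n => (f i).eval (v n : ℤ) = t)))).card : ℝ) ≤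
          ∑ i, ∑ t ∈ Icc (-(y : ℤ)) y, ((Ω.filter (fun n => (f i).eval (v n : ℤ) = t)).card : ℝ) := by
        have h2 : (univ.biUnion (fun i => (Icc (-(y : ℤ)) y).biUnion (fun t =>
            Ω.filter (fun n => (f i).eval (v n : ℤ) = t)))).card ≤
          ∑ i, ∑ t ∈ Icc (-(y : ℤ)) y, (Ω.filter (fun n => (f i).eval (v n : ℤ) = t)).card :=
          card_biUnion_le.trans (sum_le_sum fun i _ => card_biUnion_le)
        exact_mod_cast h2
      refine h1.trans ((sum_le_sum fun i _ => sum_le_sum fun t _ => hcard1 i t).trans ?_)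
      simp only [sum_const, nsmul_eq_mul, Int.card_Icc]
      have h2 : ((((y : ℤ) + 1 - -(y : ℤ)).toNat : ℕ) : ℝ) = 2 * y + 1 := by
        have : ((y : ℤ) + 1 - -(y : ℤ)).toNat = 2 * y + 1 := by omega
        rw [this]
        push_cast
        ring
      rw [h2, hee, sum_mul]
      apply le_of_eq
      refine sum_congr rfl fun i _ => ?_
      ring
    have h1 : ((Ω.filter (fun n => ∀ i, ((f i).eval (v n : ℤ)).natAbs.Prime)).card : ℝ) ≤
        ((Ω.filter (fun n => ∀ p ∈ pz y, ¬ QQ f p (v n))).card : ℝ) + ee * ((2 * y + 1) * (2 * A / X)) := by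
      have h2 := (card_le_card hsub).trans (card_union_le _ _)
      have h3 : ((Ω.filter (fun n => ∀ i, ((f i).eval (v n : ℤ)).natAbs.Prime)).card : ℝ) ≤
        ((Ω.filter (fun n => ∀ p ∈ pz y, ¬ QQ f p (v n))).card : ℝ) +
        ((univ.biUnion (fun i => (Icc (-(y : ℤ)) y).biUnion (fun t =>
            Ω.filter (fun n => (f i).eval (v n : ℤ) = t)))).card : ℝ) := by exact_mod_cast h2
      linarith
    refine h1.trans ?_
    have h2 : A * VV f y ≤ C1 * (2 * K) ^ k * A / Real.log X ^ k := by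
      calc A * VV f y ≤ A * (C1 / Real.log y ^ k) := mul_le_mul_of_nonneg_left hV2 hA
        _ ≤ A * (C1 * (2 * K) ^ k / Real.log X ^ k) := by
            apply mul_le_mul_of_nonneg_left _ hA
            rw [div_le_div_iff₀ (by positivity) (by positivity)]
            calc C1 * Real.log X ^ k ≤ C1 * (2 * K * Real.log y) ^ k := by gcongr
              _ = C1 * (2 * K) ^ k * Real.log y ^ k := by rw [mul_pow]; ring
        _ = _ := by ring
    have h3 : ee * ((2 * y + 1) * (2 * A / X)) ≤ A / Real.log X ^ k := by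
      have h4 : (y : ℝ) ≤ (X : ℝ) ^ (1 / 2 : ℝ) := by
        rw [← Real.sqrt_eq_rpow]
        apply Real.le_sqrt_of_sq_le
        have : y ^ 2 ≤ X := (Nat.pow_le_pow_right (by omega) hK2).trans hyK
        exact_mod_cast this
      have h5 := hX2 X hX4
      have h6 : (1 : ℝ) ≤ (y : ℝ) := by exact_mod_cast (by omega : 1 ≤ y)
      have h7 : (X : ℝ) ^ (1 / 2 : ℝ) * (X : ℝ) ^ (1 / 2 : ℝ) = X := by
        rw [← Real.rpow_add (by linarith)]
        norm_num
      have hlk : 0 < Real.log X ^ k := pow_pos hlX k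
      set s := (X : ℝ) ^ (1 / 2 : ℝ) with hs
      have hs0 : 0 < s := by linarith
      rw [le_div_iff₀ hlk]
      calc ee * ((2 * y + 1) * (2 * A / X)) * Real.log X ^ k ≤ ee * ((3 * s) * (2 * A / X)) * Real.log X ^ k := by
            gcongr
            linarith
        _ = (6 * ee * Real.log X ^ k) * s * (A / X) := by ring
        _ ≤ s * s * (A / X) := by
            have : 6 * ee * Real.log X ^ k ≤ s := by nlinarith
            gcongr
        _ = A := by
            rw [h7]
            field_simp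
    have h4 : (2 * (C1 * (2 * K) ^ k) + 1) * A / Real.log X ^ k =
        2 * (C1 * (2 * K) ^ k * A / Real.log X ^ k) + A / Real.log X ^ k := by ring
    rw [h4]
    linarith [key.2]

end Pool.Agent.X55.Fam
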