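import Pool.Agent.X55.Fam.Forms

set_option autoImplicit false

/-! # Admissible systems of linear forms -/

namespace Pool.Agent.X55.Forms

open Finset

lemma not_dvd_unit {q : ℕ} (hq : q.Prime) {z : ℤ} (hz : z = 1 ∨ z = -1) : ¬ (q : ℤ) ∣ z := by
  intro h
  have h1 : (q : ℤ) ∣ 1 := by
    rcases hz with rfl | rfl
    · exact h
    · exact (Int.dvd_neg).1 (by simpa using h)
  have := Int.eq_one_of_dvd_one (by positivity) h1
  exact hq.one_lt.ne' (by exact_mod_cast this)

/-- two forms `n + u` and `v - n` -/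
lemma adm2 (u v : ℤ) (h : Even (u - v)) : Admissible (![1, -1] : Fin 2 → ℤ) ![u, v] := by
  refine admissible_of _ _ ?_ ?_
  · intro q hq h2
    have hq2 : q = 2 := le_antisymm h2 hq.two_le
    subst hq2
    obtain ⟨w, hw⟩ := h
    rcases Int.even_or_odd' u with ⟨t, ht⟩
    rcases ht with ht | ht
    · refine ⟨1, fun i => ?_⟩
      fin_cases i
      · show ¬ ((2 : ℕ) : ℤ) ∣ 1 * ((1 : ℕ) : ℤ) + u
        push_cast
        omega
      · show ¬ ((2 : ℕ) : ℤ) ∣ -1 * ((1 : ℕ) : ℤ) + v
        push_cast
        omega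
    · refine ⟨0, fun i => ?_⟩
      fin_cases i
      · show ¬ ((2 : ℕ) : ℤ) ∣ 1 * ((0 : ℕ) : ℤ) + u
        push_cast
        omega
      · show ¬ ((2 : ℕ) : ℤ) ∣ -1 * ((0 : ℕ) : ℤ) + v
        push_cast
        omega
  · intro q hq _ i hh
    refine not_dvd_unit hq ?_ hh.1
    fin_cases i
    · exact Or.inl rfl
    · exact Or.inr rfl

/-- `k + k` forms `n + u + j W` and `v - n - j W`, `W = (2 k)!` -/
lemma adm_sym (k : ℕ) (u v : ℤ) (h : Even (u - v)) :
    Admissible (Fin.append (fun _ : Fin k => (1 : ℤ)) (fun _ : Fin k => (-1 : ℤ)))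
      (Fin.append (fun j : Fin k => u + j * ((2 * k).factorial : ℤ)) (fun j : Fin k => v - j * ((2 * k).factorial : ℤ))) := by
  refine admissible_of _ _ ?_ ?_
  · intro q hq hqk
    obtain ⟨n, hn⟩ := adm2 u v h q hq
    have hdW : (q : ℤ) ∣ ((2 * k).factorial : ℤ) := by
      have : q ∣ (2 * k).factorial := Nat.dvd_factorial hq.pos (by omega)
      exact_mod_cast this
    refine ⟨n, fun i => ?_⟩
    refine Fin.addCases (fun j => ?_) (fun j => ?_) i
    · rw [Fin.append_left, Fin.append_left]
      intro hd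
      refine hn 0 ?_
      show (q : ℤ) ∣ 1 * (n : ℤ) + u
      have := dvd_sub hd (hdW.mul_left (j : ℤ))
      have e : 1 * (n : ℤ) + (u + (j : ℤ) * ((2 * k).factorial : ℤ)) - (j : ℤ) * ((2 * k).factorial : ℤ) = 1 * (n : ℤ) + u := by
        ring
      rwa [e] at this
    · rw [Fin.append_right, Fin.append_right]
      intro hd
      refine hn 1 ?_
      show (q : ℤ) ∣ -1 * (n : ℤ) + v
      have := dvd_add hd (hdW.mul_left (j : ℤ))
      have e : -1 * (n : ℤ) + (v - (j : ℤ) * ((2 * k).factorial : ℤ)) + (j : ℤ) * ((2 * k).factorial : ℤ) = -1 * (n : ℤ) + v := by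
        ring
      rwa [e] at this
  · intro q hq _ i hh
    refine not_dvd_unit hq ?_ hh.1
    refine Fin.addCases (fun j => ?_) (fun j => ?_) i
    · rw [Fin.append_left]
      exact Or.inl rfl
    · rw [Fin.append_right]
      exact Or.inr rfl

/-- the isolating progressions: for a difference `d` divisible by all primes up to `k` there is a residue class
`a` modulo `W` such that `a`, `a + d`, ..., `a + (k - 1) d` are coprime to `W`, and all the other integers between
them have a common prime factor with `W` -/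
lemma isolate (k d : ℕ) (hd : 0 < d) (hk : ∀ q : ℕ, q.Prime → q ≤ k → q ∣ d) : ∃ W a : ℕ, 0 < W ∧ 0 < a ∧ d ∣ W ∧
    (∀ i < k, Nat.Coprime (a + i * d) W) ∧
    (∀ j : ℕ, 0 < j → j < (k - 1) * d → ¬ d ∣ j → ∃ q : ℕ, q.Prime ∧ q ∣ W ∧ q ∣ a + j) := by
  classical
  set L : ℕ := (k + 1) * d + 1 with hL
  set p : ℕ → ℕ := fun j => Nat.nth Nat.Prime (L + j) with hp
  have hpp : ∀ j, (p j).Prime := fun j => Nat.prime_nth_prime _
  have hpL : ∀ j, L + j < p j := by
    intro j
    have : L + j ≤ Nat.nth Nat.Prime (L + j) := (Nat.nth_strictMono Nat.infinite_setOfPred_prime).id_le _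
    rcases this.lt_or_eq with h | h
    · exact h
    · exfalso
      have h2 : StrictMono (Nat.nth Nat.Prime) := Nat.nth_strictMono Nat.infinite_setOfPred_prime
      have h3 : Nat.nth Nat.Prime 0 = 2 := Nat.nth_prime_zero_eq_two
      have h4 : ∀ n, n + 2 ≤ Nat.nth Nat.Prime n := by
        intro n
        induction n with
        | zero => rw [h3]
        | succ n ih =>
          have h5 : Nat.nth Nat.Prime n < Nat.nth Nat.Prime (n + 1) := h2 (Nat.lt_succ_self n)
          omega
      have := h4 (L + j)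
      omega
  have hinj : Function.Injective p := by
    intro i j hij
    have := (Nat.nth_strictMono Nat.infinite_setOfPred_prime).injective hij
    omega
  set T : Finset ℕ := (range ((k - 1) * d)).filter (fun j => ¬ d ∣ j) with hT
  have h0T : 0 ∉ T := by
    rw [hT, mem_filter]
    rintro ⟨_, h⟩
    exact h (dvd_zero d)
  set s : ℕ → ℕ := fun j => if j = 0 then d else p j with hs
  set r : ℕ → ℕ := fun j => if j = 0 then 1 else p j - j with hr
  have hs0 : ∀ i ∈ insert 0 T, s i ≠ 0 := by
    intro i _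
    simp only [hs]
    split_ifs
    · omega
    · exact (hpp i).pos.ne'
  have hpd : ∀ j, Nat.Coprime (p j) d := by
    intro j
    rw [(hpp j).coprime_iff_not_dvd]
    intro h
    have h1 := Nat.le_of_dvd hd h
    have h2 := hpL j
    have h3 : d ≤ L := by rw [hL]; nlinarith
    omega
  have hco : Set.Pairwise (↑(insert 0 T) : Set ℕ) (Function.onFun Nat.Coprime s) := by
    intro i _ j _ hij
    show Nat.Coprime (s i) (s j)
    simp only [hs]
    split_ifs with h1 h2 h2
    · omega
    · exact (hpd j).symm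
    · exact hpd i
    · rw [Nat.coprime_primes (hpp i) (hpp j)]
      exact fun h => hij (hinj h)
  obtain ⟨a₀, ha₀⟩ := Nat.chineseRemainderOfFinset r s (insert 0 T) hs0 hco
  set W : ℕ := d * ∏ j ∈ T, p j with hW
  have hW0 : 0 < W := by
    rw [hW]
    exact Nat.mul_pos hd (prod_pos fun j _ => (hpp j).pos)
  refine ⟨W, a₀ + W, hW0, by omega, Dvd.intro _ rfl, ?_, ?_⟩
  · intro i hi
    have hcop : Nat.Coprime (a₀ + i * d) W := by
      rw [hW, Nat.coprime_mul_iff_right]
      constructor
      · have h1 : a₀ ≡ 1 [MOD d] := by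
          have := ha₀ 0 (mem_insert_self _ _)
          simpa [hs, hr] using this
        have h2 : a₀ + i * d ≡ 1 [MOD d] := by
          have h3 : i * d ≡ 0 [MOD d] := (Nat.modEq_zero_iff_dvd).2 (Dvd.intro_left i rfl)
          simpa using h1.add h3
        have h4 := h2.gcd_eq
        rw [Nat.gcd_one_left] at h4
        exact h4
      · rw [Nat.coprime_prod_right_iff]
        intro j hj
        rw [Nat.coprime_comm, (hpp j).coprime_iff_not_dvd]
        intro hdv
        have hj0 : j ≠ 0 := fun h => h0T (h ▸ hj)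
        have h1 : a₀ ≡ p j - j [MOD p j] := by
          have := ha₀ j (mem_insert_of_mem hj)
          simpa [hs, hr, hj0] using this
        have hjL := hpL j
        have h2 : a₀ + j ≡ 0 [MOD p j] := by
          have h3 := h1.add_right j
          have h4 : p j - j + j = p j := by omega
          rw [h4] at h3
          exact h3.trans ((Nat.modEq_zero_iff_dvd).2 dvd_rfl)
        have h3 : p j ∣ a₀ + j := (Nat.modEq_zero_iff_dvd).1 h2
        rw [hT, mem_filter, mem_range] at hj
        -- the difference is nonzero and smaller than `p j`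
        have h5 : ((p j : ℕ) : ℤ) ∣ ((i * d : ℕ) : ℤ) - (j : ℤ) := by
          have e : ((i * d : ℕ) : ℤ) - (j : ℤ) = ((a₀ + i * d : ℕ) : ℤ) - ((a₀ + j : ℕ) : ℤ) := by
            push_cast
            ring
          rw [e]
          exact dvd_sub (by exact_mod_cast hdv) (by exact_mod_cast h3)
        have h6 : ((i * d : ℕ) : ℤ) - (j : ℤ) ≠ 0 := by
          intro h7
          apply hj.2
          have : j = i * d := by omega
          rw [this]
          exact Dvd.intro_left i rfl
        have h7 := Int.le_of_dvd (abs_pos.2 h6) ((dvd_abs _ _).2 h5)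
        have h8 : i * d ≤ k * d := Nat.mul_le_mul_right d hi.le
        have h9 : |((i * d : ℕ) : ℤ) - (j : ℤ)| ≤ (k : ℤ) * d + j := by
          rw [abs_le]
          constructor
          · have : (0 : ℤ) ≤ ((i * d : ℕ) : ℤ) := by positivity
            have : (0 : ℤ) ≤ (k : ℤ) * d := by positivity
            linarith
          · have : ((i * d : ℕ) : ℤ) ≤ (k : ℤ) * d := by exact_mod_cast h8
            have : (0 : ℤ) ≤ (j : ℤ) := by positivity
            linarith
        have h10 : ((k * d + j : ℕ) : ℤ) < (p j : ℤ) := by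
          have : k * d + j < p j := by
            have : k * d ≤ L := by rw [hL]; nlinarith
            omega
          exact_mod_cast this
        push_cast at h10
        linarith
    have e : a₀ + W + i * d = a₀ + i * d + W := by ring
    rw [e, Nat.coprime_add_self_left]
    exact hcop
  · intro j hj0 hj hdj
    have hjT : j ∈ T := by
      rw [hT, mem_filter, mem_range]
      exact ⟨hj, hdj⟩
    have hpW : p j ∣ W := by
      rw [hW]
      exact Dvd.dvd.mul_left (dvd_prod_of_mem p hjT) d
    refine ⟨p j, hpp j, hpW, ?_⟩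
    have h1 : a₀ ≡ p j - j [MOD p j] := by
      have := ha₀ j (mem_insert_of_mem hjT)
      simpa [hs, hr, hj0.ne'] using this
    have hjL := hpL j
    have h2 : a₀ + j ≡ 0 [MOD p j] := by
      have h3 := h1.add_right j
      have h4 : p j - j + j = p j := by omega
      rw [h4] at h3
      exact h3.trans ((Nat.modEq_zero_iff_dvd).2 dvd_rfl)
    have h3 : p j ∣ a₀ + j := (Nat.modEq_zero_iff_dvd).1 h2
    have e : a₀ + W + j = a₀ + j + W := by ring
    rw [e]
    exact dvd_add h3 hpW

lemma adm_prog (k d W a : ℕ) (hdW : d ∣ W) (hk : ∀ q : ℕ, q.Prime → q ≤ k → q ∣ d)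
    (hc : ∀ i < k, Nat.Coprime (a + i * d) W) :
    Admissible (fun _ : Fin k => (W : ℤ)) (fun i : Fin k => ((a + i * d : ℕ) : ℤ)) := by
  have key : ∀ q : ℕ, q.Prime → q ∣ W → ∀ i : Fin k, ¬ (q : ℤ) ∣ ((a + i * d : ℕ) : ℤ) := by
    intro q hq hqW i h
    have h1 : q ∣ a + i * d := by exact_mod_cast h
    have h2 := hc i i.2
    have h3 := Nat.dvd_gcd h1 hqW
    rw [Nat.Coprime] at h2
    rw [h2] at h3
    exact hq.one_lt.ne' (Nat.dvd_one.1 h3)
  refine admissible_of _ _ ?_ ?_
  · intro q hq hqk
    have hqW : q ∣ W := (hk q hq hqk).trans hdW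
    refine ⟨0, fun i h => key q hq hqW i ?_⟩
    simpa using h
  · intro q hq _ i hh
    exact key q hq (by exact_mod_cast hh.1) i hh.2

end Pool.Agent.X55.Forms
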