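import Pool.Agent.X55.Fam.DFam

set_option autoImplicit false

/-! # Discrete logarithms: systems of polynomials -/

namespace Pool.Agent.X55.Fam

open Finset Filter Polynomial
open Pool.Agent.H373R2.T7

variable {k : ℕ} {f : Fin k → ℤ[X]}

lemma Both.scale {F : Fin k → ℕ → ℕ} {p r : ℕ} {δ c C : ℝ} {B M H : ℕ} {R : ℕ → Prop} {N N₀ : ℝ}
    (h : Both F p r δ c C B M H R N) (hc : 0 < c) (hC : 0 < C) (h0 : 0 ≤ N₀) (h1 : (1 - 1 / 2) * N₀ ≤ N)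
    (h2 : N ≤ (1 + 1 / 2) * N₀) (hp : 1 ≤ p) : Both F p r δ (c / 2) (2 * C) B M H R N₀ := by
  have hl : 0 ≤ Real.log p := Real.log_nonneg (by exact_mod_cast hp)
  refine ⟨fun hMH => le_trans ?_ (h.1 hMH), h.2.trans ?_⟩
  · have : c / 2 * N₀ ≤ c * N := by nlinarith
    gcongr
  · have : C * N ≤ 2 * C * N₀ := by nlinarith
    gcongr

lemma Asym.scale {F : Fin k → ℕ → ℕ} {M H y : ℕ} {R : ℕ → Prop} {N N₀ η η' : ℝ}
    (h : Asym F η' M H y R N) (hη' : 0 < η') (hη1 : η' ≤ 1) (hη : 3 * η' ≤ η) (h0 : 0 ≤ N₀)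
    (h1 : (1 - η') * N₀ ≤ N) (h2 : N ≤ (1 + η') * N₀) : Asym F η M H y R N₀ := by
  unfold Asym at h ⊢
  set V : ℝ := ∏ q ∈ (Icc 1 y).filter Nat.Prime,
      (1 - (Set.ncard {a : ℕ | a < q ∧ ∃ i, q ∣ F i a} : ℝ) / q) with hV
  have hV0 : 0 ≤ V := by
    rw [hV]
    apply prod_nonneg
    intro q hq
    rw [mem_filter, mem_Icc] at hq
    have h3 : (Set.ncard {a : ℕ | a < q ∧ ∃ i, q ∣ F i a} : ℝ) ≤ q := by
      have h4 : Set.ncard {a : ℕ | a < q ∧ ∃ i, q ∣ F i a} ≤ Set.ncard {a : ℕ | a < q} := by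
        apply Set.ncard_le_ncard
        · intro a ha
          exact ha.1
        · exact Set.finite_lt_nat q
      have h5 : Set.ncard {a : ℕ | a < q} = q := by
        have : {a : ℕ | a < q} = ((range q : Finset ℕ) : Set ℕ) := by
          ext a
          simp
        rw [this, Set.ncard_coe_finset, card_range]
      rw [h5] at h4
      exact_mod_cast h4
    have hq0 : (0 : ℝ) < q := by exact_mod_cast hq.2.pos
    rw [sub_nonneg, div_le_one hq0]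
    exact h3
  set S : ℝ := (Set.ncard {n : ℕ | M < n ∧ n ≤ M + H ∧ R n ∧ ∀ q : ℕ, q.Prime → q ≤ y → ∀ i, ¬ q ∣ F i n} : ℝ) with hS
  have hNV : 0 ≤ N₀ * V := by positivity
  have e1 : N * V ≤ (1 + η') * (N₀ * V) := by
    calc N * V ≤ ((1 + η') * N₀) * V := by gcongr
      _ = _ := by ring
  have e2 : (1 - η') * (N₀ * V) ≤ N * V := by
    calc (1 - η') * (N₀ * V) = ((1 - η') * N₀) * V := by ring
      _ ≤ _ := by gcongr
  rw [abs_le] at h ⊢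
  have e3 : η' * (N * V) ≤ 2 * η' * (N₀ * V) := by
    have h4 : N * V ≤ 2 * (N₀ * V) := by
      have : (1 + η') * (N₀ * V) ≤ 2 * (N₀ * V) := by gcongr; linarith
      linarith
    calc η' * (N * V) ≤ η' * (2 * (N₀ * V)) := by gcongr
      _ = _ := by ring
  have e4 : 3 * η' * (N₀ * V) ≤ η * (N₀ * V) := by gcongr
  constructor <;> nlinarith [h.1, h.2]

/-- discrete logarithms -/
theorem dlog_cor (h : Sys k f) (F : Fin k → ℕ → ℕ) (hF : ∀ (i : Fin k) (n : ℕ), ((f i).eval (n : ℤ)).natAbs = F i n)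
    (ε : ℝ) (hε : 0 < ε) (B : ℕ) : ∃ (r : ℕ) (δ c C : ℝ) (P₀ : ℕ), 0 < δ ∧ 0 < c ∧ 0 < C ∧
    ∀ P : ℕ, P₀ ≤ P → ∀ [Fact P.Prime] (g : ZMod P), orderOf g = P - 1 →
    (∀ M H L K : ℕ, H ≤ P - 1 → K ≤ P → (P : ℝ) ^ (3 / 2 + ε) ≤ (H : ℝ) * K →
      Both F P r δ c C B M H (fun n => ∃ m : ℕ, L < m ∧ m ≤ L + K ∧ g ^ n = m) (K * H / P)) ∧
    (∀ (S : Subgroup (ZMod P)ˣ) (b : (ZMod P)ˣ) (s : ZMod P), s ≠ 0 → ∀ M H : ℕ, H ≤ P - 1 →
      (P : ℝ) ^ (3 / 2 + ε) ≤ (Nat.card S : ℝ) * H →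
      Both F P r δ c C B M H (fun n => ∃ u ∈ S, g ^ n + s = (b : ZMod P) * (u : ZMod P)) (Nat.card S * H / P)) ∧
    (∀ s : ZMod P, s ≠ 0 → ∀ M H : ℕ, H ≤ P - 1 → (P : ℝ) ^ (1 / 2 + ε) ≤ H →
      Both F P r δ c C B M H (fun n => orderOf (g ^ n + s) = P - 1) ((P - 1).totient * H / P)) := by
  obtain ⟨P1, hP1⟩ := D.dlog_fam ε (1 / 2) hε (by norm_num)
  obtain ⟨r, δ, c, C, T₀, hδ, hc, hC, hb⟩ := both_of h F hF (ε / 32) (by linarith) B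
  refine ⟨r, δ, c / 2, 2 * C, max (max P1 T₀) 1, hδ, by positivity, by positivity, ?_⟩
  intro P hP _ g hg
  have h1 : P1 ≤ P := ((le_max_left _ _).trans (le_max_left _ _)).trans hP
  have h2 : T₀ ≤ P := ((le_max_right _ _).trans (le_max_left _ _)).trans hP
  have h3 : 1 ≤ P := (le_max_right _ _).trans hP
  obtain ⟨f1, f2, f3⟩ := hP1 P h1 g hg
  refine ⟨?_, ?_, ?_⟩
  · intro M H L K hH hK hHK
    obtain ⟨N, hN1, hN2, hN3⟩ := f1 M H L K hH hK hHK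
    have h0 : (0 : ℝ) ≤ K * H / P := by positivity
    exact (hb P h2 M H _ N (by linarith) hN3).scale hc hC h0 hN1 hN2 h3
  · intro S b s hs M H hH hSH
    obtain ⟨N, hN1, hN2, hN3⟩ := f2 S b s hs M H hH hSH
    have h0 : (0 : ℝ) ≤ Nat.card S * H / P := by positivity
    exact (hb P h2 M H _ N (by linarith) hN3).scale hc hC h0 hN1 hN2 h3
  · intro s hs M H hH hPH
    obtain ⟨N, hN1, hN2, hN3⟩ := f3 s hs M H hH hPH
    have h0 : (0 : ℝ) ≤ (P - 1).totient * H / P := by positivity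
    exact (hb P h2 M H _ N (by linarith) hN3).scale hc hC h0 hN1 hN2 h3

theorem dlog_corA (h : Sys k f) (F : Fin k → ℕ → ℕ) (hF : ∀ (i : Fin k) (n : ℕ), ((f i).eval (n : ℤ)).natAbs = F i n)
    (ε η : ℝ) (hε : 0 < ε) (hη : 0 < η) : ∃ (δ : ℝ) (P₀ : ℕ), 0 < δ ∧
    ∀ P : ℕ, P₀ ≤ P → ∀ [Fact P.Prime] (g : ZMod P), orderOf g = P - 1 → ∀ y : ℕ, 3 ≤ y → (y : ℝ) ≤ (P : ℝ) ^ δ →
    (∀ M H L K : ℕ, H ≤ P - 1 → K ≤ P → (P : ℝ) ^ (3 / 2 + ε) ≤ (H : ℝ) * K →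
      Asym F η M H y (fun n => ∃ m : ℕ, L < m ∧ m ≤ L + K ∧ g ^ n = m) (K * H / P)) ∧
    (∀ (S : Subgroup (ZMod P)ˣ) (b : (ZMod P)ˣ) (s : ZMod P), s ≠ 0 → ∀ M H : ℕ, H ≤ P - 1 →
      (P : ℝ) ^ (3 / 2 + ε) ≤ (Nat.card S : ℝ) * H →
      Asym F η M H y (fun n => ∃ u ∈ S, g ^ n + s = (b : ZMod P) * (u : ZMod P)) (Nat.card S * H / P)) ∧
    (∀ s : ZMod P, s ≠ 0 → ∀ M H : ℕ, H ≤ P - 1 → (P : ℝ) ^ (1 / 2 + ε) ≤ H →
      Asym F η M H y (fun n => orderOf (g ^ n + s) = P - 1) ((P - 1).totient * H / P)) := by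
  set η' : ℝ := min 1 (η / 3) with hη'
  have g1 : 0 < η' := by rw [hη']; positivity
  have g2 : η' ≤ 1 := min_le_left _ _
  have g3 : 3 * η' ≤ η := by
    have : η' ≤ η / 3 := min_le_right _ _
    linarith
  obtain ⟨P1, hP1⟩ := D.dlog_fam ε η' hε g1
  obtain ⟨δ, T₀, hδ, hb⟩ := asym_of h F hF (ε / 32) η' (by linarith) g1
  refine ⟨δ, max (max P1 T₀) 1, hδ, ?_⟩
  intro P hP _ g hg y hy hyP
  have h1 : P1 ≤ P := ((le_max_left _ _).trans (le_max_left _ _)).trans hP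
  have h2 : T₀ ≤ P := ((le_max_right _ _).trans (le_max_left _ _)).trans hP
  obtain ⟨f1, f2, f3⟩ := hP1 P h1 g hg
  refine ⟨?_, ?_, ?_⟩
  · intro M H L K hH hK hHK
    obtain ⟨N, hN1, hN2, hN3⟩ := f1 M H L K hH hK hHK
    have h0 : (0 : ℝ) ≤ K * H / P := by positivity
    have hN0 : 0 ≤ N := le_trans (mul_nonneg (by linarith) h0) hN1
    exact (hb P h2 M H _ N hN0 hN3 y hy hyP).scale g1 g2 g3 h0 hN1 hN2
  · intro S b s hs M H hH hSH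
    obtain ⟨N, hN1, hN2, hN3⟩ := f2 S b s hs M H hH hSH
    have h0 : (0 : ℝ) ≤ Nat.card S * H / P := by positivity
    have hN0 : 0 ≤ N := le_trans (mul_nonneg (by linarith) h0) hN1
    exact (hb P h2 M H _ N hN0 hN3 y hy hyP).scale g1 g2 g3 h0 hN1 hN2
  · intro s hs M H hH hPH
    obtain ⟨N, hN1, hN2, hN3⟩ := f3 s hs M H hH hPH
    have h0 : (0 : ℝ) ≤ (P - 1).totient * H / P := by positivity
    have hN0 : 0 ≤ N := le_trans (mul_nonneg (by linarith) h0) hN1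
    exact (hb P h2 M H _ N hN0 hN3 y hy hyP).scale g1 g2 g3 h0 hN1 hN2

end Pool.Agent.X55.Fam
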