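import Pool.Agent.X55.Fam.Dlog
import Pool.Agent.X55.Fam.Abs

set_option autoImplicit false

/-! # Family: discrete logarithms -/

namespace Pool.Agent.X55.Fam.D

open Finset Filter
open Pool.Agent.X55.Mod

lemma eqR_om (p : ℕ) (A : Finset (ZMod p)) (X M H : ℕ) (N : ℝ) (h : Equi X (om p A M H) (fun j => M + j) N) :
    EqR X M H (fun n => (n : ZMod p) ∈ A) N := by
  classical
  intro d hd hdX r
  have h1 := h d hd hdX r
  have h2 := om_card p A M H (fun n => n ≡ r [MOD d])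
  have e1 : (((Ioc M (M + H)).filter (fun n : ℕ => (n : ZMod p) ∈ A)).filter (fun n => id n ≡ r [MOD d])).card =
      ((om p A M H).filter (fun j => M + j ≡ r [MOD d])).card := by
    rw [filter_filter]
    refine Eq.trans ?_ (h2.symm.trans ?_)
    · congr 1
      ext n
      simp only [mem_filter, id]
    · congr 1
      ext n
      simp only [mem_filter]
  have e2 : ((((Ioc M (M + H)).filter (fun n : ℕ => (n : ZMod p) ∈ A)).filter (fun n => id n ≡ r [MOD d])).card : ℝ) =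
      (((om p A M H).filter (fun j => M + j ≡ r [MOD d])).card : ℝ) := by rw [e1]
  have h3 : |((((Ioc M (M + H)).filter (fun n : ℕ => (n : ZMod p) ∈ A)).filter (fun n => id n ≡ r [MOD d])).card : ℝ) -
      N / d| ≤ N / (X : ℝ) ^ 2 := by
    rw [e2]
    exact h1
  convert h3

/-- general sets -/
theorem dlog_gen (ε : ℝ) (hε : 0 < ε) : ∃ P₁ : ℕ, ∀ P : ℕ, P₁ ≤ P → ∀ [Fact P.Prime] (g : ZMod P),
    orderOf g = P - 1 → ∀ (S : Finset (ZMod P)), (0 : ZMod P) ∉ S → ∀ Γ : ℝ, 1 ≤ Γ →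
    (∀ χ : MulChar (ZMod P) ℂ, χ ≠ 1 → ‖∑ y ∈ S, χ y‖ ≤ Γ) →
    ∀ M H : ℕ, H ≤ P - 1 → Γ * (P : ℝ) ^ (1 + ε) ≤ S.card * H →
    EqR ⌊(P : ℝ) ^ (ε / 16)⌋₊ M H (fun n => g ^ n ∈ S) (S.card * H / ((P - 1 : ℕ) : ℝ)) := by
  obtain ⟨P0, hP0⟩ := Q.equiQ ε hε
  refine ⟨max (P0 + 1) 3, ?_⟩
  intro P hP _ g hg S h0 Γ hΓ hS M H hH hSH
  have hP1 : P0 ≤ P - 1 := by have := (le_max_left (P0 + 1) 3).trans hP; omega
  have hP3 : 3 ≤ P := (le_max_right _ _).trans hP
  have : NeZero (P - 1) := ⟨by omega⟩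
  have hPr : (3 : ℝ) ≤ P := by exact_mod_cast hP3
  have hPc : ((P - 1 : ℕ) : ℝ) = P - 1 := by rw [Nat.cast_sub (by omega)]; push_cast; rfl
  have hc := ind_card hg S h0
  have h1 := hP0 (P - 1) hP1 (ind g S) Γ hΓ (fun a ha => ind_bound hg S h0 Γ hS a ha) M H hH (by
    rw [hc]
    refine le_trans ?_ hSH
    have : ((P - 1 : ℕ) : ℝ) ≤ P := by rw [hPc]; linarith
    gcongr)
  rw [hc] at h1
  have h2 := eqR_om (P - 1) (ind g S) _ M H _ h1
  have h3 := h2.congr (R' := fun n => g ^ n ∈ S) (fun n => ind_iff hg S n)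
  refine h3.mono ?_ ?_ (by positivity)
  · apply Nat.floor_le_floor
    have e1 : (P : ℝ) ^ (ε / 16) = ((P : ℝ) ^ (1 / 4 : ℝ)) ^ (ε / 4) := by
      rw [← Real.rpow_mul (by linarith)]
      congr 1
      ring
    rw [e1]
    apply Real.rpow_le_rpow (by positivity) _ (by positivity)
    rw [hPc]
    have e2 : (P : ℝ) ≤ ((P : ℝ) - 1) ^ (4 : ℕ) := by nlinarith [sq_nonneg ((P : ℝ) - 2), sq_nonneg ((P : ℝ) - 1)]
    calc (P : ℝ) ^ (1 / 4 : ℝ) ≤ (((P : ℝ) - 1) ^ (4 : ℕ)) ^ (1 / 4 : ℝ) := by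
          apply Real.rpow_le_rpow (by linarith) e2 (by norm_num)
      _ = (P : ℝ) - 1 := by
          rw [← Real.rpow_natCast, ← Real.rpow_mul (by linarith)]
          norm_num
  · rw [Nat.one_le_floor_iff]
    exact Real.one_le_rpow (by linarith) (by positivity)

/-- shifted sets -/
theorem dlog_shift (ε : ℝ) (hε : 0 < ε) : ∃ P₁ : ℕ, ∀ P : ℕ, P₁ ≤ P → ∀ [Fact P.Prime] (g : ZMod P),
    orderOf g = P - 1 → ∀ (C : Finset (ZMod P)) (c : ZMod P) (Γ : ℝ), 1 ≤ Γ → 2 ≤ C.card →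
    (∀ χ : MulChar (ZMod P) ℂ, χ ≠ 1 → ‖∑ y ∈ C, χ (y - c)‖ ≤ Γ) →
    ∀ M H : ℕ, H ≤ P - 1 → 2 * (Γ * (P : ℝ) ^ (1 + ε)) ≤ C.card * H →
    ∃ N : ℝ, (1 - 1 / (C.card : ℝ)) * (C.card * H / P) ≤ N ∧ N ≤ (1 + 2 / P) * (C.card * H / P) ∧
    EqR ⌊(P : ℝ) ^ (ε / 16)⌋₊ M H (fun n => g ^ n + c ∈ C) N := by
  classical
  obtain ⟨P0, hP0⟩ := dlog_gen ε hε
  refine ⟨max P0 3, ?_⟩
  intro P hP _ g hg C c Γ hΓ hC2 hC M H hH hCH
  have hP1 : P0 ≤ P := (le_max_left _ _).trans hP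
  have hP3 : 3 ≤ P := (le_max_right _ _).trans hP
  have : NeZero (P - 1) := ⟨by omega⟩
  have hPr : (3 : ℝ) ≤ P := by exact_mod_cast hP3
  have hPc : ((P - 1 : ℕ) : ℝ) = P - 1 := by rw [Nat.cast_sub (by omega)]; push_cast; rfl
  have hg0 := g_ne hg
  set S := (C.image (fun y => y - c)).erase 0 with hS
  have hinj : Function.Injective (fun y : ZMod P => y - c) := fun a b h => sub_left_injective h
  have hSc : S.card ≤ C.card := by
    rw [hS]
    exact (card_le_card (erase_subset _ _)).trans card_image_le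
  have hSc2 : C.card ≤ S.card + 1 := by
    have h1 : (C.image (fun y => y - c)).card = C.card := card_image_of_injective _ hinj
    rw [← h1, hS]
    have := Finset.pred_card_le_card_erase (s := C.image (fun y => y - c)) (a := 0)
    omega
  have hsum : ∀ χ : MulChar (ZMod P) ℂ, ∑ y ∈ S, χ y = ∑ y ∈ C, χ (y - c) := by
    intro χ
    rw [hS, sum_erase _ (MulChar.map_zero χ), sum_image (fun a _ b _ h => hinj h)]
  have hCr : (2 : ℝ) ≤ C.card := by exact_mod_cast hC2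
  have hScr : (C.card : ℝ) ≤ S.card + 1 := by exact_mod_cast hSc2
  have hScr2 : (S.card : ℝ) ≤ C.card := by exact_mod_cast hSc
  have h1 := hP0 P hP1 g hg S (by rw [hS]; simp) Γ hΓ (fun χ hχ => by rw [hsum]; exact hC χ hχ) M H hH (by
    have h2 : (C.card : ℝ) * H ≤ 2 * (S.card * H) := by
      have h3 : (C.card : ℝ) ≤ 2 * S.card := by linarith
      calc (C.card : ℝ) * H ≤ (2 * S.card) * H := by gcongr
        _ = _ := by ring
    linarith)
  refine ⟨S.card * H / ((P - 1 : ℕ) : ℝ), ?_, ?_, h1.congr fun n => ?_⟩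
  · rw [hPc]
    calc (1 - 1 / (C.card : ℝ)) * (C.card * H / P) = (C.card - 1) * H / P := by
          field_simp
      _ ≤ S.card * H / P := by
          gcongr
          linarith
      _ ≤ S.card * H / (P - 1) := by
          apply div_le_div_of_nonneg_left (by positivity) (by linarith) (by linarith)
  · rw [hPc]
    calc (S.card : ℝ) * H / (P - 1) ≤ C.card * H / (P - 1) := by
          have : (0 : ℝ) < P - 1 := by linarith
          gcongr
      _ = (C.card * H / P) * (P / (P - 1)) := by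
          have : (P : ℝ) - 1 ≠ 0 := by linarith
          field_simp
      _ ≤ (C.card * H / P) * (1 + 2 / P) := by
          apply mul_le_mul_of_nonneg_left _ (by positivity)
          rw [div_le_iff₀ (by linarith)]
          have : (1 + 2 / (P : ℝ)) * (P - 1) = P + (1 - 2 / P) := by
            field_simp
            ring
          rw [this]
          have : 2 / (P : ℝ) ≤ 1 := by rw [div_le_one (by linarith)]; linarith
          linarith
      _ = _ := by ring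
  · rw [hS, mem_erase, mem_image]
    constructor
    · rintro ⟨_, y, hy, hyn⟩
      rw [← hyn, sub_add_cancel]
      exact hy
    · intro h
      exact ⟨pow_ne_zero _ hg0, _, h, by ring⟩

/-- the interval as a set of residues -/
noncomputable def itv (P L K : ℕ) : Finset (ZMod P) := by
  classical
  exact (Ioc L (L + K)).image (fun m : ℕ => (m : ZMod P))

section

variable {P : ℕ} [Fact P.Prime]

lemma itv_inj (L K : ℕ) (hK : K ≤ P) : Set.InjOn (fun m : ℕ => (m : ZMod P)) (Ioc L (L + K) : Finset ℕ) := by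
  have hpp : P.Prime := Fact.out
  intro a ha b hb hab
  rw [coe_Ioc, Set.mem_Ioc] at ha hb
  have h4 : (P : ℤ) ∣ (a : ℤ) - b := by
    have := (ZMod.natCast_eq_natCast_iff a b P).1 hab
    exact (Nat.modEq_iff_dvd.1 this.symm)
  obtain ⟨k, hk⟩ := h4
  have h5 : k = 0 := by
    by_contra h0
    have hpz : (0 : ℤ) < P := by exact_mod_cast hpp.pos
    have h6 : (1 : ℤ) ≤ |k| := Int.one_le_abs h0
    have h7 : |(a : ℤ) - b| = P * |k| := by rw [hk, abs_mul, abs_of_pos hpz]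
    have h8 : |(a : ℤ) - b| < P := by
      rw [abs_lt]
      constructor <;> omega
    nlinarith
  rw [h5, mul_zero] at hk
  omega

lemma itv_card (L K : ℕ) (hK : K ≤ P) : (itv P L K).card = K := by
  classical
  unfold itv
  rw [card_image_of_injOn (itv_inj L K hK), Nat.card_Ioc]
  omega

lemma itv_sum {E : Type*} [AddCommMonoid E] (L K : ℕ) (hK : K ≤ P) (F : ZMod P → E) :
    ∑ y ∈ itv P L K, F y = ∑ m ∈ Ioc L (L + K), F (m : ZMod P) := by
  classical
  unfold itv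
  rw [sum_image (itv_inj L K hK)]

lemma mem_itv (L K : ℕ) (x : ZMod P) : x ∈ itv P L K ↔ ∃ m : ℕ, L < m ∧ m ≤ L + K ∧ x = m := by
  classical
  unfold itv
  rw [mem_image]
  constructor
  · rintro ⟨m, hm, rfl⟩
    rw [mem_Ioc] at hm
    exact ⟨m, hm.1, hm.2, rfl⟩
  · rintro ⟨m, h1, h2, rfl⟩
    exact ⟨m, mem_Ioc.2 ⟨h1, h2⟩, rfl⟩

end

/-- **the family of discrete logarithms** -/
theorem dlog_fam (ε η : ℝ) (hε : 0 < ε) (hη : 0 < η) : ∃ P₁ : ℕ, ∀ P : ℕ, P₁ ≤ P → ∀ [Fact P.Prime] (g : ZMod P),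
    orderOf g = P - 1 →
    (∀ M H L K : ℕ, H ≤ P - 1 → K ≤ P → (P : ℝ) ^ (3 / 2 + ε) ≤ (H : ℝ) * K →
      ∃ N : ℝ, (1 - η) * (K * H / P) ≤ N ∧ N ≤ (1 + η) * (K * H / P) ∧
      EqR ⌊(P : ℝ) ^ (ε / 32)⌋₊ M H (fun n => ∃ m : ℕ, L < m ∧ m ≤ L + K ∧ g ^ n = m) N) ∧
    (∀ (G : Subgroup (ZMod P)ˣ) (b : (ZMod P)ˣ) (c : ZMod P), c ≠ 0 → ∀ M H : ℕ, H ≤ P - 1 →
      (P : ℝ) ^ (3 / 2 + ε) ≤ (Nat.card G : ℝ) * H →
      ∃ N : ℝ, (1 - η) * (Nat.card G * H / P) ≤ N ∧ N ≤ (1 + η) * (Nat.card G * H / P) ∧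
      EqR ⌊(P : ℝ) ^ (ε / 32)⌋₊ M H (fun n => ∃ u ∈ G, g ^ n + c = (b : ZMod P) * (u : ZMod P)) N) ∧
    (∀ c : ZMod P, c ≠ 0 → ∀ M H : ℕ, H ≤ P - 1 → (P : ℝ) ^ (1 / 2 + ε) ≤ H →
      ∃ N : ℝ, (1 - η) * ((P - 1).totient * H / P) ≤ N ∧ N ≤ (1 + η) * ((P - 1).totient * H / P) ∧
      EqR ⌊(P : ℝ) ^ (ε / 32)⌋₊ M H (fun n => orderOf (g ^ n + c) = P - 1) N) := by
  classical
  obtain ⟨P0, hP0⟩ := dlog_shift (ε / 2) (by linarith)
  obtain ⟨C', hC', hdiv⟩ := Pool.Agent.Helper112.divisor_bound (ε / 8) (by linarith)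
  have hlog : ∀ᶠ x : ℝ in atTop, Real.log x ≤ x ^ (ε / 4) := by
    have h := (isLittleO_log_rpow_atTop (show (0 : ℝ) < ε / 4 by linarith)).def (show (0 : ℝ) < 1 by norm_num)
    filter_upwards [h, eventually_ge_atTop (1 : ℝ)] with X hX hX1
    rwa [Real.norm_eq_abs, abs_of_nonneg (Real.log_nonneg hX1), Real.norm_eq_abs,
      abs_of_nonneg (Real.rpow_nonneg (by linarith) _), one_mul] at hX
  have hev := hlog.and ((Pool.Agent.W147.PS.ev_pow (ε / 4) (ε / 2) 16 (by linarith)).and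
    ((Pool.Agent.W147.PS.ev_pow (ε / 4) (ε / 2) (4 * C' ^ 2) (by linarith)).and ((eventually_ge_atTop (4 : ℝ)).and
      (((tendsto_rpow_atTop (show (0 : ℝ) < 1 / 2 by norm_num)).eventually_ge_atTop (2 + 1 / η)).and
      ((eventually_ge_atTop (2 / η)).and
      ((tendsto_rpow_atTop (show (0 : ℝ) < 1 / 4 by norm_num)).eventually_ge_atTop (2 + 1 / η)))))))
  obtain ⟨X₀, hX₀⟩ := eventually_atTop.mp hev
  obtain ⟨C4, hC4, hdiv4⟩ := Pool.Agent.Helper112.divisor_bound (1 / 4) (by norm_num)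
  obtain ⟨X₁, hX₁⟩ := eventually_atTop.mp
    ((tendsto_rpow_atTop (show (0 : ℝ) < 1 / 4 by norm_num)).eventually_ge_atTop (2 * C4))
  refine ⟨max P0 (max ⌈X₀⌉₊ ⌈X₁⌉₊), ?_⟩
  intro P hP _ g hg
  have hpp : P.Prime := Fact.out
  have hPP0 : P0 ≤ P := (le_max_left _ _).trans hP
  have hpX : X₀ ≤ (P : ℝ) := (Nat.le_ceil _).trans (by exact_mod_cast ((le_max_left _ _).trans (le_max_right _ _)).trans hP)
  have hpX1 : X₁ ≤ (P : ℝ) := (Nat.le_ceil _).trans (by exact_mod_cast ((le_max_right _ _).trans (le_max_right _ _)).trans hP)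
  obtain ⟨c1, c2, c3, c4, c5, c6, c7⟩ := hX₀ P hpX
  have c8 := hX₁ P hpX1
  have hpR : (0 : ℝ) < P := by linarith
  have hP1 : (1 : ℝ) ≤ P := by linarith
  have hs1 : (1 : ℝ) ≤ Real.sqrt P := by rwa [Real.one_le_sqrt]
  have hsq : Real.sqrt P = (P : ℝ) ^ (1 / 2 : ℝ) := Real.sqrt_eq_rpow _
  have hx1 : (1 : ℝ) ≤ (P : ℝ) ^ (ε / 4) := Real.one_le_rpow hP1 (by linarith)
  have hx2 : (P : ℝ) ^ (ε / 4) ≤ (P : ℝ) ^ (ε / 2) := Real.rpow_le_rpow_of_exponent_le hP1 (by linarith)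
  have hlogP : 0 ≤ Real.log P := Real.log_nonneg hP1
  have hG := hP0 P hPP0 g hg
  have e32 : (ε / 2 / 16 : ℝ) = ε / 32 := by ring
  rw [e32] at hG
  have hη1 : 2 / (P : ℝ) ≤ η := by
    rw [div_le_iff₀ hpR]
    rw [div_le_iff₀ hη] at c6
    linarith
  have hfin : ∀ (Cc : ℕ) (H : ℕ) (N : ℝ), 1 / η ≤ (Cc : ℝ) → (1 - 1 / (Cc : ℝ)) * (Cc * H / P) ≤ N →
      N ≤ (1 + 2 / P) * (Cc * H / P) → (1 - η) * (Cc * H / P) ≤ N ∧ N ≤ (1 + η) * (Cc * H / P) := by
    intro Cc H N hCc h1 h2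
    have hCp : (0 : ℝ) < Cc := lt_of_lt_of_le (by positivity) hCc
    have h3 : 1 / (Cc : ℝ) ≤ η := by
      rw [div_le_iff₀ hCp]
      rw [div_le_iff₀ hη] at hCc
      linarith
    have h4 : (0 : ℝ) ≤ Cc * H / P := by positivity
    constructor
    · refine le_trans ?_ h1
      apply mul_le_mul_of_nonneg_right _ h4
      linarith
    · refine h2.trans ?_
      apply mul_le_mul_of_nonneg_right _ h4
      linarith
  refine ⟨?_, ?_, ?_⟩
  · intro M H L K hH hK hHK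
    have hHr : (H : ℝ) ≤ P := by
      have : H ≤ P := by omega
      exact_mod_cast this
    have hKP : (P : ℝ) ^ (1 / 2 + ε) ≤ K := by
      have h1 : (P : ℝ) * (P : ℝ) ^ (1 / 2 + ε) ≤ P * K := by
        calc (P : ℝ) * (P : ℝ) ^ (1 / 2 + ε) = (P : ℝ) ^ (3 / 2 + ε) := by
              rw [← Real.rpow_one_add' hpR.le (by linarith)]
              congr 1
              ring
          _ ≤ H * K := hHK
          _ ≤ P * K := by gcongr
      exact le_of_mul_le_mul_left h1 hpR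
    have hK2 : 2 + 1 / η ≤ (K : ℝ) := by
      refine le_trans c5 (le_trans ?_ hKP)
      exact Real.rpow_le_rpow_of_exponent_le hP1 (by linarith)
    have hη0 : 0 ≤ 1 / η := by positivity
    obtain ⟨N, hN1, hN2, hN3⟩ := hG (itv P L K) 0 (Real.sqrt P * (3 + Real.log P)) (by nlinarith)
      (by
        rw [itv_card L K hK]
        have : (2 : ℝ) ≤ K := by linarith
        exact_mod_cast this)
      (fun χ hχ => by
        rw [itv_sum L K hK]
        simp only [sub_zero]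
        exact chi_interval χ hχ L K hK) M H hH (by
        rw [itv_card L K hK]
        calc 2 * (Real.sqrt P * (3 + Real.log P) * (P : ℝ) ^ (1 + ε / 2)) =
            (2 * (3 + Real.log P)) * ((P : ℝ) ^ (1 / 2 : ℝ) * (P : ℝ) ^ (1 + ε / 2)) := by
              rw [hsq]; ring
          _ ≤ (P : ℝ) ^ (ε / 2) * ((P : ℝ) ^ (1 / 2 : ℝ) * (P : ℝ) ^ (1 + ε / 2)) := by
              gcongr
              linarith
          _ = (P : ℝ) ^ (3 / 2 + ε) := by
              rw [← Real.rpow_add hpR, ← Real.rpow_add hpR]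
              congr 1
              ring
          _ ≤ H * K := hHK
          _ = K * H := by ring)
    rw [itv_card L K hK] at hN1 hN2
    obtain ⟨hN1', hN2'⟩ := hfin K H N (by linarith) hN1 hN2
    refine ⟨N, hN1', hN2', hN3.congr fun n => ?_⟩
    rw [add_zero, mem_itv]
  · intro G b c hc M H hH hGH
    have hHr : (H : ℝ) ≤ P := by
      have : H ≤ P := by omega
      exact_mod_cast this
    have hKP : (P : ℝ) ^ (1 / 2 + ε) ≤ (Nat.card G : ℝ) := by
      have h1 : (P : ℝ) * (P : ℝ) ^ (1 / 2 + ε) ≤ P * Nat.card G := by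
        calc (P : ℝ) * (P : ℝ) ^ (1 / 2 + ε) = (P : ℝ) ^ (3 / 2 + ε) := by
              rw [← Real.rpow_one_add' hpR.le (by linarith)]
              congr 1
              ring
          _ ≤ Nat.card G * H := hGH
          _ ≤ Nat.card G * P := by gcongr
          _ = P * Nat.card G := by ring
      exact le_of_mul_le_mul_left h1 hpR
    have hK2 : 2 + 1 / η ≤ (Nat.card G : ℝ) := by
      refine le_trans c5 (le_trans ?_ hKP)
      exact Real.rpow_le_rpow_of_exponent_le hP1 (by linarith)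
    have hη0 : 0 ≤ 1 / η := by positivity
    obtain ⟨N, hN1, hN2, hN3⟩ := hG (coset G b) c (Real.sqrt P) hs1
      (by
        rw [coset_card]
        have : (2 : ℝ) ≤ (Nat.card G : ℝ) := by linarith
        exact_mod_cast this)
      (fun χ hχ => by
        rw [coset, sum_image (fun x _ y _ hh => coset_inj G b hh)]
        exact chi_coset χ hχ G b c hc) M H hH (by
        rw [coset_card]
        calc 2 * (Real.sqrt P * (P : ℝ) ^ (1 + ε / 2)) =
            2 * ((P : ℝ) ^ (1 / 2 : ℝ) * (P : ℝ) ^ (1 + ε / 2)) := by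
              rw [hsq]
          _ ≤ (P : ℝ) ^ (ε / 2) * ((P : ℝ) ^ (1 / 2 : ℝ) * (P : ℝ) ^ (1 + ε / 2)) := by
              gcongr
              linarith
          _ = (P : ℝ) ^ (3 / 2 + ε) := by
              rw [← Real.rpow_add hpR, ← Real.rpow_add hpR]
              congr 1
              ring
          _ ≤ _ := hGH)
    rw [coset_card] at hN1 hN2
    obtain ⟨hN1', hN2'⟩ := hfin (Nat.card G) H N (by linarith) hN1 hN2
    refine ⟨N, hN1', hN2', hN3.congr fun n => ?_⟩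
    rw [coset, mem_image]
    constructor
    · rintro ⟨u, _, hu⟩
      exact ⟨u, u.2, hu.symm⟩
    · rintro ⟨u, hu, hn⟩
      exact ⟨⟨u, hu⟩, mem_univ _, hn.symm⟩
  · intro c hc M H hH hPH
    have h1n : 1 ≤ P - 1 := by have := hpp.two_le; omega
    set τ : ℝ := ((P - 1).divisors.card : ℝ) with hτ
    have hτ1 : 1 ≤ τ := by
      have : 1 ≤ (P - 1).divisors.card := card_pos.2 ⟨1, Nat.one_mem_divisors.2 (by omega)⟩
      rw [hτ]
      exact_mod_cast this
    have hPle : ((P - 1 : ℕ) : ℝ) ≤ P := by exact_mod_cast Nat.sub_le _ _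
    have hτ2 : τ ≤ C' * (P : ℝ) ^ (ε / 8) := by
      refine (hdiv (P - 1) h1n).trans ?_
      gcongr
    have hτ4 : τ ≤ C4 * (P : ℝ) ^ (1 / 4 : ℝ) := by
      refine (hdiv4 (P - 1) h1n).trans ?_
      gcongr
    have hτ3 : 4 * τ ^ 2 ≤ (P : ℝ) ^ (ε / 2) := by
      refine le_trans ?_ c3
      have : τ ^ 2 ≤ (C' * (P : ℝ) ^ (ε / 8)) ^ 2 := by gcongr
      have h2 : (C' * (P : ℝ) ^ (ε / 8)) ^ 2 = C' ^ 2 * (P : ℝ) ^ (ε / 4) := by
        rw [mul_pow, ← Real.rpow_natCast ((P : ℝ) ^ (ε / 8)), ← Real.rpow_mul hpR.le]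
        congr 2
        push_cast
        ring
      rw [h2] at this
      linarith
    have htot : (P : ℝ) ≤ 2 * (τ * (P - 1).totient) := by
      have h3 : P - 1 ≤ (P - 1).divisors.card * (P - 1).totient := by
        conv_lhs => rw [← Nat.sum_totient (P - 1)]
        rw [← smul_eq_mul]
        apply Finset.sum_le_card_nsmul
        intro d hd
        exact Nat.le_of_dvd (Nat.totient_pos.mpr (by omega))
          (Nat.totient_dvd_of_dvd (Nat.dvd_of_mem_divisors hd))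
      have h4 : ((P - 1 : ℕ) : ℝ) ≤ τ * (P - 1).totient := by rw [hτ]; exact_mod_cast h3
      have h5 : ((P - 1 : ℕ) : ℝ) = P - 1 := by rw [Nat.cast_sub hpp.one_lt.le, Nat.cast_one]
      rw [h5] at h4
      linarith
    have hη0 : 0 ≤ 1 / η := by positivity
    have htb : 2 + 1 / η ≤ ((P - 1).totient : ℝ) := by
      -- totient ≥ P / (2 τ) ≥ P ^ (3/4) / (2 C4) ≥ P ^ (1/4)
      have h6 : (P : ℝ) ^ (1 / 2 : ℝ) * (P : ℝ) ^ (1 / 4 : ℝ) * (P : ℝ) ^ (1 / 4 : ℝ) = P := by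
        rw [← Real.rpow_add hpR, ← Real.rpow_add hpR]
        norm_num
      have h7 : (P : ℝ) ≤ 2 * (C4 * (P : ℝ) ^ (1 / 4 : ℝ) * (P - 1).totient) := by
        refine htot.trans ?_
        gcongr
      have h8 : (P : ℝ) ^ (1 / 2 : ℝ) * (P : ℝ) ^ (1 / 4 : ℝ) ≤ 2 * C4 * (P - 1).totient := by
        have h9 : ((P : ℝ) ^ (1 / 2 : ℝ) * (P : ℝ) ^ (1 / 4 : ℝ)) * (P : ℝ) ^ (1 / 4 : ℝ) ≤
            (2 * C4 * (P - 1).totient) * (P : ℝ) ^ (1 / 4 : ℝ) := by
          rw [h6]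
          linarith
        exact le_of_mul_le_mul_right h9 (by positivity)
      have h9 : 2 * C4 * (P : ℝ) ^ (1 / 2 : ℝ) ≤ 2 * C4 * (P - 1).totient := by
        refine le_trans ?_ h8
        calc 2 * C4 * (P : ℝ) ^ (1 / 2 : ℝ) ≤ (P : ℝ) ^ (1 / 4 : ℝ) * (P : ℝ) ^ (1 / 2 : ℝ) := by gcongr
          _ = _ := by ring
      exact c5.trans (le_of_mul_le_mul_left h9 (by linarith))
    obtain ⟨N, hN1, hN2, hN3⟩ := hG prim c (τ * Real.sqrt P) (by nlinarith)
      (by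
        rw [prim_card]
        have : (2 : ℝ) ≤ ((P - 1).totient : ℝ) := by linarith
        exact_mod_cast this)
      (fun χ hχ => chi_prim χ hχ c hc) M H hH (by
        rw [prim_card]
        have h5 : (2 * (τ * Real.sqrt P * (P : ℝ) ^ (1 + ε / 2))) * (2 * τ) ≤ P * H := by
          calc (2 * (τ * Real.sqrt P * (P : ℝ) ^ (1 + ε / 2))) * (2 * τ) =
                (4 * τ ^ 2) * ((P : ℝ) ^ (1 / 2 : ℝ) * (P : ℝ) ^ (1 + ε / 2)) := by rw [hsq]; ring
            _ ≤ (P : ℝ) ^ (ε / 2) * ((P : ℝ) ^ (1 / 2 : ℝ) * (P : ℝ) ^ (1 + ε / 2)) := by gcongr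
            _ = (P : ℝ) * (P : ℝ) ^ (1 / 2 + ε) := by
                rw [← Real.rpow_add hpR, ← Real.rpow_add hpR]
                conv_rhs => rw [← Real.rpow_one_add' hpR.le (by linarith)]
                congr 1
                ring
            _ ≤ P * H := by gcongr
        have h6 : (P : ℝ) * H ≤ ((P - 1).totient * H) * (2 * τ) := by
          have : (P : ℝ) * H ≤ (2 * (τ * (P - 1).totient)) * H := by gcongr
          linarith
        exact le_of_mul_le_mul_right (h5.trans h6) (by linarith))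
    rw [prim_card] at hN1 hN2
    obtain ⟨hN1', hN2'⟩ := hfin _ H N (by linarith) hN1 hN2
    refine ⟨N, hN1', hN2', hN3.congr fun n => ?_⟩
    rw [prim, mem_filter]
    simp

end Pool.Agent.X55.Fam.D
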