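import Pool.Agent.X55.Fam.Inc

set_option autoImplicit false

/-! # Multiplicative characters over intervals, shifted cosets and shifted primitive roots -/

namespace Pool.Agent.X55.Fam.D

open Finset Filter
open Pool.Agent.X55.Mod
open scoped Classical

section

variable {P : ℕ} [Fact P.Prime]

lemma parseval (f : ZMod P → ℂ) : ∑ b : ZMod P, ‖∑ x : ZMod P, f x * (ZMod.stdAddChar (b * x) : ℂ)‖ ^ 2 =
    P * ∑ x : ZMod P, ‖f x‖ ^ 2 := by
  have h2 : ((∑ b : ZMod P, ‖∑ x : ZMod P, f x * (ZMod.stdAddChar (b * x) : ℂ)‖ ^ 2 : ℝ) : ℂ) =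
      ((P * ∑ x : ZMod P, ‖f x‖ ^ 2 : ℝ) : ℂ) := by
    push_cast
    have h3 : ∀ b : ZMod P, (‖∑ x : ZMod P, f x * (ZMod.stdAddChar (b * x) : ℂ)‖ : ℂ) ^ 2 =
        ∑ x : ZMod P, ∑ y : ZMod P, f x * (starRingEnd ℂ) (f y) *
          (ZMod.stdAddChar (b * (x - y)) : ℂ) := by
      intro b
      rw [← Complex.mul_conj']
      simp only [map_sum, map_mul]
      rw [sum_mul_sum]
      refine sum_congr rfl fun x _ => sum_congr rfl fun y _ => ?_
      rw [← AddChar.map_neg_eq_conj]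
      have : (ZMod.stdAddChar (b * (x - y)) : ℂ) = ZMod.stdAddChar (b * x) * ZMod.stdAddChar (-(b * y)) := by
        rw [← AddChar.map_add_eq_mul]
        congr 1
        ring
      rw [this]
      ring
    rw [sum_congr rfl fun b _ => h3 b, sum_comm, mul_sum]
    refine sum_congr rfl fun x _ => ?_
    rw [sum_comm, sum_eq_single x]
    · rw [← mul_sum, sum_psi, sub_self, if_pos rfl, Complex.mul_conj']
      ring
    · intro y _ hy
      rw [← mul_sum, sum_psi, if_neg (sub_ne_zero.2 (Ne.symm hy)), mul_zero]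
    · intro h
      exact absurd (mem_univ _) h
  exact_mod_cast h2

lemma chi_unit (χ : MulChar (ZMod P) ℂ) {x : ZMod P} (hx : x ≠ 0) : ‖χ x‖ = 1 := by
  have := DirichletCharacter.unit_norm_eq_one χ (Units.mk0 x hx)
  rwa [Units.val_mk0] at this

lemma chi_sq (χ : MulChar (ZMod P) ℂ) : ∑ x : ZMod P, ‖χ x‖ ^ 2 = P - 1 := by
  have hpp : P.Prime := Fact.out
  rw [← Finset.add_sum_erase univ _ (mem_univ (0 : ZMod P)), MulChar.map_zero, norm_zero,
    sum_congr rfl (fun x hx => by rw [chi_unit χ (ne_of_mem_erase hx), one_pow]), sum_const,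
    card_erase_of_mem (mem_univ _), card_univ, ZMod.card, nsmul_eq_mul, Nat.cast_sub hpp.one_lt.le]
  ring

/-- the Gauss sum -/
lemma gauss (χ : MulChar (ZMod P) ℂ) (hχ : χ ≠ 1) (b : ZMod P) :
    ‖∑ x : ZMod P, χ x * (ZMod.stdAddChar (b * x) : ℂ)‖ ≤ Real.sqrt P := by
  have hpp : P.Prime := Fact.out
  rcases eq_or_ne b 0 with rfl | hb
  · simp only [zero_mul, AddChar.map_zero_eq_one, mul_one]
    rw [MulChar.sum_eq_zero_of_ne_one hχ, norm_zero]
    exact Real.sqrt_nonneg _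
  set S : ZMod P → ℝ := fun b => ‖∑ x : ZMod P, χ x * (ZMod.stdAddChar (b * x) : ℂ)‖ with hS
  have hinv : ∀ c : ZMod P, c ≠ 0 → S c = S b := by
    have h1 : ∀ c : ZMod P, c ≠ 0 → S c = S 1 := by
      intro c hc
      have h2 : ∑ x : ZMod P, χ x * (ZMod.stdAddChar (1 * x) : ℂ) =
          χ c * ∑ x : ZMod P, χ x * (ZMod.stdAddChar (c * x) : ℂ) := by
        rw [mul_sum]
        refine (Fintype.sum_equiv (Equiv.mulLeft₀ c hc) _ _ ?_).symm
        intro x
        rw [Equiv.mulLeft₀_apply, map_mul χ, one_mul]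
        ring
      rw [hS]
      simp only
      rw [h2, norm_mul, chi_unit χ hc, one_mul]
    intro c hc
    rw [h1 c hc, h1 b hb]
  have h1 := parseval (fun x => χ x)
  rw [chi_sq] at h1
  have h2 : ((P : ℝ) - 1) * S b ^ 2 ≤ P * (P - 1) := by
    rw [← h1]
    calc ((P : ℝ) - 1) * S b ^ 2 = ∑ c ∈ univ.erase (0 : ZMod P), S c ^ 2 := by
          rw [sum_congr rfl (fun c hc => by rw [hinv c (ne_of_mem_erase hc)]), sum_const,
            card_erase_of_mem (mem_univ _), card_univ, ZMod.card, nsmul_eq_mul, Nat.cast_sub hpp.one_lt.le,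
            Nat.cast_one]
      _ ≤ _ := sum_le_sum_of_subset_of_nonneg (subset_univ _) fun _ _ _ => by positivity
  have hP1 : (0 : ℝ) < (P : ℝ) - 1 := by
    have : (1 : ℝ) < P := by exact_mod_cast hpp.one_lt
    linarith
  have h4 : S b ^ 2 ≤ P := by
    rw [mul_comm (P : ℝ)] at h2
    exact le_of_mul_le_mul_left h2 hP1
  rw [← Real.sqrt_sq (norm_nonneg _)]
  exact Real.sqrt_le_sqrt h4

/-- characters over intervals -/
lemma chi_interval (χ : MulChar (ZMod P) ℂ) (hχ : χ ≠ 1) (L K : ℕ) (hK : K ≤ P) :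
    ‖∑ m ∈ Ioc L (L + K), χ (m : ZMod P)‖ ≤ Real.sqrt P * (3 + Real.log P) := by
  have hpp : P.Prime := Fact.out
  have hpR : (0 : ℝ) < P := by exact_mod_cast hpp.pos
  have h1 := Pool.Agent.X55.Fam.Q.incomplete (p := P) (g := fun x => χ ((L : ZMod P) + x)) (Γ := Real.sqrt P)
    (Real.sqrt_nonneg _) (by
      intro a
      have h2 : ∑ r : ZMod P, χ ((L : ZMod P) + r) * (ZMod.stdAddChar (a * r) : ℂ) =
          (ZMod.stdAddChar (-(a * (L : ZMod P))) : ℂ) * ∑ x : ZMod P, χ x * (ZMod.stdAddChar (a * x) : ℂ) := by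
        rw [mul_sum]
        refine Fintype.sum_equiv (Equiv.addLeft (L : ZMod P)) _ _ ?_
        intro r
        rw [Equiv.coe_addLeft]
        have : (ZMod.stdAddChar (a * r) : ℂ) = ZMod.stdAddChar (-(a * (L : ZMod P))) * ZMod.stdAddChar (a * ((L : ZMod P) + r)) := by
          rw [← AddChar.map_add_eq_mul]
          congr 1
          ring
        rw [this]
        ring
      rw [h2, norm_mul, AddChar.norm_apply, one_mul]
      exact gauss χ hχ a) 0 (u := 0) (v := K) (N := P) hK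
  have h2 : ∑ n ∈ Ioc 0 K, χ ((L : ZMod P) + (n : ZMod P)) * Pool.Agent.Y933.KD.e (n * 0) =
      ∑ m ∈ Ioc L (L + K), χ (m : ZMod P) := by
    refine sum_bij (fun n _ => L + n) ?_ ?_ ?_ ?_
    · intro n hn
      rw [mem_Ioc] at hn ⊢
      omega
    · intro a _ b _ h
      omega
    · intro m hm
      rw [mem_Ioc] at hm
      exact ⟨m - L, by rw [mem_Ioc]; omega, by omega⟩
    · intro n _
      rw [mul_zero, Pool.Agent.Y933.KD.e_zero, mul_one]
      push_cast
      rfl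
  rw [h2] at h1
  refine h1.trans (le_of_eq ?_)
  field_simp
  ring

/-- the mean square of the shifted sums -/
lemma chi_conv (χ : MulChar (ZMod P) ℂ) (hχ : χ ≠ 1) (C : Finset (ZMod P)) :
    ∑ c : ZMod P, ‖∑ y ∈ C, χ (y - c)‖ ^ 2 ≤ P * C.card := by
  have hpp : P.Prime := Fact.out
  have hpR : (0 : ℝ) < P := by exact_mod_cast hpp.pos
  have h1 := parseval (fun c => ∑ y ∈ C, χ (y - c))
  have h2 := parseval (fun y => if y ∈ C then (1 : ℂ) else 0)
  have h3 : ∀ b : ZMod P, ‖∑ c : ZMod P, (∑ y ∈ C, χ (y - c)) * (ZMod.stdAddChar (b * c) : ℂ)‖ ^ 2 ≤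
      P * ‖∑ x : ZMod P, (if x ∈ C then (1 : ℂ) else 0) * (ZMod.stdAddChar (b * x) : ℂ)‖ ^ 2 := by
    intro b
    have h4 : ∑ c : ZMod P, (∑ y ∈ C, χ (y - c)) * (ZMod.stdAddChar (b * c) : ℂ) =
        (∑ x : ZMod P, (if x ∈ C then (1 : ℂ) else 0) * (ZMod.stdAddChar (b * x) : ℂ)) *
          ∑ u : ZMod P, χ u * (ZMod.stdAddChar ((-b) * u) : ℂ) := by
      have h5 : ∑ x : ZMod P, (if x ∈ C then (1 : ℂ) else 0) * (ZMod.stdAddChar (b * x) : ℂ) =
          ∑ y ∈ C, (ZMod.stdAddChar (b * y) : ℂ) := by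
        simp only [ite_mul, one_mul, zero_mul]
        rw [← sum_filter, filter_mem_eq_inter, univ_inter]
      rw [h5, sum_mul]
      simp only [sum_mul]
      rw [sum_comm]
      refine sum_congr rfl fun y _ => ?_
      rw [mul_sum]
      refine Fintype.sum_equiv (Equiv.subLeft y) _ _ ?_
      intro c
      rw [Equiv.subLeft_apply]
      have : (ZMod.stdAddChar (b * c) : ℂ) = ZMod.stdAddChar (b * y) * ZMod.stdAddChar (-b * (y - c)) := by
        rw [← AddChar.map_add_eq_mul]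
        congr 1
        ring
      rw [this]
      ring
    rw [h4, norm_mul, mul_pow, mul_comm]
    have h6 := gauss χ hχ (-b)
    have h7 : ‖∑ u : ZMod P, χ u * (ZMod.stdAddChar ((-b) * u) : ℂ)‖ ^ 2 ≤ P := by
      calc _ ≤ (Real.sqrt P) ^ 2 := by gcongr
        _ = P := Real.sq_sqrt hpR.le
    gcongr
  have h4 : (P : ℝ) * ∑ c : ZMod P, ‖∑ y ∈ C, χ (y - c)‖ ^ 2 ≤ P * (P * C.card) := by
    rw [← h1]
    refine (sum_le_sum fun b _ => h3 b).trans ?_
    rw [← mul_sum, h2]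
    apply le_of_eq
    congr 2
    have h5 : ∀ x : ZMod P, ‖(if x ∈ C then (1 : ℂ) else 0)‖ ^ 2 = if x ∈ C then (1 : ℝ) else 0 := by
      intro x
      split_ifs <;> simp
    rw [sum_congr rfl fun x _ => h5 x, sum_ite_mem, univ_inter, sum_const, nsmul_eq_mul, mul_one]
  exact le_of_mul_le_mul_left h4 hpR

/-- characters over shifted cosets -/
lemma chi_coset (χ : MulChar (ZMod P) ℂ) (hχ : χ ≠ 1) (G : Subgroup (ZMod P)ˣ) (h : (ZMod P)ˣ) (c : ZMod P)
    (hc : c ≠ 0) : ‖∑ g : G, χ ((h : ZMod P) * ((g : (ZMod P)ˣ) : ZMod P) - c)‖ ≤ Real.sqrt P := by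
  have hpp : P.Prime := Fact.out
  set S : ZMod P → ℂ := fun c => ∑ g : G, χ ((h : ZMod P) * ((g : (ZMod P)ˣ) : ZMod P) - c) with hS
  have hGpos : 0 < Fintype.card G := Fintype.card_pos
  have hSC : ∀ c : ZMod P, S c = ∑ y ∈ coset G h, χ (y - c) := by
    intro c
    rw [coset, sum_image (fun x _ y _ hh => coset_inj G h hh)]
  have hinv : ∀ k : G, ‖S (c * ((k : (ZMod P)ˣ) : ZMod P))‖ = ‖S c‖ := by
    intro k
    have h1 : S (c * ((k : (ZMod P)ˣ) : ZMod P)) = χ ((k : (ZMod P)ˣ) : ZMod P) * S c := by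
      rw [hS]
      simp only
      rw [mul_sum]
      refine (Fintype.sum_equiv (Equiv.mulLeft k) _ _ ?_).symm
      intro g
      rw [Equiv.coe_mulLeft, ← map_mul]
      push_cast
      congr 1
      ring
    rw [h1, norm_mul, chi_unit χ (Units.ne_zero _), one_mul]
  have h1 : ∑ x : ZMod P, ‖S x‖ ^ 2 ≤ P * Fintype.card G := by
    have := chi_conv χ hχ (coset G h)
    rw [coset_card, Nat.card_eq_fintype_card] at this
    refine le_trans (le_of_eq ?_) this
    exact sum_congr rfl fun c _ => by rw [hSC]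
  have h2 : Fintype.card G * ‖S c‖ ^ 2 ≤ ∑ x : ZMod P, ‖S x‖ ^ 2 := by
    have hinj : Function.Injective (fun h : G => c * ((h : (ZMod P)ˣ) : ZMod P)) := by
      intro h h' hh
      have := mul_left_cancel₀ hc hh
      exact Subtype.ext (Units.ext this)
    calc Fintype.card G * ‖S c‖ ^ 2 = ∑ h : G, ‖S (c * ((h : (ZMod P)ˣ) : ZMod P))‖ ^ 2 := by
          rw [sum_congr rfl fun h _ => by rw [hinv h], sum_const, nsmul_eq_mul, card_univ]
      _ = ∑ x ∈ univ.map ⟨_, hinj⟩, ‖S x‖ ^ 2 := by rw [sum_map]; rfl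
      _ ≤ _ := sum_le_sum_of_subset_of_nonneg (subset_univ _) fun _ _ _ => by positivity
  have h3 : (0 : ℝ) < Fintype.card G := by exact_mod_cast hGpos
  have h4 : ‖S c‖ ^ 2 ≤ P := by
    have h5 := h2.trans h1
    rw [mul_comm] at h5
    exact le_of_mul_le_mul_right h5 h3
  rw [← Real.sqrt_sq (norm_nonneg (S c))]
  exact Real.sqrt_le_sqrt h4

/-- characters over shifted primitive roots -/
lemma chi_prim (χ : MulChar (ZMod P) ℂ) (hχ : χ ≠ 1) (c : ZMod P) (hc : c ≠ 0) :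
    ‖∑ y ∈ (prim : Finset (ZMod P)), χ (y - c)‖ ≤ (P - 1).divisors.card * Real.sqrt P := by
  rw [prim_sum (fun y => χ (y - c))]
  refine (norm_sum_le _ _).trans ?_
  rw [← nsmul_eq_mul, ← sum_const]
  refine sum_le_sum fun d _ => ?_
  rw [norm_mul]
  have h1 : ‖(ArithmeticFunction.moebius d : ℂ)‖ ≤ 1 := by
    rw [Complex.norm_intCast]
    exact_mod_cast ArithmeticFunction.abs_moebius_le_one
  have h2 := chi_coset χ hχ (tors ((P - 1) / d)) 1 c hc
  simp only [Units.val_one, one_mul] at h2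
  calc _ ≤ 1 * Real.sqrt P := by gcongr
    _ = _ := one_mul _

end

end Pool.Agent.X55.Fam.D
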