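import Pool.Agent.X55.Fam.Uni

set_option autoImplicit false

/-! # Linear forms, uniformly in the coefficients -/

namespace Pool.Agent.X55.Fam

open Finset Filter Pool.Agent.H373R2.T7

/-- the removed classes for linear forms -/
def QL {k : ℕ} (a b : Fin k → ℤ) (p n : ℕ) : Prop := ∃ i, (p : ℤ) ∣ a i * n + b i

lemma ql_mod (a b : ℤ) (p n : ℕ) : (p : ℤ) ∣ a * n + b ↔ (p : ℤ) ∣ a * ((n % p : ℕ) : ℤ) + b := by
  have h1 : (a * n + b) - (a * ((n % p : ℕ) : ℤ) + b) = p * (a * ((n / p : ℕ) : ℤ)) := by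
    have := Nat.mod_add_div n p
    zify at this
    push_cast
    linear_combination (-a) * this
  have h5 : (p : ℤ) ∣ (a * n + b) - (a * ((n % p : ℕ) : ℤ) + b) := ⟨_, h1⟩
  exact (dvd_iff_dvd_of_dvd_sub h5)

lemma adm_lin {k : ℕ} (a b : Fin k → ℤ) (hadm : ∀ p : ℕ, p.Prime → ∃ n : ℕ, ∀ i, ¬ (p : ℤ) ∣ a i * n + b i) :
    Adm (QL a b) k := by
  classical
  refine ⟨⟨fun p n => exists_congr fun i => ql_mod (a i) (b i) p n, fun p hp => ?_⟩, fun p hp => ?_⟩
  · obtain ⟨n, hn⟩ := hadm p hp
    have h1 : nuB (QL a b) p ≤ ∑ i : Fin k, ((range p).filter (fun r : ℕ => (p : ℤ) ∣ a i * r + b i)).card := by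
      unfold nuB
      have h2 : (range p).filter (fun r => QL a b p r) ⊆ univ.biUnion (fun i =>
          (range p).filter (fun r : ℕ => (p : ℤ) ∣ a i * r + b i)) := by
        intro r hr
        rw [mem_filter] at hr
        obtain ⟨i, hi⟩ := hr.2
        rw [mem_biUnion]
        exact ⟨i, mem_univ _, mem_filter.2 ⟨hr.1, hi⟩⟩
      exact (card_le_card h2).trans card_biUnion_le
    refine h1.trans ?_
    have h3 : ∀ i : Fin k, ((range p).filter (fun r : ℕ => (p : ℤ) ∣ a i * r + b i)).card ≤ 1 := by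
      intro i
      rw [card_le_one]
      intro r hr s hs
      rw [mem_filter, mem_range] at hr hs
      have hpa : ¬ (p : ℤ) ∣ a i := by
        intro hd
        apply hn i
        have h4 : (p : ℤ) ∣ b i := by
          have := dvd_sub hr.2 (hd.mul_right (r : ℤ))
          rwa [add_sub_cancel_left] at this
        exact dvd_add (hd.mul_right _) h4
      have h5 : (p : ℤ) ∣ a i * ((r : ℤ) - s) := by
        have := dvd_sub hr.2 hs.2
        have e : a i * (r : ℤ) + b i - (a i * s + b i) = a i * ((r : ℤ) - s) := by ring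
        rwa [e] at this
      have h6 : (p : ℤ) ∣ (r : ℤ) - s := (Prime.dvd_or_dvd (Nat.prime_iff_prime_int.1 hp) h5).resolve_left hpa
      have h7 : s ≡ r [MOD p] := (Nat.modEq_iff_dvd).2 h6
      exact (Nat.ModEq.eq_of_lt_of_lt h7 hs.1 hr.1).symm
    calc ∑ i : Fin k, ((range p).filter (fun r : ℕ => (p : ℤ) ∣ a i * r + b i)).card ≤ ∑ i : Fin k, 1 :=
          sum_le_sum fun i _ => h3 i
      _ = k := by simp
  · obtain ⟨n, hn⟩ := hadm p hp
    unfold nuB
    have h1 : ((range p).filter (fun r => QL a b p r)).card < (range p).card := by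
      apply card_lt_card
      rw [Finset.ssubset_iff_of_subset (filter_subset _ _)]
      refine ⟨n % p, mem_range.2 (Nat.mod_lt _ hp.pos), ?_⟩
      rw [mem_filter, not_and]
      rintro _ ⟨i, hi⟩
      exact hn i ((ql_mod (a i) (b i) p n).2 hi)
    rwa [card_range] at h1

open Classical in
/-- bounds for linear forms -/
theorem lin_bounds (k : ℕ) (hk : 1 ≤ k) (B : ℕ) : ∃ (r K X₀ : ℕ) (c C : ℝ), 1 ≤ K ∧ 0 < c ∧ 0 < C ∧
    ∀ X : ℕ, X₀ ≤ X → ∀ (Ω : Finset ℕ) (v : ℕ → ℕ) (A : ℝ), 0 ≤ A → Equi X Ω v A →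
    ∀ a b : Fin k → ℤ, (∀ i, a i ≠ 0) → (∀ p : ℕ, p.Prime → ∃ n : ℕ, ∀ i, ¬ (p : ℤ) ∣ a i * n + b i) →
    ((∀ n ∈ Ω, v n ≤ X ^ B) → (∀ i, (a i).natAbs ≤ X ^ B) → (∀ i, (b i).natAbs ≤ X ^ B) →
      c * (A * VQ (QL a b) X) ≤ ((Ω.filter (fun n => ∀ i,
      (a i * v n + b i).natAbs ≠ 0 ∧ (a i * v n + b i).natAbs.primeFactorsList.length ≤ r ∧
      ∀ p : ℕ, p.Prime → p ∣ (a i * v n + b i).natAbs → X < p ^ K)).card : ℝ)) ∧
    ((Ω.filter (fun n => ∀ i, (a i * v n + b i).natAbs.Prime)).card : ℝ) ≤ C * (A * VQ (QL a b) X) := by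
  obtain ⟨K1, X1, hK1, hasy⟩ := uni_asym k hk (1 / 2) (by norm_num)
  obtain ⟨c1, hc1, hV⟩ := VQ_low k hk
  set K := max K1 2 with hK
  have hK2 : 2 ≤ K := le_max_right _ _
  have hKK1 : K1 ≤ K := le_max_left _ _
  obtain ⟨C2, hC2, hrat⟩ := VQ_ratio k (2 * K) hk (by omega)
  have hev : ∀ᶠ X : ℝ in atTop, (6 * k / c1 + 1) * Real.log X ^ k ≤ X ^ (1 / 2 : ℝ) := by
    have h1 := (isLittleO_log_rpow_atTop (show (0 : ℝ) < 1 / (4 * (k + 1)) by positivity)).def
      (show (0 : ℝ) < 1 by norm_num)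
    filter_upwards [h1, eventually_ge_atTop (1 : ℝ),
      (tendsto_rpow_atTop (show (0 : ℝ) < 1 / 4 by norm_num)).eventually_ge_atTop (6 * k / c1 + 1)] with X hX hX1 hX2
    rw [Real.norm_eq_abs, abs_of_nonneg (Real.log_nonneg hX1), Real.norm_eq_abs,
      abs_of_nonneg (Real.rpow_nonneg (by linarith) _), one_mul] at hX
    have h2 : Real.log X ^ k ≤ X ^ (1 / 4 : ℝ) := by
      calc Real.log X ^ k ≤ (X ^ (1 / (4 * (k + 1)) : ℝ)) ^ k := by
            apply pow_le_pow_left₀ (Real.log_nonneg hX1) hX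
        _ = X ^ (1 / (4 * (k + 1)) * k : ℝ) := by
            rw [← Real.rpow_natCast, ← Real.rpow_mul (by linarith)]
        _ ≤ X ^ (1 / 4 : ℝ) := by
            apply Real.rpow_le_rpow_of_exponent_le hX1
            rw [div_mul_eq_mul_div, one_mul, div_le_div_iff₀ (by positivity) (by norm_num)]
            nlinarith
    calc (6 * k / c1 + 1) * Real.log X ^ k ≤ X ^ (1 / 4 : ℝ) * X ^ (1 / 4 : ℝ) :=
          mul_le_mul hX2 h2 (pow_nonneg (Real.log_nonneg hX1) _) (Real.rpow_nonneg (by linarith) _)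
      _ = X ^ (1 / 2 : ℝ) := by
          rw [← Real.rpow_add (by linarith)]
          norm_num
  obtain ⟨X2, hX2⟩ := eventually_atTop.mp hev
  refine ⟨2 * K * (2 * B + 1), K, max (max X1 (3 ^ K)) ⌈X2⌉₊, 1 / 2, 2 * C2 + 1, by omega,
    by positivity, by positivity, ?_⟩
  intro X hX Ω v A hA hE a b ha0 hadm
  have hX1 : X1 ≤ X := ((le_max_left _ _).trans (le_max_left _ _)).trans hX
  have hX3 : 3 ^ K ≤ X := ((le_max_right _ _).trans (le_max_left _ _)).trans hX
  have hX4 : X2 ≤ (X : ℝ) := (Nat.le_ceil _).trans (by exact_mod_cast (le_max_right _ _).trans hX)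
  have h3X : 3 ≤ X := (Nat.le_self_pow (by omega) 3).trans hX3
  have hXr : (3 : ℝ) ≤ X := by exact_mod_cast h3X
  have hQ := adm_lin a b hadm
  -- the parameter y
  set y := Nat.findGreatest (fun y => y ^ K ≤ X) X with hy
  have hyK : y ^ K ≤ X := by
    have := Nat.findGreatest_spec (P := fun y => y ^ K ≤ X) (n := X) h3X hX3
    exact this
  have hy3 : 3 ≤ y := Nat.le_findGreatest h3X hX3
  have hyX : y ≤ X := Nat.findGreatest_le X
  have hy1 : X < (y + 1) ^ K := by
    by_contra hcon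
    push Not at hcon
    have h1 : y + 1 ≤ X := (Nat.le_self_pow (by omega) _).trans hcon
    have h2 : y + 1 ≤ y := Nat.le_findGreatest h1 hcon
    omega
  have hy2 : X < y ^ (2 * K) := by
    calc X < (y + 1) ^ K := hy1
      _ ≤ (y ^ 2) ^ K := Nat.pow_le_pow_left (by nlinarith) _
      _ = y ^ (2 * K) := by rw [← pow_mul]
  have hlX : 0 < Real.log X := Real.log_pos (by linarith)
  have hK1y : y ^ K1 ≤ X := (Nat.pow_le_pow_right (by omega) hKK1).trans hyK
  have key := hasy X hX1 Ω v A hA hE y hy3 hK1y (QL a b) hQ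
  rw [abs_le] at key
  have hVyX : VQ (QL a b) X ≤ VQ (QL a b) y := VQ_anti hyX
  have hVr := hrat (QL a b) hQ y X hy3 hyX hy2.le
  have hVX0 : 0 ≤ VQ (QL a b) X := VQ_nonneg _ _
  have hVXl := hV (QL a b) hQ X h3X
  constructor
  · intro hv haB hbB
    have h1 : 1 / 2 * (A * VQ (QL a b) X) ≤ ((Ω.filter (fun n => ∀ p ∈ pz y, ¬ QL a b p (v n))).card : ℝ) := by
      have : A * VQ (QL a b) X ≤ A * VQ (QL a b) y := mul_le_mul_of_nonneg_left hVyX hA
      linarith [key.1]
    refine h1.trans ?_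
    have h2 : Ω.filter (fun n => ∀ p ∈ pz y, ¬ QL a b p (v n)) ⊆ Ω.filter (fun n => ∀ i,
        (a i * v n + b i).natAbs ≠ 0 ∧ (a i * v n + b i).natAbs.primeFactorsList.length ≤ 2 * K * (2 * B + 1) ∧
        ∀ p : ℕ, p.Prime → p ∣ (a i * v n + b i).natAbs → X < p ^ K) := by
      intro n hn
      rw [mem_filter] at hn ⊢
      refine ⟨hn.1, fun i => ?_⟩
      have hnd : ∀ p : ℕ, p.Prime → p ≤ y → ¬ p ∣ (a i * v n + b i).natAbs := by
        intro p hp hpy hd
        exact hn.2 p (mem_pz.2 ⟨hpy, hp⟩) ⟨i, Int.natCast_dvd.2 hd⟩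
      have hne : (a i * v n + b i).natAbs ≠ 0 := by
        intro h0
        apply hnd 2 Nat.prime_two (by omega)
        rw [h0]
        exact dvd_zero 2
      refine ⟨hne, ?_, ?_⟩
      · have h3 := Pool.Agent.X55.Pal.few hne hnd
        have h4 : (a i * v n + b i).natAbs ≤ X ^ (2 * B + 1) := by
          have h5 : (a i * v n + b i).natAbs ≤ (a i).natAbs * v n + (b i).natAbs := by
            refine (Int.natAbs_add_le _ _).trans ?_
            rw [Int.natAbs_mul, Int.natAbs_natCast]
          refine h5.trans ?_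
          have hXB : 1 ≤ X ^ B := Nat.one_le_pow _ _ (by omega)
          calc (a i).natAbs * v n + (b i).natAbs ≤ X ^ B * X ^ B + X ^ B :=
                Nat.add_le_add (Nat.mul_le_mul (haB i) (hv n hn.1)) (hbB i)
            _ ≤ X ^ B * X ^ B * 2 := by nlinarith
            _ ≤ X ^ B * X ^ B * X := Nat.mul_le_mul_left _ (by omega)
            _ = X ^ (2 * B + 1) := by ring
        have h5 : y ^ (a i * v n + b i).natAbs.primeFactorsList.length ≤ y ^ (2 * K * (2 * B + 1)) := by
          refine h3.trans (h4.trans ?_)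
          rw [pow_mul]
          exact Nat.pow_le_pow_left hy2.le _
        exact (Nat.pow_le_pow_iff_right (by omega)).1 h5
      · intro p hp hd
        have h3 : y < p := by
          by_contra hcon
          exact hnd p hp (by omega) hd
        exact lt_of_lt_of_le hy1 (Nat.pow_le_pow_left h3 K)
    exact_mod_cast card_le_card h2
  · have hsub : Ω.filter (fun n => ∀ i, (a i * v n + b i).natAbs.Prime) ⊆
        Ω.filter (fun n => ∀ p ∈ pz y, ¬ QL a b p (v n)) ∪
          univ.biUnion (fun i => (Icc (-(y : ℤ)) y).biUnion (fun t =>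
            Ω.filter (fun n => a i * v n + b i = t))) := by
      intro n hn
      rw [mem_filter] at hn
      rw [mem_union]
      by_cases hsm : ∃ i, (a i * v n + b i).natAbs ≤ y
      · right
        obtain ⟨i, hi⟩ := hsm
        rw [mem_biUnion]
        refine ⟨i, mem_univ _, ?_⟩
        rw [mem_biUnion]
        refine ⟨a i * v n + b i, ?_, mem_filter.2 ⟨hn.1, rfl⟩⟩
        rw [mem_Icc]
        omega
      · left
        push Not at hsm
        rw [mem_filter]
        refine ⟨hn.1, fun p hp => ?_⟩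
        rintro ⟨i, hi⟩
        rw [mem_pz] at hp
        have h1 := (Nat.prime_dvd_prime_iff_eq hp.2 (hn.2 i)).1 (Int.natCast_dvd.1 hi)
        have := hsm i
        omega
    have hcard1 : ∀ (i : Fin k) (t : ℤ), ((Ω.filter (fun n => a i * v n + b i = t)).card : ℝ) ≤ 2 * A / X := by
      intro i t
      rcases (Ω.filter (fun n => a i * v n + b i = t)).eq_empty_or_nonempty with h0 | ⟨n0, hn0⟩
      · rw [h0, card_empty, Nat.cast_zero]
        positivity
      · rw [mem_filter] at hn0
        have h1 : (Ω.filter (fun n => a i * v n + b i = t)) ⊆ Ω.filter (fun n => v n ≡ v n0 [MOD X]) := by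
          intro n hn
          rw [mem_filter] at hn ⊢
          refine ⟨hn.1, ?_⟩
          have h2 : a i * (v n : ℤ) = a i * (v n0 : ℤ) := by linarith [hn.2, hn0.2]
          have h3 : (v n : ℤ) = v n0 := mul_left_cancel₀ (ha0 i) h2
          have h4 : v n = v n0 := by exact_mod_cast h3
          rw [h4]
        have h2 : ((Ω.filter (fun n => a i * v n + b i = t)).card : ℝ) ≤
            ((Ω.filter (fun n => v n ≡ v n0 [MOD X])).card : ℝ) := by exact_mod_cast card_le_card h1
        have h4 := (abs_le.1 (hE X (by omega) le_rfl (v n0))).2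
        have h5 : A / (X : ℝ) ^ 2 ≤ A / X := by
          apply div_le_div_of_nonneg_left hA (by linarith)
          nlinarith
        have h6 : 2 * A / X = A / X + A / X := by ring
        rw [h6]
        linarith
    have hcard2 : ((univ.biUnion (fun i => (Icc (-(y : ℤ)) y).biUnion (fun t =>
            Ω.filter (fun n => a i * v n + b i = t)))).card : ℝ) ≤ k * ((2 * y + 1) * (2 * A / X)) := by
      have h1 : ((univ.biUnion (fun i => (Icc (-(y : ℤ)) y).biUnion (fun t =>
            Ω.filter (fun n => a i * v n + b i = t)))).card : ℝ) ≤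
          ∑ i : Fin k, ∑ t ∈ Icc (-(y : ℤ)) y, ((Ω.filter (fun n => a i * v n + b i = t)).card : ℝ) := by
        have h2 : (univ.biUnion (fun i => (Icc (-(y : ℤ)) y).biUnion (fun t =>
            Ω.filter (fun n => a i * v n + b i = t)))).card ≤
          ∑ i : Fin k, ∑ t ∈ Icc (-(y : ℤ)) y, (Ω.filter (fun n => a i * v n + b i = t)).card :=
          card_biUnion_le.trans (sum_le_sum fun i _ => card_biUnion_le)
        exact_mod_cast h2
      refine h1.trans ((sum_le_sum fun i _ => sum_le_sum fun t _ => hcard1 i t).trans ?_)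
      simp only [sum_const, nsmul_eq_mul, Int.card_Icc, card_univ, Fintype.card_fin]
      have h2 : ((((y : ℤ) + 1 - -(y : ℤ)).toNat : ℕ) : ℝ) = 2 * y + 1 := by
        have : ((y : ℤ) + 1 - -(y : ℤ)).toNat = 2 * y + 1 := by omega
        rw [this]
        push_cast
        ring
      rw [h2]
    have h1 : ((Ω.filter (fun n => ∀ i, (a i * v n + b i).natAbs.Prime)).card : ℝ) ≤
        ((Ω.filter (fun n => ∀ p ∈ pz y, ¬ QL a b p (v n))).card : ℝ) + k * ((2 * y + 1) * (2 * A / X)) := by
      have h2 := (card_le_card hsub).trans (card_union_le _ _)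
      have h3 : ((Ω.filter (fun n => ∀ i, (a i * v n + b i).natAbs.Prime)).card : ℝ) ≤
        ((Ω.filter (fun n => ∀ p ∈ pz y, ¬ QL a b p (v n))).card : ℝ) +
        ((univ.biUnion (fun i => (Icc (-(y : ℤ)) y).biUnion (fun t =>
            Ω.filter (fun n => a i * v n + b i = t)))).card : ℝ) := by exact_mod_cast h2
      linarith
    refine h1.trans ?_
    have h3 : k * ((2 * y + 1) * (2 * A / X)) ≤ A * VQ (QL a b) X := by
      have h4 : (y : ℝ) ≤ (X : ℝ) ^ (1 / 2 : ℝ) := by
        rw [← Real.sqrt_eq_rpow]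
        apply Real.le_sqrt_of_sq_le
        have : y ^ 2 ≤ X := (Nat.pow_le_pow_right (by omega) hK2).trans hyK
        exact_mod_cast this
      have h5 := hX2 X hX4
      have h6 : (1 : ℝ) ≤ (y : ℝ) := by exact_mod_cast (by omega : 1 ≤ y)
      have h7 : (X : ℝ) ^ (1 / 2 : ℝ) * (X : ℝ) ^ (1 / 2 : ℝ) = X := by
        rw [← Real.rpow_add (by linarith)]
        norm_num
      have hlk : 0 < Real.log X ^ k := pow_pos hlX k
      set s := (X : ℝ) ^ (1 / 2 : ℝ) with hs
      have hs0 : 0 < s := by linarith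
      have h8 : 6 * k * Real.log X ^ k ≤ s * c1 := by
        have h9 : 6 * k / c1 * Real.log X ^ k ≤ s := by nlinarith
        rw [div_mul_eq_mul_div, div_le_iff₀ hc1] at h9
        exact h9
      calc (k : ℝ) * ((2 * y + 1) * (2 * A / X)) ≤ k * ((3 * s) * (2 * A / X)) := by
            gcongr
            linarith
        _ = (6 * k * Real.log X ^ k) * s * (A / X) / Real.log X ^ k := by
            field_simp
            ring
        _ ≤ (s * c1) * s * (A / X) / Real.log X ^ k := by gcongr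
        _ = A * (c1 / Real.log X ^ k) := by
            have : (s * c1) * s * (A / X) = (s * s) * (A * c1 / X) := by ring
            rw [this, h7]
            field_simp
        _ ≤ _ := mul_le_mul_of_nonneg_left hVXl hA
    have h4 : A * VQ (QL a b) y ≤ C2 * (A * VQ (QL a b) X) := by
      calc A * VQ (QL a b) y ≤ A * (C2 * VQ (QL a b) X) := mul_le_mul_of_nonneg_left hVr hA
        _ = _ := by ring
    nlinarith [key.2]

end Pool.Agent.X55.Fam
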