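import Pool.Agent.X55.Fam.ResCor
import Pool.Agent.X55.Fam.Lin

set_option autoImplicit false

/-! # From sets with small Fourier coefficients to cosets, primitive roots and modular hyperbolas; linear forms -/

namespace Pool.Agent.X55.Fam

open Finset Filter
open Pool.Agent.H373R2.T7 Pool.Agent.X55.Mod

/-- the transfer -/
theorem transfer (ε : ℝ) (hε : 0 < ε) : ∃ P₁ : ℕ, ∀ P : ℕ, P₁ ≤ P → ∀ [Fact P.Prime]
    (Lo Up : ℕ → ℕ → (ℕ → Prop) → ℝ → Prop),
    (∀ M H R N N', Lo M H R N → 0 ≤ N' → N' ≤ N → Lo M H R N') →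
    (∀ M H R N N', Up M H R N → N ≤ N' → Up M H R N') →
    (∀ (A : Finset (ZMod P)) (Γ : ℝ), 1 ≤ Γ →
      (∀ a : ZMod P, a ≠ 0 → ‖∑ x ∈ A, (ZMod.stdAddChar (a * x) : ℂ)‖ ≤ Γ) →
      ∀ M H : ℕ, H ≤ P → Γ * (P : ℝ) ^ (1 + ε / 2) ≤ A.card * H →
      Lo M H (fun n => (n : ZMod P) ∈ A) (A.card * H / P) ∧ Up M H (fun n => (n : ZMod P) ∈ A) (A.card * H / P)) →
    (∀ (A : Finset (ZMod P)) (Γ : ℝ), 1 ≤ Γ →
      (∀ a : ZMod P, a ≠ 0 → ‖∑ x ∈ A, (ZMod.stdAddChar (a * x) : ℂ)‖ ≤ Γ) →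
      ∀ M H : ℕ, H ≤ P → Γ * (P : ℝ) ^ (1 + ε) ≤ A.card * H →
      Lo M H (fun n => (n : ZMod P) ∈ A) (A.card * H / P) ∧ Up M H (fun n => (n : ZMod P) ∈ A) (A.card * H / P)) ∧
    (∀ (G : Subgroup (ZMod P)ˣ) (c₀ : (ZMod P)ˣ) (M H : ℕ), H ≤ P →
      (P : ℝ) ^ (3 / 2 + ε) ≤ (Nat.card G : ℝ) * H →
      Lo M H (fun n => ∃ g ∈ G, (n : ZMod P) = (c₀ : ZMod P) * (g : ZMod P)) (Nat.card G * H / P) ∧
      Up M H (fun n => ∃ g ∈ G, (n : ZMod P) = (c₀ : ZMod P) * (g : ZMod P)) (Nat.card G * H / P)) ∧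
    (∀ M H : ℕ, H ≤ P → (P : ℝ) ^ (1 / 2 + ε) ≤ H →
      Lo M H (fun n => orderOf (n : ZMod P) = P - 1) ((P - 1).totient * H / P) ∧
      Up M H (fun n => orderOf (n : ZMod P) = P - 1) ((P - 1).totient * H / P)) ∧
    (∀ c₀ : ZMod P, c₀ ≠ 0 → ∀ M H L K : ℕ, H ≤ P → K ≤ P → (P : ℝ) ^ (3 / 2 + ε) ≤ (H : ℝ) * K →
      Lo M H (fun n => ∃ m : ℕ, L < m ∧ m ≤ L + K ∧ (n : ZMod P) * (m : ZMod P) = c₀) (K * H / P / 2) ∧
      Up M H (fun n => ∃ m : ℕ, L < m ∧ m ≤ L + K ∧ (n : ZMod P) * (m : ZMod P) = c₀) (K * H / P)) := by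
  classical
  obtain ⟨C', hC', hdiv⟩ := Pool.Agent.Helper112.divisor_bound (ε / 8) (by linarith)
  have hlog : ∀ᶠ x : ℝ in atTop, Real.log x ≤ x ^ (ε / 4) := by
    have h := (isLittleO_log_rpow_atTop (show (0 : ℝ) < ε / 4 by linarith)).def (show (0 : ℝ) < 1 by norm_num)
    filter_upwards [h, eventually_ge_atTop (1 : ℝ)] with X hX hX1
    rwa [Real.norm_eq_abs, abs_of_nonneg (Real.log_nonneg hX1), Real.norm_eq_abs,
      abs_of_nonneg (Real.rpow_nonneg (by linarith) _), one_mul] at hX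
  have hev := hlog.and ((Pool.Agent.W147.PS.ev_pow (ε / 4) (ε / 2) 16 (by linarith)).and
    ((Pool.Agent.W147.PS.ev_pow (ε / 4) (ε / 2) (2 * C' ^ 2) (by linarith)).and (eventually_ge_atTop (4 : ℝ))))
  obtain ⟨X₀, hX₀⟩ := eventually_atTop.mp hev
  refine ⟨⌈X₀⌉₊, ?_⟩
  intro P hP0 _ Lo Up hLo hUp hG
  have hpp : P.Prime := Fact.out
  have hpX : X₀ ≤ (P : ℝ) := (Nat.le_ceil _).trans (by exact_mod_cast hP0)
  obtain ⟨c1, c2, c3, c4⟩ := hX₀ P hpX
  have hpR : (0 : ℝ) < P := by linarith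
  have hP1 : (1 : ℝ) ≤ P := by linarith
  have hs1 : (1 : ℝ) ≤ Real.sqrt P := by rwa [Real.one_le_sqrt]
  have hsq : Real.sqrt P = (P : ℝ) ^ (1 / 2 : ℝ) := Real.sqrt_eq_rpow _
  have hx1 : (1 : ℝ) ≤ (P : ℝ) ^ (ε / 4) := Real.one_le_rpow hP1 (by linarith)
  have hlogP : 0 ≤ Real.log P := Real.log_nonneg hP1
  have hcongr : ∀ (M H : ℕ) (R R' : ℕ → Prop) (N : ℝ), (∀ n, R n ↔ R' n) → (Lo M H R N ∧ Up M H R N) →
      (Lo M H R' N ∧ Up M H R' N) := by
    intro M H R R' N hR h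
    have : R = R' := funext fun n => propext (hR n)
    rwa [← this]
  refine ⟨?_, ?_, ?_, ?_⟩
  · intro A Γ hΓ hA M H hH hAH
    refine hG A Γ hΓ hA M H hH (le_trans ?_ hAH)
    have : (P : ℝ) ^ (1 + ε / 2) ≤ (P : ℝ) ^ (1 + ε) := Real.rpow_le_rpow_of_exponent_le hP1 (by linarith)
    gcongr
  · intro G c₀ M H hH hGH
    have h1 := hG (coset G c₀) (Real.sqrt P) hs1
      (fun a ha => coset_sum G c₀ a ha) M H hH (by
        rw [coset_card]
        refine le_trans ?_ hGH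
        rw [hsq, ← Real.rpow_add hpR]
        exact Real.rpow_le_rpow_of_exponent_le hP1 (by linarith))
    rw [coset_card] at h1
    refine hcongr M H _ _ _ (fun n => ?_) h1
    rw [coset, mem_image]
    constructor
    · rintro ⟨g, _, hg⟩
      exact ⟨g, g.2, hg.symm⟩
    · rintro ⟨g, hg, hn⟩
      exact ⟨⟨g, hg⟩, mem_univ _, hn.symm⟩
  · intro M H hH hPH
    have h1n : 1 ≤ P - 1 := by have := hpp.two_le; omega
    set τ : ℝ := ((P - 1).divisors.card : ℝ) with hτ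
    have hτ1 : 1 ≤ τ := by
      have : 1 ≤ (P - 1).divisors.card := card_pos.2 ⟨1, Nat.one_mem_divisors.2 (by omega)⟩
      rw [hτ]
      exact_mod_cast this
    have hτ2 : τ ≤ C' * (P : ℝ) ^ (ε / 8) := by
      refine (hdiv (P - 1) h1n).trans ?_
      have : ((P - 1 : ℕ) : ℝ) ≤ P := by exact_mod_cast Nat.sub_le _ _
      gcongr
    have hτ3 : 2 * τ ^ 2 ≤ (P : ℝ) ^ (ε / 2) := by
      refine le_trans ?_ c3
      have : τ ^ 2 ≤ (C' * (P : ℝ) ^ (ε / 8)) ^ 2 := by gcongr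
      have h2 : (C' * (P : ℝ) ^ (ε / 8)) ^ 2 = C' ^ 2 * (P : ℝ) ^ (ε / 4) := by
        rw [mul_pow, ← Real.rpow_natCast ((P : ℝ) ^ (ε / 8)), ← Real.rpow_mul hpR.le]
        congr 2
        push_cast
        ring
      rw [h2] at this
      linarith
    have htot : (P : ℝ) ≤ 2 * (τ * (P - 1).totient) := by
      have h3 : P - 1 ≤ (P - 1).divisors.card * (P - 1).totient := by
        conv_lhs => rw [← Nat.sum_totient (P - 1)]
        rw [← smul_eq_mul]
        apply Finset.sum_le_card_nsmul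
        intro d hd
        exact Nat.le_of_dvd (Nat.totient_pos.mpr (by omega))
          (Nat.totient_dvd_of_dvd (Nat.dvd_of_mem_divisors hd))
      have h4 : ((P - 1 : ℕ) : ℝ) ≤ τ * (P - 1).totient := by rw [hτ]; exact_mod_cast h3
      have h5 : ((P - 1 : ℕ) : ℝ) = P - 1 := by rw [Nat.cast_sub hpp.one_lt.le, Nat.cast_one]
      rw [h5] at h4
      linarith
    have h1 := hG prim (τ * Real.sqrt P) (by nlinarith)
      (fun a ha => prim_bound a ha) M H hH (by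
        rw [prim_card]
        have h5 : τ * Real.sqrt P * (P : ℝ) ^ (1 + ε / 2) * (2 * τ) ≤ P * H := by
          calc τ * Real.sqrt P * (P : ℝ) ^ (1 + ε / 2) * (2 * τ) =
                (2 * τ ^ 2) * ((P : ℝ) ^ (1 / 2 : ℝ) * (P : ℝ) ^ (1 + ε / 2)) := by rw [hsq]; ring
            _ ≤ (P : ℝ) ^ (ε / 2) * ((P : ℝ) ^ (1 / 2 : ℝ) * (P : ℝ) ^ (1 + ε / 2)) := by gcongr
            _ = (P : ℝ) * (P : ℝ) ^ (1 / 2 + ε) := by
                rw [← Real.rpow_add hpR, ← Real.rpow_add hpR]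
                conv_rhs => rw [← Real.rpow_one_add' hpR.le (by linarith)]
                congr 1
                ring
            _ ≤ P * H := by gcongr
        have h6 : (P : ℝ) * H ≤ ((P - 1).totient * H) * (2 * τ) := by
          have : (P : ℝ) * H ≤ (2 * (τ * (P - 1).totient)) * H := by gcongr
          linarith
        exact le_of_mul_le_mul_right (h5.trans h6) (by linarith))
    rw [prim_card] at h1
    refine hcongr M H _ _ _ (fun n => ?_) h1
    rw [prim, mem_filter]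
    simp
  · intro c₀ hc₀ M H L K hH hK hHK
    have hKP : (P : ℝ) ^ (1 / 2 + ε) ≤ K := by
      have h1 : (P : ℝ) * (P : ℝ) ^ (1 / 2 + ε) ≤ P * K := by
        calc (P : ℝ) * (P : ℝ) ^ (1 / 2 + ε) = (P : ℝ) ^ (3 / 2 + ε) := by
              rw [← Real.rpow_one_add' hpR.le (by linarith)]
              congr 1
              ring
          _ ≤ H * K := hHK
          _ ≤ P * K := by gcongr
      exact le_of_mul_le_mul_left h1 hpR
    have hK2 : (2 : ℝ) ≤ K := by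
      refine le_trans ?_ hKP
      calc (2 : ℝ) = Real.sqrt 4 := by
            rw [show (4 : ℝ) = 2 ^ 2 by norm_num, Real.sqrt_sq (by norm_num)]
        _ ≤ Real.sqrt P := Real.sqrt_le_sqrt c4
        _ = (P : ℝ) ^ (1 / 2 : ℝ) := hsq
        _ ≤ _ := Real.rpow_le_rpow_of_exponent_le hP1 (by linarith)
    have hcard := hyp_card c₀ hc₀ L K hK
    have hcard' : (K : ℝ) / 2 ≤ (hyp c₀ L K).card := by
      have : (K : ℝ) ≤ (hyp c₀ L K).card + 1 := by exact_mod_cast hcard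
      linarith
    have hcard2 : ((hyp c₀ L K).card : ℝ) ≤ K := by
      have h1 := hyp_sum c₀ hc₀ L K hK (fun _ => 1)
      rw [sum_const, smul_eq_mul, mul_one] at h1
      have h2 : (hyp c₀ L K).card ≤ K := by
        rw [h1]
        calc ∑ j ∈ Ioc 0 K, (if (L : ZMod P) + (j : ZMod P) = 0 then 0 else 1) ≤ ∑ j ∈ Ioc 0 K, 1 := by
              refine sum_le_sum fun j _ => ?_
              split_ifs <;> omega
          _ = K := by simp
      exact_mod_cast h2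
    have h1 := hG (hyp c₀ L K) (2 * Real.sqrt P * (3 + Real.log P))
      (by nlinarith) (fun a ha => hyp_bound c₀ hc₀ L K hK a ha) M H hH (by
        have h5 : 4 * (3 + Real.log P) ≤ (P : ℝ) ^ (ε / 2) := by linarith
        have h6 : 2 * Real.sqrt P * (3 + Real.log P) * (P : ℝ) ^ (1 + ε / 2) ≤ H * K / 2 := by
          calc 2 * Real.sqrt P * (3 + Real.log P) * (P : ℝ) ^ (1 + ε / 2) =
              (4 * (3 + Real.log P)) * ((P : ℝ) ^ (1 / 2 : ℝ) * (P : ℝ) ^ (1 + ε / 2)) / 2 := by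
                rw [hsq]; ring
            _ ≤ (P : ℝ) ^ (ε / 2) * ((P : ℝ) ^ (1 / 2 : ℝ) * (P : ℝ) ^ (1 + ε / 2)) / 2 := by gcongr
            _ = (P : ℝ) ^ (3 / 2 + ε) / 2 := by
                rw [← Real.rpow_add hpR, ← Real.rpow_add hpR]
                congr 2
                ring
            _ ≤ H * K / 2 := by linarith
        refine h6.trans ?_
        calc (H : ℝ) * K / 2 = (K : ℝ) / 2 * H := by ring
          _ ≤ _ := by gcongr)
    have h2 := hcongr M H _ (fun n => ∃ m : ℕ, L < m ∧ m ≤ L + K ∧ (n : ZMod P) * (m : ZMod P) = c₀) _ (fun n => by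
      rw [hyp, mem_filter]
      constructor
      · rintro ⟨_, _, m, hm, hnm⟩
        rw [mem_Ioc] at hm
        exact ⟨m, hm.1, hm.2, hnm⟩
      · rintro ⟨m, hm1, hm2, hnm⟩
        refine ⟨mem_univ _, ?_, m, mem_Ioc.2 ⟨hm1, hm2⟩, hnm⟩
        intro h0
        rw [h0, zero_mul] at hnm
        exact hc₀ hnm.symm) h1
    refine ⟨hLo M H _ _ _ h2.1 (by positivity) ?_, hUp M H _ _ _ h2.2 ?_⟩
    · calc (K : ℝ) * H / P / 2 = (K / 2) * H / P := by ring
        _ ≤ _ := by gcongr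
    · gcongr

/-- the product of the local factors for linear forms -/
noncomputable def VL {k : ℕ} (a b : Fin k → ℤ) (y : ℕ) : ℝ :=
  ∏ q ∈ (Icc 1 y).filter Nat.Prime, (1 - (Set.ncard {n : ℕ | n < q ∧ ∃ i, (q : ℤ) ∣ a i * n + b i} : ℝ) / q)

lemma VL_eq {k : ℕ} (a b : Fin k → ℤ) (y : ℕ) : VL a b y = VQ (QL a b) y := by
  classical
  unfold VL VQ
  have h1 : pz y = (Icc 1 y).filter Nat.Prime := by
    ext q
    rw [mem_pz, mem_filter, mem_Icc]
    constructor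
    · rintro ⟨h1, h2⟩
      exact ⟨⟨h2.one_le, h1⟩, h2⟩
    · rintro ⟨h1, h2⟩
      exact ⟨h1.2, h2⟩
  rw [h1]
  refine prod_congr rfl fun q _ => ?_
  congr 3
  unfold nuB
  rw [← Set.ncard_coe_finset]
  congr 1
  ext n
  rw [mem_coe, mem_filter, mem_range]
  rfl

/-- lower bound for the almost primes -/
def LoL {k : ℕ} (a b : Fin k → ℤ) (p r : ℕ) (δ c : ℝ) (B M H : ℕ) (R : ℕ → Prop) (N : ℝ) : Prop :=
  M + H ≤ p ^ B → (∀ i, (a i).natAbs ≤ p ^ B) → (∀ i, (b i).natAbs ≤ p ^ B) → c * (N * VL a b p) ≤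
    (Set.ncard {n : ℕ | M < n ∧ n ≤ M + H ∧ R n ∧ ∀ i, Good r ((p : ℝ) ^ δ) (a i * n + b i).natAbs} : ℝ)

/-- upper bound for the primes -/
def UpL {k : ℕ} (a b : Fin k → ℤ) (p : ℕ) (C : ℝ) (M H : ℕ) (R : ℕ → Prop) (N : ℝ) : Prop :=
  (Set.ncard {n : ℕ | M < n ∧ n ≤ M + H ∧ R n ∧ ∀ i, (a i * n + b i).natAbs.Prime} : ℝ) ≤ C * (N * VL a b p)

/-- linear forms at integers with residues in a set with small Fourier coefficients -/
theorem reslin (k : ℕ) (hk : 1 ≤ k) (ε : ℝ) (hε : 0 < ε) (B : ℕ) : ∃ (r : ℕ) (δ c C : ℝ) (P₀ : ℕ),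
    0 < δ ∧ 0 < c ∧ 0 < C ∧
    ∀ p : ℕ, P₀ ≤ p → ∀ [Fact p.Prime] (a b : Fin k → ℤ), (∀ i, a i ≠ 0) →
    (∀ q : ℕ, q.Prime → ∃ n : ℕ, ∀ i, ¬ (q : ℤ) ∣ a i * n + b i) →
    ∀ (A : Finset (ZMod p)) (Γ : ℝ), 1 ≤ Γ →
    (∀ a : ZMod p, a ≠ 0 → ‖∑ x ∈ A, (ZMod.stdAddChar (a * x) : ℂ)‖ ≤ Γ) →
    ∀ M H : ℕ, H ≤ p → Γ * (p : ℝ) ^ (1 + ε) ≤ A.card * H →
    LoL a b p r δ c B M H (fun n => (n : ZMod p) ∈ A) (A.card * H / p) ∧
    UpL a b p C M H (fun n => (n : ZMod p) ∈ A) (A.card * H / p) := by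
  classical
  set B' : ℕ := ⌈8 * B / ε⌉₊ with hB'
  obtain ⟨r, K, X₀, c, C, hK, hc, hC, hb⟩ := lin_bounds k hk B'
  obtain ⟨P1, hP1⟩ := res_equi ε hε
  obtain ⟨P2, hP2⟩ := floor_ge ε hε
  have hKr : (1 : ℝ) ≤ K := by exact_mod_cast hK
  set K' : ℕ := max 1 ⌈8 / ε⌉₊ with hK'
  obtain ⟨C2, hC2, hrat⟩ := VQ_ratio k K' hk (le_max_left _ _)
  obtain ⟨X3, hX3⟩ := eventually_atTop.mp
    ((tendsto_rpow_atTop (show (0 : ℝ) < ε / 8 by linarith)).eventually_ge_atTop ((max X₀ 3 : ℕ) : ℝ))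
  refine ⟨r, ε / 8 / K, c, C * C2, max (max P1 P2) (max ⌈X3⌉₊ 3), by positivity,
    hc, by positivity, ?_⟩
  intro p hp _ a b ha0 hadm A Γ hΓ hG M H hH hA
  have hp1 : P1 ≤ p := ((le_max_left _ _).trans (le_max_left _ _)).trans hp
  have hp2 : P2 ≤ p := ((le_max_right _ _).trans (le_max_left _ _)).trans hp
  have hp3 : X3 ≤ (p : ℝ) := (Nat.le_ceil _).trans (by exact_mod_cast ((le_max_left _ _).trans (le_max_right _ _)).trans hp)
  have hp4 : 3 ≤ p := ((le_max_right _ _).trans (le_max_right _ _)).trans hp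
  have hpR : (3 : ℝ) ≤ p := by exact_mod_cast hp4
  have hE := hP1 p hp1 A Γ hΓ hG M H hH hA
  have hX := hP2 p hp2
  set X := ⌊(p : ℝ) ^ (ε / 4)⌋₊ with hXd
  have hXmax : ((max X₀ 3 : ℕ) : ℝ) ≤ X := (hX3 p hp3).trans hX
  have hX0 : X₀ ≤ X := by
    have h1 : max X₀ 3 ≤ X := by exact_mod_cast hXmax
    exact (le_max_left _ _).trans h1
  have hX3' : 3 ≤ X := by
    have h1 : max X₀ 3 ≤ X := by exact_mod_cast hXmax
    exact (le_max_right _ _).trans h1
  have hXr : (3 : ℝ) ≤ X := by exact_mod_cast hX3'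
  have hXle : (X : ℝ) ≤ (p : ℝ) ^ (ε / 4) := Nat.floor_le (by positivity)
  set N : ℝ := A.card * H / p with hN
  have hN0 : 0 ≤ N := by positivity
  have hpow : ∀ m : ℕ, m ≤ p ^ B → m ≤ X ^ B' := by
    intro m hm
    have h2 : (m : ℝ) ≤ (X : ℝ) ^ B' := by
      calc (m : ℝ) ≤ (p : ℝ) ^ B := by exact_mod_cast hm
        _ = (p : ℝ) ^ (B : ℝ) := (Real.rpow_natCast _ _).symm
        _ ≤ (p : ℝ) ^ (ε / 8 * B') := by
            apply Real.rpow_le_rpow_of_exponent_le (by linarith)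
            have h3 : 8 * B / ε ≤ (B' : ℝ) := Nat.le_ceil _
            rw [div_le_iff₀ hε] at h3
            linarith
        _ = ((p : ℝ) ^ (ε / 8)) ^ B' := by
            rw [Real.rpow_mul (by linarith), Real.rpow_natCast]
        _ ≤ (X : ℝ) ^ B' := by gcongr
    exact_mod_cast h2
  have hpK' : p ≤ X ^ K' := by
    have h2 : (p : ℝ) ≤ (X : ℝ) ^ K' := by
      calc (p : ℝ) = (p : ℝ) ^ (1 : ℝ) := (Real.rpow_one _).symm
        _ ≤ (p : ℝ) ^ (ε / 8 * K') := by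
            apply Real.rpow_le_rpow_of_exponent_le (by linarith)
            have h3 : 8 / ε ≤ (K' : ℝ) := (Nat.le_ceil _).trans (by exact_mod_cast le_max_right _ _)
            rw [div_le_iff₀ hε] at h3
            linarith
        _ = ((p : ℝ) ^ (ε / 8)) ^ K' := by
            rw [Real.rpow_mul (by linarith), Real.rpow_natCast]
        _ ≤ (X : ℝ) ^ K' := by gcongr
    exact_mod_cast h2
  obtain ⟨hlow, hup⟩ := hb X hX0 (om p A M H) (fun j => M + j) N hN0 hE a b ha0 hadm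
  have hQ := adm_lin a b hadm
  unfold LoL UpL
  rw [VL_eq]
  -- the products at X and at p
  have hXp2 : VQ (QL a b) p ≤ VQ (QL a b) X ∨ p < X := by
    rcases Nat.lt_or_ge p X with h | h
    · exact Or.inr h
    · exact Or.inl (VQ_anti h)
  constructor
  · intro hMH haB hbB
    have h1 := hlow (by
      intro j hj
      rw [om, mem_filter, mem_Ioc] at hj
      exact hpow _ (by omega)) (fun i => hpow _ (haB i)) (fun i => hpow _ (hbB i))
    have hcmp : VQ (QL a b) p ≤ VQ (QL a b) X := by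
      rcases hXp2 with h | h
      · exact h
      · exfalso
        -- X > p would give many classes; but |A| H ≤ p ^ 2
        have hAp : (A.card : ℝ) ≤ p := by
          have h1 := card_le_univ A
          rw [ZMod.card] at h1
          exact_mod_cast h1
        have hHr : (H : ℝ) ≤ p := by exact_mod_cast hH
        have h2 : (p : ℝ) ^ (1 + ε) ≤ p * p := by
          calc (p : ℝ) ^ (1 + ε) ≤ Γ * (p : ℝ) ^ (1 + ε) := by
                have : 0 ≤ (p : ℝ) ^ (1 + ε) := by positivity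
                nlinarith
            _ ≤ A.card * H := hA
            _ ≤ p * p := by gcongr
        have h3 : (p : ℝ) < (p : ℝ) ^ (ε / 4) := lt_of_lt_of_le (by exact_mod_cast h) hXle
        have h4 : (p : ℝ) ^ (ε / 4) < (p : ℝ) ^ ε := by
          apply Real.rpow_lt_rpow_of_exponent_lt (by linarith)
          linarith
        rw [Real.rpow_add (by linarith), Real.rpow_one] at h2
        have h5 : (p : ℝ) ^ ε ≤ p := le_of_mul_le_mul_left h2 (by linarith)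
        linarith
    have h2 : c * (N * VQ (QL a b) p) ≤ c * (N * VQ (QL a b) X) := by gcongr
    refine h2.trans (h1.trans ?_)
    have h3 : (om p A M H).filter (fun n => ∀ i, (a i * ((M + n : ℕ) : ℤ) + b i).natAbs ≠ 0 ∧
        (a i * ((M + n : ℕ) : ℤ) + b i).natAbs.primeFactorsList.length ≤ r ∧
        ∀ p : ℕ, p.Prime → p ∣ (a i * ((M + n : ℕ) : ℤ) + b i).natAbs → X < p ^ K) ⊆
        (om p A M H).filter (fun j => (fun n : ℕ => ∀ i, Good r ((p : ℝ) ^ (ε / 8 / K)) (a i * (n : ℤ) + b i).natAbs) (M + j)) := by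
      intro j hj
      rw [mem_filter] at hj ⊢
      refine ⟨hj.1, fun i => ?_⟩
      obtain ⟨g1, g2, g3⟩ := hj.2 i
      refine ⟨g1, g2, fun q hq hd => ?_⟩
      have g4 : (X : ℝ) < (q : ℝ) ^ K := by exact_mod_cast g3 q hq hd
      have g5 : ((p : ℝ) ^ (ε / 8 / K)) ^ K < (q : ℝ) ^ K := by
        refine lt_of_le_of_lt ?_ g4
        calc ((p : ℝ) ^ (ε / 8 / K)) ^ K = (p : ℝ) ^ (ε / 8) := by
              rw [← Real.rpow_natCast, ← Real.rpow_mul (by linarith)]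
              congr 1
              field_simp
          _ ≤ X := hX
      exact lt_of_pow_lt_pow_left₀ K (Nat.cast_nonneg _) g5
    have h4 := card_le_card h3
    rw [ncard_Ioc M H (fun n => (n : ZMod p) ∈ A ∧ ∀ i, Good r ((p : ℝ) ^ (ε / 8 / K)) (a i * (n : ℤ) + b i).natAbs)]
    have e1 : ((Ioc M (M + H)).filter (fun n : ℕ => (n : ZMod p) ∈ A ∧ ∀ i, Good r ((p : ℝ) ^ (ε / 8 / K)) (a i * (n : ℤ) + b i).natAbs)).card =
        ((om p A M H).filter (fun j => (fun n : ℕ => ∀ i, Good r ((p : ℝ) ^ (ε / 8 / K)) (a i * (n : ℤ) + b i).natAbs) (M + j))).card := by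
      have := om_card p A M H (fun n : ℕ => ∀ i, Good r ((p : ℝ) ^ (ε / 8 / K)) (a i * (n : ℤ) + b i).natAbs)
      convert this.symm
    rw [e1]
    exact_mod_cast h4
  · rw [ncard_Ioc M H (fun n => (n : ZMod p) ∈ A ∧ ∀ i, (a i * (n : ℤ) + b i).natAbs.Prime)]
    have e1 : ((Ioc M (M + H)).filter (fun n : ℕ => (n : ZMod p) ∈ A ∧ ∀ i, (a i * (n : ℤ) + b i).natAbs.Prime)).card =
        ((om p A M H).filter (fun j => ∀ i, (a i * ((M + j : ℕ) : ℤ) + b i).natAbs.Prime)).card := by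
      have := om_card p A M H (fun n : ℕ => ∀ i, (a i * (n : ℤ) + b i).natAbs.Prime)
      convert this.symm
    rw [e1]
    have hup' : (((om p A M H).filter (fun j => ∀ i, (a i * ((M + j : ℕ) : ℤ) + b i).natAbs.Prime)).card : ℝ) ≤
        C * (N * VQ (QL a b) X) := by convert hup
    refine hup'.trans ?_
    have h2 : VQ (QL a b) X ≤ C2 * VQ (QL a b) p := by
      rcases Nat.lt_or_ge p X with h | h
      · -- then `p < X`, the product at `X` is smaller
        have h3 : VQ (QL a b) X ≤ VQ (QL a b) p := VQ_anti h.le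
        have h4 := hrat (QL a b) hQ p p hp4 le_rfl (Nat.le_self_pow (by
          have : 1 ≤ K' := le_max_left _ _
          omega) p)
        exact h3.trans h4
      · exact hrat (QL a b) hQ X p hX3' h hpK'
    calc C * (N * VQ (QL a b) X) ≤ C * (N * (C2 * VQ (QL a b) p)) := by gcongr
      _ = C * C2 * (N * VQ (QL a b) p) := by ring

end Pool.Agent.X55.Fam
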