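import Pool.Agent.X55.Fam.Dchar
import Pool.Agent.X55.Fam.Trans

set_option autoImplicit false

/-! # Discrete logarithms -/

namespace Pool.Agent.X55.Fam.D

open Finset Filter
open Pool.Agent.X55.Mod

section

variable {P : ℕ} [Fact P.Prime] [NeZero (P - 1)] (g : ZMod P)

/-- the exponents `a` modulo `P - 1` with `g ^ a ∈ S` -/
noncomputable def ind (S : Finset (ZMod P)) : Finset (ZMod (P - 1)) := by
  classical
  exact univ.filter (fun a => g ^ a.val ∈ S)

variable {g}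

lemma g_ne (hg : orderOf g = P - 1) : g ≠ 0 := by
  rintro rfl
  have h1 : (0 : ZMod P) ^ (P - 1) = 1 := by
    conv_lhs => rw [← hg]
    exact pow_orderOf_eq_one _
  rw [zero_pow (NeZero.ne (P - 1))] at h1
  exact zero_ne_one h1

lemma ind_iff (hg : orderOf g = P - 1) (S : Finset (ZMod P)) (n : ℕ) :
    (n : ZMod (P - 1)) ∈ ind g S ↔ g ^ n ∈ S := by
  classical
  unfold ind
  rw [mem_filter, ZMod.val_natCast]
  have : g ^ (n % (P - 1)) = g ^ n := by
    rw [← hg, pow_mod_orderOf]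
  rw [this]
  simp

lemma pow_image (hg : orderOf g = P - 1) : (range (P - 1)).image (fun n => g ^ n) = univ.erase 0 := by
  classical
  have hpp : P.Prime := Fact.out
  apply Finset.eq_of_subset_of_card_le
  · intro y hy
    rw [mem_image] at hy
    obtain ⟨n, _, rfl⟩ := hy
    rw [mem_erase]
    exact ⟨pow_ne_zero _ (g_ne hg), mem_univ _⟩
  · rw [card_erase_of_mem (mem_univ _), card_univ, ZMod.card, card_image_of_injOn, card_range]
    intro a ha b hb hab
    rw [coe_range, Set.mem_Iio] at ha hb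
    exact pow_injOn_Iio_orderOf (by rw [Set.mem_Iio, hg]; exact ha) (by rw [Set.mem_Iio, hg]; exact hb) hab

lemma ind_sum {E : Type*} [AddCommMonoid E] (hg : orderOf g = P - 1) (S : Finset (ZMod P)) (h0 : (0 : ZMod P) ∉ S)
    (F : ZMod P → E) : ∑ a ∈ ind g S, F (g ^ a.val) = ∑ y ∈ S, F y := by
  classical
  unfold ind
  refine sum_bij (fun a _ => g ^ a.val) ?_ ?_ ?_ ?_
  · intro a ha
    exact (mem_filter.1 ha).2
  · intro a _ b _ hab
    have h1 : a.val = b.val := pow_injOn_Iio_orderOf (by rw [Set.mem_Iio, hg]; exact ZMod.val_lt a)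
      (by rw [Set.mem_Iio, hg]; exact ZMod.val_lt b) hab
    exact ZMod.val_injective _ h1
  · intro y hy
    have hy0 : y ≠ 0 := fun h => h0 (h ▸ hy)
    have h1 : y ∈ (range (P - 1)).image (fun n => g ^ n) := by
      rw [pow_image hg, mem_erase]
      exact ⟨hy0, mem_univ _⟩
    rw [mem_image] at h1
    obtain ⟨n, hn, rfl⟩ := h1
    rw [mem_range] at hn
    have h2 : ((n : ZMod (P - 1))).val = n := ZMod.val_cast_of_lt hn
    refine ⟨(n : ZMod (P - 1)), ?_, by rw [h2]⟩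
    rw [mem_filter, h2]
    exact ⟨mem_univ _, hy⟩
  · intro a _
    rfl

lemma ind_card (hg : orderOf g = P - 1) (S : Finset (ZMod P)) (h0 : (0 : ZMod P) ∉ S) :
    (ind g S).card = S.card := by
  have := ind_sum hg S h0 (fun _ => 1)
  simpa using this

lemma ind_char (hg : orderOf g = P - 1) (a : ZMod (P - 1)) (ha : a ≠ 0) : ∃ χ : MulChar (ZMod P) ℂ, χ ≠ 1 ∧
    ∀ x : ZMod (P - 1), (ZMod.stdAddChar (a * x) : ℂ) = χ (g ^ x.val) := by
  classical
  have hpp : P.Prime := Fact.out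
  have hz : (ZMod.stdAddChar a : ℂ) ≠ 0 := by
    intro h
    have := AddChar.norm_apply (ZMod.stdAddChar (N := P - 1)) a
    rw [h, norm_zero] at this
    exact zero_ne_one this
  set ζ : ℂˣ := Units.mk0 (ZMod.stdAddChar a : ℂ) hz with hζd
  have hζ : ζ ∈ rootsOfUnity (Fintype.card (ZMod P)ˣ) ℂ := by
    rw [mem_rootsOfUnity, ZMod.card_units_eq_totient, Nat.totient_prime hpp]
    apply Units.ext
    rw [Units.val_pow_eq_pow_val, Units.val_mk0, ← AddChar.map_nsmul_eq_pow, Units.val_one]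
    have : (P - 1) • a = 0 := by
      rw [nsmul_eq_mul, ZMod.natCast_self, zero_mul]
    rw [this, AddChar.map_zero_eq_one]
  set g' : (ZMod P)ˣ := Units.mk0 g (g_ne hg) with hg'
  have hgen : ∀ x : (ZMod P)ˣ, x ∈ Subgroup.zpowers g' := by
    intro x
    have h1 : (x : ZMod P) ∈ (range (P - 1)).image (fun n => g ^ n) := by
      rw [pow_image hg, mem_erase]
      exact ⟨x.ne_zero, mem_univ _⟩
    rw [mem_image] at h1
    obtain ⟨n, _, hn⟩ := h1
    rw [Subgroup.mem_zpowers_iff]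
    refine ⟨n, ?_⟩
    apply Units.ext
    rw [zpow_natCast, Units.val_pow_eq_pow_val, Units.val_mk0]
    exact hn
  have hspec := MulChar.ofRootOfUnity_spec hζ hgen
  set χ := MulChar.ofRootOfUnity hζ hgen with hχ
  have hχg : χ g = (ZMod.stdAddChar a : ℂ) := by
    have h1 : χ ((g' : (ZMod P)ˣ) : ZMod P) = ζ := hspec
    rw [Units.val_mk0] at h1
    rw [h1, Units.val_mk0]
  refine ⟨χ, ?_, ?_⟩
  · intro h1
    rw [h1, MulChar.one_apply (Ne.isUnit (g_ne hg))] at hχg
    apply ha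
    apply ZMod.injective_stdAddChar
    rw [← hχg, AddChar.map_zero_eq_one]
  · intro x
    rw [map_pow, hχg, ← AddChar.map_nsmul_eq_pow]
    congr 1
    rw [nsmul_eq_mul, ZMod.natCast_zmod_val, mul_comm]

lemma ind_bound (hg : orderOf g = P - 1) (S : Finset (ZMod P)) (h0 : (0 : ZMod P) ∉ S) (Γ : ℝ)
    (hS : ∀ χ : MulChar (ZMod P) ℂ, χ ≠ 1 → ‖∑ y ∈ S, χ y‖ ≤ Γ) (a : ZMod (P - 1)) (ha : a ≠ 0) :
    ‖∑ x ∈ ind g S, (ZMod.stdAddChar (a * x) : ℂ)‖ ≤ Γ := by
  obtain ⟨χ, hχ, h1⟩ := ind_char hg a ha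
  rw [sum_congr rfl fun x _ => h1 x, ind_sum hg S h0 (fun y => χ y)]
  exact hS χ hχ

end

end Pool.Agent.X55.Fam.D
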