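import Pool.Agent.X55.Fam.LinCor

/-!
# Linear forms at structured sets of integers: common definitions and theorems

The definitions of this file are used in the statements of several results.
-/

set_option autoImplicit false

namespace Pool.Agent.X55.Forms

open Finset Pool.Agent.X55.Fam

/-- `m ≠ 0` has at most `r` prime factors, counted with multiplicity, all of them greater than `x`. -/
def AlmostPrime (r : ℕ) (x : ℝ) (m : ℕ) : Prop :=
  m ≠ 0 ∧ m.primeFactorsList.length ≤ r ∧ ∀ q : ℕ, q.Prime → q ∣ m → x < q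

variable {k : ℕ}

/-- the number of the `n` in `(M, M + H]` with the property `R` for which all `|a i n + b i|` are almost primes -/
noncomputable def almost (a b : Fin k → ℤ) (r : ℕ) (x : ℝ) (M H : ℕ) (R : ℕ → Prop) : ℕ :=
  Set.ncard {n : ℕ | M < n ∧ n ≤ M + H ∧ R n ∧ ∀ i, AlmostPrime r x (a i * n + b i).natAbs}

/-- the number of the `n` in `(M, M + H]` with the property `R` for which all `|a i n + b i|` are primes -/
noncomputable def primes (a b : Fin k → ℤ) (M H : ℕ) (R : ℕ → Prop) : ℕ :=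
  Set.ncard {n : ℕ | M < n ∧ n ≤ M + H ∧ R n ∧ ∀ i, (a i * n + b i).natAbs.Prime}

/-- the number of the `n` in `(M, M + H]` with the property `R` for which no `a i n + b i` has a prime factor up to
`y` -/
noncomputable def rough (a b : Fin k → ℤ) (y M H : ℕ) (R : ℕ → Prop) : ℕ :=
  Set.ncard {n : ℕ | M < n ∧ n ≤ M + H ∧ R n ∧ ∀ q : ℕ, q.Prime → q ≤ y → ∀ i, ¬ (q : ℤ) ∣ a i * n + b i}

/-- the product over the primes `q ≤ y` of `1 - ν(q) / q`, where `ν(q)` is the number of the residues `n` modulo `q`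
for which some `a i n + b i` is divisible by `q` -/
noncomputable def V (a b : Fin k → ℤ) (y : ℕ) : ℝ :=
  ∏ q ∈ (Icc 1 y).filter Nat.Prime, (1 - (Set.ncard {n : ℕ | n < q ∧ ∃ i, (q : ℤ) ∣ a i * n + b i} : ℝ) / q)

/-- The bounds for the interval `(M, M + H]` and the property `R`, with the expected number `X` and the parameter `T`:
if `M + H` and the coefficients are at most `T ^ B`, then at least `c X V(T)` and at least `c X / log ^ k T` of the `n`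
make all forms almost primes; and (always) at most `C X V(T)` of the `n` make all forms primes. -/
def Bounds (a b : Fin k → ℤ) (T r : ℕ) (δ c C : ℝ) (B M H : ℕ) (R : ℕ → Prop) (X : ℝ) : Prop :=
  (M + H ≤ T ^ B → (∀ i, (a i).natAbs ≤ T ^ B ∧ (b i).natAbs ≤ T ^ B) →
    c * (X * V a b T) ≤ almost a b r ((T : ℝ) ^ δ) M H R ∧
    c * X / Real.log T ^ k ≤ almost a b r ((T : ℝ) ^ δ) M H R) ∧
  (primes a b M H R : ℝ) ≤ C * (X * V a b T)

/-- the asymptotic formula for the interval `(M, M + H]` and the property `R`, with the expected number `X` -/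
def Rough (a b : Fin k → ℤ) (η : ℝ) (y M H : ℕ) (R : ℕ → Prop) (X : ℝ) : Prop :=
  |(rough a b y M H R : ℝ) - X * V a b y| ≤ η * (X * V a b y)

/-- The property `Q` holds for the intervals `(M, M + H]`, `H ≤ P`, and the sets of the `n` whose residues modulo `P`
lie in an arbitrary set `A` with Fourier coefficients at most `Γ`, provided that `|A| H ≥ Γ P ^ (1 + ε)`; the expected
number of the `n` is `|A| H / P`. -/
def Sets (ε : ℝ) (P : ℕ) [Fact P.Prime] (Q : ℕ → ℕ → (ℕ → Prop) → ℝ → Prop) : Prop :=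
  ∀ (A : Finset (ZMod P)) (Γ : ℝ), 1 ≤ Γ →
    (∀ a : ZMod P, a ≠ 0 → ‖∑ x ∈ A, (ZMod.stdAddChar (a * x) : ℂ)‖ ≤ Γ) →
    ∀ M H : ℕ, H ≤ P → Γ * (P : ℝ) ^ (1 + ε) ≤ A.card * H → Q M H (fun n => (n : ZMod P) ∈ A) (A.card * H / P)

/-- The property `Q` holds (i) for residues modulo `P` in sets with small Fourier coefficients, (ii) in cosets of
subgroups `S` of the multiplicative group, if `|S| H ≥ P ^ (3 / 2 + ε)`, (iii) for primitive roots, if
`H ≥ P ^ (1 / 2 + ε)`, (iv) for the `n` on a modular hyperbola `n m = u` with `m` in an interval of length `K`, if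
`H K ≥ P ^ (3 / 2 + ε)`. -/
def Residues (ε : ℝ) (P : ℕ) [Fact P.Prime] (Q : ℕ → ℕ → (ℕ → Prop) → ℝ → Prop) : Prop :=
  Sets ε P Q ∧
  (∀ (S : Subgroup (ZMod P)ˣ) (b : (ZMod P)ˣ) (M H : ℕ), H ≤ P → (P : ℝ) ^ (3 / 2 + ε) ≤ (Nat.card S : ℝ) * H →
    Q M H (fun n => ∃ g ∈ S, (n : ZMod P) = (b : ZMod P) * (g : ZMod P)) (Nat.card S * H / P)) ∧
  (∀ M H : ℕ, H ≤ P → (P : ℝ) ^ (1 / 2 + ε) ≤ H →
    Q M H (fun n => orderOf (n : ZMod P) = P - 1) ((P - 1).totient * H / P)) ∧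
  (∀ u : ZMod P, u ≠ 0 → ∀ M H L K : ℕ, H ≤ P → K ≤ P → (P : ℝ) ^ (3 / 2 + ε) ≤ (H : ℝ) * K →
    Q M H (fun n => ∃ m : ℕ, L < m ∧ m ≤ L + K ∧ (n : ZMod P) * (m : ZMod P) = u) (K * H / P))

/-- The property `Q` holds for the exponents `n` (i) with `g ^ n` in an interval of length `K` modulo `P`, if
`H K ≥ P ^ (3 / 2 + ε)`, (ii) with `g ^ n + s` in a coset of a subgroup `S`, if `|S| H ≥ P ^ (3 / 2 + ε)`, (iii) with
`g ^ n + s` a primitive root, if `H ≥ P ^ (1 / 2 + ε)`; here `s ≠ 0`. -/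
def Logarithms (ε : ℝ) (P : ℕ) [Fact P.Prime] (g : ZMod P) (Q : ℕ → ℕ → (ℕ → Prop) → ℝ → Prop) : Prop :=
  (∀ M H L K : ℕ, H ≤ P - 1 → K ≤ P → (P : ℝ) ^ (3 / 2 + ε) ≤ (H : ℝ) * K →
    Q M H (fun n => ∃ m : ℕ, L < m ∧ m ≤ L + K ∧ g ^ n = m) (K * H / P)) ∧
  (∀ (S : Subgroup (ZMod P)ˣ) (b : (ZMod P)ˣ) (s : ZMod P), s ≠ 0 → ∀ M H : ℕ, H ≤ P - 1 →
    (P : ℝ) ^ (3 / 2 + ε) ≤ (Nat.card S : ℝ) * H →
    Q M H (fun n => ∃ u ∈ S, g ^ n + s = (b : ZMod P) * (u : ZMod P)) (Nat.card S * H / P)) ∧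
  (∀ s : ZMod P, s ≠ 0 → ∀ M H : ℕ, H ≤ P - 1 → (P : ℝ) ^ (1 / 2 + ε) ≤ H →
    Q M H (fun n => orderOf (g ^ n + s) = P - 1) ((P - 1).totient * H / P))

/-- `S` is strongly `b`-additive (`S (b n + d) = S n + S d` for the digits `d < b`), and no nontrivial character of the
group maps `S n`, for all digits `n`, to the powers `z ^ n` of a number `z` with `z ^ (b - 1) = 1` -/
def Digital {G : Type} [AddCommGroup G] (b : ℕ) (S : ℕ → G) : Prop :=
  (∀ n d : ℕ, d < b → S (b * n + d) = S n + S d) ∧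
  ∀ χ : AddChar G ℂ, χ ≠ 0 → ¬ (χ (S 1) ^ (b - 1) = 1 ∧ ∀ d < b, χ (S d) = χ (S 1) ^ d)

/-- for every prime `q` there is an `n` for which no `a i n + b i` is divisible by `q` -/
def Admissible (a b : Fin k → ℤ) : Prop :=
  ∀ q : ℕ, q.Prime → ∃ n : ℕ, ∀ i, ¬ (q : ℤ) ∣ a i * n + b i

lemma Sets.mono {ε : ℝ} {P : ℕ} [Fact P.Prime] {Q Q' : ℕ → ℕ → (ℕ → Prop) → ℝ → Prop} (h : Sets ε P Q)
    (hQ : ∀ M H R X, 0 ≤ X → Q M H R X → Q' M H R X) : Sets ε P Q' :=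
  fun A Γ hΓ hA M H hH hAH => hQ _ _ _ _ (by positivity) (h A Γ hΓ hA M H hH hAH)

lemma Residues.mono {ε : ℝ} {P : ℕ} [Fact P.Prime] {Q Q' : ℕ → ℕ → (ℕ → Prop) → ℝ → Prop} (h : Residues ε P Q)
    (hQ : ∀ M H R X, 0 ≤ X → Q M H R X → Q' M H R X) : Residues ε P Q' :=
  ⟨h.1.mono hQ, fun S b M H hH hS => hQ _ _ _ _ (by positivity) (h.2.1 S b M H hH hS),
    fun M H hH hP => hQ _ _ _ _ (by positivity) (h.2.2.1 M H hH hP),
    fun u hu M H L K hH hK hHK => hQ _ _ _ _ (by positivity) (h.2.2.2 u hu M H L K hH hK hHK)⟩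

lemma Logarithms.mono {ε : ℝ} {P : ℕ} [Fact P.Prime] {g : ZMod P} {Q Q' : ℕ → ℕ → (ℕ → Prop) → ℝ → Prop}
    (h : Logarithms ε P g Q) (hQ : ∀ M H R X, 0 ≤ X → Q M H R X → Q' M H R X) : Logarithms ε P g Q' :=
  ⟨fun M H L K hH hK hHK => hQ _ _ _ _ (by positivity) (h.1 M H L K hH hK hHK),
    fun S b s hs M H hH hS => hQ _ _ _ _ (by positivity) (h.2.1 S b s hs M H hH hS),
    fun s hs M H hH hP => hQ _ _ _ _ (by positivity) (h.2.2 s hs M H hH hP)⟩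

lemma V_nonneg (a b : Fin k → ℤ) (y : ℕ) : 0 ≤ V a b y := VL_nonneg a b y

lemma conv {a b : Fin k → ℤ} {T r : ℕ} {δ c C c1 : ℝ} {B M H : ℕ} {R : ℕ → Prop} {X : ℝ} (hT : 3 ≤ T)
    (hc : 0 < c) (hX : 0 ≤ X) (hlo : c1 / Real.log T ^ k ≤ VL a b T)
    (h : BothL a b T r δ c C B M H R X) : Bounds a b T r δ (c * min 1 c1) C B M H R X := by
  obtain ⟨h1, h2⟩ := h
  unfold LoT at h1
  unfold UpL at h2
  have hV := VL_nonneg a b T
  have hlog : 0 < Real.log T := Real.log_pos (by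
    have : (3 : ℝ) ≤ T := by exact_mod_cast hT
    linarith)
  refine ⟨fun hMH hab => ?_, h2⟩
  have k1 := h1 hMH (fun i => (hab i).1) (fun i => (hab i).2)
  have hXV : 0 ≤ X * VL a b T := by positivity
  have e1 : c * min 1 c1 * (X * VL a b T) ≤ c * (X * VL a b T) := by
    have : c * min 1 c1 ≤ c := by
      have : min 1 c1 ≤ 1 := min_le_left _ _
      nlinarith
    nlinarith
  refine ⟨e1.trans k1, le_trans ?_ k1⟩
  calc c * min 1 c1 * X / Real.log T ^ k = c * X * (min 1 c1 / Real.log T ^ k) := by ring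
    _ ≤ c * X * (c1 / Real.log T ^ k) := by
        gcongr
        exact min_le_right _ _
    _ ≤ c * X * VL a b T := by gcongr
    _ = _ := by ring

theorem low (k : ℕ) (hk : 1 ≤ k) : ∃ c1 : ℝ, 0 < c1 ∧ ∀ (a b : Fin k → ℤ), Admissible a b → ∀ y : ℕ, 3 ≤ y →
    c1 / Real.log y ^ k ≤ VL a b y := by
  obtain ⟨c1, hc1, h⟩ := VQ_low k hk
  refine ⟨c1, hc1, fun a b hab y hy => ?_⟩
  rw [VL_eq]
  exact h _ (adm_lin a b hab) y hy

theorem residues (k : ℕ) (hk : 1 ≤ k) (ε : ℝ) (hε : 0 < ε) (B : ℕ) : ∃ (r : ℕ) (δ c C : ℝ) (P₀ : ℕ),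
    0 < δ ∧ 0 < c ∧ 0 < C ∧ ∀ P : ℕ, P₀ ≤ P → ∀ [Fact P.Prime] (a b : Fin k → ℤ), (∀ i, a i ≠ 0) → Admissible a b →
    Residues ε P (fun M H R X => Bounds a b P r δ c C B M H R X) := by
  obtain ⟨r, δ, c, C, P₀, hδ, hc, hC, h⟩ := res_lin k hk ε hε B
  obtain ⟨c1, hc1, hlo⟩ := low k hk
  refine ⟨r, δ, c * min 1 c1, C, max P₀ 3, hδ, by positivity, hC, ?_⟩
  intro P hP _ a b ha hab
  have hP3 : 3 ≤ P := (le_max_right _ _).trans hP
  obtain ⟨h1, h2, h3, h4⟩ := h P ((le_max_left _ _).trans hP) a b ha hab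
  have hl := hlo a b hab P hP3
  exact ⟨fun A Γ hΓ hA M H hH hAH => conv hP3 hc (by positivity) hl (h1 A Γ hΓ hA M H hH hAH),
    fun S b₀ M H hH hS => conv hP3 hc (by positivity) hl (h2 S b₀ M H hH hS),
    fun M H hH hPH => conv hP3 hc (by positivity) hl (h3 M H hH hPH),
    fun u hu M H L K hH hK hHK => conv hP3 hc (by positivity) hl (h4 u hu M H L K hH hK hHK)⟩

theorem residuesA (k : ℕ) (hk : 1 ≤ k) (ε η : ℝ) (hε : 0 < ε) (hη : 0 < η) : ∃ (δ : ℝ) (P₀ : ℕ), 0 < δ ∧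
    ∀ P : ℕ, P₀ ≤ P → ∀ [Fact P.Prime] (a b : Fin k → ℤ), Admissible a b →
    ∀ y : ℕ, 3 ≤ y → (y : ℝ) ≤ (P : ℝ) ^ δ → Sets ε P (fun M H R X => Rough a b η y M H R X) := by
  obtain ⟨δ, P₀, hδ, h⟩ := res_linA k hk ε η hε hη
  exact ⟨δ, P₀, hδ, fun P hP _ a b hab y hy hyP A Γ hΓ hA M H hH hAH => h P hP a b hab A Γ hΓ hA M H hH hAH y hy hyP⟩

theorem logarithms (k : ℕ) (hk : 1 ≤ k) (ε : ℝ) (hε : 0 < ε) (B : ℕ) : ∃ (r : ℕ) (δ c C : ℝ) (P₀ : ℕ),
    0 < δ ∧ 0 < c ∧ 0 < C ∧ ∀ P : ℕ, P₀ ≤ P → ∀ [Fact P.Prime] (a b : Fin k → ℤ), (∀ i, a i ≠ 0) → Admissible a b →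
    ∀ g : ZMod P, orderOf g = P - 1 → Logarithms ε P g (fun M H R X => Bounds a b P r δ c C B M H R X) := by
  obtain ⟨r, δ, c, C, P₀, hδ, hc, hC, h⟩ := dlog_lin k hk ε hε B
  obtain ⟨c1, hc1, hlo⟩ := low k hk
  refine ⟨r, δ, c * min 1 c1, C, max P₀ 3, hδ, by positivity, hC, ?_⟩
  intro P hP _ a b ha hab g hg
  have hP3 : 3 ≤ P := (le_max_right _ _).trans hP
  obtain ⟨h1, h2, h3⟩ := h P ((le_max_left _ _).trans hP) a b ha hab g hg
  have hl := hlo a b hab P hP3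
  exact ⟨fun M H L K hH hK hHK => conv hP3 hc (by positivity) hl (h1 M H L K hH hK hHK),
    fun S b₀ s hs M H hH hS => conv hP3 hc (by positivity) hl (h2 S b₀ s hs M H hH hS),
    fun s hs M H hH hPH => conv hP3 hc (by positivity) hl (h3 s hs M H hH hPH)⟩

theorem logarithmsA (k : ℕ) (hk : 1 ≤ k) (ε η : ℝ) (hε : 0 < ε) (hη : 0 < η) : ∃ (δ : ℝ) (P₀ : ℕ), 0 < δ ∧
    ∀ P : ℕ, P₀ ≤ P → ∀ [Fact P.Prime] (a b : Fin k → ℤ), Admissible a b → ∀ g : ZMod P, orderOf g = P - 1 →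
    ∀ y : ℕ, 3 ≤ y → (y : ℝ) ≤ (P : ℝ) ^ δ → Logarithms ε P g (fun M H R X => Rough a b η y M H R X) := by
  obtain ⟨δ, P₀, hδ, h⟩ := dlog_linA k hk ε η hε hη
  refine ⟨δ, P₀, hδ, ?_⟩
  intro P hP _ a b hab g hg y hy hyP
  exact h P hP a b hab g hg y hy hyP

section Digits

variable {G : Type} [AddCommGroup G] [Fintype G]

theorem digital (b : ℕ) (hb : 2 ≤ b) (S : ℕ → G) (hS : Digital b S) (k : ℕ) (hk : 1 ≤ k) (B : ℕ) :
    ∃ (r : ℕ) (δ c C : ℝ) (H₀ : ℕ), 0 < δ ∧ 0 < c ∧ 0 < C ∧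
    ∀ H : ℕ, H₀ ≤ H → ∀ (α β : Fin k → ℤ), (∀ i, α i ≠ 0) → Admissible α β → ∀ (M : ℕ) (g : G),
    Bounds α β H r δ c C B M H (fun n => S n = g) (H / Fintype.card G) := by
  obtain ⟨r, δ, c, C, P₀, hδ, hc, hC, h⟩ := dig_lin b hb S hS.1 hS.2 k hk B
  obtain ⟨c1, hc1, hlo⟩ := low k hk
  refine ⟨r, δ, c * min 1 c1, C, max P₀ 3, hδ, by positivity, hC, ?_⟩
  intro H hH α β hα hab M g
  have hH3 : 3 ≤ H := (le_max_right _ _).trans hH
  exact conv hH3 hc (by positivity) (hlo α β hab H hH3) (h H ((le_max_left _ _).trans hH) α β hα hab M g)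

theorem digitalA (b : ℕ) (hb : 2 ≤ b) (S : ℕ → G) (hS : Digital b S) (k : ℕ) (hk : 1 ≤ k) (η : ℝ) (hη : 0 < η) :
    ∃ (δ : ℝ) (H₀ : ℕ), 0 < δ ∧ ∀ H : ℕ, H₀ ≤ H → ∀ (α β : Fin k → ℤ), Admissible α β → ∀ (M : ℕ) (g : G) (y : ℕ),
    3 ≤ y → (y : ℝ) ≤ (H : ℝ) ^ δ → Rough α β η y M H (fun n => S n = g) (H / Fintype.card G) := by
  obtain ⟨δ, H₀, hδ, h⟩ := dig_linA b hb S hS.1 hS.2 k hk η hη
  exact ⟨δ, H₀, hδ, fun H hH α β hab M g y hy hyH => h H hH α β hab M g y hy hyH⟩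

end Digits

/-- a system of `k` forms is admissible if it is so for the primes `q ≤ k` and if no prime `q > k` divides all its
coefficients `a i`, `b i` for one `i` -/
lemma admissible_of (a b : Fin k → ℤ) (h1 : ∀ q : ℕ, q.Prime → q ≤ k → ∃ n : ℕ, ∀ i, ¬ (q : ℤ) ∣ a i * n + b i)
    (h2 : ∀ q : ℕ, q.Prime → k < q → ∀ i, ¬ ((q : ℤ) ∣ a i ∧ (q : ℤ) ∣ b i)) : Admissible a b := by
  intro q hq
  rcases Nat.lt_or_ge k q with h5 | h5
  · by_contra hcon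
    push Not at hcon
    choose u hu using hcon
    obtain ⟨x, hx, y, hy, hxy, he⟩ := Finset.exists_ne_map_eq_of_card_lt_of_maps_to
      (s := range q) (t := (univ : Finset (Fin k))) (by simpa using h5) (f := u) (fun a _ => Finset.mem_coe.2 (mem_univ (u a)))
    have g1 := hu x
    have g2 := hu y
    rw [← he] at g2
    have g3 : (q : ℤ) ∣ a (u x) * ((x : ℤ) - y) := by
      have := dvd_sub g1 g2
      have e : a (u x) * (x : ℤ) + b (u x) - (a (u x) * (y : ℤ) + b (u x)) = a (u x) * ((x : ℤ) - y) := by ring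
      rwa [e] at this
    have hqp : Prime (q : ℤ) := Nat.prime_iff_prime_int.1 hq
    have hxq := mem_range.1 hx
    have hyq := mem_range.1 hy
    rcases hqp.dvd_or_dvd g3 with g4 | g4
    · apply h2 q hq h5 (u x)
      refine ⟨g4, ?_⟩
      have := dvd_sub g1 (g4.mul_right (x : ℤ))
      simpa using this
    · obtain ⟨w, hw⟩ := g4
      have hw0 : w = 0 := by
        by_contra h0
        have h6 : (1 : ℤ) ≤ |w| := Int.one_le_abs h0
        have h7 : |(x : ℤ) - y| = q * |w| := by rw [hw, abs_mul, Nat.abs_cast]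
        have h8 : |(x : ℤ) - y| < q := by
          rw [abs_lt]
          constructor <;> omega
        nlinarith
      rw [hw0, mul_zero] at hw
      exact hxy (by omega)
  · exact h1 q hq h5

end Pool.Agent.X55.Forms
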