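import Pool.Agent.X55.Fam.Res

set_option autoImplicit false

/-! # Integers in short intervals with prescribed residues modulo an arbitrary modulus -/

namespace Pool.Agent.X55.Fam.Q

open Finset Filter Real
open Pool.Agent.Y933.KD
open Pool.Agent.Y951.MW (sum_dist geom_le)
open Pool.Agent.X55.Mod (geo)
open Pool.Agent.X55.Fam

section

variable {p : ℕ} [NeZero p]

lemma psi_int (j : ℤ) : (ZMod.stdAddChar (j : ZMod p) : ℂ) = e ((j : ℝ) / p) := by
  rw [ZMod.stdAddChar_coe]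
  unfold e
  congr 1
  push_cast
  ring

lemma sum_val (F : ℕ → ℝ) : ∑ a : ZMod p, F a.val = ∑ j ∈ range p, F j := by
  refine sum_bij' (fun a _ => a.val) (fun j _ => (j : ZMod p)) ?_ ?_ ?_ ?_ ?_
  · intro a _
    exact mem_range.2 (ZMod.val_lt a)
  · intro j _
    exact mem_univ _
  · intro a _
    exact ZMod.natCast_zmod_val a
  · intro j hj
    exact ZMod.val_cast_of_lt (mem_range.1 hj)
  · intro a _
    rfl

/-- **incomplete sums** -/
theorem incomplete {g : ZMod p → ℂ} {Γ : ℝ} (hΓ : 0 ≤ Γ)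
    (hG : ∀ a : ZMod p, ‖∑ r : ZMod p, g r * (ZMod.stdAddChar (a * r) : ℂ)‖ ≤ Γ) (η : ℝ)
    {u v N : ℕ} (hv : v ≤ N) :
    ‖∑ n ∈ Ioc u v, g (n : ZMod p) * e (n * η)‖ ≤
      Γ / p * (2 * N + p * (1 + Real.log p)) := by
  classical
  have hp0 : p ≠ 0 := NeZero.ne p
  have hpR : (0 : ℝ) < p := by exact_mod_cast Nat.pos_of_ne_zero hp0
  have hpC : (p : ℂ) ≠ 0 := by exact_mod_cast hp0
  set G : ZMod p → ℂ := fun a => ∑ r : ZMod p, g r * (ZMod.stdAddChar (a * r) : ℂ) with hGdef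
  have h1 : ∀ n : ℕ, g (n : ZMod p) =
      1 / p * ∑ a : ZMod p, G a * (ZMod.stdAddChar (-(a * (n : ZMod p))) : ℂ) := by
    intro n
    have h2 : ∑ a : ZMod p, G a * (ZMod.stdAddChar (-(a * (n : ZMod p))) : ℂ) =
        ∑ r : ZMod p, g r *
          ∑ a : ZMod p, (ZMod.stdAddChar (a * (r - (n : ZMod p))) : ℂ) := by
      rw [hGdef]
      simp only [sum_mul, mul_sum]
      rw [sum_comm]
      refine sum_congr rfl fun r _ => sum_congr rfl fun a _ => ?_
      rw [mul_assoc, ← AddChar.map_add_eq_mul]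
      congr 2
      ring
    rw [h2, sum_eq_single (n : ZMod p)]
    · rw [AddChar.sum_mulShift _ (ZMod.isPrimitive_stdAddChar p), sub_self, if_pos rfl, ZMod.card]
      field_simp
    · intro r _ hr
      rw [AddChar.sum_mulShift _ (ZMod.isPrimitive_stdAddChar p), if_neg (sub_ne_zero.2 hr),
        Nat.cast_zero, mul_zero]
    · intro h
      exact absurd (mem_univ _) h
  have h2 : ∀ (a : ZMod p) (n : ℕ), (ZMod.stdAddChar (-(a * (n : ZMod p))) : ℂ) * e (n * η) =
      e (n * (η - (a.val : ℝ) / p)) := by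
    intro a n
    have h3 : -(a * (n : ZMod p)) = ((-((a.val : ℤ) * n) : ℤ) : ZMod p) := by
      push_cast
      rw [ZMod.natCast_zmod_val]
    rw [h3, psi_int, ← e_add]
    congr 1
    push_cast
    ring
  have h3 : ∑ n ∈ Ioc u v, g (n : ZMod p) * e (n * η) =
      1 / p * ∑ a : ZMod p, G a *
        ∑ n ∈ Ioc u v, e (n * (η - (a.val : ℝ) / p)) := by
    rw [sum_congr rfl fun n _ => by rw [h1 n]]
    simp only [mul_assoc, sum_mul, mul_sum]
    rw [sum_comm]
    refine sum_congr rfl fun a _ => sum_congr rfl fun n _ => ?_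
    rw [← h2 a n]
  set F : ℕ → ℝ := fun j => ‖∑ n ∈ Ioc u v, e (n * (η - (j : ℝ) / p))‖ with hF
  have h4 : ∑ j ∈ range p, F j ≤ 2 * N + p * (1 + Real.log p) := by
    refine sum_dist (Nat.one_le_iff_ne_zero.2 hp0) η (Nat.cast_nonneg N) F ?_ (fun a => norm_nonneg _)
      (fun a => geom_le _ u v)
    intro a
    refine (norm_sum_le _ _).trans ?_
    rw [sum_congr rfl fun n _ => norm_e _, sum_const, Nat.card_Ioc, nsmul_eq_mul, mul_one]
    exact_mod_cast (by omega : v - u ≤ N)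
  rw [h3, norm_mul]
  have h5 : ‖(1 / p : ℂ)‖ = 1 / p := by
    rw [norm_div, norm_one, Complex.norm_natCast]
  rw [h5]
  have h6 : ‖∑ a : ZMod p, G a *
      ∑ n ∈ Ioc u v, e (n * (η - (a.val : ℝ) / p))‖ ≤ Γ * ∑ j ∈ range p, F j := by
    rw [← sum_val (p := p) F, mul_sum]
    refine (norm_sum_le _ _).trans (sum_le_sum fun a _ => ?_)
    rw [norm_mul]
    exact mul_le_mul_of_nonneg_right (hG a) (norm_nonneg _)
  calc 1 / (p : ℝ) * ‖∑ a : ZMod p, G a *
      ∑ n ∈ Ioc u v, e (n * (η - (a.val : ℝ) / p))‖ ≤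
        1 / p * (Γ * (2 * N + p * (1 + Real.log p))) := by
        refine mul_le_mul_of_nonneg_left (h6.trans ?_) (by positivity)
        exact mul_le_mul_of_nonneg_left h4 hΓ
    _ = _ := by ring

/-- the exponential sum of a set of residues over an interval -/
lemma expoQ (A : Finset (ZMod p)) {Γ : ℝ} (hΓ : 0 ≤ Γ)
    (hG : ∀ a : ZMod p, a ≠ 0 → ‖∑ x ∈ A, (ZMod.stdAddChar (a * x) : ℂ)‖ ≤ Γ) (u H : ℕ) (hH : H ≤ p)
    (η : ℝ) :
    ‖∑ j ∈ (Ioc 0 H).filter (fun j : ℕ => ((u + j : ℕ) : ZMod p) ∈ A), e (j * η) -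
      (A.card : ℂ) / p * ∑ j ∈ Ioc 0 H, e (j * η)‖ ≤ Γ * (3 + Real.log p) := by
  classical
  have hp0 : p ≠ 0 := NeZero.ne p
  have hpR : (0 : ℝ) < p := by exact_mod_cast Nat.pos_of_ne_zero hp0
  have hpC : (p : ℂ) ≠ 0 := by exact_mod_cast hp0
  have h1 := incomplete (p := p)
    (g := fun x => (if (u : ZMod p) + x ∈ A then (1 : ℂ) else 0) - (A.card : ℂ) / p) hΓ (by
      intro a
      have h2 : ∑ r : ZMod p, ((if (u : ZMod p) + r ∈ A then (1 : ℂ) else 0) - (A.card : ℂ) / p) *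
          (ZMod.stdAddChar (a * r) : ℂ) =
          (ZMod.stdAddChar (-(a * (u : ZMod p))) : ℂ) * ∑ x ∈ A, (ZMod.stdAddChar (a * x) : ℂ) -
            (A.card : ℂ) / p * ∑ r : ZMod p, (ZMod.stdAddChar (a * r) : ℂ) := by
        simp only [sub_mul, sum_sub_distrib, mul_sum]
        congr 1
        rw [← sum_filter_add_sum_filter_not univ (fun r : ZMod p => (u : ZMod p) + r ∈ A)]
        rw [sum_eq_zero (s := univ.filter (fun r : ZMod p => ¬ (u : ZMod p) + r ∈ A)) (by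
          intro r hr
          rw [mem_filter] at hr
          rw [if_neg hr.2, zero_mul]), add_zero]
        refine sum_bij' (fun r _ => (u : ZMod p) + r) (fun x _ => x - (u : ZMod p)) ?_ ?_ ?_ ?_ ?_
        · intro r hr
          exact (mem_filter.1 hr).2
        · intro x hx
          rw [mem_filter]
          refine ⟨mem_univ _, ?_⟩
          rw [add_sub_cancel]
          exact hx
        · intro r _
          ring
        · intro x _
          ring
        · intro r hr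
          rw [if_pos (mem_filter.1 hr).2, one_mul, ← AddChar.map_add_eq_mul]
          congr 1
          ring
      rw [h2]
      have h3 : ∑ r : ZMod p, (ZMod.stdAddChar (a * r) : ℂ) = if a = 0 then (p : ℂ) else 0 := by
        have h4 := AddChar.sum_mulShift a (ZMod.isPrimitive_stdAddChar p)
        rw [ZMod.card] at h4
        push_cast at h4
        rw [← h4]
        refine sum_congr rfl fun r _ => ?_
        rw [mul_comm]
      rcases eq_or_ne a 0 with h0 | h0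
      · rw [h3, if_pos h0, h0]
        simp only [zero_mul, neg_zero, AddChar.map_zero_eq_one, sum_const, nsmul_eq_mul, mul_one, one_mul]
        rw [div_mul_cancel₀ _ hpC, sub_self, norm_zero]
        exact hΓ
      · rw [h3, if_neg h0, mul_zero, sub_zero, norm_mul, AddChar.norm_apply, one_mul]
        exact hG a h0) η (u := 0) (v := H) (N := p) hH
  have h2 : ∑ n ∈ Ioc 0 H, ((if (u : ZMod p) + (n : ZMod p) ∈ A then (1 : ℂ) else 0) - (A.card : ℂ) / p) *
      e (n * η) = ∑ j ∈ (Ioc 0 H).filter (fun j : ℕ => ((u + j : ℕ) : ZMod p) ∈ A), e (j * η) -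
      (A.card : ℂ) / p * ∑ j ∈ Ioc 0 H, e (j * η) := by
    simp only [sub_mul, sum_sub_distrib, mul_sum]
    congr 1
    rw [sum_filter]
    refine sum_congr rfl fun j _ => ?_
    push_cast
    split_ifs with h
    · rw [one_mul]
    · rw [zero_mul]
  rw [h2] at h1
  refine h1.trans (le_of_eq ?_)
  field_simp
  ring

end

open scoped Classical in
theorem equiQ (ε : ℝ) (hε : 0 < ε) : ∃ P₀ : ℕ, ∀ p : ℕ, P₀ ≤ p →
    ∀ [NeZero p] (A : Finset (ZMod p)) (Γ : ℝ), 1 ≤ Γ →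
    (∀ a : ZMod p, a ≠ 0 → ‖∑ x ∈ A, (ZMod.stdAddChar (a * x) : ℂ)‖ ≤ Γ) →
    ∀ M H : ℕ, H ≤ p → Γ * (p : ℝ) ^ (1 + ε) ≤ A.card * H →
    Equi ⌊(p : ℝ) ^ (ε / 4)⌋₊ (om p A M H) (fun j => M + j) (A.card * H / p) := by
  have hlog : ∀ δ : ℝ, 0 < δ → ∀ᶠ x : ℝ in atTop, Real.log x ≤ x ^ δ := by
    intro δ hδ
    have h := (isLittleO_log_rpow_atTop hδ).def (show (0 : ℝ) < 1 by norm_num)
    filter_upwards [h, eventually_ge_atTop (1 : ℝ)] with X hX hX1
    rwa [Real.norm_eq_abs, abs_of_nonneg (Real.log_nonneg hX1), Real.norm_eq_abs,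
      abs_of_nonneg (Real.rpow_nonneg (by linarith) _), one_mul] at hX
  have hev := (hlog (ε / 4) (by linarith)).and
    ((Pool.Agent.W147.PS.ev_pow (ε / 4) (ε / 2) 9 (by linarith)).and (eventually_ge_atTop (1 : ℝ)))
  obtain ⟨X₀, hX₀⟩ := eventually_atTop.mp hev
  refine ⟨⌈X₀⌉₊, ?_⟩
  intro p hp0 _ A Γ hΓ hG M H hH hA d hd1 hdX r
  have hpX : X₀ ≤ (p : ℝ) := (Nat.le_ceil _).trans (by exact_mod_cast hp0)
  obtain ⟨c1, c2, c3⟩ := hX₀ p hpX
  have hpR : (0 : ℝ) < p := by linarith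
  have hx1 : (1 : ℝ) ≤ (p : ℝ) ^ (ε / 4) := Real.one_le_rpow c3 (by linarith)
  set y : ℝ := (p : ℝ) ^ (ε / 4) with hy
  have hAp : (A.card : ℝ) ≤ p := by
    have h1 := card_le_univ A
    rw [ZMod.card] at h1
    exact_mod_cast h1
  set s := om p A M H with hs
  set Y := ⌊y⌋₊ with hY
  have hYy : (Y : ℝ) ≤ y := Nat.floor_le (by linarith)
  have hY1 : 1 ≤ Y := Nat.le_floor (by exact_mod_cast hx1)
  have hY1' : (1 : ℝ) ≤ Y := by exact_mod_cast hY1
  have hdr : (1 : ℝ) ≤ d := by exact_mod_cast hd1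
  have hdy : (d : ℝ) ≤ y := (by exact_mod_cast hdX : (d : ℝ) ≤ Y).trans hYy
  have hexp : ∀ η : ℝ, ‖∑ j ∈ s, e (j * η) - (A.card : ℂ) / p * ∑ j ∈ Ioc 0 H, e (j * η)‖ ≤
      Γ * (3 + Real.log p) := fun η => expoQ A (by linarith) hG M H hH η
  -- the cardinality
  have hcard : |(s.card : ℝ) - A.card * H / p| ≤ Γ * (3 + Real.log p) := by
    have h1 := hexp 0
    simp only [mul_zero, Pool.Agent.Y933.KD.e_zero, sum_const, nsmul_eq_mul, mul_one, Nat.card_Ioc,
      Nat.sub_zero] at h1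
    have h2 : ((s.card : ℂ) - (A.card : ℂ) / p * (H : ℂ)) = (((s.card : ℝ) - A.card * H / p : ℝ) : ℂ) := by
      push_cast
      ring
    rwa [h2, Complex.norm_real, Real.norm_eq_abs] at h1
  have hE : ∀ h : ℕ, 1 ≤ h → h < d → ‖∑ j ∈ s, Pool.Agent.H469R2.NK.e ((h : ℝ) / d * (((M + j : ℕ) : ℤ) : ℝ))‖ ≤
      Γ * (3 + Real.log p) + y := by
    intro h h1 hhq
    have e1 : ∑ j ∈ s, Pool.Agent.H469R2.NK.e ((h : ℝ) / d * (((M + j : ℕ) : ℤ) : ℝ)) =
        e ((h : ℝ) / d * M) * ∑ j ∈ s, e (j * ((h : ℝ) / d)) := by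
      rw [mul_sum]
      refine sum_congr rfl fun j _ => ?_
      rw [← e_add]
      change e _ = _
      congr 1
      push_cast
      ring
    rw [e1, norm_mul, norm_e, one_mul]
    have e2 := hexp ((h : ℝ) / d)
    have e3 : ‖(A.card : ℂ) / p * ∑ j ∈ Ioc 0 H, e (j * ((h : ℝ) / d))‖ ≤ d := by
      rw [norm_mul, norm_div, Complex.norm_natCast, Complex.norm_natCast]
      have e4 := geo d h h1 hhq H
      have e5 : (A.card : ℝ) / p ≤ 1 := by rw [div_le_one hpR]; exact hAp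
      calc (A.card : ℝ) / p * ‖∑ n ∈ Ioc 0 H, e (n * ((h : ℝ) / d))‖ ≤ 1 * d := by gcongr
        _ = d := one_mul _
    have := norm_add_le (∑ j ∈ s, e (j * ((h : ℝ) / d)) - (A.card : ℂ) / p * ∑ j ∈ Ioc 0 H, e (j * ((h : ℝ) / d)))
      ((A.card : ℂ) / p * ∑ j ∈ Ioc 0 H, e (j * ((h : ℝ) / d)))
    rw [sub_add_cancel] at this
    linarith
  have hcl := Pool.Agent.TH915.PW.class_le s (fun j => ((M + j : ℕ) : ℤ)) d hd1 (Γ * (3 + Real.log p) + y)
    (by
      have : 0 ≤ Real.log p := Real.log_nonneg c3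
      positivity) hE r
  have hfil : s.filter (fun i => (d : ℤ) ∣ ((M + i : ℕ) : ℤ) - (r : ℤ)) = s.filter (fun j => M + j ≡ r [MOD d]) := by
    apply filter_congr
    intro j _
    rw [Nat.ModEq.comm, Nat.modEq_iff_dvd]
  rw [hfil] at hcl
  have h1 : |(s.card : ℝ) / d - A.card * H / p / d| ≤ Γ * (3 + Real.log p) := by
    rw [← sub_div, abs_div, abs_of_pos (by linarith : (0 : ℝ) < d)]
    calc |(s.card : ℝ) - A.card * H / p| / d ≤ |(s.card : ℝ) - A.card * H / p| / 1 := by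
          apply div_le_div_of_nonneg_left (abs_nonneg _) (by norm_num) hdr
      _ ≤ _ := by rw [div_one]; exact hcard
  have h2 : |((s.filter (fun j => M + j ≡ r [MOD d])).card : ℝ) - A.card * H / p / d| ≤
      Γ * (3 + Real.log p) + y + Γ * (3 + Real.log p) := by
    have h3 := abs_add_le (((s.filter (fun j => M + j ≡ r [MOD d])).card : ℝ) - s.card / d)
      ((s.card : ℝ) / d - A.card * H / p / d)
    have h4 : ((s.filter (fun j => M + j ≡ r [MOD d])).card : ℝ) - s.card / d +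
      ((s.card : ℝ) / d - A.card * H / p / d) = ((s.filter (fun j => M + j ≡ r [MOD d])).card : ℝ) - A.card * H / p / d := by
      ring
    rw [h4] at h3
    linarith
  refine h2.trans ?_
  -- the final comparison
  have hy2 : y * y = (p : ℝ) ^ (ε / 2) := by
    rw [hy, ← Real.rpow_add hpR]
    congr 1
    ring
  have hy4 : (p : ℝ) ^ (ε / 2) * (p : ℝ) ^ (ε / 2) = (p : ℝ) ^ ε := by
    rw [← Real.rpow_add hpR]
    congr 1
    ring
  have h5 : Γ * (p : ℝ) ^ (ε / 2) ≤ A.card * H / p / (Y : ℝ) ^ 2 := by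
    rw [le_div_iff₀ (by positivity), le_div_iff₀ hpR]
    calc Γ * (p : ℝ) ^ (ε / 2) * (Y : ℝ) ^ 2 * p ≤ Γ * (p : ℝ) ^ (ε / 2) * y ^ 2 * p := by gcongr
      _ = Γ * ((p : ℝ) * ((p : ℝ) ^ (ε / 2) * (y * y))) := by ring
      _ = Γ * (p : ℝ) ^ (1 + ε) := by
          rw [hy2, hy4, Real.rpow_add hpR, Real.rpow_one]
      _ ≤ _ := hA
  refine le_trans ?_ h5
  have h6 : Γ * (3 + Real.log p) + y + Γ * (3 + Real.log p) ≤ Γ * (9 * y) := by
    have h7 : y ≤ Γ * y := by nlinarith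
    have h8 : Γ * (3 + Real.log p) ≤ Γ * (4 * y) := by
      gcongr
      linarith
    linarith
  refine h6.trans ?_
  gcongr

end Pool.Agent.X55.Fam.Q
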