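import Pool.Agent.X55.Fam.Poly

set_option autoImplicit false

/-! # Tools for the verification of the hypotheses on systems of polynomials -/

namespace Pool.Agent.X55.Fam

open Finset Polynomial Pool.Agent.H474R2.PG

lemma prim_of {f : ℤ[X]} (h : ∀ d : ℤ, (∀ i, d ∣ f.coeff i) → IsUnit d) : f.IsPrimitive := by
  intro r hr
  rw [C_dvd_iff_dvd_coeff] at hr
  exact h r hr

lemma quad_irr (a b c : ℤ) (ha : a ≠ 0) (hprim : ∀ d : ℤ, d ∣ a → d ∣ b → d ∣ c → IsUnit d)
    (hdisc : ¬ IsSquare (b ^ 2 - 4 * a * c)) : Irreducible (C a * X ^ 2 + C b * X + C c : ℤ[X]) := by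
  have hp : (C a * X ^ 2 + C b * X + C c : ℤ[X]).IsPrimitive := by
    apply prim_of
    intro d hd
    apply hprim d
    · simpa [coeff_X, coeff_C, -eq_intCast] using hd 2
    · simpa [coeff_X, coeff_C, -eq_intCast] using hd 1
    · simpa [coeff_X, coeff_C, -eq_intCast] using hd 0
  rw [IsPrimitive.Int.irreducible_iff_irreducible_map_cast hp]
  set g : ℚ[X] := (C a * X ^ 2 + C b * X + C c : ℤ[X]).map (Int.castRingHom ℚ) with hg
  have hg' : g = C (a : ℚ) * X ^ 2 + C (b : ℚ) * X + C (c : ℚ) := by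
    rw [hg]
    simp
  have ha' : (a : ℚ) ≠ 0 := by exact_mod_cast ha
  have hdeg : g.natDegree = 2 := by rw [hg']; exact natDegree_quadratic ha'
  rw [irreducible_iff_roots_eq_zero_of_degree_le_three (by omega) (by omega)]
  rw [Multiset.eq_zero_iff_forall_notMem]
  intro x hx
  rw [mem_roots (by intro h0; rw [h0, natDegree_zero] at hdeg; omega), IsRoot.def, hg'] at hx
  simp only [eval_add, eval_mul, eval_C, eval_pow, eval_X] at hx
  apply hdisc
  have h1 : ((b ^ 2 - 4 * a * c : ℤ) : ℚ) = (2 * a * x + b) * (2 * a * x + b) := by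
    push_cast
    linear_combination (-4 * (a : ℚ)) * hx
  exact Rat.isSquare_intCast_iff.1 ⟨_, h1⟩

lemma lin_irr (a b : ℤ) (ha : a ≠ 0) (hprim : ∀ d : ℤ, d ∣ a → d ∣ b → IsUnit d) :
    Irreducible (C a * X + C b : ℤ[X]) := by
  have hp : (C a * X + C b : ℤ[X]).IsPrimitive := by
    apply prim_of
    intro d hd
    apply hprim d
    · simpa [coeff_X, coeff_C, -eq_intCast] using hd 1
    · simpa [coeff_X, coeff_C, -eq_intCast] using hd 0
  rw [IsPrimitive.Int.irreducible_iff_irreducible_map_cast hp]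
  have hg' : (C a * X + C b : ℤ[X]).map (Int.castRingHom ℚ) = C (a : ℚ) * X + C (b : ℚ) := by simp
  rw [hg']
  have ha' : (a : ℚ) ≠ 0 := by exact_mod_cast ha
  apply irreducible_of_degree_eq_one
  exact degree_linear ha'

lemma not_assoc {f g : ℤ[X]} (n : ℤ) (h : (f.eval n).natAbs ≠ (g.eval n).natAbs) : ¬ Associated f g := by
  rintro ⟨u, hu⟩
  apply h
  have h1 : IsUnit ((u : ℤ[X]).eval n) := u.isUnit.map (evalRingHom n)
  rw [← hu, eval_mul, Int.natAbs_mul]
  have h2 : ((u : ℤ[X]).eval n).natAbs = 1 := Int.natAbs_of_isUnit h1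
  rw [h2, mul_one]

/-- only the small primes can be fixed divisors -/
theorem Sys.mk' {k : ℕ} {f : Fin k → ℤ[X]} (irr : ∀ i, Irreducible (f i)) (deg : ∀ i, 0 < (f i).natDegree)
    (assoc : ∀ i j, i ≠ j → ¬ Associated (f i) (f j)) (D : ℕ) (hD : ∑ i, (f i).natDegree ≤ D)
    (fix : ∀ p : ℕ, p.Prime → p ≤ D → ∃ n : ℕ, ∀ i, ¬ (p : ℤ) ∣ (f i).eval (n : ℤ)) : Sys k f := by
  classical
  refine ⟨irr, deg, assoc, fun p hp => ?_⟩
  rcases Nat.lt_or_ge D p with h | h
  · have h1 : ((univ : Finset (Fin k)).biUnion (fun i => (range p).filter (fun a : ℕ => (p : ℤ) ∣ (f i).eval (a : ℤ)))).card < (range p).card := by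
      refine lt_of_le_of_lt card_biUnion_le ?_
      rw [card_range]
      refine lt_of_le_of_lt ?_ h
      refine le_trans ?_ hD
      refine sum_le_sum fun i _ => ?_
      have := rho_le (f i) (irr i) (deg i) p hp
      unfold rho at this
      convert this
    obtain ⟨n, hn, hn2⟩ := exists_mem_notMem_of_card_lt_card h1
    refine ⟨n, fun i hi => hn2 ?_⟩
    rw [mem_biUnion]
    exact ⟨i, mem_univ _, mem_filter.2 ⟨hn, hi⟩⟩
  · exact fix p hp h

end Pool.Agent.X55.Fam
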