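import Pool.Agent.X55.Fam.V

set_option autoImplicit false

/-! # Systems of irreducible polynomials -/

namespace Pool.Agent.X55.Fam

open Finset Pool.Agent.H373R2.T7 Pool.Agent.H474R2.PG Polynomial
open Pool.Agent.X55.Pal (rho_le_deg PR_eq)

/-- irreducible polynomials which are not associated have no common roots modulo the large primes -/
lemma bezout (f g : ℤ[X]) (hf : Irreducible f) (hg : Irreducible g) (hdf : 0 < f.natDegree)
    (hdg : 0 < g.natDegree) (hfg : ¬ Associated f g) : ∃ m : ℤ, m ≠ 0 ∧ ∀ (p n : ℤ), p ∣ f.eval n → p ∣ g.eval n → p ∣ m := by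
  have pf : f.IsPrimitive := hf.isPrimitive hdf.ne'
  have pg : g.IsPrimitive := hg.isPrimitive hdg.ne'
  have hf' : Irreducible (f.map (Int.castRingHom ℚ)) := (IsPrimitive.Int.irreducible_iff_irreducible_map_cast pf).1 hf
  have hg' : Irreducible (g.map (Int.castRingHom ℚ)) := (IsPrimitive.Int.irreducible_iff_irreducible_map_cast pg).1 hg
  have hcop : IsCoprime (f.map (Int.castRingHom ℚ)) (g.map (Int.castRingHom ℚ)) := by
    rw [hf'.coprime_iff_not_dvd]
    intro h
    have h1 : f ∣ g := (IsPrimitive.Int.dvd_iff_map_cast_dvd_map_cast f g pf).2 h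
    exact hfg (hf.associated_of_dvd hg h1)
  obtain ⟨a, b, hab⟩ := hcop
  obtain ⟨u, hu, hua⟩ := IsLocalization.integerNormalization_spec (nonZeroDivisors ℤ) a
  obtain ⟨w, hw, hwb⟩ := IsLocalization.integerNormalization_spec (nonZeroDivisors ℤ) b
  have hu0 : u ≠ 0 := nonZeroDivisors.ne_zero hu
  have hw0 : w ≠ 0 := nonZeroDivisors.ne_zero hw
  set A := IsLocalization.integerNormalization (nonZeroDivisors ℤ) a with hA
  set B := IsLocalization.integerNormalization (nonZeroDivisors ℤ) b with hB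
  have hkey : C w * A * f + C u * B * g = C (u * w) := by
    apply Polynomial.map_injective (Int.castRingHom ℚ) Int.cast_injective
    have e1 : A.map (Int.castRingHom ℚ) = C (u : ℚ) * a := by
      have : A.map (algebraMap ℤ ℚ) = C (u : ℚ) * a := by
        rw [hua]
        ext i
        simp [Algebra.smul_def]
      exact this
    have e2 : B.map (Int.castRingHom ℚ) = C (w : ℚ) * b := by
      have : B.map (algebraMap ℤ ℚ) = C (w : ℚ) * b := by
        rw [hwb]
        ext i
        simp [Algebra.smul_def]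
      exact this
    rw [Polynomial.map_add, Polynomial.map_mul, Polynomial.map_mul, Polynomial.map_mul, Polynomial.map_mul, e1, e2]
    simp only [Polynomial.map_C, Int.coe_castRingHom, Int.cast_mul]
    calc C (w : ℚ) * (C (u : ℚ) * a) * map (Int.castRingHom ℚ) f + C (u : ℚ) * (C (w : ℚ) * b) * map (Int.castRingHom ℚ) g
        = C (u : ℚ) * C (w : ℚ) * (a * map (Int.castRingHom ℚ) f + b * map (Int.castRingHom ℚ) g) := by ring
      _ = _ := by rw [hab, mul_one, C_mul]
  refine ⟨u * w, mul_ne_zero hu0 hw0, fun p n h1 h2 => ?_⟩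
  have h3 := congrArg (fun q : ℤ[X] => q.eval n) hkey
  simp only [eval_add, eval_mul, eval_C] at h3
  rw [← h3]
  exact dvd_add (h1.mul_left _) (h2.mul_left _)

/-- A system: irreducible polynomials of positive degree, pairwise not associated, without a fixed divisor. -/
structure Sys (k : ℕ) (f : Fin k → ℤ[X]) : Prop where
  irr : ∀ i, Irreducible (f i)
  deg : ∀ i, 0 < (f i).natDegree
  assoc : ∀ i j, i ≠ j → ¬ Associated (f i) (f j)
  fix : ∀ p : ℕ, p.Prime → ∃ n : ℕ, ∀ i, ¬ (p : ℤ) ∣ (f i).eval (n : ℤ)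

variable {k : ℕ} {f : Fin k → ℤ[X]}

/-- the removed residue classes -/
def QQ (f : Fin k → ℤ[X]) (p n : ℕ) : Prop := ∃ i, (p : ℤ) ∣ (f i).eval (n : ℤ)

/-- the total degree -/
def cc (f : Fin k → ℤ[X]) : ℕ := ∑ i, (f i).natDegree + 1

lemma dvd_mod (f : ℤ[X]) (p n : ℕ) : (p : ℤ) ∣ f.eval (n : ℤ) ↔ (p : ℤ) ∣ f.eval ((n % p : ℕ) : ℤ) := by
  have h5 : (p : ℤ) ∣ f.eval (n : ℤ) - f.eval ((n % p : ℕ) : ℤ) := by
    refine dvd_trans ?_ (Polynomial.sub_dvd_eval_sub _ _ f)
    have h6 : ((n : ℤ) - ((n % p : ℕ) : ℤ)) = p * ((n / p : ℕ) : ℤ) := by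
      have := Nat.mod_add_div n p
      zify at this
      push_cast
      linarith
    exact ⟨_, h6⟩
  exact (dvd_iff_dvd_of_dvd_sub h5)

lemma rho_le (g : ℤ[X]) (hg : Irreducible g) (hd : 0 < g.natDegree) (p : ℕ) (hp : p.Prime) : rho g p ≤ g.natDegree := by
  have : Fact p.Prime := ⟨hp⟩
  apply rho_le_deg g p hp
  intro h0
  have pg : g.IsPrimitive := hg.isPrimitive hd.ne'
  have h1 : C (p : ℤ) ∣ g := by
    rw [C_dvd_iff_dvd_coeff]
    intro i
    have h2 := congrArg (fun q : (ZMod p)[X] => q.coeff i) h0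
    simp only [coeff_map, coeff_zero, eq_intCast] at h2
    exact (ZMod.intCast_zmod_eq_zero_iff_dvd _ _).1 h2
  have h2 := pg _ h1
  rw [Int.isUnit_iff] at h2
  have := hp.two_le
  omega

lemma perB (h : Sys k f) : PerB (QQ f) (cc f) := by
  classical
  refine ⟨fun p n => ?_, fun p hp => ?_⟩
  · unfold QQ
    exact exists_congr fun i => dvd_mod (f i) p n
  · have h1 : nuB (QQ f) p ≤ ∑ i, rho (f i) p := by
      unfold nuB
      have h2 : (range p).filter (fun r => QQ f p r) ⊆ univ.biUnion (fun i =>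
          (range p).filter (fun a : ℕ => (p : ℤ) ∣ (f i).eval (a : ℤ))) := by
        intro a ha
        rw [mem_filter] at ha
        obtain ⟨i, hi⟩ := ha.2
        rw [mem_biUnion]
        exact ⟨i, mem_univ _, mem_filter.2 ⟨ha.1, hi⟩⟩
      refine (card_le_card h2).trans (card_biUnion_le.trans ?_)
      apply le_of_eq
      refine sum_congr rfl fun i _ => ?_
      unfold rho
      congr
    refine h1.trans ?_
    unfold cc
    have h2 : ∑ i, rho (f i) p ≤ ∑ i, (f i).natDegree := sum_le_sum fun i _ => rho_le _ (h.irr i) (h.deg i) p hp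
    omega

lemma nu_lt (h : Sys k f) (p : ℕ) (hp : p.Prime) : nuB (QQ f) p < p := by
  classical
  obtain ⟨n, hn⟩ := h.fix p hp
  unfold nuB
  have h1 : ((range p).filter (fun r => QQ f p r)).card < (range p).card := by
    apply card_lt_card
    rw [Finset.ssubset_iff_of_subset (filter_subset _ _)]
    refine ⟨n % p, mem_range.2 (Nat.mod_lt _ hp.pos), ?_⟩
    rw [mem_filter, not_and]
    rintro _ ⟨i, hi⟩
    exact hn i ((dvd_mod (f i) p n).2 hi)
  rwa [card_range] at h1

/-- for the large primes the classes are disjoint -/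
lemma nu_eq (h : Sys k f) : ∃ p0 : ℕ, ∀ p : ℕ, p.Prime → p0 < p → nuB (QQ f) p = ∑ i, rho (f i) p := by
  classical
  have h1 : ∀ i j : Fin k, ∃ m : ℤ, m ≠ 0 ∧ (i ≠ j → ∀ (p n : ℤ), p ∣ (f i).eval n → p ∣ (f j).eval n → p ∣ m) := by
    intro i j
    by_cases hij : i = j
    · exact ⟨1, one_ne_zero, fun h => absurd hij h⟩
    · obtain ⟨m, hm, hm2⟩ := bezout (f i) (f j) (h.irr i) (h.irr j) (h.deg i) (h.deg j) (h.assoc i j hij)
      exact ⟨m, hm, fun _ => hm2⟩
  choose m hm hm2 using h1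
  refine ⟨∑ i, ∑ j, (m i j).natAbs, fun p hp hp0 => ?_⟩
  unfold nuB
  have h2 : (range p).filter (fun r => QQ f p r) = univ.biUnion (fun i =>
      (range p).filter (fun a : ℕ => (p : ℤ) ∣ (f i).eval (a : ℤ))) := by
    ext a
    rw [mem_filter, mem_biUnion]
    constructor
    · rintro ⟨h1, i, hi⟩
      exact ⟨i, mem_univ _, mem_filter.2 ⟨h1, hi⟩⟩
    · rintro ⟨i, _, hi⟩
      rw [mem_filter] at hi
      exact ⟨hi.1, i, hi.2⟩
  rw [h2, card_biUnion]
  · refine sum_congr rfl fun i _ => ?_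
    unfold rho
    congr
  · intro i _ j _ hij
    rw [Function.onFun, disjoint_left]
    intro a ha hb
    rw [mem_filter] at ha hb
    have h3 := hm2 i j hij p a ha.2 hb.2
    have h4 : p ≤ (m i j).natAbs := Nat.le_of_dvd (Int.natAbs_pos.2 (hm i j)) (Int.natCast_dvd.1 h3)
    have h5 : (m i j).natAbs ≤ ∑ j, (m i j).natAbs := single_le_sum (f := fun j => (m i j).natAbs) (fun _ _ => Nat.zero_le _) (mem_univ j)
    have h6 : ∑ j, (m i j).natAbs ≤ ∑ i, ∑ j, (m i j).natAbs :=
      single_le_sum (f := fun i => ∑ j, (m i j).natAbs) (fun _ _ => Nat.zero_le _) (mem_univ i)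
    omega

/-- Mertens' theorem for the system -/
lemma mertens (h : Sys k f) : ∃ C : ℝ, ∀ y : ℕ, 3 ≤ y →
    |∑ p ∈ pz y, (nuB (QQ f) p : ℝ) / p - k * Real.log (Real.log y)| ≤ C := by
  classical
  obtain ⟨p0, hp0⟩ := nu_eq h
  have h1 : ∀ i : Fin k, ∃ C : ℝ, ∀ y : ℕ, 3 ≤ y → |∑ p ∈ pz y, (rho (f i) p : ℝ) / p - Real.log (Real.log y)| ≤ C := by
    intro i
    obtain ⟨C, _, hC⟩ := Pool.Agent.H474R2.GE.mertens_rho (f i) (h.irr i) (h.deg i)
    refine ⟨C, fun y hy => ?_⟩
    have h2 := hC y (by exact_mod_cast hy)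
    unfold Sg at h2
    rw [PR_eq] at h2
    exact h2
  choose C hC using h1
  set S := (2 * cc f : ℝ) with hS
  refine ⟨∑ i, C i + (p0 + 1) * S, fun y hy => ?_⟩
  have h2 : ∑ p ∈ pz y, (nuB (QQ f) p : ℝ) / p - k * Real.log (Real.log y) =
      ∑ i, (∑ p ∈ pz y, (rho (f i) p : ℝ) / p - Real.log (Real.log y)) +
        ∑ p ∈ pz y, ((nuB (QQ f) p : ℝ) - ∑ i, (rho (f i) p : ℝ)) / p := by
    rw [sum_sub_distrib, sum_comm, sum_const, card_univ, Fintype.card_fin, nsmul_eq_mul]
    simp only [sub_div, sum_sub_distrib, sum_div]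
    ring
  rw [h2]
  refine (abs_add_le _ _).trans (add_le_add ?_ ?_)
  · exact (abs_sum_le_sum_abs _ _).trans (sum_le_sum fun i _ => hC i y hy)
  · refine (abs_sum_le_sum_abs _ _).trans ?_
    calc ∑ p ∈ pz y, |((nuB (QQ f) p : ℝ) - ∑ i, (rho (f i) p : ℝ)) / p| ≤
        ∑ p ∈ pz y, if p ≤ p0 then S else 0 := by
          refine sum_le_sum fun p hp => ?_
          rw [mem_pz] at hp
          have hp0' : (1 : ℝ) ≤ p := by exact_mod_cast hp.2.one_le
          split_ifs with h3
          · rw [abs_div, abs_of_pos (by linarith : (0 : ℝ) < p), div_le_iff₀ (by linarith)]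
            have h4 : (nuB (QQ f) p : ℝ) ≤ cc f := by exact_mod_cast (perB h).few p hp.2
            have h5 : ∑ i, (rho (f i) p : ℝ) ≤ cc f := by
              have : ∑ i, rho (f i) p ≤ ∑ i, (f i).natDegree := sum_le_sum fun i _ => rho_le _ (h.irr i) (h.deg i) p hp.2
              have h6 : ∑ i, rho (f i) p ≤ cc f := by unfold cc; omega
              exact_mod_cast h6
            have h6 : (0 : ℝ) ≤ nuB (QQ f) p := Nat.cast_nonneg _
            have h7 : (0 : ℝ) ≤ ∑ i, (rho (f i) p : ℝ) := sum_nonneg fun _ _ => Nat.cast_nonneg _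
            have h8 : |(nuB (QQ f) p : ℝ) - ∑ i, (rho (f i) p : ℝ)| ≤ S := by
              rw [abs_le, hS]
              constructor <;> linarith
            have h9 : (0 : ℝ) ≤ S := by rw [hS]; positivity
            nlinarith
          · have h4 := hp0 p hp.2 (by omega)
            have h5 : (nuB (QQ f) p : ℝ) - ∑ i, (rho (f i) p : ℝ) = 0 := by
              rw [h4]; push_cast; ring
            rw [h5, zero_div, abs_zero]
      _ = ((pz y).filter (fun p => p ≤ p0)).card * S := by
          rw [← sum_filter, sum_const, nsmul_eq_mul]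
      _ ≤ (p0 + 1) * S := by
          apply mul_le_mul_of_nonneg_right _ (by rw [hS]; positivity)
          have h3 : ((pz y).filter (fun p => p ≤ p0)).card ≤ (range (p0 + 1)).card := by
            apply card_le_card
            intro p hp
            rw [mem_filter] at hp
            rw [mem_range]
            omega
          rw [card_range] at h3
          exact_mod_cast h3

/-- the product of the local factors -/
noncomputable def VV (f : Fin k → ℤ[X]) (y : ℕ) : ℝ := ∏ p ∈ pz y, (1 - (nuB (QQ f) p : ℝ) / p)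

theorem VV_bounds (h : Sys k f) : ∃ c1 C1 : ℝ, 0 < c1 ∧ 0 < C1 ∧ ∀ y : ℕ, 3 ≤ y →
    c1 / Real.log y ^ k ≤ VV f y ∧ VV f y ≤ C1 / Real.log y ^ k := by
  obtain ⟨C, hC⟩ := mertens h
  exact prod_bounds (nuB (QQ f)) (cc f) k (by unfold cc; omega) (perB h).few (nu_lt h) C hC

end Pool.Agent.X55.Fam
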