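import Pool.Agent.X55.Fam.Main
import Pool.Agent.X55.Mod.Sets

set_option autoImplicit false

/-! # Family: integers in short intervals with prescribed residues modulo a large prime -/

namespace Pool.Agent.X55.Fam

open Finset Filter
open scoped Classical
open Pool.Agent.Y933.KD (e norm_e e_add)
open Pool.Agent.X55.Mod

/-- the integers `j` in `(0, H]` with `M + j` in `A` modulo `p` -/
noncomputable def om (p : ℕ) (A : Finset (ZMod p)) (M H : ℕ) : Finset ℕ :=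
  (Ioc 0 H).filter (fun j : ℕ => ((M + j : ℕ) : ZMod p) ∈ A)

lemma om_card (p : ℕ) (A : Finset (ZMod p)) (M H : ℕ) (S : ℕ → Prop) :
    ((om p A M H).filter (fun j => S (M + j))).card =
      ((Ioc M (M + H)).filter (fun n : ℕ => (n : ZMod p) ∈ A ∧ S n)).card := by
  refine card_bij (fun j _ => M + j) ?_ ?_ ?_
  · intro j hj
    rw [om, mem_filter, mem_filter, mem_Ioc] at hj
    rw [mem_filter, mem_Ioc]
    exact ⟨⟨by omega, by omega⟩, hj.1.2, hj.2⟩
  · intro a _ b _ hab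
    omega
  · intro n hn
    rw [mem_filter, mem_Ioc] at hn
    refine ⟨n - M, ?_, by omega⟩
    have h1 : M + (n - M) = n := by omega
    rw [om, mem_filter, mem_filter, mem_Ioc, h1]
    exact ⟨⟨⟨by omega, by omega⟩, hn.2.1⟩, hn.2.2⟩

theorem res_equi (ε : ℝ) (hε : 0 < ε) : ∃ P₀ : ℕ, ∀ p : ℕ, P₀ ≤ p →
    ∀ [Fact p.Prime] (A : Finset (ZMod p)) (Γ : ℝ), 1 ≤ Γ →
    (∀ a : ZMod p, a ≠ 0 → ‖∑ x ∈ A, (ZMod.stdAddChar (a * x) : ℂ)‖ ≤ Γ) →
    ∀ M H : ℕ, H ≤ p → Γ * (p : ℝ) ^ (1 + ε) ≤ A.card * H →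
    Equi ⌊(p : ℝ) ^ (ε / 4)⌋₊ (om p A M H) (fun j => M + j) (A.card * H / p) := by
  have hlog : ∀ δ : ℝ, 0 < δ → ∀ᶠ x : ℝ in atTop, Real.log x ≤ x ^ δ := by
    intro δ hδ
    have h := (isLittleO_log_rpow_atTop hδ).def (show (0 : ℝ) < 1 by norm_num)
    filter_upwards [h, eventually_ge_atTop (1 : ℝ)] with X hX hX1
    rwa [Real.norm_eq_abs, abs_of_nonneg (Real.log_nonneg hX1), Real.norm_eq_abs,
      abs_of_nonneg (Real.rpow_nonneg (by linarith) _), one_mul] at hX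
  have hev := (hlog (ε / 4) (by linarith)).and
    ((Pool.Agent.W147.PS.ev_pow (ε / 4) (ε / 2) 9 (by linarith)).and (eventually_ge_atTop (1 : ℝ)))
  obtain ⟨X₀, hX₀⟩ := eventually_atTop.mp hev
  refine ⟨⌈X₀⌉₊, ?_⟩
  intro p hp0 _ A Γ hΓ hG M H hH hA d hd1 hdX r
  have hpX : X₀ ≤ (p : ℝ) := (Nat.le_ceil _).trans (by exact_mod_cast hp0)
  obtain ⟨c1, c2, c3⟩ := hX₀ p hpX
  have hpR : (0 : ℝ) < p := by linarith
  have hx1 : (1 : ℝ) ≤ (p : ℝ) ^ (ε / 4) := Real.one_le_rpow c3 (by linarith)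
  set y : ℝ := (p : ℝ) ^ (ε / 4) with hy
  have hAp : (A.card : ℝ) ≤ p := by
    have h1 := card_le_univ A
    rw [ZMod.card] at h1
    exact_mod_cast h1
  set s := om p A M H with hs
  set Y := ⌊y⌋₊ with hY
  have hYy : (Y : ℝ) ≤ y := Nat.floor_le (by linarith)
  have hY1 : 1 ≤ Y := Nat.le_floor (by exact_mod_cast hx1)
  have hY1' : (1 : ℝ) ≤ Y := by exact_mod_cast hY1
  have hdr : (1 : ℝ) ≤ d := by exact_mod_cast hd1
  have hdy : (d : ℝ) ≤ y := (by exact_mod_cast hdX : (d : ℝ) ≤ Y).trans hYy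
  have hexp : ∀ η : ℝ, ‖∑ j ∈ s, e (j * η) - (A.card : ℂ) / p * ∑ j ∈ Ioc 0 H, e (j * η)‖ ≤
      Γ * (3 + Real.log p) := fun η => expo A (by linarith) hG M H hH η
  -- the cardinality
  have hcard : |(s.card : ℝ) - A.card * H / p| ≤ Γ * (3 + Real.log p) := by
    have h1 := hexp 0
    simp only [mul_zero, Pool.Agent.Y933.KD.e_zero, sum_const, nsmul_eq_mul, mul_one, Nat.card_Ioc,
      Nat.sub_zero] at h1
    have h2 : ((s.card : ℂ) - (A.card : ℂ) / p * (H : ℂ)) = (((s.card : ℝ) - A.card * H / p : ℝ) : ℂ) := by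
      push_cast
      ring
    rwa [h2, Complex.norm_real, Real.norm_eq_abs] at h1
  have hE : ∀ h : ℕ, 1 ≤ h → h < d → ‖∑ j ∈ s, Pool.Agent.H469R2.NK.e ((h : ℝ) / d * (((M + j : ℕ) : ℤ) : ℝ))‖ ≤
      Γ * (3 + Real.log p) + y := by
    intro h h1 hhq
    have e1 : ∑ j ∈ s, Pool.Agent.H469R2.NK.e ((h : ℝ) / d * (((M + j : ℕ) : ℤ) : ℝ)) =
        e ((h : ℝ) / d * M) * ∑ j ∈ s, e (j * ((h : ℝ) / d)) := by
      rw [mul_sum]
      refine sum_congr rfl fun j _ => ?_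
      rw [← e_add]
      change e _ = _
      congr 1
      push_cast
      ring
    rw [e1, norm_mul, norm_e, one_mul]
    have e2 := hexp ((h : ℝ) / d)
    have e3 : ‖(A.card : ℂ) / p * ∑ j ∈ Ioc 0 H, e (j * ((h : ℝ) / d))‖ ≤ d := by
      rw [norm_mul, norm_div, Complex.norm_natCast, Complex.norm_natCast]
      have e4 := geo d h h1 hhq H
      have e5 : (A.card : ℝ) / p ≤ 1 := by rw [div_le_one hpR]; exact hAp
      calc (A.card : ℝ) / p * ‖∑ n ∈ Ioc 0 H, e (n * ((h : ℝ) / d))‖ ≤ 1 * d := by gcongr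
        _ = d := one_mul _
    have := norm_add_le (∑ j ∈ s, e (j * ((h : ℝ) / d)) - (A.card : ℂ) / p * ∑ j ∈ Ioc 0 H, e (j * ((h : ℝ) / d)))
      ((A.card : ℂ) / p * ∑ j ∈ Ioc 0 H, e (j * ((h : ℝ) / d)))
    rw [sub_add_cancel] at this
    linarith
  have hcl := Pool.Agent.TH915.PW.class_le s (fun j => ((M + j : ℕ) : ℤ)) d hd1 (Γ * (3 + Real.log p) + y)
    (by
      have : 0 ≤ Real.log p := Real.log_nonneg c3
      positivity) hE r
  have hfil : s.filter (fun i => (d : ℤ) ∣ ((M + i : ℕ) : ℤ) - (r : ℤ)) = s.filter (fun j => M + j ≡ r [MOD d]) := by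
    apply filter_congr
    intro j _
    rw [Nat.ModEq.comm, Nat.modEq_iff_dvd]
  rw [hfil] at hcl
  have h1 : |(s.card : ℝ) / d - A.card * H / p / d| ≤ Γ * (3 + Real.log p) := by
    rw [← sub_div, abs_div, abs_of_pos (by linarith : (0 : ℝ) < d)]
    calc |(s.card : ℝ) - A.card * H / p| / d ≤ |(s.card : ℝ) - A.card * H / p| / 1 := by
          apply div_le_div_of_nonneg_left (abs_nonneg _) (by norm_num) hdr
      _ ≤ _ := by rw [div_one]; exact hcard
  have h2 : |((s.filter (fun j => M + j ≡ r [MOD d])).card : ℝ) - A.card * H / p / d| ≤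
      Γ * (3 + Real.log p) + y + Γ * (3 + Real.log p) := by
    have h3 := abs_add_le (((s.filter (fun j => M + j ≡ r [MOD d])).card : ℝ) - s.card / d)
      ((s.card : ℝ) / d - A.card * H / p / d)
    have h4 : ((s.filter (fun j => M + j ≡ r [MOD d])).card : ℝ) - s.card / d +
      ((s.card : ℝ) / d - A.card * H / p / d) = ((s.filter (fun j => M + j ≡ r [MOD d])).card : ℝ) - A.card * H / p / d := by
      ring
    rw [h4] at h3
    linarith
  refine h2.trans ?_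
  -- the final comparison
  have hy2 : y * y = (p : ℝ) ^ (ε / 2) := by
    rw [hy, ← Real.rpow_add hpR]
    congr 1
    ring
  have hy4 : (p : ℝ) ^ (ε / 2) * (p : ℝ) ^ (ε / 2) = (p : ℝ) ^ ε := by
    rw [← Real.rpow_add hpR]
    congr 1
    ring
  have h5 : Γ * (p : ℝ) ^ (ε / 2) ≤ A.card * H / p / (Y : ℝ) ^ 2 := by
    rw [le_div_iff₀ (by positivity), le_div_iff₀ hpR]
    calc Γ * (p : ℝ) ^ (ε / 2) * (Y : ℝ) ^ 2 * p ≤ Γ * (p : ℝ) ^ (ε / 2) * y ^ 2 * p := by gcongr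
      _ = Γ * ((p : ℝ) * ((p : ℝ) ^ (ε / 2) * (y * y))) := by ring
      _ = Γ * (p : ℝ) ^ (1 + ε) := by
          rw [hy2, hy4, Real.rpow_add hpR, Real.rpow_one]
      _ ≤ _ := hA
  refine le_trans ?_ h5
  have h6 : Γ * (3 + Real.log p) + y + Γ * (3 + Real.log p) ≤ Γ * (9 * y) := by
    have h7 : y ≤ Γ * y := by nlinarith
    have h8 : Γ * (3 + Real.log p) ≤ Γ * (4 * y) := by
      gcongr
      linarith
    linarith
  refine h6.trans ?_
  gcongr

end Pool.Agent.X55.Fam
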