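import Pool.Agent.X55.Fam.ResMain
import Pool.Agent.X55.Fam.Irr

set_option autoImplicit false

/-! # Values of systems of polynomials at primitive roots, in cosets, and on modular hyperbolas -/

namespace Pool.Agent.X55.Fam

open Finset Filter Polynomial
open Pool.Agent.H373R2.T7 Pool.Agent.X55.Mod

variable {k : ℕ} {f : Fin k → ℤ[X]}

lemma ncard_Ioc (M H : ℕ) (P : ℕ → Prop) [DecidablePred P] :
    Set.ncard {n : ℕ | M < n ∧ n ≤ M + H ∧ P n} = ((Ioc M (M + H)).filter P).card := by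
  rw [← Set.ncard_coe_finset]
  congr 1
  ext n
  simp only [coe_filter, mem_Ioc, Set.mem_ofPred_eq]
  tauto

/-- the bounds for the integers in `(M, M + H]` with the property `R`, about `N` in number -/
def Both (F : Fin k → ℕ → ℕ) (p r : ℕ) (δ c C : ℝ) (B M H : ℕ) (R : ℕ → Prop) (N : ℝ) : Prop :=
  (M + H ≤ p ^ B → c * N / Real.log p ^ k ≤
    (Set.ncard {n : ℕ | M < n ∧ n ≤ M + H ∧ R n ∧ ∀ i, Good r ((p : ℝ) ^ δ) (F i n)} : ℝ)) ∧
  (Set.ncard {n : ℕ | M < n ∧ n ≤ M + H ∧ R n ∧ ∀ i, (F i n).Prime} : ℝ) ≤ C * N / Real.log p ^ k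

/-- the asymptotic formula for the integers in `(M, M + H]` with the property `R` -/
def Asym (F : Fin k → ℕ → ℕ) (η : ℝ) (M H y : ℕ) (R : ℕ → Prop) (N : ℝ) : Prop :=
  |(Set.ncard {n : ℕ | M < n ∧ n ≤ M + H ∧ R n ∧ ∀ q : ℕ, q.Prime → q ≤ y → ∀ i, ¬ q ∣ F i n} : ℝ) -
    N * ∏ q ∈ (Icc 1 y).filter Nat.Prime,
      (1 - (Set.ncard {a : ℕ | a < q ∧ ∃ i, q ∣ F i a} : ℝ) / q)| ≤
  η * (N * ∏ q ∈ (Icc 1 y).filter Nat.Prime,
      (1 - (Set.ncard {a : ℕ | a < q ∧ ∃ i, q ∣ F i a} : ℝ) / q))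

lemma VV_eq (F : Fin k → ℕ → ℕ) (hF : ∀ (i : Fin k) (n : ℕ), ((f i).eval (n : ℤ)).natAbs = F i n) (y : ℕ) :
    VV f y = ∏ q ∈ (Icc 1 y).filter Nat.Prime, (1 - (Set.ncard {a : ℕ | a < q ∧ ∃ i, q ∣ F i a} : ℝ) / q) := by
  classical
  unfold VV
  have h1 : pz y = (Icc 1 y).filter Nat.Prime := by
    ext q
    rw [mem_pz, mem_filter, mem_Icc]
    constructor
    · rintro ⟨h1, h2⟩
      exact ⟨⟨h2.one_le, h1⟩, h2⟩
    · rintro ⟨h1, h2⟩
      exact ⟨h1.2, h2⟩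
  rw [h1]
  refine prod_congr rfl fun q _ => ?_
  congr 3
  unfold nuB
  rw [← Set.ncard_coe_finset]
  congr 1
  ext a
  rw [mem_coe, mem_filter, mem_range]
  unfold QQ
  refine and_congr_right fun _ => exists_congr fun i => ?_
  rw [← hF, Int.natCast_dvd]

/-- sets with small Fourier coefficients -/
theorem res_gen (h : Sys k f) (F : Fin k → ℕ → ℕ) (hF : ∀ (i : Fin k) (n : ℕ), ((f i).eval (n : ℤ)).natAbs = F i n)
    (ε : ℝ) (hε : 0 < ε) (B : ℕ) : ∃ (r : ℕ) (δ c C : ℝ) (P₀ : ℕ), 0 < δ ∧ 0 < c ∧ 0 < C ∧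
    ∀ p : ℕ, P₀ ≤ p → ∀ [Fact p.Prime] (A : Finset (ZMod p)) (Γ : ℝ), 1 ≤ Γ →
    (∀ a : ZMod p, a ≠ 0 → ‖∑ x ∈ A, (ZMod.stdAddChar (a * x) : ℂ)‖ ≤ Γ) →
    ∀ M H : ℕ, H ≤ p → Γ * (p : ℝ) ^ (1 + ε) ≤ A.card * H →
    Both F p r δ c C B M H (fun n => (n : ZMod p) ∈ A) (A.card * H / p) := by
  classical
  obtain ⟨r, δ, c, C, P₀, hδ, hc, hC, hmain⟩ := res_main h ε hε B
  refine ⟨r, δ, c, C, P₀, hδ, hc, hC, ?_⟩
  intro p hp _ A Γ hΓ hG M H hH hA
  obtain ⟨h1, h2⟩ := hmain p hp A Γ hΓ hG M H hH hA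
  constructor
  · intro hMH
    refine (h1 hMH).trans (le_of_eq ?_)
    rw [ncard_Ioc]
    simp only [hF]
  · refine le_trans (le_of_eq ?_) h2
    rw [ncard_Ioc]
    simp only [hF]

theorem res_genA (h : Sys k f) (F : Fin k → ℕ → ℕ) (hF : ∀ (i : Fin k) (n : ℕ), ((f i).eval (n : ℤ)).natAbs = F i n)
    (ε η : ℝ) (hε : 0 < ε) (hη : 0 < η) : ∃ (δ : ℝ) (P₀ : ℕ), 0 < δ ∧
    ∀ p : ℕ, P₀ ≤ p → ∀ [Fact p.Prime] (A : Finset (ZMod p)) (Γ : ℝ), 1 ≤ Γ →
    (∀ a : ZMod p, a ≠ 0 → ‖∑ x ∈ A, (ZMod.stdAddChar (a * x) : ℂ)‖ ≤ Γ) →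
    ∀ M H : ℕ, H ≤ p → Γ * (p : ℝ) ^ (1 + ε) ≤ A.card * H → ∀ y : ℕ, 3 ≤ y → (y : ℝ) ≤ (p : ℝ) ^ δ →
    Asym F η M H y (fun n => (n : ZMod p) ∈ A) (A.card * H / p) := by
  classical
  obtain ⟨δ, P₀, hδ, hmain⟩ := res_asym h ε η hε hη
  refine ⟨δ, P₀, hδ, ?_⟩
  intro p hp _ A Γ hΓ hG M H hH hA y hy hyp
  have h1 := hmain p hp A Γ hΓ hG M H hH hA y hy hyp
  unfold Asym
  rw [← VV_eq F hF, ncard_Ioc]
  convert h1 using 5
  apply filter_congr
  intro n _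
  refine and_congr_right fun _ => forall_congr' fun q => ?_
  rw [mem_pz]
  constructor
  · rintro h2 ⟨h3, h4⟩ ⟨i, hi⟩
    exact h2 h4 h3 i (by rw [← hF, ← Int.natCast_dvd]; exact hi)
  · intro h2 h3 h4 i hi
    exact h2 ⟨h4, h3⟩ ⟨i, by rw [Int.natCast_dvd, hF]; exact hi⟩

lemma Both.congr {F : Fin k → ℕ → ℕ} {p r : ℕ} {δ c C : ℝ} {B M H : ℕ} {R R' : ℕ → Prop} {N : ℝ}
    (h : Both F p r δ c C B M H R N) (hR : ∀ n, R n ↔ R' n) : Both F p r δ c C B M H R' N := by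
  have : R = R' := funext fun n => propext (hR n)
  rwa [← this]

/-- cosets of subgroups, primitive roots and modular hyperbolas -/
theorem res_cor (h : Sys k f) (F : Fin k → ℕ → ℕ) (hF : ∀ (i : Fin k) (n : ℕ), ((f i).eval (n : ℤ)).natAbs = F i n)
    (ε : ℝ) (hε : 0 < ε) (B : ℕ) : ∃ (r : ℕ) (δ c C : ℝ) (P₀ : ℕ), 0 < δ ∧ 0 < c ∧ 0 < C ∧
    ∀ p : ℕ, P₀ ≤ p → ∀ [Fact p.Prime],
    (∀ (A : Finset (ZMod p)) (Γ : ℝ), 1 ≤ Γ →
      (∀ a : ZMod p, a ≠ 0 → ‖∑ x ∈ A, (ZMod.stdAddChar (a * x) : ℂ)‖ ≤ Γ) →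
      ∀ M H : ℕ, H ≤ p → Γ * (p : ℝ) ^ (1 + ε) ≤ A.card * H →
      Both F p r δ c C B M H (fun n => (n : ZMod p) ∈ A) (A.card * H / p)) ∧
    (∀ (G : Subgroup (ZMod p)ˣ) (c₀ : (ZMod p)ˣ) (M H : ℕ), H ≤ p →
      (p : ℝ) ^ (3 / 2 + ε) ≤ (Nat.card G : ℝ) * H →
      Both F p r δ c C B M H (fun n => ∃ g ∈ G, (n : ZMod p) = (c₀ : ZMod p) * (g : ZMod p))
        (Nat.card G * H / p)) ∧
    (∀ M H : ℕ, H ≤ p → (p : ℝ) ^ (1 / 2 + ε) ≤ H →
      Both F p r δ c C B M H (fun n => orderOf (n : ZMod p) = p - 1) ((p - 1).totient * H / p)) ∧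
    (∀ c₀ : ZMod p, c₀ ≠ 0 → ∀ M H L K : ℕ, H ≤ p → K ≤ p → (p : ℝ) ^ (3 / 2 + ε) ≤ (H : ℝ) * K →
      Both F p r δ c C B M H (fun n => ∃ m : ℕ, L < m ∧ m ≤ L + K ∧ (n : ZMod p) * (m : ZMod p) = c₀)
        (K * H / p)) := by
  classical
  obtain ⟨r, δ, c, C, P₁, hδ, hc, hC, hgen⟩ := res_gen h F hF (ε / 2) (by linarith) B
  obtain ⟨C', hC', hdiv⟩ := Pool.Agent.Helper112.divisor_bound (ε / 8) (by linarith)
  have hlog : ∀ᶠ x : ℝ in atTop, Real.log x ≤ x ^ (ε / 4) := by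
    have h := (isLittleO_log_rpow_atTop (show (0 : ℝ) < ε / 4 by linarith)).def (show (0 : ℝ) < 1 by norm_num)
    filter_upwards [h, eventually_ge_atTop (1 : ℝ)] with X hX hX1
    rwa [Real.norm_eq_abs, abs_of_nonneg (Real.log_nonneg hX1), Real.norm_eq_abs,
      abs_of_nonneg (Real.rpow_nonneg (by linarith) _), one_mul] at hX
  have hev := hlog.and ((Pool.Agent.W147.PS.ev_pow (ε / 4) (ε / 2) 16 (by linarith)).and
    ((Pool.Agent.W147.PS.ev_pow (ε / 4) (ε / 2) (2 * C' ^ 2) (by linarith)).and (eventually_ge_atTop (4 : ℝ))))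
  obtain ⟨X₀, hX₀⟩ := eventually_atTop.mp hev
  refine ⟨r, δ, c / 2, C, max P₁ ⌈X₀⌉₊, hδ, by positivity, hC, ?_⟩
  intro P hP0 _
  have hpp : P.Prime := Fact.out
  have hpX : X₀ ≤ (P : ℝ) := (Nat.le_ceil _).trans (by exact_mod_cast (le_max_right _ _).trans hP0)
  obtain ⟨c1, c2, c3, c4⟩ := hX₀ P hpX
  have hpR : (0 : ℝ) < P := by linarith
  have hP1 : (1 : ℝ) ≤ P := by linarith
  have hG := hgen P ((le_max_left _ _).trans hP0)
  have hs1 : (1 : ℝ) ≤ Real.sqrt P := by rwa [Real.one_le_sqrt]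
  have hsq : Real.sqrt P = (P : ℝ) ^ (1 / 2 : ℝ) := Real.sqrt_eq_rpow _
  have hx1 : (1 : ℝ) ≤ (P : ℝ) ^ (ε / 4) := Real.one_le_rpow hP1 (by linarith)
  have hlogP : 0 ≤ Real.log P := Real.log_nonneg hP1
  have hweak : ∀ (M H : ℕ) (R : ℕ → Prop) (N : ℝ), 0 ≤ N → Both F P r δ c C B M H R N → Both F P r δ (c / 2) C B M H R N := by
    intro M H R N hN hb
    refine ⟨fun hMH => le_trans ?_ (hb.1 hMH), hb.2⟩
    have : 0 ≤ c * N / Real.log P ^ k := by positivity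
    have e1 : c / 2 * N / Real.log P ^ k = (c * N / Real.log P ^ k) / 2 := by ring
    rw [e1]
    linarith
  refine ⟨?_, ?_, ?_, ?_⟩
  · intro A Γ hΓ hA M H hH hAH
    refine hweak M H _ _ (by positivity) (hG A Γ hΓ hA M H hH (le_trans ?_ hAH))
    have : (P : ℝ) ^ (1 + ε / 2) ≤ (P : ℝ) ^ (1 + ε) := Real.rpow_le_rpow_of_exponent_le hP1 (by linarith)
    gcongr
  · intro G c₀ M H hH hGH
    have h1 := hG (coset G c₀) (Real.sqrt P) hs1
      (fun a ha => coset_sum G c₀ a ha) M H hH (by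
        rw [coset_card]
        refine le_trans ?_ hGH
        rw [hsq, ← Real.rpow_add hpR]
        exact Real.rpow_le_rpow_of_exponent_le hP1 (by linarith))
    rw [coset_card] at h1
    refine hweak M H _ _ (by positivity) (h1.congr fun n => ?_)
    rw [coset, mem_image]
    constructor
    · rintro ⟨g, _, hg⟩
      exact ⟨g, g.2, hg.symm⟩
    · rintro ⟨g, hg, hn⟩
      exact ⟨⟨g, hg⟩, mem_univ _, hn.symm⟩
  · intro M H hH hPH
    have h1n : 1 ≤ P - 1 := by have := hpp.two_le; omega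
    set τ : ℝ := ((P - 1).divisors.card : ℝ) with hτ
    have hτ1 : 1 ≤ τ := by
      have : 1 ≤ (P - 1).divisors.card := card_pos.2 ⟨1, Nat.one_mem_divisors.2 (by omega)⟩
      rw [hτ]
      exact_mod_cast this
    have hτ2 : τ ≤ C' * (P : ℝ) ^ (ε / 8) := by
      refine (hdiv (P - 1) h1n).trans ?_
      have : ((P - 1 : ℕ) : ℝ) ≤ P := by exact_mod_cast Nat.sub_le _ _
      gcongr
    have hτ3 : 2 * τ ^ 2 ≤ (P : ℝ) ^ (ε / 2) := by
      refine le_trans ?_ c3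
      have : τ ^ 2 ≤ (C' * (P : ℝ) ^ (ε / 8)) ^ 2 := by gcongr
      have h2 : (C' * (P : ℝ) ^ (ε / 8)) ^ 2 = C' ^ 2 * (P : ℝ) ^ (ε / 4) := by
        rw [mul_pow, ← Real.rpow_natCast ((P : ℝ) ^ (ε / 8)), ← Real.rpow_mul hpR.le]
        congr 2
        push_cast
        ring
      rw [h2] at this
      linarith
    have htot : (P : ℝ) ≤ 2 * (τ * (P - 1).totient) := by
      have h3 : P - 1 ≤ (P - 1).divisors.card * (P - 1).totient := by
        conv_lhs => rw [← Nat.sum_totient (P - 1)]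
        rw [← smul_eq_mul]
        apply Finset.sum_le_card_nsmul
        intro d hd
        exact Nat.le_of_dvd (Nat.totient_pos.mpr (by omega))
          (Nat.totient_dvd_of_dvd (Nat.dvd_of_mem_divisors hd))
      have h4 : ((P - 1 : ℕ) : ℝ) ≤ τ * (P - 1).totient := by rw [hτ]; exact_mod_cast h3
      have h5 : ((P - 1 : ℕ) : ℝ) = P - 1 := by rw [Nat.cast_sub hpp.one_lt.le, Nat.cast_one]
      rw [h5] at h4
      linarith
    have h1 := hG prim (τ * Real.sqrt P) (by nlinarith)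
      (fun a ha => prim_bound a ha) M H hH (by
        rw [prim_card]
        have h5 : τ * Real.sqrt P * (P : ℝ) ^ (1 + ε / 2) * (2 * τ) ≤ P * H := by
          calc τ * Real.sqrt P * (P : ℝ) ^ (1 + ε / 2) * (2 * τ) =
                (2 * τ ^ 2) * ((P : ℝ) ^ (1 / 2 : ℝ) * (P : ℝ) ^ (1 + ε / 2)) := by rw [hsq]; ring
            _ ≤ (P : ℝ) ^ (ε / 2) * ((P : ℝ) ^ (1 / 2 : ℝ) * (P : ℝ) ^ (1 + ε / 2)) := by gcongr
            _ = (P : ℝ) * (P : ℝ) ^ (1 / 2 + ε) := by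
                rw [← Real.rpow_add hpR, ← Real.rpow_add hpR]
                conv_rhs => rw [← Real.rpow_one_add' hpR.le (by linarith)]
                congr 1
                ring
            _ ≤ P * H := by gcongr
        have h6 : (P : ℝ) * H ≤ ((P - 1).totient * H) * (2 * τ) := by
          have : (P : ℝ) * H ≤ (2 * (τ * (P - 1).totient)) * H := by gcongr
          linarith
        exact le_of_mul_le_mul_right (h5.trans h6) (by linarith))
    rw [prim_card] at h1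
    refine hweak M H _ _ (by positivity) (h1.congr fun n => ?_)
    rw [prim, mem_filter]
    simp
  · intro c₀ hc₀ M H L K hH hK hHK
    have hKP : (P : ℝ) ^ (1 / 2 + ε) ≤ K := by
      have h1 : (P : ℝ) * (P : ℝ) ^ (1 / 2 + ε) ≤ P * K := by
        calc (P : ℝ) * (P : ℝ) ^ (1 / 2 + ε) = (P : ℝ) ^ (3 / 2 + ε) := by
              rw [← Real.rpow_one_add' hpR.le (by linarith)]
              congr 1
              ring
          _ ≤ H * K := hHK
          _ ≤ P * K := by gcongr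
      exact le_of_mul_le_mul_left h1 hpR
    have hK2 : (2 : ℝ) ≤ K := by
      refine le_trans ?_ hKP
      calc (2 : ℝ) = Real.sqrt 4 := by
            rw [show (4 : ℝ) = 2 ^ 2 by norm_num, Real.sqrt_sq (by norm_num)]
        _ ≤ Real.sqrt P := Real.sqrt_le_sqrt c4
        _ = (P : ℝ) ^ (1 / 2 : ℝ) := hsq
        _ ≤ _ := Real.rpow_le_rpow_of_exponent_le hP1 (by linarith)
    have hcard := hyp_card c₀ hc₀ L K hK
    have hcard' : (K : ℝ) / 2 ≤ (hyp c₀ L K).card := by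
      have : (K : ℝ) ≤ (hyp c₀ L K).card + 1 := by exact_mod_cast hcard
      linarith
    have hcard2 : ((hyp c₀ L K).card : ℝ) ≤ K := by
      have h1 := hyp_sum c₀ hc₀ L K hK (fun _ => 1)
      rw [sum_const, smul_eq_mul, mul_one] at h1
      have h2 : (hyp c₀ L K).card ≤ K := by
        rw [h1]
        calc ∑ j ∈ Ioc 0 K, (if (L : ZMod P) + (j : ZMod P) = 0 then 0 else 1) ≤ ∑ j ∈ Ioc 0 K, 1 := by
              refine sum_le_sum fun j _ => ?_
              split_ifs <;> omega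
          _ = K := by simp
      exact_mod_cast h2
    have h1 := hG (hyp c₀ L K) (2 * Real.sqrt P * (3 + Real.log P))
      (by nlinarith) (fun a ha => hyp_bound c₀ hc₀ L K hK a ha) M H hH (by
        have h5 : 4 * (3 + Real.log P) ≤ (P : ℝ) ^ (ε / 2) := by linarith
        have h6 : 2 * Real.sqrt P * (3 + Real.log P) * (P : ℝ) ^ (1 + ε / 2) ≤ H * K / 2 := by
          calc 2 * Real.sqrt P * (3 + Real.log P) * (P : ℝ) ^ (1 + ε / 2) =
              (4 * (3 + Real.log P)) * ((P : ℝ) ^ (1 / 2 : ℝ) * (P : ℝ) ^ (1 + ε / 2)) / 2 := by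
                rw [hsq]; ring
            _ ≤ (P : ℝ) ^ (ε / 2) * ((P : ℝ) ^ (1 / 2 : ℝ) * (P : ℝ) ^ (1 + ε / 2)) / 2 := by gcongr
            _ = (P : ℝ) ^ (3 / 2 + ε) / 2 := by
                rw [← Real.rpow_add hpR, ← Real.rpow_add hpR]
                congr 2
                ring
            _ ≤ H * K / 2 := by linarith
        refine h6.trans ?_
        calc (H : ℝ) * K / 2 = (K : ℝ) / 2 * H := by ring
          _ ≤ _ := by gcongr)
    have h2 := h1.congr (R' := fun n => ∃ m : ℕ, L < m ∧ m ≤ L + K ∧ (n : ZMod P) * (m : ZMod P) = c₀) (fun n => by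
      rw [hyp, mem_filter]
      constructor
      · rintro ⟨_, _, m, hm, hnm⟩
        rw [mem_Ioc] at hm
        exact ⟨m, hm.1, hm.2, hnm⟩
      · rintro ⟨m, hm1, hm2, hnm⟩
        refine ⟨mem_univ _, ?_, m, mem_Ioc.2 ⟨hm1, hm2⟩, hnm⟩
        intro h0
        rw [h0, zero_mul] at hnm
        exact hc₀ hnm.symm)
    constructor
    · intro hMH
      refine le_trans ?_ (h2.1 hMH)
      calc c / 2 * (K * H / P) / Real.log P ^ k = c * ((K / 2) * H / P) / Real.log P ^ k := by ring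
        _ ≤ c * ((hyp c₀ L K).card * H / P) / Real.log P ^ k := by gcongr
    · refine h2.2.trans ?_
      gcongr

end Pool.Agent.X55.Fam
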