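import Pool.Agent.X55.Fam.Res

set_option autoImplicit false

/-! # Values of systems of polynomials at integers with prescribed residues modulo a large prime -/

namespace Pool.Agent.X55.Fam

open Finset Filter Polynomial
open scoped Classical
open Pool.Agent.H373R2.T7

variable {k : ℕ} {f : Fin k → ℤ[X]}

/-- `m ≠ 0` has at most `r` prime factors, all greater than `x` -/
def Good (r : ℕ) (x : ℝ) (m : ℕ) : Prop :=
  m ≠ 0 ∧ m.primeFactorsList.length ≤ r ∧ ∀ q : ℕ, q.Prime → q ∣ m → x < q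

lemma floor_ge (ε : ℝ) (hε : 0 < ε) : ∃ P₀ : ℕ, ∀ p : ℕ, P₀ ≤ p → (p : ℝ) ^ (ε / 8) ≤ ⌊(p : ℝ) ^ (ε / 4)⌋₊ := by
  obtain ⟨X₀, hX₀⟩ := eventually_atTop.mp ((Pool.Agent.W147.PS.ev_pow (ε / 8) (ε / 4) 2 (by linarith)).and
    (eventually_ge_atTop (1 : ℝ)))
  refine ⟨⌈X₀⌉₊, fun p hp => ?_⟩
  obtain ⟨c1, c2⟩ := hX₀ p ((Nat.le_ceil _).trans (by exact_mod_cast hp))
  have h1 : (p : ℝ) ^ (ε / 4) < ⌊(p : ℝ) ^ (ε / 4)⌋₊ + 1 := Nat.lt_floor_add_one _
  have h2 : (1 : ℝ) ≤ (p : ℝ) ^ (ε / 8) := Real.one_le_rpow c2 (by linarith)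
  linarith

/-- the fundamental lemma -/
theorem res_asym (h : Sys k f) (ε η : ℝ) (hε : 0 < ε) (hη : 0 < η) : ∃ (δ : ℝ) (P₀ : ℕ), 0 < δ ∧
    ∀ p : ℕ, P₀ ≤ p → ∀ [Fact p.Prime] (A : Finset (ZMod p)) (Γ : ℝ), 1 ≤ Γ →
    (∀ a : ZMod p, a ≠ 0 → ‖∑ x ∈ A, (ZMod.stdAddChar (a * x) : ℂ)‖ ≤ Γ) →
    ∀ M H : ℕ, H ≤ p → Γ * (p : ℝ) ^ (1 + ε) ≤ A.card * H → ∀ y : ℕ, 3 ≤ y → (y : ℝ) ≤ (p : ℝ) ^ δ →
    |(((Ioc M (M + H)).filter (fun n : ℕ => (n : ZMod p) ∈ A ∧ ∀ q ∈ pz y, ¬ QQ f q n)).card : ℝ) -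
      A.card * H / p * VV f y| ≤ η * (A.card * H / p * VV f y) := by
  obtain ⟨K, X₀, hK, hasy⟩ := fam_asym h η hη
  obtain ⟨P1, hP1⟩ := res_equi ε hε
  obtain ⟨P2, hP2⟩ := floor_ge ε hε
  have hKr : (1 : ℝ) ≤ K := by exact_mod_cast hK
  obtain ⟨X3, hX3⟩ := eventually_atTop.mp
    ((tendsto_rpow_atTop (show (0 : ℝ) < ε / 8 by linarith)).eventually_ge_atTop (X₀ : ℝ))
  refine ⟨ε / 8 / K, max (max P1 P2) (max ⌈X3⌉₊ 1), by positivity, ?_⟩
  intro p hp _ A Γ hΓ hG M H hH hA y hy hyp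
  have hp1 : P1 ≤ p := ((le_max_left _ _).trans (le_max_left _ _)).trans hp
  have hp2 : P2 ≤ p := ((le_max_right _ _).trans (le_max_left _ _)).trans hp
  have hp3 : X3 ≤ (p : ℝ) := (Nat.le_ceil _).trans (by exact_mod_cast ((le_max_left _ _).trans (le_max_right _ _)).trans hp)
  have hp4 : 1 ≤ p := ((le_max_right _ _).trans (le_max_right _ _)).trans hp
  have hpR : (1 : ℝ) ≤ p := by exact_mod_cast hp4
  have hE := hP1 p hp1 A Γ hΓ hG M H hH hA
  have hX := hP2 p hp2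
  set X := ⌊(p : ℝ) ^ (ε / 4)⌋₊ with hXd
  have hX0 : X₀ ≤ X := by
    have := (hX3 p hp3).trans hX
    exact_mod_cast this
  have hyK : y ^ K ≤ X := by
    have h1 : (y : ℝ) ^ K ≤ X := by
      calc (y : ℝ) ^ K ≤ ((p : ℝ) ^ (ε / 8 / K)) ^ K := by gcongr
        _ = (p : ℝ) ^ (ε / 8) := by
            rw [← Real.rpow_natCast, ← Real.rpow_mul (by linarith)]
            congr 1
            field_simp
        _ ≤ X := hX
    exact_mod_cast h1
  have key := hasy X hX0 (om p A M H) (fun j => M + j) (A.card * H / p) (by positivity) hE y hy hyK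
  have e1 : ((Ioc M (M + H)).filter (fun n : ℕ => (n : ZMod p) ∈ A ∧ ∀ q ∈ pz y, ¬ QQ f q n)).card =
      ((om p A M H).filter (fun j => ∀ q ∈ pz y, ¬ QQ f q (M + j))).card := by
    have := om_card p A M H (fun n => ∀ q ∈ pz y, ¬ QQ f q n)
    convert this.symm
  rw [e1]
  convert key

/-- almost primes and primes -/
theorem res_main (h : Sys k f) (ε : ℝ) (hε : 0 < ε) (B : ℕ) : ∃ (r : ℕ) (δ c C : ℝ) (P₀ : ℕ),
    0 < δ ∧ 0 < c ∧ 0 < C ∧
    ∀ p : ℕ, P₀ ≤ p → ∀ [Fact p.Prime] (A : Finset (ZMod p)) (Γ : ℝ), 1 ≤ Γ →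
    (∀ a : ZMod p, a ≠ 0 → ‖∑ x ∈ A, (ZMod.stdAddChar (a * x) : ℂ)‖ ≤ Γ) →
    ∀ M H : ℕ, H ≤ p → Γ * (p : ℝ) ^ (1 + ε) ≤ A.card * H →
    (M + H ≤ p ^ B → c * (A.card * H / p) / Real.log p ^ k ≤
      (((Ioc M (M + H)).filter (fun n : ℕ => (n : ZMod p) ∈ A ∧
        ∀ i, Good r ((p : ℝ) ^ δ) ((f i).eval (n : ℤ)).natAbs)).card : ℝ)) ∧
    (((Ioc M (M + H)).filter (fun n : ℕ => (n : ZMod p) ∈ A ∧
        ∀ i, ((f i).eval (n : ℤ)).natAbs.Prime)).card : ℝ) ≤ C * (A.card * H / p) / Real.log p ^ k := by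
  set B' : ℕ := ⌈8 * B / ε⌉₊ with hB'
  obtain ⟨r, K, X₀, c, C, hK, hc, hC, hb⟩ := fam_bounds h B'
  obtain ⟨P1, hP1⟩ := res_equi ε hε
  obtain ⟨P2, hP2⟩ := floor_ge ε hε
  have hKr : (1 : ℝ) ≤ K := by exact_mod_cast hK
  obtain ⟨X3, hX3⟩ := eventually_atTop.mp
    ((tendsto_rpow_atTop (show (0 : ℝ) < ε / 8 by linarith)).eventually_ge_atTop ((max X₀ 3 : ℕ) : ℝ))
  refine ⟨r, ε / 8 / K, c / max 1 ((ε / 4) ^ k), C / (ε / 8) ^ k, max (max P1 P2) (max ⌈X3⌉₊ 3), by positivity,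
    by positivity, by positivity, ?_⟩
  intro p hp _ A Γ hΓ hG M H hH hA
  have hp1 : P1 ≤ p := ((le_max_left _ _).trans (le_max_left _ _)).trans hp
  have hp2 : P2 ≤ p := ((le_max_right _ _).trans (le_max_left _ _)).trans hp
  have hp3 : X3 ≤ (p : ℝ) := (Nat.le_ceil _).trans (by exact_mod_cast ((le_max_left _ _).trans (le_max_right _ _)).trans hp)
  have hp4 : 3 ≤ p := ((le_max_right _ _).trans (le_max_right _ _)).trans hp
  have hpR : (3 : ℝ) ≤ p := by exact_mod_cast hp4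
  have hE := hP1 p hp1 A Γ hΓ hG M H hH hA
  have hX := hP2 p hp2
  set X := ⌊(p : ℝ) ^ (ε / 4)⌋₊ with hXd
  have hXmax : ((max X₀ 3 : ℕ) : ℝ) ≤ X := (hX3 p hp3).trans hX
  have hX0 : X₀ ≤ X := by
    have h1 : max X₀ 3 ≤ X := by exact_mod_cast hXmax
    exact (le_max_left _ _).trans h1
  have hX3' : 3 ≤ X := by
    have h1 : max X₀ 3 ≤ X := by exact_mod_cast hXmax
    exact (le_max_right _ _).trans h1
  have hXr : (3 : ℝ) ≤ X := by exact_mod_cast hX3'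
  have hXle : (X : ℝ) ≤ (p : ℝ) ^ (ε / 4) := Nat.floor_le (by positivity)
  have hlp : 0 < Real.log p := Real.log_pos (by linarith)
  have hlX : 0 < Real.log X := Real.log_pos (by linarith)
  have hl1 : Real.log X ≤ ε / 4 * Real.log p := by
    have := Real.log_le_log (by linarith) hXle
    rwa [Real.log_rpow (by linarith)] at this
  have hl2 : ε / 8 * Real.log p ≤ Real.log X := by
    have := Real.log_le_log (by positivity) hX
    rwa [Real.log_rpow (by linarith)] at this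
  set N : ℝ := A.card * H / p with hN
  have hN0 : 0 ≤ N := by positivity
  obtain ⟨hlow, hup⟩ := hb X hX0 (om p A M H) (fun j => M + j) N hN0 hE
  constructor
  · intro hMH
    have h1 := hlow (by
      intro j hj
      rw [om, mem_filter, mem_Ioc] at hj
      have h2 : ((M + j : ℕ) : ℝ) ≤ (X : ℝ) ^ B' := by
        calc ((M + j : ℕ) : ℝ) ≤ (p : ℝ) ^ B := by
              have : M + j ≤ p ^ B := by omega
              exact_mod_cast this
          _ = (p : ℝ) ^ (B : ℝ) := (Real.rpow_natCast _ _).symm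
          _ ≤ (p : ℝ) ^ (ε / 8 * B') := by
              apply Real.rpow_le_rpow_of_exponent_le (by linarith)
              have h3 : 8 * B / ε ≤ (B' : ℝ) := Nat.le_ceil _
              rw [div_le_iff₀ hε] at h3
              linarith
          _ = ((p : ℝ) ^ (ε / 8)) ^ B' := by
              rw [Real.rpow_mul (by linarith), Real.rpow_natCast]
          _ ≤ (X : ℝ) ^ B' := by gcongr
      exact_mod_cast h2)
    have h2 : c / max 1 ((ε / 4) ^ k) * N / Real.log p ^ k ≤ c * N / Real.log X ^ k := by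
      have h3 : Real.log X ^ k ≤ (ε / 4) ^ k * Real.log p ^ k := by
        rw [← mul_pow]
        exact pow_le_pow_left₀ hlX.le hl1 k
      have h4 : (ε / 4) ^ k ≤ max 1 ((ε / 4) ^ k) := le_max_right _ _
      have h5 : 0 < max 1 ((ε / 4) ^ k) := lt_of_lt_of_le one_pos (le_max_left _ _)
      rw [div_mul_eq_mul_div, div_div]
      apply div_le_div_of_nonneg_left (by positivity) (by positivity)
      calc Real.log X ^ k ≤ (ε / 4) ^ k * Real.log p ^ k := h3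
        _ ≤ max 1 ((ε / 4) ^ k) * Real.log p ^ k := by gcongr
    refine h2.trans (h1.trans ?_)
    have h3 : (om p A M H).filter (fun n => ∀ i, ((f i).eval ((M + n : ℕ) : ℤ)).natAbs ≠ 0 ∧
        ((f i).eval ((M + n : ℕ) : ℤ)).natAbs.primeFactorsList.length ≤ r ∧
        ∀ p : ℕ, p.Prime → p ∣ ((f i).eval ((M + n : ℕ) : ℤ)).natAbs → X < p ^ K) ⊆
        (om p A M H).filter (fun j => ∀ i, Good r ((p : ℝ) ^ (ε / 8 / K)) ((f i).eval ((M + j : ℕ) : ℤ)).natAbs) := by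
      intro j hj
      rw [mem_filter] at hj ⊢
      refine ⟨hj.1, fun i => ?_⟩
      obtain ⟨g1, g2, g3⟩ := hj.2 i
      refine ⟨g1, g2, fun q hq hd => ?_⟩
      have g4 : (X : ℝ) < (q : ℝ) ^ K := by exact_mod_cast g3 q hq hd
      have g5 : ((p : ℝ) ^ (ε / 8 / K)) ^ K < (q : ℝ) ^ K := by
        refine lt_of_le_of_lt ?_ g4
        calc ((p : ℝ) ^ (ε / 8 / K)) ^ K = (p : ℝ) ^ (ε / 8) := by
              rw [← Real.rpow_natCast, ← Real.rpow_mul (by linarith)]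
              congr 1
              field_simp
          _ ≤ X := hX
      exact lt_of_pow_lt_pow_left₀ K (Nat.cast_nonneg _) g5
    have h4 := card_le_card h3
    have e1 : ((Ioc M (M + H)).filter (fun n : ℕ => (n : ZMod p) ∈ A ∧
        ∀ i, Good r ((p : ℝ) ^ (ε / 8 / K)) ((f i).eval (n : ℤ)).natAbs)).card =
        ((om p A M H).filter (fun j => ∀ i, Good r ((p : ℝ) ^ (ε / 8 / K)) ((f i).eval ((M + j : ℕ) : ℤ)).natAbs)).card := by
      have := om_card p A M H (fun n => ∀ i, Good r ((p : ℝ) ^ (ε / 8 / K)) ((f i).eval (n : ℤ)).natAbs)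
      convert this.symm
    rw [e1]
    exact_mod_cast h4
  · have e1 : ((Ioc M (M + H)).filter (fun n : ℕ => (n : ZMod p) ∈ A ∧ ∀ i, ((f i).eval (n : ℤ)).natAbs.Prime)).card =
        ((om p A M H).filter (fun j => ∀ i, ((f i).eval ((M + j : ℕ) : ℤ)).natAbs.Prime)).card := by
      have := om_card p A M H (fun n => ∀ i, ((f i).eval (n : ℤ)).natAbs.Prime)
      convert this.symm
    rw [e1]
    have hup' : (((om p A M H).filter (fun j => ∀ i, ((f i).eval ((M + j : ℕ) : ℤ)).natAbs.Prime)).card : ℝ) ≤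
        C * N / Real.log X ^ k := by convert hup
    refine hup'.trans ?_
    have h3 : (ε / 8) ^ k * Real.log p ^ k ≤ Real.log X ^ k := by
      rw [← mul_pow]
      exact pow_le_pow_left₀ (by positivity) hl2 k
    rw [div_mul_eq_mul_div, div_div]
    exact div_le_div_of_nonneg_left (by positivity) (by positivity) h3

end Pool.Agent.X55.Fam
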