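import Pool.Agent.H373R2.T7.Fund
import Pool.Agent.H474R2.GE.FA
import Pool.Agent.TH882.FL

set_option autoImplicit false

/-! # The fundamental lemma for a sequence with a level of distribution -/

namespace Pool.Agent.X55.Fam

open Finset Pool.Agent.H373R2.T7

/-- counting with local conditions, for a set with small error in residue classes -/
lemma cnt_crt (Ω : Finset ℕ) (v : ℕ → ℕ) (A : ℝ) (W : Finset ℕ) (hW : ∀ p ∈ W, p.Prime) (G : ℕ → ℕ → Prop)
    [∀ p a, Decidable (G p a)] (E : ℝ)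
    (hE : ∀ r, |((Ω.filter (fun n => v n ≡ r [MOD ∏ p ∈ W, p])).card : ℝ) - A / ((∏ p ∈ W, p : ℕ) : ℝ)| ≤ E) :
    |((Ω.filter (fun n => ∀ p ∈ W, G p (v n % p))).card : ℝ) -
      A * ∏ p ∈ W, ((((range p).filter (fun a => G p a)).card : ℝ) / p)| ≤
      (∏ p ∈ W, (((range p).filter (fun a => G p a)).card : ℝ)) * E := by
  classical
  set D : ℕ := ∏ p ∈ W, p with hD
  have hD0 : 0 < D := prod_pos fun p hp => (hW p hp).pos
  have hDr : (0 : ℝ) < D := by exact_mod_cast hD0
  set R := (range D).filter (fun b => ∀ p ∈ W, G p (b % p)) with hR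
  have hRc : R.card = ∏ p ∈ W, ((range p).filter (fun a => G p a)).card := by
    have h := Pool.Agent.H474R2.GE.card_crt W hW (fun p a => G p a)
    rw [hR, hD]
    convert h
  have hdvd : ∀ p ∈ W, p ∣ D := fun p hp => dvd_prod_of_mem _ hp
  have h1 : (Ω.filter (fun n => ∀ p ∈ W, G p (v n % p))).card =
      ∑ r ∈ R, (Ω.filter (fun n => v n ≡ r [MOD D])).card := by
    rw [card_eq_sum_card_fiberwise (f := fun n => v n % D) (t := R)]
    · refine sum_congr rfl fun r hr => ?_
      rw [hR, mem_filter, mem_range] at hr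
      congr 1
      ext n
      simp only [mem_filter]
      constructor
      · rintro ⟨⟨h1, h2⟩, h3⟩
        refine ⟨h1, ?_⟩
        show v n % D = r % D
        rw [h3, Nat.mod_eq_of_lt hr.1]
      · rintro ⟨h1, h2⟩
        have h3 : v n % D = r := by
          have h4 : v n % D = r % D := h2
          rw [h4, Nat.mod_eq_of_lt hr.1]
        refine ⟨⟨h1, fun p hp => ?_⟩, h3⟩
        have h4 := hr.2 p hp
        rw [← h3, Nat.mod_mod_of_dvd (v n) (hdvd p hp)] at h4
        exact h4
    · intro n hn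
      simp only [coe_filter, Set.mem_ofPred_eq] at hn
      rw [hR]
      simp only [coe_filter, mem_range, Set.mem_ofPred_eq]
      refine ⟨Nat.mod_lt _ hD0, fun p hp => ?_⟩
      rw [Nat.mod_mod_of_dvd (v n) (hdvd p hp)]
      exact hn.2 p hp
  have h2 : A * ∏ p ∈ W, ((((range p).filter (fun a => G p a)).card : ℝ) / p) = ∑ _r ∈ R, A / (D : ℝ) := by
    rw [sum_const, nsmul_eq_mul, hRc, prod_div_distrib]
    push_cast
    rw [hD]
    push_cast
    ring
  rw [h1, h2]
  push_cast
  rw [← sum_sub_distrib]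
  refine (abs_sum_le_sum_abs _ _).trans ?_
  refine (sum_le_sum fun r _ => hE r).trans ?_
  rw [sum_const, nsmul_eq_mul, hRc]
  push_cast
  exact le_rfl

open Classical in
/-- **The fundamental lemma for a sequence with a level of distribution.** -/
theorem gen (c : ℕ) (hc : 1 ≤ c) (ε : ℝ) (hε : 0 < ε) : ∃ K K0 : ℕ, 1 ≤ K ∧ 1 ≤ K0 ∧
    ∀ (m0 y : ℕ), 2 ≤ y → ∀ (Ω : Finset ℕ) (v : ℕ → ℕ) (A : ℝ) (E : ℕ → ℝ), 0 ≤ A → (∀ d, 0 ≤ E d) →
    (∀ d, 1 ≤ d → d.Coprime m0 → d ≤ K0 * y ^ K →
      ∀ r, |((Ω.filter (fun n => v n ≡ r [MOD d])).card : ℝ) - A / d| ≤ E d) →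
    ∀ Q : ℕ → ℕ → Prop, PerB Q c →
    |((Ω.filter (fun n => ∀ p ∈ pz y, ¬ p ∣ m0 → ¬ Q p (v n))).card : ℝ) -
      A * ∏ p ∈ (pz y).filter (fun p => ¬ p ∣ m0), (1 - (nuB Q p : ℝ) / p)| ≤
      ε * (A * ∏ p ∈ (pz y).filter (fun p => ¬ p ∣ m0), (1 - (nuB Q p : ℝ) / p)) +
      ((JJ y : ℝ) + 2) * (K0 * ∑ d ∈ (Icc 1 (K0 * y ^ K)).filter (fun d => d.Coprime m0),
        (c : ℝ) ^ d.primeFactors.card * E d) := by
  classical
  obtain ⟨C0, hC0, hFL⟩ := Pool.Agent.H20R2.fLem c
  obtain ⟨b1, hb1⟩ := exists_pow_lt_of_lt_one hε (show (1 / 2 : ℝ) < 1 by norm_num)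
  set b := max C0 b1 with hb
  have hbC : C0 ≤ b := le_max_left _ _
  have hb1' : 1 ≤ b := hC0.trans hbC
  have hbε : (1 / 2 : ℝ) ^ b ≤ ε := (pow_le_pow_of_le_one (by norm_num) (by norm_num) (le_max_right _ _)).trans hb1.le
  set z0 := C0 + c with hz0
  set K0 : ℕ := ∏ p ∈ pz z0, p with hK0
  have hK01 : 1 ≤ K0 := Nat.pos_of_ne_zero (prod_ne_zero_iff.2 fun p hp => (mem_pz.1 hp).2.ne_zero)
  have hCb : 1 ≤ C0 * b := Nat.mul_pos hC0 hb1'
  refine ⟨2 * (C0 * b), K0, by omega, hK01, fun m0 y hy Ω v A E hA hE0 hE Q hQ => ?_⟩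
  set J := JJ y with hJ
  set Y : ℕ := 2 ^ 2 ^ J with hY
  have hyY : y < Y := JJ_lt y
  have hYy : Y ≤ y ^ 2 := JJ_le y (by omega)
  set D : ℕ := Y ^ (C0 * b) with hD
  have hDy : D ≤ y ^ (2 * (C0 * b)) := by
    calc D ≤ (y ^ 2) ^ (C0 * b) := Nat.pow_le_pow_left hYy _
      _ = _ := by rw [← pow_mul]
  set P0 : Finset ℕ := ((pz y).filter (fun p => ¬ p ∣ m0)).filter (fun p => ¬ z0 < p) with hP0
  set P : Finset ℕ := ((pz y).filter (fun p => ¬ p ∣ m0)).filter (fun p => z0 < p) with hP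
  have hPp : ∀ p ∈ P, p.Prime ∧ z0 < p ∧ p ≤ Y := by
    intro p hp
    rw [hP, mem_filter, mem_filter] at hp
    exact ⟨(mem_pz.1 hp.1.1).2, hp.2, ((mem_pz.1 hp.1.1).1.trans hyY.le)⟩
  have hP0p : ∀ p ∈ P0, p.Prime := by
    intro p hp
    rw [hP0, mem_filter, mem_filter] at hp
    exact (mem_pz.1 hp.1.1).2
  have hPm : ∀ p ∈ P, ¬ p ∣ m0 := by
    intro p hp
    rw [hP, mem_filter, mem_filter] at hp
    exact hp.1.2
  have hP0m : ∀ p ∈ P0, ¬ p ∣ m0 := by
    intro p hp
    rw [hP0, mem_filter, mem_filter] at hp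
    exact hp.1.2
  have hP0z : ∀ p ∈ P0, p ≤ z0 := by
    intro p hp
    rw [hP0, mem_filter] at hp
    omega
  have hsplit : (pz y).filter (fun p => ¬ p ∣ m0) = P0 ∪ P := by
    rw [hP0, hP, union_comm, filter_union_filter_not_eq]
  have hdisj : Disjoint P0 P := by
    rw [disjoint_left]
    intro p hp hp'
    have h1 := hP0z p hp
    have h2 := (hPp p hp').2.1
    omega
  have hfac : ∀ p : ℕ, p.Prime → 0 ≤ 1 - (nuB Q p : ℝ) / p := by
    intro p hp
    have hp0 : (0 : ℝ) < p := by exact_mod_cast hp.pos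
    have h1 : (nuB Q p : ℝ) / p ≤ 1 := by rw [div_le_one hp0]; exact_mod_cast nuB_le Q p
    linarith
  set A0 : ℝ := ∏ p ∈ P0, (1 - (nuB Q p : ℝ) / p) with hA0
  have hA00 : 0 ≤ A0 := prod_nonneg fun p hp => hfac p (hP0p p hp)
  have hP0K : ∏ p ∈ P0, p ≤ K0 := by
    rw [hK0]
    apply Nat.le_of_dvd hK01
    apply prod_dvd_prod_of_subset
    intro p hp
    rw [mem_pz]
    exact ⟨hP0z p hp, hP0p p hp⟩
  have key := hFL b J z0 P (fun p => (nuB Q p : ℝ) / p) hbC (by omega) hPp (fun p hp => by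
      have hp0 : (0 : ℝ) < p := by exact_mod_cast (hPp p hp).1.pos
      have hp1 : (1 : ℝ) < p := by exact_mod_cast (hPp p hp).1.one_lt
      refine ⟨by positivity, ?_⟩
      apply div_le_div₀ (Nat.cast_nonneg _) (by exact_mod_cast hQ.few p (hPp p hp).1) (by linarith) (by linarith))
    (Ω.filter (fun n => ∀ p ∈ P0, ¬ Q p (v n))) (fun _ => (1 : ℝ)) (fun p n => Q p (v n)) (A * A0)
    (fun T => (K0 : ℝ) * ((c : ℝ) ^ T.card * E (∏ p ∈ P0 ∪ T, p)))
    (fun _ _ => zero_le_one) (by positivity) (by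
      intro T hT hTD
      have hTp : ∀ p ∈ T, p.Prime := fun p hp => (hPp p (hT hp)).1
      have hdT : Disjoint P0 T := disjoint_of_subset_right hT hdisj
      have hall : ∀ p ∈ P0 ∪ T, p.Prime := fun p hp => by
        rcases mem_union.1 hp with h | h
        · exact hP0p p h
        · exact hTp p h
      have hd1 : 1 ≤ ∏ p ∈ P0 ∪ T, p := prod_pos fun p hp => (hall p hp).pos
      have hcop : (∏ p ∈ P0 ∪ T, p).Coprime m0 := by
        apply Nat.Coprime.prod_left
        intro p hp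
        rw [Nat.Prime.coprime_iff_not_dvd (hall p hp)]
        rcases mem_union.1 hp with h | h
        · exact hP0m p h
        · exact hPm p (hT h)
      have hdle : ∏ p ∈ P0 ∪ T, p ≤ K0 * y ^ (2 * (C0 * b)) := by
        rw [prod_union hdT]
        exact Nat.mul_le_mul hP0K (hTD.trans hDy)
      have h3 := cnt_crt Ω v A (P0 ∪ T) hall (fun p a => if p ≤ z0 then ¬ Q p a else Q p a)
        (E (∏ p ∈ P0 ∪ T, p)) (fun r => hE _ hd1 hcop hdle r)
      have hTz : ∀ p ∈ T, ¬ p ≤ z0 := fun p hp => by have := (hPp p (hT hp)).2.1; omega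
      have c1 : ∀ p ∈ P0, (((range p).filter (fun a => if p ≤ z0 then ¬ Q p a else Q p a)).card : ℝ) = p - nuB Q p := by
        intro p hp
        simp only [if_pos (hP0z p hp)]
        have h4 := card_filter_add_card_filter_not (s := range p) (fun a => Q p a)
        rw [card_range] at h4
        have h5 : nuB Q p = ((range p).filter (fun a => Q p a)).card := rfl
        have h6 : nuB Q p + ((range p).filter (fun a => ¬ Q p a)).card = p := by rw [h5]; exact h4
        have h7 : (nuB Q p : ℝ) + (((range p).filter (fun a => ¬ Q p a)).card : ℝ) = p := by exact_mod_cast h6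
        linarith
      have c2 : ∀ p ∈ T, (((range p).filter (fun a => if p ≤ z0 then ¬ Q p a else Q p a)).card : ℝ) = nuB Q p := by
        intro p hp
        simp only [if_neg (hTz p hp)]
        rfl
      rw [prod_union hdT, prod_union hdT] at h3
      have e1 : ∏ p ∈ P0, ((((range p).filter (fun a => if p ≤ z0 then ¬ Q p a else Q p a)).card : ℝ) / p) = A0 := by
        apply prod_congr rfl
        intro p hp
        rw [c1 p hp]
        have hp0 : (p : ℝ) ≠ 0 := by exact_mod_cast (hP0p p hp).ne_zero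
        field_simp
      have e2 : ∏ p ∈ T, ((((range p).filter (fun a => if p ≤ z0 then ¬ Q p a else Q p a)).card : ℝ) / p) = ∏ p ∈ T, ((nuB Q p : ℝ) / p) := by
        apply prod_congr rfl
        intro p hp
        rw [c2 p hp]
      have e3 : ∏ p ∈ P0, (((range p).filter (fun a => if p ≤ z0 then ¬ Q p a else Q p a)).card : ℝ) ≤ K0 := by
        have h5 : ∏ p ∈ P0, (((range p).filter (fun a => if p ≤ z0 then ¬ Q p a else Q p a)).card : ℝ) ≤ ∏ p ∈ P0, (p : ℝ) := by
          apply prod_le_prod (fun _ _ => Nat.cast_nonneg _)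
          intro p hp
          rw [c1 p hp]
          have : (0 : ℝ) ≤ nuB Q p := Nat.cast_nonneg _
          linarith
        refine h5.trans ?_
        have h6 : ((∏ p ∈ P0, p : ℕ) : ℝ) ≤ K0 := by exact_mod_cast hP0K
        push_cast at h6
        exact h6
      have e4 : ∏ p ∈ T, (((range p).filter (fun a => if p ≤ z0 then ¬ Q p a else Q p a)).card : ℝ) ≤ (c : ℝ) ^ T.card := by
        rw [← prod_const]
        apply prod_le_prod (fun _ _ => Nat.cast_nonneg _)
        intro p hp
        rw [c2 p hp]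
        exact_mod_cast hQ.few p (hTp p hp)
      rw [e1, e2] at h3
      have e5 : ∑ m ∈ (Ω.filter (fun n => ∀ p ∈ P0, ¬ Q p (v n))).filter (fun m => ∀ p ∈ T, Q p (v m)), (1 : ℝ) =
          ((Ω.filter (fun n => ∀ p ∈ P0 ∪ T, if p ≤ z0 then ¬ Q p (v n % p) else Q p (v n % p))).card : ℝ) := by
        rw [sum_const, nsmul_eq_mul, mul_one, filter_filter]
        congr 2
        apply filter_congr
        intro n _
        constructor
        · rintro ⟨h5, h6⟩ p hp
          rcases mem_union.1 hp with h | h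
          · rw [if_pos (hP0z p h)]
            exact fun h7 => h5 p h ((hQ.per p (v n)).2 h7)
          · rw [if_neg (hTz p h)]
            exact (hQ.per p (v n)).1 (h6 p h)
        · intro h5
          constructor
          · intro p hp h7
            have h8 := h5 p (mem_union_left _ hp)
            rw [if_pos (hP0z p hp)] at h8
            exact h8 ((hQ.per p (v n)).1 h7)
          · intro p hp
            have h8 := h5 p (mem_union_right _ hp)
            rw [if_neg (hTz p hp)] at h8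
            exact (hQ.per p (v n)).2 h8
      rw [e5, mul_assoc]
      refine h3.trans ?_
      have h9 : (∏ p ∈ P0, (((range p).filter (fun a => if p ≤ z0 then ¬ Q p a else Q p a)).card : ℝ)) *
          (∏ p ∈ T, (((range p).filter (fun a => if p ≤ z0 then ¬ Q p a else Q p a)).card : ℝ)) ≤ (K0 : ℝ) * (c : ℝ) ^ T.card :=
        mul_le_mul e3 e4 (prod_nonneg fun _ _ => Nat.cast_nonneg _) (Nat.cast_nonneg _)
      calc _ ≤ ((K0 : ℝ) * (c : ℝ) ^ T.card) * E (∏ p ∈ P0 ∪ T, p) := mul_le_mul_of_nonneg_right h9 (hE0 _)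
        _ = _ := by ring)
  have f1 : ∑ m ∈ (Ω.filter (fun n => ∀ p ∈ P0, ¬ Q p (v n))).filter (fun m => ∀ p ∈ P, ¬ Q p (v m)), (1 : ℝ) =
      ((Ω.filter (fun n => ∀ p ∈ pz y, ¬ p ∣ m0 → ¬ Q p (v n))).card : ℝ) := by
    rw [sum_const, nsmul_eq_mul, mul_one, filter_filter]
    congr 2
    apply filter_congr
    intro n _
    constructor
    · rintro ⟨h5, h6⟩ p hp hpm
      have h7 : p ∈ P0 ∪ P := by rw [← hsplit, mem_filter]; exact ⟨hp, hpm⟩
      rcases mem_union.1 h7 with h | h
      · exact h5 p h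
      · exact h6 p h
    · intro h
      have h7 : ∀ p ∈ P0 ∪ P, ¬ Q p (v n) := by
        intro p hp
        rw [← hsplit, mem_filter] at hp
        exact h p hp.1 hp.2
      exact ⟨fun p hp => h7 p (mem_union_left _ hp), fun p hp => h7 p (mem_union_right _ hp)⟩
  have f2 : A * A0 * ∏ p ∈ P, (1 - (nuB Q p : ℝ) / p) = A * ∏ p ∈ (pz y).filter (fun p => ¬ p ∣ m0), (1 - (nuB Q p : ℝ) / p) := by
    rw [hsplit, prod_union hdisj, mul_assoc]
  rw [f1, f2] at key
  refine key.trans ?_
  have hM0 : 0 ≤ A * ∏ p ∈ (pz y).filter (fun p => ¬ p ∣ m0), (1 - (nuB Q p : ℝ) / p) :=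
    mul_nonneg hA (prod_nonneg fun p hp => hfac p (mem_pz.1 (mem_filter.1 hp).1).2)
  apply add_le_add (mul_le_mul_of_nonneg_right hbε hM0)
  -- the error
  apply mul_le_mul_of_nonneg_left _ (by positivity)
  rw [← mul_sum]
  apply mul_le_mul_of_nonneg_left _ (Nat.cast_nonneg _)
  have hinj : Set.InjOn (fun T : Finset ℕ => ∏ p ∈ P0 ∪ T, p)
      (P.powerset.filter (fun T : Finset ℕ => ∏ p ∈ T, p ≤ D) : Set (Finset ℕ)) := by
    intro T hT T' hT' h
    rw [mem_coe, mem_filter, mem_powerset] at hT hT'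
    have hd1 : Disjoint P0 T := disjoint_of_subset_right hT.1 hdisj
    have hd2 : Disjoint P0 T' := disjoint_of_subset_right hT'.1 hdisj
    simp only [prod_union hd1, prod_union hd2] at h
    have h0 : 0 < ∏ p ∈ P0, p := prod_pos fun p hp => (hP0p p hp).pos
    have h2 := Nat.eq_of_mul_eq_mul_left h0 h
    exact prod_inj T T' (fun p hp => (hPp p (hT.1 hp)).1) (fun p hp => (hPp p (hT'.1 hp)).1) h2
  calc ∑ T ∈ P.powerset.filter (fun T : Finset ℕ => ∏ p ∈ T, p ≤ D), (c : ℝ) ^ T.card * E (∏ p ∈ P0 ∪ T, p)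
      ≤ ∑ T ∈ P.powerset.filter (fun T : Finset ℕ => ∏ p ∈ T, p ≤ D),
        (c : ℝ) ^ (∏ p ∈ P0 ∪ T, p).primeFactors.card * E (∏ p ∈ P0 ∪ T, p) := by
        refine sum_le_sum fun T hT => ?_
        rw [mem_filter, mem_powerset] at hT
        apply mul_le_mul_of_nonneg_right _ (hE0 _)
        have hall : ∀ p ∈ P0 ∪ T, p.Prime := fun p hp => by
          rcases mem_union.1 hp with h | h
          · exact hP0p p h
          · exact (hPp p (hT.1 h)).1
        rw [primeFactors_prod' _ hall]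
        apply pow_le_pow_right₀ (by exact_mod_cast hc)
        exact card_le_card subset_union_right
    _ = ∑ d ∈ (P.powerset.filter (fun T : Finset ℕ => ∏ p ∈ T, p ≤ D)).image (fun T => ∏ p ∈ P0 ∪ T, p),
        (c : ℝ) ^ d.primeFactors.card * E d := by
        rw [sum_image hinj]
    _ ≤ _ := by
        apply sum_le_sum_of_subset_of_nonneg
        · intro d hd
          rw [mem_image] at hd
          obtain ⟨T, hT, rfl⟩ := hd
          rw [mem_filter, mem_powerset] at hT
          have hdT : Disjoint P0 T := disjoint_of_subset_right hT.1 hdisj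
          have hall : ∀ p ∈ P0 ∪ T, p.Prime := fun p hp => by
            rcases mem_union.1 hp with h | h
            · exact hP0p p h
            · exact (hPp p (hT.1 h)).1
          rw [mem_filter, mem_Icc]
          refine ⟨⟨prod_pos fun p hp => (hall p hp).pos, ?_⟩, ?_⟩
          · rw [prod_union hdT]
            exact Nat.mul_le_mul hP0K (hT.2.trans hDy)
          · apply Nat.Coprime.prod_left
            intro p hp
            rw [Nat.Prime.coprime_iff_not_dvd (hall p hp)]
            rcases mem_union.1 hp with h | h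
            · exact hP0m p h
            · exact hPm p (hT.1 h)
        · intro d _ _
          have := hE0 d
          positivity

end Pool.Agent.X55.Fam
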