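import Pool.Agent.X55.Fam.Sv
import Pool.Agent.X55.Pal.Pal2

set_option autoImplicit false

/-! # Products over primes -/

namespace Pool.Agent.X55.Fam

open Finset Pool.Agent.H373R2.T7
open Pool.Agent.X55.Pal (exp_low sum_inv_sq)

/-- bounds for the product of the local factors -/
theorem prod_bounds (ν : ℕ → ℕ) (c g : ℕ) (hc : 1 ≤ c) (h1 : ∀ p : ℕ, p.Prime → ν p ≤ c)
    (h2 : ∀ p : ℕ, p.Prime → ν p < p) (C : ℝ)
    (h3 : ∀ y : ℕ, 3 ≤ y → |∑ p ∈ pz y, (ν p : ℝ) / p - g * Real.log (Real.log y)| ≤ C) :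
    ∃ c1 C1 : ℝ, 0 < c1 ∧ 0 < C1 ∧ ∀ y : ℕ, 3 ≤ y →
      c1 / Real.log y ^ g ≤ ∏ p ∈ pz y, (1 - (ν p : ℝ) / p) ∧
      ∏ p ∈ pz y, (1 - (ν p : ℝ) / p) ≤ C1 / Real.log y ^ g := by
  classical
  have hcr : (1 : ℝ) ≤ c := by exact_mod_cast hc
  set T : ℕ := 2 * c with hT
  refine ⟨(1 / (T : ℝ)) ^ (T + 1) * Real.exp (-(C + 4 * (c : ℝ) ^ 2)), Real.exp C, by positivity, Real.exp_pos _,
    fun y hy => ?_⟩
  have hyr : (3 : ℝ) ≤ y := by exact_mod_cast hy
  have hlog : 0 < Real.log y := Real.log_pos (by linarith)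
  have h3' := abs_le.1 (h3 y hy)
  have hpow : Real.log y ^ g = Real.exp (g * Real.log (Real.log y)) := by
    rw [mul_comm, Real.exp_mul, Real.exp_log hlog, Real.rpow_natCast]
  have hTr : (0 : ℝ) < T := by rw [hT]; push_cast; linarith
  constructor
  · set F : ℕ → ℝ := fun p => if p ≤ T then 1 / T else Real.exp (-((ν p : ℝ) / p + 2 * ((ν p : ℝ) / p) ^ 2)) with hF
    have hstep : ∀ p ∈ pz y, F p ≤ 1 - (ν p : ℝ) / p := by
      intro p hp
      rw [mem_pz] at hp
      have hp0 : (0 : ℝ) < p := by exact_mod_cast hp.2.pos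
      rw [hF]
      simp only
      split_ifs with h8
      · have h9 : (ν p : ℝ) + 1 ≤ p := by exact_mod_cast h2 p hp.2
        have h8r : (p : ℝ) ≤ T := by exact_mod_cast h8
        have h10 : 1 / (T : ℝ) ≤ 1 / p := one_div_le_one_div_of_le hp0 h8r
        have h11 : 1 / (p : ℝ) ≤ 1 - (ν p : ℝ) / p := by
          rw [le_sub_iff_add_le, ← add_div, div_le_one hp0]
          linarith
        linarith
      · apply exp_low (by positivity)
        rw [div_le_div_iff₀ hp0 (by norm_num)]
        have h9 : (ν p : ℝ) ≤ c := by exact_mod_cast h1 p hp.2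
        have h10 : (T : ℝ) ≤ p := by exact_mod_cast (by omega : T ≤ p)
        rw [hT] at h10
        push_cast at h10
        linarith
    have hF0 : ∀ p, 0 ≤ F p := by
      intro p; rw [hF]; simp only; split_ifs <;> positivity
    refine le_trans ?_ (prod_le_prod (fun p _ => hF0 p) hstep)
    rw [← prod_filter_mul_prod_filter_not (pz y) (fun p => p ≤ T)]
    have e1 : (1 / (T : ℝ)) ^ (T + 1) ≤ ∏ p ∈ (pz y).filter (fun p => p ≤ T), F p := by
      have h5 : ∏ p ∈ (pz y).filter (fun p => p ≤ T), F p = (1 / (T : ℝ)) ^ ((pz y).filter (fun p => p ≤ T)).card := by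
        rw [← prod_const]
        apply prod_congr rfl
        intro p hp
        rw [mem_filter] at hp
        rw [hF]
        simp only [if_pos hp.2]
      rw [h5]
      have hT1 : (1 : ℝ) ≤ T := by exact_mod_cast (by omega : 1 ≤ T)
      apply pow_le_pow_of_le_one (by positivity) (by rw [div_le_one hTr]; exact hT1)
      calc ((pz y).filter (fun p => p ≤ T)).card ≤ (range (T + 1)).card := by
            apply card_le_card
            intro p hp
            rw [mem_filter] at hp
            rw [mem_range]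
            omega
        _ = T + 1 := card_range _
    have e2 : Real.exp (-(C + 4 * (c : ℝ) ^ 2)) / Real.log y ^ g ≤ ∏ p ∈ (pz y).filter (fun p => ¬ p ≤ T), F p := by
      have h5 : ∏ p ∈ (pz y).filter (fun p => ¬ p ≤ T), F p =
          Real.exp (-(∑ p ∈ (pz y).filter (fun p => ¬ p ≤ T), ((ν p : ℝ) / p + 2 * ((ν p : ℝ) / p) ^ 2))) := by
        rw [← sum_neg_distrib, Real.exp_sum]
        apply prod_congr rfl
        intro p hp
        rw [mem_filter] at hp
        rw [hF]
        simp only [if_neg hp.2]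
      have h6 : ∑ p ∈ (pz y).filter (fun p => ¬ p ≤ T), ((ν p : ℝ) / p + 2 * ((ν p : ℝ) / p) ^ 2) ≤
          g * Real.log (Real.log y) + C + 4 * (c : ℝ) ^ 2 := by
        calc ∑ p ∈ (pz y).filter (fun p => ¬ p ≤ T), ((ν p : ℝ) / p + 2 * ((ν p : ℝ) / p) ^ 2)
            ≤ ∑ p ∈ pz y, ((ν p : ℝ) / p + 2 * ((ν p : ℝ) / p) ^ 2) := by
              apply sum_le_sum_of_subset_of_nonneg (filter_subset _ _)
              intro p _ _; positivity
          _ = ∑ p ∈ pz y, (ν p : ℝ) / p + 2 * ∑ p ∈ pz y, ((ν p : ℝ) / p) ^ 2 := by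
              rw [sum_add_distrib, ← mul_sum]
          _ ≤ (g * Real.log (Real.log y) + C) + 2 * (2 * (c : ℝ) ^ 2) := by
              have h7 : ∑ p ∈ pz y, ((ν p : ℝ) / p) ^ 2 ≤ 2 * (c : ℝ) ^ 2 := by
                calc ∑ p ∈ pz y, ((ν p : ℝ) / p) ^ 2 ≤ ∑ p ∈ pz y, (c : ℝ) ^ 2 * (1 / (p : ℝ) ^ 2) := by
                      refine sum_le_sum fun p hp => ?_
                      rw [mem_pz] at hp
                      rw [div_pow, ← mul_div_assoc, mul_one]
                      apply div_le_div_of_nonneg_right _ (by positivity)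
                      have h9 : (ν p : ℝ) ≤ c := by exact_mod_cast h1 p hp.2
                      gcongr
                  _ ≤ ∑ n ∈ Icc 1 y, (c : ℝ) ^ 2 * (1 / (n : ℝ) ^ 2) := by
                      apply sum_le_sum_of_subset_of_nonneg
                      · intro p hp
                        rw [mem_pz] at hp
                        rw [mem_Icc]
                        exact ⟨hp.2.one_le, hp.1⟩
                      · intro p _ _; positivity
                  _ ≤ 2 * (c : ℝ) ^ 2 := by
                      rw [← mul_sum]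
                      have := sum_inv_sq y
                      nlinarith [sq_nonneg (c : ℝ)]
              linarith [h3'.2]
          _ = _ := by ring
      rw [h5, hpow, ← Real.exp_sub]
      apply Real.exp_le_exp.2
      linarith
    calc (1 / (T : ℝ)) ^ (T + 1) * Real.exp (-(C + 4 * (c : ℝ) ^ 2)) / Real.log y ^ g
        = (1 / (T : ℝ)) ^ (T + 1) * (Real.exp (-(C + 4 * (c : ℝ) ^ 2)) / Real.log y ^ g) := by ring
      _ ≤ _ := mul_le_mul e1 e2 (by positivity) (prod_nonneg fun p _ => hF0 p)
  · calc ∏ p ∈ pz y, (1 - (ν p : ℝ) / p)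
        ≤ ∏ p ∈ pz y, Real.exp (-((ν p : ℝ) / p)) := by
          apply prod_le_prod
          · intro p hp
            rw [mem_pz] at hp
            have hp0 : (0 : ℝ) < p := by exact_mod_cast hp.2.pos
            have h5 : (ν p : ℝ) / p ≤ 1 := by
              rw [div_le_one hp0]; exact_mod_cast (h2 p hp.2).le
            linarith
          · intro p _
            have := Real.add_one_le_exp (-((ν p : ℝ) / p))
            linarith
      _ = Real.exp (-(∑ p ∈ pz y, (ν p : ℝ) / p)) := by
          rw [← Real.exp_sum, sum_neg_distrib]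
      _ ≤ Real.exp (C - g * Real.log (Real.log y)) := by
          apply Real.exp_le_exp.2
          linarith [h3'.1]
      _ = Real.exp C / Real.log y ^ g := by
          rw [Real.exp_sub, hpow]

end Pool.Agent.X55.Fam
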