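import Pool.Agent.X55.Fam.Forms
import Pool.Agent.X26.SV.Uns

/-!
# Windows with the maximal number of almost primes
-/

set_option autoImplicit false

namespace Pool.Agent.X55.Forms

open Finset Pool.Agent.X55.Fam Pool.Agent.H373R2.T7
open Pool.Agent.X26.SV (Ext unsifted ext_sub exists_ext ext_hr)

open Classical in
/-- the `t ∈ (0, y]` for which `n + t` has at most `r` prime factors, all greater than `x` -/
noncomputable def positions (r : ℕ) (x : ℝ) (y n : ℕ) : Finset ℕ :=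
  (Ioc 0 y).filter (fun t => AlmostPrime r x (n + t))

open Classical in
/-- the `t ∈ (0, y]` for which `n + t` is a prime -/
noncomputable def primePositions (y n : ℕ) : Finset ℕ := (Ioc 0 y).filter (fun t => (n + t).Prime)

/-- the forms `n + t`, `t ∈ T` -/
noncomputable def shifts (K : ℕ) (T : Finset ℕ) (h : T.card = K) : Fin K → ℤ :=
  fun i => ((T.orderEmbOfFin h i : ℕ) : ℤ)

lemma shifts_all (K : ℕ) (T : Finset ℕ) (hK : T.card = K) (Q : ℤ → Prop) :
    (∀ i, Q (shifts K T hK i)) ↔ ∀ t ∈ T, Q (t : ℤ) := by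
  constructor
  · intro h t ht
    obtain ⟨i, hi⟩ : ∃ i, T.orderEmbOfFin hK i = t := by
      have h1 : t ∈ Set.range (T.orderEmbOfFin hK) := by
        rw [Finset.range_orderEmbOfFin]
        exact ht
      exact h1
    have := h i
    unfold shifts at this
    rwa [hi] at this
  · intro h i
    exact h _ (T.orderEmbOfFin_mem hK i)

lemma positions_sub {r y n : ℕ} {x : ℝ} (hx : (y : ℝ) ≤ x) : positions r x y n ⊆ unsifted n y := by
  classical
  intro t ht
  unfold positions at ht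
  unfold unsifted
  rw [mem_filter] at ht ⊢
  refine ⟨ht.1, fun p hp hpy hd => ?_⟩
  have h1 := ht.2.2.2 p hp hd
  have h2 : (p : ℝ) ≤ y := by exact_mod_cast hpy
  linarith

lemma positions_le {r y n : ℕ} {x : ℝ} {T : Finset ℕ} (hT : Ext y T) (hx : (y : ℝ) ≤ x) :
    (positions r x y n).card ≤ T.card :=
  (card_le_card (positions_sub hx)).trans (hT.2 n)

lemma positions_eq {r y n : ℕ} {x : ℝ} {T : Finset ℕ} (hT : Ext y T) (hx : (y : ℝ) ≤ x)
    (h : ∀ t ∈ T, AlmostPrime r x (n + t)) : positions r x y n = T := by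
  classical
  symm
  apply eq_of_subset_of_card_le _ (positions_le hT hx)
  intro t ht
  unfold positions
  rw [mem_filter]
  exact ⟨ext_sub hT ht, h t ht⟩

lemma primePositions_sub {y n : ℕ} (hn : y ≤ n) : primePositions y n ⊆ unsifted n y := by
  classical
  intro t ht
  unfold primePositions at ht
  unfold unsifted
  rw [mem_filter] at ht ⊢
  refine ⟨ht.1, fun p hp hpy hd => ?_⟩
  have h1 := (Nat.prime_dvd_prime_iff_eq hp ht.2).1 hd
  have h2 := (mem_Ioc.1 ht.1).1
  omega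

lemma primePositions_eq {y n : ℕ} {T : Finset ℕ} (hT : Ext y T) (hn : y ≤ n)
    (h : T.card ≤ (primePositions y n).card) : Ext y (primePositions y n) ∧ (primePositions y n).card = T.card := by
  have h1 := card_le_card (primePositions_sub hn)
  have h2 := hT.2 n
  have h3 : primePositions y n = unsifted n y := eq_of_subset_of_card_le (primePositions_sub hn) (h2.trans h)
  refine ⟨⟨⟨n, h3.symm⟩, fun m => (hT.2 m).trans h⟩, by omega⟩

lemma ext_pos {y : ℕ} (hy : 1 ≤ y) {T : Finset ℕ} (hT : Ext y T) : 1 ≤ T.card := by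
  classical
  refine le_trans ?_ (hT.2 0)
  apply card_pos.2
  refine ⟨1, ?_⟩
  unfold unsifted
  rw [mem_filter, mem_Ioc]
  refine ⟨⟨by omega, hy⟩, fun p hp _ hd => ?_⟩
  rw [Nat.zero_add] at hd
  exact hp.one_lt.ne' (Nat.dvd_one.1 hd)

lemma adm_shifts {y K : ℕ} {T : Finset ℕ} (hT : Ext y T) (hK : T.card = K) :
    Admissible (fun _ => 1) (shifts K T hK) := by
  classical
  intro q hq
  by_cases hqy : q ≤ y
  · obtain ⟨m, hm⟩ := hT.1
    refine ⟨m, ?_⟩
    rw [shifts_all K T hK (fun z => ¬ (q : ℤ) ∣ (1 : ℤ) * (m : ℕ) + z)]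
    intro t ht hd
    rw [← hm] at ht
    unfold unsifted at ht
    rw [mem_filter] at ht
    apply ht.2 q hq hqy
    rw [one_mul] at hd
    exact_mod_cast hd
  · refine ⟨0, ?_⟩
    rw [shifts_all K T hK (fun z => ¬ (q : ℤ) ∣ (1 : ℤ) * ((0 : ℕ) : ℤ) + z)]
    intro t ht hd
    have h1 := mem_Ioc.1 (ext_sub hT ht)
    rw [Nat.cast_zero, mul_zero, zero_add] at hd
    have h2 : q ∣ t := by exact_mod_cast hd
    have h3 := Nat.le_of_dvd h1.1 h2
    omega

lemma shifts_mem {y K : ℕ} {T : Finset ℕ} (hT : Ext y T) (hK : T.card = K) (i : Fin K) :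
    0 < shifts K T hK i ∧ shifts K T hK i ≤ y := by
  have h1 := mem_Ioc.1 (ext_sub hT (T.orderEmbOfFin_mem hK i))
  unfold shifts
  omega

lemma shifts_abs {y K : ℕ} {T : Finset ℕ} (hT : Ext y T) (hK : T.card = K) {N : ℕ} (hN : y ≤ N) (i : Fin K) :
    (shifts K T hK i).natAbs ≤ N := by
  have h1 := shifts_mem hT hK i
  omega

lemma shifts_inj {K : ℕ} {T : Finset ℕ} (hK : T.card = K) : Function.Injective (shifts K T hK) := by
  intro i j hij
  unfold shifts at hij
  exact (T.orderEmbOfFin hK).injective (Nat.cast_injective hij)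

lemma almost_le {y r M H K : ℕ} {x : ℝ} {T : Finset ℕ} (hT : Ext y T) (hK : T.card = K) (hx : (y : ℝ) ≤ x)
    (R : ℕ → Prop) : almost (fun _ => 1) (shifts K T hK) r x M H R ≤
      Set.ncard {n : ℕ | M < n ∧ n ≤ M + H ∧ R n ∧ positions r x y n = T} := by
  unfold almost
  apply Set.ncard_le_ncard
  · rintro n ⟨h1, h2, h3, h4⟩
    refine ⟨h1, h2, h3, positions_eq hT hx ?_⟩
    intro t ht
    have h5 := (shifts_all K T hK (fun z => AlmostPrime r x ((1 : ℤ) * (n : ℕ) + z).natAbs)).1 h4 t ht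
    have e : ((1 : ℤ) * (n : ℕ) + (t : ℤ)).natAbs = n + t := by omega
    rwa [e] at h5
  · exact (Set.finite_Ioc M (M + H)).subset fun n hn => ⟨hn.1, hn.2.1⟩

/-- upper bound for the product of the local factors -/
lemma V_up (y k : ℕ) (hk : 1 ≤ k) : ∃ C : ℝ, 0 < C ∧ ∀ b : Fin k → ℤ, (∀ i, 0 < b i ∧ b i ≤ y) →
    Function.Injective b → Admissible (fun _ => 1) b → ∀ z : ℕ, 3 ≤ z → V (fun _ => 1) b z ≤ C / Real.log z ^ k := by
  classical
  obtain ⟨c1, C1, hc1, hC1, h⟩ := numax_bounds k hk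
  set D : ℕ → ℝ := fun p => if p ≤ 2 * (y + k) then (1 - (numax k p : ℝ) / p)⁻¹ else 1 with hD
  have hfac : ∀ p : ℕ, p.Prime → 0 < 1 - (numax k p : ℝ) / p ∧ 1 - (numax k p : ℝ) / p ≤ 1 := by
    intro p hp
    have hp0 : (0 : ℝ) < p := by exact_mod_cast hp.pos
    have h1 : numax k p < p := by
      have := hp.two_le
      unfold numax
      split_ifs <;> omega
    have h2 : (numax k p : ℝ) / p < 1 := by
      rw [div_lt_one hp0]
      exact_mod_cast h1
    have h3 : 0 ≤ (numax k p : ℝ) / p := by positivity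
    constructor <;> linarith
  have hD1 : ∀ p : ℕ, p.Prime → 1 ≤ D p := by
    intro p hp
    rw [hD]
    simp only
    split_ifs
    · exact (one_le_inv₀ (hfac p hp).1).2 (hfac p hp).2
    · exact le_rfl
  refine ⟨(∏ p ∈ pz (2 * (y + k)), D p) * C1, ?_, ?_⟩
  · apply mul_pos _ hC1
    apply prod_pos
    intro p hp
    have := hD1 p (mem_pz.1 hp).2
    linarith
  · intro b hb hinj hadm z hz
    have e1 : V (fun _ => 1) b z = VQ (QL (fun _ => 1) b) z := VL_eq _ _ _
    rw [e1]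
    unfold VQ
    have hstep : ∀ p ∈ pz z, 1 - (nuB (QL (fun _ => 1) b) p : ℝ) / p ≤ D p * (1 - (numax k p : ℝ) / p) := by
      intro p hp
      have hpp := (mem_pz.1 hp).2
      have hp0 : (0 : ℝ) < p := by exact_mod_cast hpp.pos
      rw [hD]
      simp only
      split_ifs with h5
      · rw [inv_mul_cancel₀ (hfac p hpp).1.ne']
        have : 0 ≤ (nuB (QL (fun _ => 1) b) p : ℝ) / p := by positivity
        linarith
      · rw [one_mul]
        have h6 : k ≤ nuB (QL (fun _ => 1) b) p := by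
          unfold nuB
          have h7 : ((univ : Finset (Fin k)).image (fun i => p - (b i).natAbs)).card = k := by
            rw [card_image_of_injective, card_univ, Fintype.card_fin]
            intro i j hij
            apply hinj
            have := hb i
            have := hb j
            change p - (b i).natAbs = p - (b j).natAbs at hij
            omega
          calc k = _ := h7.symm
            _ ≤ _ := by
              apply card_le_card
              intro r hr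
              rw [mem_image] at hr
              obtain ⟨i, _, rfl⟩ := hr
              have := hb i
              rw [mem_filter, mem_range]
              refine ⟨by omega, i, ?_⟩
              have e2 : (1 : ℤ) * ((p - (b i).natAbs : ℕ) : ℤ) + b i = p := by omega
              rw [e2]
        have h8 : numax k p = k := by
          unfold numax
          rw [if_neg (by omega)]
        rw [h8]
        have h9 : (k : ℝ) / p ≤ (nuB (QL (fun _ => 1) b) p : ℝ) / p := by
          apply div_le_div_of_nonneg_right _ hp0.le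
          exact_mod_cast h6
        linarith
    calc ∏ p ∈ pz z, (1 - (nuB (QL (fun _ => 1) b) p : ℝ) / p)
        ≤ ∏ p ∈ pz z, D p * (1 - (numax k p : ℝ) / p) := by
          apply prod_le_prod _ hstep
          intro p hp
          have hp0 : (0 : ℝ) < p := by exact_mod_cast (mem_pz.1 hp).2.pos
          have h1 : (nuB (QL (fun _ => 1) b) p : ℝ) / p ≤ 1 := by
            rw [div_le_one hp0]
            exact_mod_cast nuB_le _ p
          linarith
      _ = (∏ p ∈ pz z, D p) * ∏ p ∈ pz z, (1 - (numax k p : ℝ) / p) := prod_mul_distrib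
      _ ≤ (∏ p ∈ pz (2 * (y + k)), D p) * (C1 / Real.log z ^ k) := by
          have h10 : ∏ p ∈ pz z, D p ≤ ∏ p ∈ pz (2 * (y + k)), D p := by
            have h11 : ∏ p ∈ pz z, D p = ∏ p ∈ (pz z).filter (fun p => p ≤ 2 * (y + k)), D p := by
              rw [prod_filter]
              apply prod_congr rfl
              intro p _
              split_ifs with h12
              · rfl
              · rw [hD]
                simp only [if_neg h12]
            rw [h11]
            have hss : (pz z).filter (fun p => p ≤ 2 * (y + k)) ⊆ pz (2 * (y + k)) := by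
              intro p hp
              rw [mem_filter, mem_pz] at hp
              rw [mem_pz]
              exact ⟨hp.2, hp.1.2⟩
            rw [← prod_sdiff hss]
            apply le_mul_of_one_le_left
            · exact prod_nonneg fun p hp => by
                have := hD1 p (mem_pz.1 (mem_filter.1 hp).1).2
                linarith
            · calc (1 : ℝ) = ∏ p ∈ pz (2 * (y + k)) \ (pz z).filter (fun p => p ≤ 2 * (y + k)), (1 : ℝ) := by simp
                _ ≤ _ := prod_le_prod (fun _ _ => zero_le_one) fun p hp =>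
                  hD1 p (mem_pz.1 (mem_sdiff.1 hp).1).2
          have h13 : 0 ≤ ∏ p ∈ pz z, (1 - (numax k p : ℝ) / p) := prod_nonneg fun p hp => (hfac p (mem_pz.1 hp).2).1.le
          have h14 : 0 ≤ ∏ p ∈ pz (2 * (y + k)), D p := prod_nonneg fun p hp => by
            have := hD1 p (mem_pz.1 hp).2
            linarith
          exact mul_le_mul h10 (h z hz).2 h13 h14
      _ = _ := by ring

/-- the bounds for the windows `(n, n + y]`: lower bound for the `n` for which the positions of the almost primes are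
the elements of `T`, for every extremal `T`, upper bound for the `n` with `K` primes -/
def Windows (y K P r : ℕ) (δ c C : ℝ) (B M H : ℕ) (R : ℕ → Prop) (X : ℝ) : Prop :=
  (M + H ≤ P ^ B → ∀ T : Finset ℕ, Ext y T → c * X / Real.log P ^ K ≤
    Set.ncard {n : ℕ | M < n ∧ n ≤ M + H ∧ R n ∧ positions r ((P : ℝ) ^ δ) y n = T}) ∧
  (Set.ncard {n : ℕ | M < n ∧ n ≤ M + H ∧ R n ∧ y ≤ n ∧ K ≤ (primePositions y n).card} : ℝ) ≤
    C * X / Real.log P ^ K

lemma ext_card {y : ℕ} {T T' : Finset ℕ} (hT : Ext y T) (hT' : Ext y T') : T'.card = T.card := by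
  obtain ⟨⟨m, hm⟩, h⟩ := hT
  obtain ⟨⟨m', hm'⟩, h'⟩ := hT'
  have h1 := h m'
  have h2 := h' m
  rw [hm'] at h1
  rw [hm] at h2
  omega

theorem windows (y : ℕ) (hy : 1 ≤ y) (T₀ : Finset ℕ) (hT₀ : Ext y T₀) : ∃ D : ℝ, 0 < D ∧
    ∀ (B P r : ℕ) (δ c C : ℝ), 1 ≤ B → 0 < δ → 0 < c → 0 < C → 3 ≤ P → y ≤ P → (y : ℝ) ≤ (P : ℝ) ^ δ →
    ∀ (M H : ℕ) (R : ℕ → Prop) (X : ℝ), 0 ≤ X →
    (∀ T : {T : Finset ℕ // Ext y T ∧ T.card = T₀.card},
      Bounds (fun _ => 1) (shifts T₀.card T.1 T.2.2) P r δ c C B M H R X) →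
    Windows y T₀.card P r δ c (C * D) B M H R X := by
  classical
  obtain ⟨C1, hC1, hV⟩ := V_up y T₀.card (ext_pos hy hT₀)
  refine ⟨2 ^ y * C1, by positivity, ?_⟩
  intro B P r δ c C hB hδ hc hC hP hyP hyx M H R X hX h
  have hlog : 0 < Real.log P := Real.log_pos (by
    have : (3 : ℝ) ≤ P := by exact_mod_cast hP
    linarith)
  constructor
  · intro hMH T hT
    have h1 := h ⟨T, hT, ext_card hT₀ hT⟩
    have h2 := (h1.1 hMH (fun i => ⟨by
      show (1 : ℤ).natAbs ≤ P ^ B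
      rw [Int.natAbs_one]
      exact Nat.one_le_pow _ _ (by omega), shifts_abs hT _ (hyP.trans (Nat.le_self_pow (by omega) P)) i⟩)).2
    refine h2.trans ?_
    exact_mod_cast almost_le hT _ hyx R
  · set F : Finset (Finset ℕ) := (Ioc 0 y).powerset.filter (fun T => Ext y T ∧ T.card = T₀.card) with hF
    have hsub : {n : ℕ | M < n ∧ n ≤ M + H ∧ R n ∧ y ≤ n ∧ T₀.card ≤ (primePositions y n).card} ⊆
        ⋃ T ∈ F, {n : ℕ | M < n ∧ n ≤ M + H ∧ R n ∧ ∀ t ∈ T, (n + t).Prime} := by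
      rintro n ⟨h1, h2, h3, h4, h5⟩
      obtain ⟨h6, h7⟩ := primePositions_eq hT₀ h4 h5
      rw [Set.mem_iUnion₂]
      refine ⟨primePositions y n, ?_, h1, h2, h3, ?_⟩
      · rw [hF, mem_filter, mem_powerset]
        exact ⟨ext_sub h6, h6, h7⟩
      · intro t ht
        unfold primePositions at ht
        exact (mem_filter.1 ht).2
    have hfin : ∀ T : Finset ℕ, {n : ℕ | M < n ∧ n ≤ M + H ∧ R n ∧ ∀ t ∈ T, (n + t).Prime}.Finite := fun T =>
      (Set.finite_Ioc M (M + H)).subset fun n hn => ⟨hn.1, hn.2.1⟩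
    have e1 : (Set.ncard {n : ℕ | M < n ∧ n ≤ M + H ∧ R n ∧ y ≤ n ∧ T₀.card ≤ (primePositions y n).card} : ℝ) ≤
        ∑ T ∈ F, (Set.ncard {n : ℕ | M < n ∧ n ≤ M + H ∧ R n ∧ ∀ t ∈ T, (n + t).Prime} : ℝ) := by
      have h8 := Set.ncard_le_ncard hsub (F.finite_toSet.biUnion fun T _ => hfin T)
      have h9 : Set.ncard (⋃ T ∈ F, {n : ℕ | M < n ∧ n ≤ M + H ∧ R n ∧ ∀ t ∈ T, (n + t).Prime}) ≤
          ∑ T ∈ F, Set.ncard {n : ℕ | M < n ∧ n ≤ M + H ∧ R n ∧ ∀ t ∈ T, (n + t).Prime} :=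
        Finset.set_ncard_biUnion_le _ _
      exact_mod_cast h8.trans h9
    refine e1.trans ?_
    have e2 : ∀ T ∈ F, (Set.ncard {n : ℕ | M < n ∧ n ≤ M + H ∧ R n ∧ ∀ t ∈ T, (n + t).Prime} : ℝ) ≤
        C * (X * (C1 / Real.log P ^ T₀.card)) := by
      intro T hT
      rw [hF, mem_filter] at hT
      have h10 := (h ⟨T, hT.2⟩).2
      have h11 : (Set.ncard {n : ℕ | M < n ∧ n ≤ M + H ∧ R n ∧ ∀ t ∈ T, (n + t).Prime} : ℝ) ≤
          primes (fun _ => 1) (shifts T₀.card T hT.2.2) M H R := by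
        unfold primes
        have : {n : ℕ | M < n ∧ n ≤ M + H ∧ R n ∧ ∀ t ∈ T, (n + t).Prime} ⊆
            {n : ℕ | M < n ∧ n ≤ M + H ∧ R n ∧ ∀ i, ((1 : ℤ) * n + shifts T₀.card T hT.2.2 i).natAbs.Prime} := by
          rintro n ⟨h1, h2, h3, h4⟩
          refine ⟨h1, h2, h3, ?_⟩
          rw [shifts_all T₀.card T hT.2.2 (fun z => ((1 : ℤ) * n + z).natAbs.Prime)]
          intro t ht
          have e : ((1 : ℤ) * (n : ℕ) + (t : ℤ)).natAbs = n + t := by omega
          rw [e]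
          exact h4 t ht
        exact_mod_cast Set.ncard_le_ncard this
          ((Set.finite_Ioc M (M + H)).subset fun n hn => ⟨hn.1, hn.2.1⟩)
      refine h11.trans (h10.trans ?_)
      have h12 := hV (shifts T₀.card T hT.2.2) (shifts_mem hT.2.1 _) (shifts_inj _) (adm_shifts hT.2.1 _) P hP
      apply mul_le_mul_of_nonneg_left _ hC.le
      exact mul_le_mul_of_nonneg_left h12 hX
    calc ∑ T ∈ F, (Set.ncard {n : ℕ | M < n ∧ n ≤ M + H ∧ R n ∧ ∀ t ∈ T, (n + t).Prime} : ℝ)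
        ≤ ∑ T ∈ F, C * (X * (C1 / Real.log P ^ T₀.card)) := sum_le_sum e2
      _ = F.card * (C * (X * (C1 / Real.log P ^ T₀.card))) := by rw [sum_const, nsmul_eq_mul]
      _ ≤ 2 ^ y * (C * (X * (C1 / Real.log P ^ T₀.card))) := by
          apply mul_le_mul_of_nonneg_right _ (by positivity)
          have h13 : F.card ≤ 2 ^ y := by
            rw [hF]
            refine (card_filter_le _ _).trans ?_
            rw [card_powerset, Nat.card_Ioc, Nat.sub_zero]
          exact_mod_cast h13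
      _ = C * (2 ^ y * C1) * X / Real.log P ^ T₀.card := by ring

lemma Residues.all {ι : Type} {ε : ℝ} {P : ℕ} [Fact P.Prime] {Q : ι → ℕ → ℕ → (ℕ → Prop) → ℝ → Prop}
    (h : ∀ i, Residues ε P (Q i)) : Residues ε P (fun M H R X => ∀ i, Q i M H R X) :=
  ⟨fun A Γ hΓ hA M H hH hAH i => (h i).1 A Γ hΓ hA M H hH hAH, fun S b M H hH hS i => (h i).2.1 S b M H hH hS,
    fun M H hH hP i => (h i).2.2.1 M H hH hP, fun u hu M H L K hH hK hHK i => (h i).2.2.2 u hu M H L K hH hK hHK⟩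

lemma Logarithms.all {ι : Type} {ε : ℝ} {P : ℕ} [Fact P.Prime] {g : ZMod P}
    {Q : ι → ℕ → ℕ → (ℕ → Prop) → ℝ → Prop} (h : ∀ i, Logarithms ε P g (Q i)) :
    Logarithms ε P g (fun M H R X => ∀ i, Q i M H R X) :=
  ⟨fun M H L K hH hK hHK i => (h i).1 M H L K hH hK hHK, fun S b s hs M H hH hS i => (h i).2.1 S b s hs M H hH hS,
    fun s hs M H hH hP i => (h i).2.2 s hs M H hH hP⟩

lemma eventually_rpow (y : ℕ) {δ : ℝ} (hδ : 0 < δ) : ∃ P₀ : ℕ, ∀ P : ℕ, P₀ ≤ P → (y : ℝ) ≤ (P : ℝ) ^ δ := by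
  have h := (tendsto_rpow_atTop hδ).eventually_ge_atTop (y : ℝ)
  obtain ⟨X₀, hX₀⟩ := Filter.eventually_atTop.1 h
  exact ⟨⌈X₀⌉₊, fun P hP => hX₀ _ ((Nat.le_ceil _).trans (by exact_mod_cast hP))⟩

theorem winResidues (y : ℕ) (hy : 1 ≤ y) (T₀ : Finset ℕ) (hT₀ : Ext y T₀) (ε : ℝ) (hε : 0 < ε) (B : ℕ) (hB : 1 ≤ B) :
    ∃ (r : ℕ) (δ c C : ℝ) (P₀ : ℕ), 0 < δ ∧ 0 < c ∧ 0 < C ∧ ∀ P : ℕ, P₀ ≤ P → ∀ [Fact P.Prime],
    (y : ℝ) ≤ (P : ℝ) ^ δ ∧ Residues ε P (Windows y T₀.card P r δ c C B) := by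
  obtain ⟨r, δ, c, C, P₀, hδ, hc, hC, h⟩ := residues T₀.card (ext_pos hy hT₀) ε hε B
  obtain ⟨P₁, hP₁⟩ := eventually_rpow y hδ
  obtain ⟨D, hD, hw⟩ := windows y hy T₀ hT₀
  refine ⟨r, δ, c, C * D, max (max P₀ P₁) (max 3 y), hδ, hc, by positivity, ?_⟩
  intro P hP _
  have h1 : P₀ ≤ P := ((le_max_left _ _).trans (le_max_left _ _)).trans hP
  have h2 : P₁ ≤ P := ((le_max_right _ _).trans (le_max_left _ _)).trans hP
  have h3 : 3 ≤ P := ((le_max_left _ _).trans (le_max_right _ _)).trans hP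
  have h4 : y ≤ P := ((le_max_right _ _).trans (le_max_right _ _)).trans hP
  refine ⟨hP₁ P h2, ?_⟩
  exact (Residues.all (ι := {T : Finset ℕ // Ext y T ∧ T.card = T₀.card}) fun T =>
    h P h1 (fun _ => 1) (shifts T₀.card T.1 T.2.2) (fun _ => one_ne_zero) (adm_shifts T.2.1 _)).mono
    fun M H R X hX hQ => hw B P r δ c C hB hδ hc hC h3 h4 (hP₁ P h2) M H R X hX hQ

theorem winLogarithms (y : ℕ) (hy : 1 ≤ y) (T₀ : Finset ℕ) (hT₀ : Ext y T₀) (ε : ℝ) (hε : 0 < ε) (B : ℕ)
    (hB : 1 ≤ B) :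
    ∃ (r : ℕ) (δ c C : ℝ) (P₀ : ℕ), 0 < δ ∧ 0 < c ∧ 0 < C ∧ ∀ P : ℕ, P₀ ≤ P → ∀ [Fact P.Prime],
    (y : ℝ) ≤ (P : ℝ) ^ δ ∧ ∀ g : ZMod P, orderOf g = P - 1 → Logarithms ε P g (Windows y T₀.card P r δ c C B) := by
  obtain ⟨r, δ, c, C, P₀, hδ, hc, hC, h⟩ := logarithms T₀.card (ext_pos hy hT₀) ε hε B
  obtain ⟨P₁, hP₁⟩ := eventually_rpow y hδ
  obtain ⟨D, hD, hw⟩ := windows y hy T₀ hT₀
  refine ⟨r, δ, c, C * D, max (max P₀ P₁) (max 3 y), hδ, hc, by positivity, ?_⟩
  intro P hP _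
  have h1 : P₀ ≤ P := ((le_max_left _ _).trans (le_max_left _ _)).trans hP
  have h2 : P₁ ≤ P := ((le_max_right _ _).trans (le_max_left _ _)).trans hP
  have h3 : 3 ≤ P := ((le_max_left _ _).trans (le_max_right _ _)).trans hP
  have h4 : y ≤ P := ((le_max_right _ _).trans (le_max_right _ _)).trans hP
  refine ⟨hP₁ P h2, fun g hg => ?_⟩
  exact (Logarithms.all (ι := {T : Finset ℕ // Ext y T ∧ T.card = T₀.card}) fun T =>
    h P h1 (fun _ => 1) (shifts T₀.card T.1 T.2.2) (fun _ => one_ne_zero) (adm_shifts T.2.1 _) g hg).mono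
    fun M H R X hX hQ => hw B P r δ c C hB hδ hc hC h3 h4 (hP₁ P h2) M H R X hX hQ

theorem winDigital {G : Type} [AddCommGroup G] [Fintype G] (b : ℕ) (hb : 2 ≤ b) (S : ℕ → G) (hS : Digital b S)
    (y : ℕ) (hy : 1 ≤ y) (T₀ : Finset ℕ) (hT₀ : Ext y T₀) (B : ℕ) (hB : 1 ≤ B) :
    ∃ (r : ℕ) (δ c C : ℝ) (H₀ : ℕ), 0 < δ ∧ 0 < c ∧ 0 < C ∧ ∀ H : ℕ, H₀ ≤ H →
    (y : ℝ) ≤ (H : ℝ) ^ δ ∧ ∀ (M : ℕ) (g : G),
    Windows y T₀.card H r δ c C B M H (fun n => S n = g) (H / Fintype.card G) := by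
  obtain ⟨r, δ, c, C, P₀, hδ, hc, hC, h⟩ := digital b hb S hS T₀.card (ext_pos hy hT₀) B
  obtain ⟨P₁, hP₁⟩ := eventually_rpow y hδ
  obtain ⟨D, hD, hw⟩ := windows y hy T₀ hT₀
  refine ⟨r, δ, c, C * D, max (max P₀ P₁) (max 3 y), hδ, hc, by positivity, ?_⟩
  intro H hP
  have h1 : P₀ ≤ H := ((le_max_left _ _).trans (le_max_left _ _)).trans hP
  have h2 : P₁ ≤ H := ((le_max_right _ _).trans (le_max_left _ _)).trans hP
  have h3 : 3 ≤ H := ((le_max_left _ _).trans (le_max_right _ _)).trans hP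
  have h4 : y ≤ H := ((le_max_right _ _).trans (le_max_right _ _)).trans hP
  refine ⟨hP₁ H h2, fun M g => ?_⟩
  exact hw B H r δ c C hB hδ hc hC h3 h4 (hP₁ H h2) M H _ _ (by positivity) fun T =>
    h H h1 (fun _ => 1) (shifts T₀.card T.1 T.2.2) (fun _ => one_ne_zero) (adm_shifts T.2.1 _) M g

end Pool.Agent.X55.Forms
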